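import Pool.Agent.N120.TH.Stm

/-! # Project TH, ALG: assembly of the algebraic part (helper402) -/

set_option autoImplicit false

namespace Pool.Agent.N120.TH

open Finset Polynomial NumberField

namespace ALG_

/-- the structure map of the algebraic closure is injective -/
theorem cm_inj (k : Type) [Field k] (n : ℕ) : Function.Injective (cm k n (Om k n)) := by
  unfold cm
  rw [RingHom.coe_comp]
  exact (algebraMap (En k n) (Om k n)).injective.comp (IsFractionRing.injective (Pn k n) (En k n))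

/-- good polynomials -/
theorem good (h4 : S_IRM) (k : Type) [Field k] [IsAlgClosed k] [CharZero k] (n : ℕ) (M : Type)
    [Field M] [Algebra (En k n) M] [FiniteDimensional (En k n) M] (a : Fin n → ℕ)
    (ha : ∀ i, 1 ≤ a i) (hd : GoodDir k n M a) (Φ : (Pn k n)[X]) (h1 : Φ.Monic)
    (h2 : 1 ≤ Φ.natDegree) (h3 : Irreducible (Φ.map (algebraMap (Pn k n) (En k n))))
    (hs : (Φ.map (cm k n M)).Splits) : Good Φ :=
  ⟨h1, h2, a, Om k n, inferInstance, inferInstance, cm k n (Om k n), ha, cm_inj k n,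
    fun m hm => h4 k n M a hd Φ h1 h3 hs m hm⟩

/-- a factor of a split polynomial splits -/
theorem fac_splits (k : Type) [Field k] (n : ℕ) (M : Type) [Field M] [Algebra (En k n) M]
    (G φ : (Pn k n)[X]) (hG : G.Monic) (hs : (G.map (cm k n M)).Splits) (hd : φ ∣ G) :
    (φ.map (cm k n M)).Splits :=
  hs.of_dvd (hG.map _).ne_zero (Polynomial.map_dvd _ hd)

/-- a linear monic factor has a root -/
theorem lin {R : Type} [CommRing R] (φ : R[X]) (h1 : φ.Monic) (h2 : φ.natDegree = 1) :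
    φ.eval (-φ.coeff 0) = 0 := by
  have h := h1.eq_X_add_C h2
  rw [h]
  simp

end ALG_

theorem t_ALG (h1 : S_FAC) (h2 : S_DIR) (h3 : S_FCT) (h4 : S_IRM) (h5 : S_TWO) (h6 : S_DESC) :
    S_ALG := by
  intro K _ _ n f hf hns
  have hF : (bar f).Monic := hf.map _
  obtain ⟨k0, M, iM1, iM2, iM3, iM4, hk0, hPB, hsp⟩ := h1 (AlgebraicClosure K) n (bar f) hF
  obtain ⟨a, ha, hdir⟩ := h2 (AlgebraicClosure K) n M hPB
  obtain ⟨G, hG⟩ : ∃ G : (Pn (AlgebraicClosure K) n)[X], G = (bar f).map (MvPolynomial.expand k0 :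
    Pn (AlgebraicClosure K) n →ₐ[AlgebraicClosure K] Pn (AlgebraicClosure K) n).toRingHom :=
    ⟨_, rfl⟩
  have hGm : G.Monic := by rw [hG]; exact hF.map _
  rw [← hG] at hsp
  obtain ⟨r, φ, hφ, hprod⟩ := h3 (AlgebraicClosure K) n G hGm
  have hdvd : ∀ j, φ j ∣ G := fun j => by
    rw [hprod]
    exact Finset.dvd_prod_of_mem φ (Finset.mem_univ j)
  have hsplit : ∀ j, ((φ j).map (cm (AlgebraicClosure K) n M)).Splits := fun j =>
    ALG_.fac_splits (AlgebraicClosure K) n M G (φ j) hGm hsp (hdvd j)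
  have hdeg1 : ∀ j, 1 ≤ (φ j).natDegree := fun j => by
    have := (hφ j).2.natDegree_pos
    rwa [(hφ j).1.natDegree_map] at this
  have hdeg2 : ∀ j, 2 ≤ (φ j).natDegree := fun j => by
    by_contra hcon
    have hd1 : (φ j).natDegree = 1 := by
      have := hdeg1 j
      omega
    have hr := ALG_.lin (φ j) (hφ j).1 hd1
    apply hns k0 hk0 (-(φ j).coeff 0)
    rw [← hG]
    exact Polynomial.eval_eq_zero_of_dvd_of_eval_eq_zero (hdvd j) hr
  have htwo : ∀ j, ∃ (Φ : (Pn (AlgebraicClosure K) n)[X]) (E : Pn (AlgebraicClosure K) n),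
      Φ.Monic ∧ 1 ≤ Φ.natDegree ∧
      Irreducible (Φ.map (algebraMap (Pn (AlgebraicClosure K) n) (En (AlgebraicClosure K) n))) ∧
      (Φ.map (cm (AlgebraicClosure K) n M)).Splits ∧ E ≠ 0 ∧ TwoRoots (φ j) Φ E := fun j =>
    h5 (AlgebraicClosure K) n M (φ j) (hφ j).1 (hφ j).2 (hdeg2 j) (hsplit j)
  choose Φ E hΦ using htwo
  refine ⟨k0, hk0, fun c hc => ?_⟩
  refine h6 K n f k0 hk0 r φ Φ E (fun j => ?_) (by rw [← hG, hprod]) c hc
  obtain ⟨q1, q2, q3, q4, q5, q6⟩ := hΦ j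
  exact ⟨ALG_.good h4 (AlgebraicClosure K) n M a ha hdir (φ j) (hφ j).1 (hdeg1 j) (hφ j).2
      (hsplit j),
    ALG_.good h4 (AlgebraicClosure K) n M a ha hdir (Φ j) q1 q2 q3 q4, q5, q6⟩

end Pool.Agent.N120.TH
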