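import Pool.Agent.N120.TH.Stm

/-!
# TH/CNT: mean numbers of roots over the classes `c * s ^ M` of the torus mod `p` (helper519)
-/

set_option autoImplicit false

namespace Pool.Agent.N120.TH

open Finset Polynomial

namespace CNT_

theorem nrt_le {n : ℕ} {R : Type} [CommRing R] {p : ℕ} [Fact p.Prime] (ψ : R →+* ZMod p)
    (Φ : Polynomial (MvPolynomial (Fin n) R)) (hΦ : Φ.Monic) (x : Fin n → ZMod p) :
    nrt ψ Φ x ≤ Φ.natDegree := by
  classical
  unfold nrt
  have h1 : (Φ.map (MvPolynomial.eval₂Hom ψ x)).Monic := hΦ.map _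
  have h2 : (Φ.map (MvPolynomial.eval₂Hom ψ x)).natDegree ≤ Φ.natDegree := natDegree_map_le
  refine le_trans ?_ h2
  refine le_trans ?_ (Polynomial.card_roots' _)
  refine le_trans ?_ (Multiset.toFinset_card_le _)
  apply Finset.card_le_card
  intro y hy
  rw [Finset.mem_filter] at hy
  rw [Multiset.mem_toFinset, Polynomial.mem_roots h1.ne_zero]
  exact hy.2

theorem nrt_map {n : ℕ} {R S : Type} [CommRing R] [CommRing S] {p : ℕ} [Fact p.Prime]
    (g : R →+* S) (ψ : S →+* ZMod p) (Φ : Polynomial (MvPolynomial (Fin n) R))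
    (x : Fin n → ZMod p) :
    nrt ψ (Φ.map (MvPolynomial.map g)) x = nrt (ψ.comp g) Φ x := by
  unfold nrt
  rw [Polynomial.map_map]
  have : (MvPolynomial.eval₂Hom ψ x).comp (MvPolynomial.map g) =
      MvPolynomial.eval₂Hom (ψ.comp g) x := by
    apply MvPolynomial.ringHom_ext
    · intro r; simp
    · intro i; simp
  rw [this]

theorem twist_comp {n : ℕ} {R S Ω : Type} [CommRing R] [CommRing S] [CommRing Ω]
    (a : Fin n → ℕ) (f : R →+* S) (ι : MvPolynomial (Fin n) S →+* Ω) (m : ℕ)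
    (Φ : Polynomial (MvPolynomial (Fin n) R)) :
    (pull m (twist a Φ)).map (mapRingHom (ι.comp (MvPolynomial.map f))) =
      (pull m (twist a (Φ.map (MvPolynomial.map f)))).map (mapRingHom ι) := by
  unfold pull twist
  simp only [Polynomial.map_map]
  congr 1
  apply MvPolynomial.ringHom_ext
  · intro r; simp [twHom]
  · intro i; simp [twHom]

theorem ev_twist {n : ℕ} {R : Type} [CommRing R] {p : ℕ} [Fact p.Prime] (ψ : R →+* ZMod p)
    (a : Fin n → ℕ) (Φ : Polynomial (MvPolynomial (Fin n) R)) (b : Fin n → ZMod p)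
    (t y : ZMod p) :
    evalEval t y ((twist a Φ).map (mapRingHom (MvPolynomial.eval₂Hom ψ b))) =
      (Φ.map (MvPolynomial.eval₂Hom ψ (fun i => b i * t ^ a i))).eval y := by
  rw [← Polynomial.map_evalRingHom_eval]
  unfold twist
  rw [Polynomial.map_map, Polynomial.map_map]
  congr 2
  apply MvPolynomial.ringHom_ext
  · intro r; simp [twHom]
  · intro i; simp [twHom]

open Classical in
theorem card_eq {n : ℕ} {R : Type} [CommRing R] {p : ℕ} [Fact p.Prime] (ψ : R →+* ZMod p)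
    (a : Fin n → ℕ) (Φ : Polynomial (MvPolynomial (Fin n) R)) (b : Fin n → ZMod p) (M : ℕ) :
    ((univ.filter (fun z : ZMod p × ZMod p =>
        evalEval (z.1 ^ M) z.2 ((twist a Φ).map (mapRingHom (MvPolynomial.eval₂Hom ψ b))) =
          0)).card : ℝ) = ∑ t : ZMod p, (nrt ψ Φ (fun i => b i * (t ^ M) ^ a i) : ℝ) := by
  rw [Finset.card_filter, Fintype.sum_prod_type]
  push_cast
  refine Finset.sum_congr rfl fun t _ => ?_
  unfold nrt
  rw [Finset.card_filter]
  push_cast
  refine Finset.sum_congr rfl fun y _ => ?_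
  rw [ev_twist]

theorem sum_units {p : ℕ} [Fact p.Prime] (f : ZMod p → ℝ) :
    ∑ t : ZMod p, f t = f 0 + ∑ t : (ZMod p)ˣ, f t := by
  classical
  rw [← Finset.add_sum_erase univ f (Finset.mem_univ (0 : ZMod p))]
  congr 1
  symm
  refine Finset.sum_nbij (fun u : (ZMod p)ˣ => (u : ZMod p)) ?_ ?_ ?_ ?_
  · intro u _
    simp
  · intro u _ v _ h
    exact Units.ext h
  · intro t ht
    have h0 : t ≠ 0 := by
      have := Finset.mem_coe.1 ht
      exact (Finset.mem_erase.1 this).1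
    exact ⟨Units.mk0 t h0, by simp, rfl⟩
  · intro u _
    rfl

theorem coeff_scale {n : ℕ} {F : Type} [Field F] (c : Fin n → F) (q : MvPolynomial (Fin n) F)
    (m : Fin n →₀ ℕ) :
    MvPolynomial.coeff m (MvPolynomial.aeval
      (fun i => MvPolynomial.C (c i) * MvPolynomial.X i : Fin n → MvPolynomial (Fin n) F) q) =
      (∏ i, c i ^ m i) * MvPolynomial.coeff m q := by
  classical
  induction q using MvPolynomial.induction_on' with
  | monomial d r =>
    rw [MvPolynomial.aeval_monomial, Finsupp.prod_fintype _ _ (by simp)]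
    have h1 : (algebraMap F (MvPolynomial (Fin n) F) r) *
        ∏ i, (MvPolynomial.C (c i) * MvPolynomial.X i : MvPolynomial (Fin n) F) ^ d i =
        MvPolynomial.monomial d (r * ∏ i, c i ^ d i) := by
      rw [MvPolynomial.monomial_eq, Finsupp.prod_fintype _ _ (by simp),
        MvPolynomial.algebraMap_eq]
      simp only [mul_pow, Finset.prod_mul_distrib, map_mul, map_prod, map_pow]
      ring
    rw [h1, MvPolynomial.coeff_monomial, MvPolynomial.coeff_monomial]
    split_ifs with h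
    · subst h
      ring
    · ring
  | add p q hp hq =>
    rw [map_add, MvPolynomial.coeff_add, MvPolynomial.coeff_add, hp, hq]
    ring

/-- the polynomial `q(c x ^ M)` -/
theorem subst_poly {n : ℕ} {F : Type} [Field F] (c : Fin n → F) (hc : ∀ i, c i ≠ 0)
    (q : MvPolynomial (Fin n) F) (hq : q ≠ 0) (M : ℕ) (hM : 1 ≤ M) :
    ∃ G : MvPolynomial (Fin n) F, G ≠ 0 ∧ G.totalDegree ≤ q.totalDegree * M ∧
      ∀ x : Fin n → F, MvPolynomial.eval x G = MvPolynomial.eval (fun i => c i * x i ^ M) q := by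
  classical
  set q' := MvPolynomial.aeval
      (fun i => MvPolynomial.C (c i) * MvPolynomial.X i : Fin n → MvPolynomial (Fin n) F) q
    with hq'
  have hco := coeff_scale c q
  have hne : q' ≠ 0 := by
    obtain ⟨m, hm⟩ := MvPolynomial.ne_zero_iff.1 hq
    rw [MvPolynomial.ne_zero_iff]
    refine ⟨m, ?_⟩
    rw [hq', hco]
    exact mul_ne_zero (Finset.prod_ne_zero_iff.2 fun i _ => pow_ne_zero _ (hc i)) hm
  have hdeg : q'.totalDegree ≤ q.totalDegree := by
    apply MvPolynomial.totalDegree_le_of_support_subset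
    intro m hm
    rw [MvPolynomial.mem_support_iff] at hm ⊢
    rw [hq', hco] at hm
    exact right_ne_zero_of_mul hm
  refine ⟨MvPolynomial.expand M q', ?_, ?_, ?_⟩
  · rwa [MvPolynomial.expand_ne_zero (by omega)]
  · rw [MvPolynomial.totalDegree_expand]
    exact Nat.mul_le_mul_right _ hdeg
  · intro x
    rw [MvPolynomial.eval_expand, hq', ← MvPolynomial.coe_aeval_eq_eval]
    change (MvPolynomial.aeval (fun i => x i ^ M)) (MvPolynomial.aeval _ q) = _
    rw [← AlgHom.comp_apply, MvPolynomial.comp_aeval]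
    simp [MvPolynomial.aeval_eq_eval]

open Classical in
theorem bad_card {n p : ℕ} [Fact p.Prime] (q : MvPolynomial (Fin n) (ZMod p)) (hq : q ≠ 0)
    (M : ℕ) (hM : 1 ≤ M) (c : Fin n → (ZMod p)ˣ) :
    (univ.filter (fun u : Fin n → (ZMod p)ˣ => MvPolynomial.eval
        (fun i => ((c i * u i ^ M : (ZMod p)ˣ) : ZMod p)) q = 0)).card * (p - 1) ≤
      q.totalDegree * M * (p - 1) ^ n := by
  obtain ⟨G, hG, hd, he⟩ := subst_poly (fun i => (c i : ZMod p)) (fun i => (c i).ne_zero) q hq M hM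
  set S : Finset (ZMod p) := univ.erase 0 with hS
  have hSc : S.card = p - 1 := by
    rw [hS, Finset.card_erase_of_mem (Finset.mem_univ _), Finset.card_univ, ZMod.card]
  have hp1 : 0 < p - 1 := by
    have := (Fact.out : p.Prime).two_le
    omega
  have h1 := MvPolynomial.schwartz_zippel_totalDegree hG S
  have h2 : (univ.filter (fun u : Fin n → (ZMod p)ˣ => MvPolynomial.eval
        (fun i => ((c i * u i ^ M : (ZMod p)ˣ) : ZMod p)) q = 0)).card ≤
      ((Fintype.piFinset fun _ : Fin n => S).filter (fun f => MvPolynomial.eval f G = 0)).card := by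
    refine Finset.card_le_card_of_injOn (fun u i => ((u i : (ZMod p)ˣ) : ZMod p)) ?_ ?_
    · intro u hu
      have hu' := (Finset.mem_filter.1 (Finset.mem_coe.1 hu)).2
      rw [Finset.mem_coe, Finset.mem_filter]
      refine ⟨?_, ?_⟩
      · rw [Fintype.mem_piFinset]
        intro i
        rw [hS]
        simp
      · rw [he]
        simpa using hu'
    · intro u _ v _ h
      funext i
      exact Units.ext (congrFun h i)
  have h3 : ((Fintype.piFinset fun _ : Fin n => S).filter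
      (fun f => MvPolynomial.eval f G = 0)).card * (p - 1) ≤ G.totalDegree * (p - 1) ^ n := by
    rw [hSc] at h1
    rw [div_le_div_iff₀ (by positivity) (by exact_mod_cast hp1)] at h1
    exact_mod_cast h1
  calc _ ≤ ((Fintype.piFinset fun _ : Fin n => S).filter
      (fun f => MvPolynomial.eval f G = 0)).card * (p - 1) := Nat.mul_le_mul_right _ h2
    _ ≤ G.totalDegree * (p - 1) ^ n := h3
    _ ≤ q.totalDegree * M * (p - 1) ^ n := Nat.mul_le_mul_right _ hd

/-- the analytic part -/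
theorem main {n p : ℕ} [Fact p.Prime] (N : (Fin n → ZMod p) → ℝ) (q : MvPolynomial (Fin n) (ZMod p))
    (hq : q ≠ 0) (δ : ℕ) (hδ : q.totalDegree ≤ δ) (a : Fin n → ℕ) (C0 D : ℝ) (hC0 : 0 ≤ C0)
    (hD : 0 ≤ D) (hN0 : ∀ x, 0 ≤ N x) (hND : ∀ x, N x ≤ D) (M : ℕ) (hM : 1 ≤ M)
    (hW : ∀ b : Fin n → ZMod p, MvPolynomial.eval b q ≠ 0 →
      |∑ t : ZMod p, N (fun i => b i * (t ^ M) ^ a i) - p| ≤ C0 * M * Real.sqrt p)
    (c : Fin n → (ZMod p)ˣ) :
    |(∑ u : Fin n → (ZMod p)ˣ, N (fun i => ((c i * u i ^ M : (ZMod p)ˣ) : ZMod p))) -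
        ((p : ℝ) - 1) ^ n| * Real.sqrt p ≤
      (2 * C0 + 2 * (D + 1) * (1 + δ)) * M * ((p : ℝ) - 1) ^ n := by
  classical
  have hp2 : (2 : ℝ) ≤ p := by exact_mod_cast (Fact.out : p.Prime).two_le
  have hp2n : 2 ≤ p := (Fact.out : p.Prime).two_le
  have hpp : (0 : ℝ) < (p : ℝ) - 1 := by linarith
  have hMr : (1 : ℝ) ≤ M := by exact_mod_cast hM
  have hsq0 : 0 ≤ Real.sqrt p := Real.sqrt_nonneg _
  have hsq : Real.sqrt p * Real.sqrt p = p := Real.mul_self_sqrt (by linarith)
  have hsq1 : 1 ≤ Real.sqrt p := by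
    rw [Real.one_le_sqrt]; linarith
  have hcardU : (Fintype.card (ZMod p)ˣ : ℝ) = (p : ℝ) - 1 := by
    rw [ZMod.card_units p, Nat.cast_sub (by omega)]
    norm_num
  have hcardP : (Fintype.card (Fin n → (ZMod p)ˣ) : ℝ) = ((p : ℝ) - 1) ^ n := by
    rw [Fintype.card_fun, Nat.cast_pow, hcardU, Fintype.card_fin]
  set F : (Fin n → (ZMod p)ˣ) → ℝ := fun u =>
    N (fun i => ((c i * u i ^ M : (ZMod p)ˣ) : ZMod p)) with hF
  set T := ∑ u, F u with hT
  -- averaging
  have hav : ((p : ℝ) - 1) * T = ∑ u : Fin n → (ZMod p)ˣ, ∑ t : (ZMod p)ˣ,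
      F (u * fun i => t ^ a i) := by
    rw [Finset.sum_comm]
    have h1 : ∀ t : (ZMod p)ˣ, ∑ u : Fin n → (ZMod p)ˣ, F (u * fun i => t ^ a i) = T := by
      intro t
      exact Equiv.sum_comp (Equiv.mulRight (fun i => t ^ a i)) F
    rw [Finset.sum_congr rfl fun t _ => h1 t, Finset.sum_const, Finset.card_univ, nsmul_eq_mul,
      hcardU]
  have hFt : ∀ (u : Fin n → (ZMod p)ˣ) (t : (ZMod p)ˣ), F (u * fun i => t ^ a i) =
      N (fun i => ((c i * u i ^ M : (ZMod p)ˣ) : ZMod p) * ((t : ZMod p) ^ M) ^ a i) := by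
    intro u t
    simp only [hF]
    congr 1
    funext i
    push_cast [Pi.mul_apply]
    ring
  set B : Finset (Fin n → (ZMod p)ˣ) := univ.filter (fun u => MvPolynomial.eval
        (fun i => ((c i * u i ^ M : (ZMod p)ˣ) : ZMod p)) q = 0) with hB
  have hBc : (B.card : ℝ) * ((p : ℝ) - 1) ≤ δ * M * ((p : ℝ) - 1) ^ n := by
    have h1 := bad_card q hq M hM c
    have h2 : (B.card : ℝ) * ((p - 1 : ℕ) : ℝ) ≤ (q.totalDegree : ℝ) * M * ((p - 1 : ℕ) : ℝ) ^ n := by
      exact_mod_cast h1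
    rw [Nat.cast_sub (by omega), Nat.cast_one] at h2
    refine h2.trans ?_
    have h3 : (q.totalDegree : ℝ) ≤ δ := by exact_mod_cast hδ
    gcongr
  set E1 := C0 * M * Real.sqrt p + (D + 1) with hE1
  have hE10 : 0 ≤ E1 := by positivity
  have hpt : ∀ u : Fin n → (ZMod p)ˣ, |∑ t : (ZMod p)ˣ, F (u * fun i => t ^ a i) - ((p : ℝ) - 1)| ≤
      E1 + if u ∈ B then (D + 1) * ((p : ℝ) - 1) else 0 := by
    intro u
    split_ifs with hu
    · have h1 : 0 ≤ ∑ t : (ZMod p)ˣ, F (u * fun i => t ^ a i) :=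
        Finset.sum_nonneg fun t _ => hN0 _
      have h2 : ∑ t : (ZMod p)ˣ, F (u * fun i => t ^ a i) ≤ D * ((p : ℝ) - 1) := by
        calc ∑ t : (ZMod p)ˣ, F (u * fun i => t ^ a i) ≤ ∑ t : (ZMod p)ˣ, D :=
              Finset.sum_le_sum fun t _ => hND _
          _ = D * ((p : ℝ) - 1) := by
            rw [Finset.sum_const, Finset.card_univ, nsmul_eq_mul, hcardU]; ring
      rw [abs_le]
      constructor
      · nlinarith
      · nlinarith
    · have hu' : MvPolynomial.eval (fun i => ((c i * u i ^ M : (ZMod p)ˣ) : ZMod p)) q ≠ 0 := by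
        intro h
        exact hu (by rw [hB, Finset.mem_filter]; exact ⟨Finset.mem_univ _, h⟩)
      have h1 := hW _ hu'
      rw [sum_units] at h1
      have h2 : ∑ t : (ZMod p)ˣ, F (u * fun i => t ^ a i) = ∑ t : (ZMod p)ˣ,
          N (fun i => ((c i * u i ^ M : (ZMod p)ˣ) : ZMod p) * ((t : ZMod p) ^ M) ^ a i) :=
        Finset.sum_congr rfl fun t _ => hFt u t
      rw [h2]
      have h3 := hN0 (fun i => ((c i * u i ^ M : (ZMod p)ˣ) : ZMod p) * ((0 : ZMod p) ^ M) ^ a i)
      have h4 := hND (fun i => ((c i * u i ^ M : (ZMod p)ˣ) : ZMod p) * ((0 : ZMod p) ^ M) ^ a i)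
      rw [abs_le] at h1 ⊢
      rw [hE1]
      constructor
      · linarith [h1.1]
      · linarith [h1.2]
  have hmain : ((p : ℝ) - 1) * |T - ((p : ℝ) - 1) ^ n| ≤
      ((p : ℝ) - 1) ^ n * E1 + B.card * ((D + 1) * ((p : ℝ) - 1)) := by
    calc ((p : ℝ) - 1) * |T - ((p : ℝ) - 1) ^ n|
        = |((p : ℝ) - 1) * (T - ((p : ℝ) - 1) ^ n)| := by
          rw [abs_mul, abs_of_pos hpp]
      _ = |∑ u : Fin n → (ZMod p)ˣ, (∑ t : (ZMod p)ˣ, F (u * fun i => t ^ a i) - ((p : ℝ) - 1))| := by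
          rw [Finset.sum_sub_distrib, ← hav, Finset.sum_const, Finset.card_univ, nsmul_eq_mul,
            hcardP]
          congr 1
          ring
      _ ≤ ∑ u : Fin n → (ZMod p)ˣ,
          |∑ t : (ZMod p)ˣ, F (u * fun i => t ^ a i) - ((p : ℝ) - 1)| :=
          Finset.abs_sum_le_sum_abs _ _
      _ ≤ ∑ u : Fin n → (ZMod p)ˣ, (E1 + if u ∈ B then (D + 1) * ((p : ℝ) - 1) else 0) :=
          Finset.sum_le_sum fun u _ => hpt u
      _ = ((p : ℝ) - 1) ^ n * E1 + B.card * ((D + 1) * ((p : ℝ) - 1)) := by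
          rw [Finset.sum_add_distrib, Finset.sum_const, Finset.card_univ, nsmul_eq_mul, hcardP,
            Finset.sum_ite_mem, Finset.univ_inter, Finset.sum_const, nsmul_eq_mul]
  -- conclusion
  set P := ((p : ℝ) - 1) ^ n with hP
  have hP0 : 0 ≤ P := by positivity
  have h5 : ((p : ℝ) - 1) * |T - P| ≤ P * (E1 + (D + 1) * (δ * M)) := by
    have h6 : (B.card : ℝ) * ((D + 1) * ((p : ℝ) - 1)) ≤ (D + 1) * (δ * M * P) := by
      calc (B.card : ℝ) * ((D + 1) * ((p : ℝ) - 1)) = (D + 1) * (B.card * ((p : ℝ) - 1)) := by ring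
        _ ≤ (D + 1) * (δ * M * P) := by gcongr
    calc _ ≤ P * E1 + B.card * ((D + 1) * ((p : ℝ) - 1)) := hmain
      _ ≤ P * E1 + (D + 1) * (δ * M * P) := by linarith
      _ = P * (E1 + (D + 1) * (δ * M)) := by ring
  have hsqle : Real.sqrt p ≤ p := by
    calc Real.sqrt p = 1 * Real.sqrt p := by ring
      _ ≤ Real.sqrt p * Real.sqrt p := by gcongr
      _ = p := hsq
  have h7 : (E1 + (D + 1) * (δ * M)) * Real.sqrt p ≤
      (2 * C0 + 2 * (D + 1) * (1 + δ)) * M * ((p : ℝ) - 1) := by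
    have h8 : (p : ℝ) ≤ 2 * ((p : ℝ) - 1) := by linarith
    have hδ0 : (0 : ℝ) ≤ δ := Nat.cast_nonneg _
    calc (E1 + (D + 1) * (δ * M)) * Real.sqrt p
        = C0 * M * (Real.sqrt p * Real.sqrt p) + (D + 1) * (1 + δ * M) * Real.sqrt p := by
          rw [hE1]; ring
      _ = C0 * M * p + (D + 1) * (1 + δ * M) * Real.sqrt p := by rw [hsq]
      _ ≤ C0 * M * p + (D + 1) * (M + δ * M) * p := by gcongr
      _ = (C0 + (D + 1) * (1 + δ)) * M * p := by ring
      _ ≤ (C0 + (D + 1) * (1 + δ)) * M * (2 * ((p : ℝ) - 1)) := by gcongr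
      _ = _ := by ring
  have h9 : ((p : ℝ) - 1) * (|T - P| * Real.sqrt p) ≤
      ((p : ℝ) - 1) * ((2 * C0 + 2 * (D + 1) * (1 + δ)) * M * P) := by
    calc ((p : ℝ) - 1) * (|T - P| * Real.sqrt p) = (((p : ℝ) - 1) * |T - P|) * Real.sqrt p := by ring
      _ ≤ (P * (E1 + (D + 1) * (δ * M))) * Real.sqrt p := by gcongr
      _ = P * ((E1 + (D + 1) * (δ * M)) * Real.sqrt p) := by ring
      _ ≤ P * ((2 * C0 + 2 * (D + 1) * (1 + δ)) * M * ((p : ℝ) - 1)) := by gcongr
      _ = _ := by ring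
  exact le_of_mul_le_mul_left h9 hpp

/-- the coefficients of the coefficients -/
theorem exists_lift {n : ℕ} {L : Type} [Field L] (Φ : Polynomial (MvPolynomial (Fin n) L)) :
    ∃ S : Finset L, ∀ O : Subring L, (∀ z ∈ S, z ∈ O) →
      ∃ Φ0 : Polynomial (MvPolynomial (Fin n) O), Φ0.map (MvPolynomial.map O.subtype) = Φ := by
  classical
  refine ⟨Φ.support.biUnion (fun k => (Φ.coeff k).support.image
    (fun m => (Φ.coeff k).coeff m)), fun O hO => ?_⟩
  have h : Φ ∈ (mapRingHom (MvPolynomial.map O.subtype :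
      MvPolynomial (Fin n) O →+* MvPolynomial (Fin n) L)).rangeS := by
    rw [Polynomial.mem_map_rangeS]
    intro k
    have h1 : Φ.coeff k ∈ Set.range (MvPolynomial.map O.subtype :
        MvPolynomial (Fin n) O →+* MvPolynomial (Fin n) L) := by
      rw [MvPolynomial.mem_range_map_iff_coeffs_subset]
      intro z hz
      rw [Finset.mem_coe, MvPolynomial.mem_coeffs_iff] at hz
      obtain ⟨m, hm, rfl⟩ := hz
      have hz' : (Φ.coeff k).coeff m ∈ O := by
        apply hO
        rw [Finset.mem_biUnion]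
        refine ⟨k, ?_, Finset.mem_image_of_mem _ hm⟩
        rw [Polynomial.mem_support_iff]
        intro h0
        rw [h0] at hm
        simp at hm
      exact ⟨⟨_, hz'⟩, rfl⟩
    obtain ⟨w, hw⟩ := h1
    exact ⟨w, hw⟩
  obtain ⟨Φ0, h0⟩ := h
  exact ⟨Φ0, h0⟩

end CNT_

open CNT_ in
/-- **CNT** -/
theorem t_CNT (hC : S_CRV) : S_CNT := by
  classical
  intro n L _ _ Φ hgood
  obtain ⟨hmon, hdeg, a, Ω, _, _, ι, -, hι, hirr⟩ := hgood
  obtain ⟨S, hS⟩ := exists_lift Φ
  set O0 : Subring L := Subring.closure (S : Set L) with hO0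
  obtain ⟨Φ0, hΦ0⟩ := hS O0 (fun z hz => Subring.subset_closure hz)
  have hinj0 : Function.Injective (MvPolynomial.map O0.subtype :
      MvPolynomial (Fin n) O0 →+* MvPolynomial (Fin n) L) :=
    MvPolynomial.map_injective _ Subtype.val_injective
  have hmon0 : Φ0.Monic := by
    apply Polynomial.monic_of_injective hinj0
    rw [hΦ0]
    exact hmon
  have hdeg0 : Φ0.natDegree = Φ.natDegree := by
    rw [← hΦ0, hmon0.natDegree_map]
  have hmonΨ : (twist a Φ0).Monic := hmon0.map _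
  have hdegΨ : 1 ≤ (twist a Φ0).natDegree := by
    unfold twist
    rw [hmon0.natDegree_map, hdeg0]
    exact hdeg
  obtain ⟨C0, d, hC0, hd, hcrv⟩ := hC (MvPolynomial (Fin n) O0) (twist a Φ0) hmonΨ hdegΨ Ω
    (ι.comp (MvPolynomial.map O0.subtype)) (hι.comp hinj0) (fun m hm => by
      rw [twist_comp, hΦ0]
      exact hirr m hm)
  obtain ⟨m0, hm0⟩ := MvPolynomial.ne_zero_iff.1 hd
  refine ⟨2 * C0 + 2 * (Φ.natDegree + 1) * (1 + d.totalDegree),
    S ∪ {((d.coeff m0 : O0) : L)⁻¹}, by positivity, ?_⟩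
  intro O hO ΦO hΦO p _ ψ M hMp c
  have hle : O0 ≤ O := by
    rw [hO0, Subring.closure_le]
    intro z hz
    exact hO z (Finset.mem_union_left _ hz)
  have hp2 : 2 ≤ p := (Fact.out : p.Prime).two_le
  have hM1 : 1 ≤ M := Nat.pos_of_dvd_of_pos hMp (by omega)
  have hMle : M ≤ p - 1 := Nat.le_of_dvd (by omega) hMp
  have hpM : ¬ p ∣ M := fun h => by
    have := Nat.le_of_dvd (by omega) h
    omega
  have hΦeq : ΦO = Φ0.map (MvPolynomial.map (Subring.inclusion hle)) := by
    have hinj : Function.Injective (Polynomial.map (MvPolynomial.map O.subtype :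
        MvPolynomial (Fin n) O →+* MvPolynomial (Fin n) L)) :=
      Polynomial.map_injective _ (MvPolynomial.map_injective _ Subtype.val_injective)
    apply hinj
    rw [hΦO, ← hΦ0, Polynomial.map_map]
    congr 1
    apply MvPolynomial.ringHom_ext
    · intro r; simp
    · intro i; simp
  set ψ0 : O0 →+* ZMod p := ψ.comp (Subring.inclusion hle) with hψ0
  have hnrt : ∀ x, nrt ψ ΦO x = nrt ψ0 Φ0 x := fun x => by
    rw [hΦeq, nrt_map]
  have hψe : ψ0 (d.coeff m0) ≠ 0 := by
    have he : ((d.coeff m0 : O0) : L) ≠ 0 := fun h => hm0 (Subtype.ext h)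
    have hin : ((d.coeff m0 : O0) : L)⁻¹ ∈ O := hO _ (by simp)
    have hmul : (Subring.inclusion hle (d.coeff m0)) * (⟨_, hin⟩ : O) = 1 := by
      apply Subtype.ext
      exact mul_inv_cancel₀ he
    intro h0
    have h1 := congrArg ψ hmul
    rw [map_mul, map_one] at h1
    have h2 : ψ (Subring.inclusion hle (d.coeff m0)) = 0 := h0
    rw [h2, zero_mul] at h1
    exact zero_ne_one h1
  set q := MvPolynomial.map ψ0 d with hq
  have hq0 : q ≠ 0 := by
    rw [MvPolynomial.ne_zero_iff]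
    refine ⟨m0, ?_⟩
    rw [hq, MvPolynomial.coeff_map]
    exact hψe
  have hqd : q.totalDegree ≤ d.totalDegree := by
    refine Finset.sup_mono ?_
    exact MvPolynomial.support_map_subset ψ0 d
  have key := main (fun x => (nrt ψ0 Φ0 x : ℝ)) q hq0 d.totalDegree hqd a C0 Φ.natDegree hC0
    (Nat.cast_nonneg _) (fun x => Nat.cast_nonneg _) (fun x => by
      have := nrt_le ψ0 Φ0 hmon0 x
      rw [hdeg0] at this
      exact_mod_cast this) M hM1 (fun b hb => by
      have h1 : (MvPolynomial.eval₂Hom ψ0 b) d ≠ 0 := by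
        rw [hq, MvPolynomial.eval_map] at hb
        exact hb
      have h2 := hcrv p (MvPolynomial.eval₂Hom ψ0 b) h1 M hM1 hpM
      rw [card_eq] at h2
      exact h2) c
  simp only [hnrt]
  exact key

end Pool.Agent.N120.TH
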