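import Pool.Agent.N120.TH.Stm2

/-!
# CONV: sparse points imply that all sections lie in `V'`

Project TH (helper120), this file by helper424.
-/

set_option autoImplicit false
set_option linter.all false

namespace Pool.Agent.N120.TH

namespace CONV_

open Finset Polynomial

/-- evaluation of a polynomial after a ring homomorphism -/
theorem hom_eval {R S A : Type} [CommRing R] [CommRing S] [CommRing A] (α : R →+* S) (E : S →+* A)
    (p : Polynomial R) (x : S) : E ((p.map α).eval x) = (p.map (E.comp α)).eval (E x) := by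
  rw [← eval₂_hom, ← eval_map, Polynomial.map_map]

/-- the substitution over the algebraic closure and over a subfield -/
theorem up {K F Kb : Type} [Field K] [Field F] [Field Kb] [Algebra K F] [Algebra K Kb]
    [Algebra F Kb] [IsScalarTower K F Kb] {n : ℕ} (m : ℕ) (f : Polynomial (MvPolynomial (Fin n) K))
    (h1 : MvPolynomial (Fin n) F) :
    MvPolynomial.map (algebraMap F Kb) (((ext F f).map (MvPolynomial.expand m :
      Pn F n →ₐ[F] Pn F n).toRingHom).eval h1) =
    ((f.map (MvPolynomial.map (algebraMap K Kb))).map (MvPolynomial.expand m :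
      Pn Kb n →ₐ[Kb] Pn Kb n).toRingHom).eval (MvPolynomial.map (algebraMap F Kb) h1) := by
  unfold ext
  rw [Polynomial.map_map, Polynomial.map_map, hom_eval]
  congr 2
  apply MvPolynomial.ringHom_ext
  · intro a
    simp only [RingHom.comp_apply, AlgHom.toRingHom_eq_coe, RingHom.coe_coe, MvPolynomial.map_C,
      MvPolynomial.expand_C]
    rw [← IsScalarTower.algebraMap_apply]
  · intro i
    simp only [RingHom.comp_apply, AlgHom.toRingHom_eq_coe, RingHom.coe_coe, MvPolynomial.map_X,
      MvPolynomial.expand_X, map_pow]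

/-- the values -/
theorem ev {K F : Type} [Field K] [Field F] [Algebra K F] {n : ℕ} (m : ℕ)
    (f : Polynomial (MvPolynomial (Fin n) K)) (h1 : MvPolynomial (Fin n) F) (t : Fin n → F) :
    MvPolynomial.eval t (((ext F f).map (MvPolynomial.expand m :
      Pn F n →ₐ[F] Pn F n).toRingHom).eval h1) =
    ((ext F f).map (MvPolynomial.eval (fun i => t i ^ m))).eval (MvPolynomial.eval t h1) := by
  rw [hom_eval]
  congr 2
  apply MvPolynomial.ringHom_ext
  · intro a
    simp only [RingHom.comp_apply, AlgHom.toRingHom_eq_coe, RingHom.coe_coe,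
      MvPolynomial.expand_C, MvPolynomial.eval_C]
  · intro i
    simp only [RingHom.comp_apply, AlgHom.toRingHom_eq_coe, RingHom.coe_coe,
      MvPolynomial.expand_X, MvPolynomial.eval_X, map_pow]

theorem two_three {a b : ℤ} (h : (2 : ℚ) ^ a * 3 ^ b = 1) : a = 0 ∧ b = 0 := by
  have h2 : Fact (Nat.Prime 2) := ⟨Nat.prime_two⟩
  have h3 : Fact (Nat.Prime 3) := ⟨Nat.prime_three⟩
  constructor
  · have h4 := congrArg (padicValRat 2) h
    rw [padicValRat.mul (zpow_ne_zero _ (by norm_num)) (zpow_ne_zero _ (by norm_num)),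
      padicValRat.zpow, padicValRat.zpow, padicValRat.one] at h4
    have e1 : padicValRat 2 (2 : ℚ) = 1 := by
      have := padicValRat.self (p := 2) (by norm_num)
      exact_mod_cast this
    have e2 : padicValRat 2 (3 : ℚ) = 0 := by
      have : padicValRat 2 ((3 : ℕ) : ℚ) = 0 := by
        rw [padicValRat.of_nat]
        have : padicValNat 2 3 = 0 := padicValNat.eq_zero_of_not_dvd (by norm_num)
        rw [this]
        rfl
      exact_mod_cast this
    rw [e1, e2] at h4
    linarith
  · have h4 := congrArg (padicValRat 3) h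
    rw [padicValRat.mul (zpow_ne_zero _ (by norm_num)) (zpow_ne_zero _ (by norm_num)),
      padicValRat.zpow, padicValRat.zpow, padicValRat.one] at h4
    have e1 : padicValRat 3 (3 : ℚ) = 1 := by
      have := padicValRat.self (p := 3) (by norm_num)
      exact_mod_cast this
    have e2 : padicValRat 3 (2 : ℚ) = 0 := by
      have : padicValRat 3 ((2 : ℕ) : ℚ) = 0 := by
        rw [padicValRat.of_nat]
        have : padicValNat 3 2 = 0 := padicValNat.eq_zero_of_not_dvd (by norm_num)
        rw [this]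
        rfl
      exact_mod_cast this
    rw [e1, e2] at h4
    linarith

/-- a group of rank at least two -/
theorem exists_group (F : Type) [Field F] [CharZero F] :
    ∃ Γ : Subgroup Fˣ, Γ.FG ∧ 2 ≤ Module.finrank ℤ (Additive Γ) := by
  classical
  obtain ⟨u2, hu2⟩ : ∃ u2 : Fˣ, (u2 : F) = 2 := ⟨Units.mk0 2 two_ne_zero, rfl⟩
  obtain ⟨u3, hu3⟩ : ∃ u3 : Fˣ, (u3 : F) = 3 := ⟨Units.mk0 3 three_ne_zero, rfl⟩
  obtain ⟨Γ, hΓ⟩ : ∃ Γ : Subgroup Fˣ, Γ = Subgroup.closure {u2, u3} := ⟨_, rfl⟩
  have hFG : Γ.FG := by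
    refine ⟨{u2, u3}, ?_⟩
    rw [hΓ]
    congr 1
    simp
  refine ⟨Γ, hFG, ?_⟩
  haveI : Group.FG Γ := (Group.fg_iff_subgroup_fg _).2 hFG
  haveI : AddGroup.FG (Additive Γ) := inferInstance
  haveI : Module.Finite ℤ (Additive Γ) := Module.Finite.iff_addGroup_fg.2 inferInstance
  have m2 : u2 ∈ Γ := by
    rw [hΓ]
    exact Subgroup.subset_closure (by simp)
  have m3 : u3 ∈ Γ := by
    rw [hΓ]
    exact Subgroup.subset_closure (by simp)
  have hli : LinearIndependent ℤ ![(Additive.ofMul (⟨u2, m2⟩ : Γ) : Additive Γ),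
      Additive.ofMul (⟨u3, m3⟩ : Γ)] := by
    rw [LinearIndependent.pair_iff]
    intro a b hab
    have h1 : (⟨u2, m2⟩ : Γ) ^ a * (⟨u3, m3⟩ : Γ) ^ b = 1 := by
      have h2 := congrArg Additive.toMul hab
      rw [toMul_add, toMul_zsmul, toMul_zsmul] at h2
      exact h2
    have h3 : u2 ^ a * u3 ^ b = 1 := by
      have h4 := congrArg (Subgroup.subtype Γ) h1
      rw [map_mul, map_zpow, map_zpow, map_one] at h4
      exact h4
    have h5 : (2 : F) ^ a * 3 ^ b = 1 := by
      have h6 := congrArg (fun x : Fˣ => (x : F)) h3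
      simp only [Units.val_mul, Units.val_zpow_eq_zpow_val, Units.val_one, hu2, hu3] at h6
      exact h6
    apply two_three
    have h7 : (((2 : ℚ) ^ a * 3 ^ b : ℚ) : F) = ((1 : ℚ) : F) := by
      push_cast
      exact h5
    exact Rat.cast_injective h7
  have h8 := hli.fintype_card_le_finrank
  simpa using h8

end CONV_

open Finset Polynomial NumberField in
theorem t_CONV (hlow : S_LOW) : S_CONV := by
  intro K _ _ n s f G hn hyp m hm hb hf j
  by_contra hg
  -- the field generated by the coefficients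
  obtain ⟨S, hS⟩ : ∃ S : Set (AlgebraicClosure K), S = (hb.coeffs : Set (AlgebraicClosure K)) :=
    ⟨_, rfl⟩
  have hSf : Finite S := by
    rw [hS]
    exact Finite.of_fintype _
  let F := IntermediateField.adjoin K S
  have hFD : FiniteDimensional K F :=
    IntermediateField.finiteDimensional_adjoin fun x _ => Algebra.IsIntegral.isIntegral x
  have hNF : NumberField F := NumberField.of_module_finite K F
  obtain ⟨h1, hh1⟩ : ∃ h1 : MvPolynomial (Fin n) F,
      MvPolynomial.map (algebraMap F (AlgebraicClosure K)) h1 = hb := by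
    have : hb ∈ Set.range (MvPolynomial.map (σ := Fin n) (algebraMap F (AlgebraicClosure K))) := by
      rw [MvPolynomial.mem_range_map_iff_coeffs_subset]
      intro z hz
      refine ⟨⟨z, ?_⟩, rfl⟩
      apply IntermediateField.subset_adjoin
      rw [hS]
      exact hz
    exact this
  have hinj : Function.Injective
      (MvPolynomial.map (σ := Fin n) (algebraMap F (AlgebraicClosure K))) :=
    MvPolynomial.map_injective _ (algebraMap F (AlgebraicClosure K)).injective
  have hf1 : ((ext F f).map (MvPolynomial.expand m : Pn F n →ₐ[F] Pn F n).toRingHom).eval h1 = 0 := by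
    apply hinj
    rw [CONV_.up, hh1, map_zero]
    exact hf
  obtain ⟨H, hH⟩ : ∃ H, H = ((ext F (G j)).map (MvPolynomial.expand m :
    Pn F n →ₐ[F] Pn F n).toRingHom).eval h1 := ⟨_, rfl⟩
  have hH0 : H ≠ 0 := by
    intro h0
    apply hg
    have := CONV_.up (K := K) (F := F) (Kb := AlgebraicClosure K) m (G j) h1
    rw [← hH, h0, map_zero, hh1] at this
    exact this.symm
  obtain ⟨Γ, hΓ, hr⟩ := CONV_.exists_group F
  obtain ⟨c, hc, T0, hT0⟩ := hlow F n m H hn hm hH0 Γ hΓ (by omega)
  obtain ⟨T, hT, hfin, hlt⟩ := hyp F Γ hΓ hr c hc T0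
  obtain ⟨A, hA, hAc⟩ := hT0 T hT
  have hsub : (A : Set (Fin n → Fˣ)) ⊆ XP (ext F f) (fun j => ext F (G j)) Γ 1 T := by
    intro x hx
    obtain ⟨h2, t, h3, h4⟩ := hA x hx
    have hxt : (fun i => ((t i : Fˣ) : F) ^ m) = fun i => ((x i : Fˣ) : F) := by
      funext i
      rw [← (h3 i).2, Units.val_pow_eq_pow_val]
    refine ⟨fun i => ⟨(h2 i).1, ?_⟩, MvPolynomial.eval (fun i => ((t i : Fˣ) : F)) h1, ?_, j, ?_⟩
    · rw [Pi.one_apply, div_one]
      exact (h2 i).2
    · rw [← hxt, ← CONV_.ev, hf1, map_zero]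
    · rw [← hxt, ← CONV_.ev, ← hH]
      exact h4
  have h5 : A.card ≤ (XP (ext F f) (fun j => ext F (G j)) Γ 1 T).ncard := by
    rw [← Set.ncard_coe_finset]
    exact Set.ncard_le_ncard hsub hfin
  have h6 : (A.card : ℝ) ≤ ((XP (ext F f) (fun j => ext F (G j)) Γ 1 T).ncard : ℝ) := by
    exact_mod_cast h5
  linarith

end Pool.Agent.N120.TH
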