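import Pool.Agent.N120.TH.Stm
import Pool.Agent.R410.LW.BN1
import Pool.Agent.R410.LW.Bez
import Pool.Agent.R410.PW.Weil

/-!
# Project TH, part CRV (helper42)

The Weil bound for the curves `Ψ(t ^ M, y) = 0` over `ZMod p`, uniformly in `p` and `M`.
-/

set_option autoImplicit false

namespace Pool.Agent.N120.TH

open Finset Polynomial NumberField

namespace CRV_

theorem pull_one {A : Type} [CommRing A] (Ψ : A[X][X]) : pull 1 Ψ = Ψ := by
  unfold pull
  have h : (Polynomial.expand A 1 : A[X] →ₐ[A] A[X]).toRingHom = RingHom.id A[X] :=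
    RingHom.ext fun q => Polynomial.expand_one q
  rw [h, Polynomial.map_id]

theorem pull_map {A B : Type} [CommRing A] [CommRing B] (φ : A →+* B) (m : ℕ) (Ψ : A[X][X]) :
    (pull m Ψ).map (mapRingHom φ) = pull m (Ψ.map (mapRingHom φ)) := by
  unfold pull
  rw [Polynomial.map_map, Polynomial.map_map]
  congr 1
  exact RingHom.ext fun q => Polynomial.map_expand

theorem evalEval_pull {A : Type} [CommRing A] (m : ℕ) (Ψ : A[X][X]) (x y : A) :
    evalEval x y (pull m Ψ) = evalEval (x ^ m) y Ψ := by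
  unfold pull evalEval
  have h1 : (Polynomial.expand A m : A[X] →ₐ[A] A[X]).toRingHom (C y) = C y :=
    Polynomial.expand_C m y
  have h2 : eval (C y) (Ψ.map (Polynomial.expand A m : A[X] →ₐ[A] A[X]).toRingHom) =
      (Polynomial.expand A m : A[X] →ₐ[A] A[X]).toRingHom (eval (C y) Ψ) := by
    conv_lhs => rw [← h1]
    exact eval_map_apply (f := (Polynomial.expand A m : A[X] →ₐ[A] A[X]).toRingHom) (p := Ψ) (C y)
  rw [h2]
  exact Polynomial.expand_eval m _ x

theorem pull_bezout {A : Type} [CommRing A] (m : ℕ) {a b f : A[X][X]} {D : A[X]}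
    (h : a * f + b * derivative f = C D) :
    pull m a * pull m f + pull m b * derivative (pull m f) = C (Polynomial.expand A m D) := by
  have h1 := congrArg (Polynomial.map (Polynomial.expand A m : A[X] →ₐ[A] A[X]).toRingHom) h
  rw [Polynomial.map_add, Polynomial.map_mul, Polynomial.map_mul, Polynomial.map_C] at h1
  unfold pull
  rw [derivative_map]
  exact h1

theorem WC_le (n d δ M : ℕ) (hM : 1 ≤ M) :
    Pool.Agent.R410.PW.WC n (d * M) (δ * M) ≤ M * Pool.Agent.R410.PW.WC n d δ := by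
  unfold Pool.Agent.R410.PW.WC
  obtain ⟨k, rfl⟩ : ∃ k, M = k + 1 := ⟨M - 1, by omega⟩
  have e : (k + 1) * ((n * d * n + 1) * (n + 1) + 1 + (1 + n + δ * n)) =
      (n * (d * (k + 1)) * n + 1) * (n + 1) + 1 + (1 + n + δ * (k + 1) * n) +
        k * ((n + 1) + 1 + (1 + n)) := by ring
  rw [e]
  exact Nat.le_add_right _ _

end CRV_

open CRV_

theorem t_CRV (hK : S_KUM) : S_CRV := by
  classical
  intro A _ _ _ Ψ hΨ hn Ω _ _ ι hι hirr
  let _ : Algebra (FractionRing A) Ω := (IsFractionRing.lift (K := FractionRing A) hι).toAlgebra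
  have hcomp : (algebraMap (FractionRing A) Ω).comp (algebraMap A (FractionRing A)) = ι :=
    RingHom.ext fun a => IsFractionRing.lift_algebraMap hι a
  have hpm : ∀ {R : Type} [CommRing R] (m : ℕ) (f : R[X][X]), f.Monic → (pull m f).Monic :=
    fun m f hf => hf.map _
  have hpd : ∀ {R : Type} [CommRing R] [Nontrivial R] (m : ℕ) (f : R[X][X]), f.Monic →
      (pull m f).natDegree = f.natDegree := fun m f hf => hf.natDegree_map _
  have hbn : ∀ m : ℕ, ∃ D : A, D ≠ 0 ∧ (1 ≤ m → ∀ (F : Type) [Field F] (φ : A →+* F), φ D ≠ 0 →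
      Irreducible ((pull m Ψ).map (mapRingHom φ))) := by
    intro m
    by_cases hm : 1 ≤ m
    · obtain ⟨D, hD, h⟩ := Pool.Agent.R410.LW.bn_poly (k := FractionRing A) (kb := Ω) (pull m Ψ)
        (hpm m Ψ hΨ) (by rw [hpd m Ψ hΨ]; omega) (by rw [hcomp]; exact hirr m hm)
      exact ⟨D, hD, fun _ => h⟩
    · exact ⟨1, one_ne_zero, fun h => absurd h hm⟩
  choose Dm hD0 hDm using hbn
  have hirr1 : Irreducible (Ψ.map (mapRingHom ι)) := by
    have h := hirr 1 le_rfl
    rwa [pull_one] at h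
  obtain ⟨a, b, D₁, hD₁, hab⟩ := Pool.Agent.R410.LW.bezout hι hΨ hirr1
  obtain ⟨dd, hdd⟩ : ∃ dd : ℕ, ∀ i, (Ψ.coeff i).natDegree ≤ dd := by
    refine ⟨Ψ.support.sup fun i => (Ψ.coeff i).natDegree, fun i => ?_⟩
    by_cases hi : i ∈ Ψ.support
    · exact Finset.le_sup (f := fun i => (Ψ.coeff i).natDegree) hi
    · rw [notMem_support_iff.1 hi, natDegree_zero]
      exact Nat.zero_le _
  refine ⟨(Pool.Agent.R410.PW.WC Ψ.natDegree dd D₁.natDegree : ℝ),
    (∏ m ∈ Finset.range (Ψ.natDegree + 1), Dm m) * Dm 1 * D₁.leadingCoeff, by positivity,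
    mul_ne_zero (mul_ne_zero (Finset.prod_ne_zero_iff.2 fun m _ => hD0 m) (hD0 1))
      (leadingCoeff_ne_zero.2 hD₁), ?_⟩
  intro p _ ψ hψ M hM hpM
  rw [map_mul, map_mul, map_prod] at hψ
  have k1 := right_ne_zero_of_mul hψ
  have k2 := right_ne_zero_of_mul (left_ne_zero_of_mul hψ)
  have k3 := Finset.prod_ne_zero_iff.1 (left_ne_zero_of_mul (left_ne_zero_of_mul hψ))
  obtain ⟨φ, hφ⟩ : ∃ φ : A →+* AlgebraicClosure (ZMod p),
      φ = (algebraMap (ZMod p) (AlgebraicClosure (ZMod p))).comp ψ := ⟨_, rfl⟩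
  have hφ0 : ∀ x, ψ x ≠ 0 → φ x ≠ 0 := fun x hx => by
    rw [hφ, RingHom.comp_apply]
    exact (_root_.map_ne_zero _).2 hx
  have hdeg : (Ψ.map (mapRingHom φ)).natDegree = Ψ.natDegree := hΨ.natDegree_map _
  have hM0 : (M : AlgebraicClosure (ZMod p)) ≠ 0 := by
    have : CharP (AlgebraicClosure (ZMod p)) p :=
      charP_of_injective_algebraMap (algebraMap (ZMod p) (AlgebraicClosure (ZMod p))).injective p
    rw [Ne, CharP.cast_eq_zero_iff (AlgebraicClosure (ZMod p)) p]
    exact hpM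
  have hIM : Irreducible (pull M (Ψ.map (mapRingHom φ))) := by
    refine hK (AlgebraicClosure (ZMod p)) (Ψ.map (mapRingHom φ)) (hΨ.map _) ?_ ?_ M hM0
    · have h := hDm 1 le_rfl (AlgebraicClosure (ZMod p)) φ (hφ0 _ k2)
      rwa [pull_one] at h
    · intro l hl hle _
      have h := hDm l hl.one_lt.le (AlgebraicClosure (ZMod p)) φ
        (hφ0 _ (k3 l (Finset.mem_range.2 (by rw [hdeg] at hle; omega))))
      rwa [pull_map] at h
  -- the curve
  obtain ⟨f, hf⟩ : ∃ f : (ZMod p)[X][X], f = pull M (Ψ.map (mapRingHom ψ)) := ⟨_, rfl⟩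
  have hψm : (Ψ.map (mapRingHom ψ)).Monic := hΨ.map _
  have hfm : f.Monic := by rw [hf]; exact hpm M _ hψm
  have hfd : f.natDegree = Ψ.natDegree := by
    rw [hf, hpd M _ hψm]
    exact hΨ.natDegree_map _
  have hirr' : Irreducible (f.map (mapRingHom
      (algebraMap (ZMod p) (AlgebraicClosure (ZMod p))))) := by
    rw [hf, pull_map, Polynomial.map_map]
    have h5 : (mapRingHom (algebraMap (ZMod p) (AlgebraicClosure (ZMod p)))).comp
        (mapRingHom ψ) = mapRingHom φ := by
      rw [hφ, mapRingHom_comp]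
    rw [h5]
    exact hIM
  have hab0 : a.map (mapRingHom ψ) * Ψ.map (mapRingHom ψ) +
      b.map (mapRingHom ψ) * derivative (Ψ.map (mapRingHom ψ)) = C (D₁.map ψ) := by
    have h := congrArg (Polynomial.map (mapRingHom ψ)) hab
    rw [Polynomial.map_add, Polynomial.map_mul, Polynomial.map_mul, Polynomial.map_C] at h
    rw [derivative_map]
    exact h
  have hD' : D₁.map ψ ≠ 0 := by
    intro h
    apply k1
    have := congrArg (fun p => p.coeff D₁.natDegree) h
    simp only [coeff_map, coeff_zero] at this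
    rw [leadingCoeff]
    exact this
  have hab' := pull_bezout M hab0
  rw [← hf] at hab'
  have hw := Pool.Agent.R410.PW.weil (F := ZMod p) (AlgebraicClosure (ZMod p)) hfm
    (by rw [hfd]; omega) hab' (by
      rw [Ne, Polynomial.expand_eq_zero (by omega)]
      exact hD') (δ := D₁.natDegree * M) (by
      rw [Polynomial.natDegree_expand]
      exact Nat.mul_le_mul_right _ natDegree_map_le) (d := dd * M) (fun i => by
      rw [hf]
      unfold pull
      rw [coeff_map, coeff_map]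
      show (Polynomial.expand (ZMod p) M (mapRingHom ψ (Ψ.coeff i))).natDegree ≤ _
      rw [Polynomial.natDegree_expand]
      exact Nat.mul_le_mul_right _ (natDegree_map_le.trans (hdd i))) hirr'
  rw [hfd, Nat.card_zmod] at hw
  have hcount : ((univ.filter (fun z : ZMod p × ZMod p =>
      evalEval (z.1 ^ M) z.2 (Ψ.map (mapRingHom ψ)) = 0)).card : ℝ) =
      ({z : ZMod p × ZMod p | evalEval z.1 z.2 f = 0}.ncard : ℝ) := by
    rw [← Set.ncard_coe_finset]
    congr 2
    ext z
    rw [Finset.mem_coe, Finset.mem_filter, hf]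
    show _ ↔ evalEval z.1 z.2 (pull M (Ψ.map (mapRingHom ψ))) = 0
    rw [evalEval_pull]
    exact ⟨fun h => h.2, fun h => ⟨Finset.mem_univ _, h⟩⟩
  rw [hcount]
  refine hw.trans (mul_le_mul_of_nonneg_right ?_ (Real.sqrt_nonneg _))
  rw [mul_comm (Pool.Agent.R410.PW.WC Ψ.natDegree dd D₁.natDegree : ℝ) (M : ℝ)]
  exact_mod_cast WC_le Ψ.natDegree dd D₁.natDegree M hM

end Pool.Agent.N120.TH
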