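import Pool.Agent.N120.TH.Stm

/-!
# Project TH (helper120): DER, the commuting derivations `x_i ∂/∂x_i` (helper767)
-/

set_option autoImplicit false

namespace Pool.Agent.N120.TH

namespace DER_

open Algebra

/-- lifting of the identity along a surjection with nilpotent kernel -/
theorem lift_id (A M T : Type) [CommRing A] [Field M] [Algebra A M] [FormallySmooth A M]
    [CommRing T] (π : T →+* M) (hπ : Function.Surjective π) (hker : IsNilpotent (RingHom.ker π))
    (ψ : A →+* T) (h : π.comp ψ = algebraMap A M) :
    ∃ φ : M →+* T, (∀ x, π (φ x) = x) ∧ ∀ a, φ (algebraMap A M a) = ψ a := by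
  let _ : Algebra A T := ψ.toAlgebra
  let g : T →ₐ[A] M := { π with
    commutes' := fun a => congrArg (fun f : A →+* M => f a) h }
  have hg : Function.Surjective g := hπ
  have hg' : IsNilpotent (RingHom.ker (g : T →+* M)) := hker
  refine ⟨(FormallySmooth.liftOfSurjective (AlgHom.id A M) g hg hg' : M →ₐ[A] T).toRingHom,
    fun x => ?_, fun a => ?_⟩
  · exact FormallySmooth.liftOfSurjective_apply (AlgHom.id A M) g hg hg' x
  · exact AlgHom.commutes _ a

/-- derivations which vanish on `A` are zero -/
theorem der_zero (A M : Type) [CommRing A] [Field M] [Algebra A M] [FormallyUnramified A M]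
    (Δ : M →+ M) (hm : ∀ x y, Δ (x * y) = x * Δ y + Δ x * y)
    (h0 : ∀ a : A, Δ (algebraMap A M a) = 0) (x : M) : Δ x = 0 := by
  let D : Derivation A M M := Derivation.mk'
    { toFun := Δ
      map_add' := Δ.map_add
      map_smul' := fun a y => by
        rw [Algebra.smul_def, hm, h0, zero_mul, add_zero, RingHom.id_apply, Algebra.smul_def] }
    (fun y z => by
      show Δ (y * z) = y • Δ z + z • Δ y
      rw [hm, smul_eq_mul, smul_eq_mul, mul_comm z])
  have h1 : Subsingleton (Derivation A M M) :=
    (KaehlerDifferential.linearMapEquivDerivation A M (M := M)).symm.toEquiv.subsingleton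
  have h2 : D = 0 := Subsingleton.elim _ _
  have h3 : D x = 0 := by rw [h2]; rfl
  exact h3

/-- the map `x ↦ x + ε D x` on polynomials, `D = x_i ∂/∂x_i` -/
noncomputable def psi (k : Type) [Field k] (n : ℕ) (M : Type) [Field M] (c : Pn k n →+* M)
    (i : Fin n) : Pn k n →+* TrivSqZeroExt M M :=
  MvPolynomial.eval₂Hom ((TrivSqZeroExt.inlHom M M).comp (c.comp MvPolynomial.C))
    (fun j => TrivSqZeroExt.inl (c (MvPolynomial.X j)) +
      TrivSqZeroExt.inr (if i = j then c (MvPolynomial.X j) else 0))

/-- the projection -/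
noncomputable def pr (M : Type) [Field M] : TrivSqZeroExt M M →+* M :=
  (TrivSqZeroExt.fstHom M M M).toRingHom

lemma pr_apply (M : Type) [Field M] (t : TrivSqZeroExt M M) : pr M t = t.fst := rfl

lemma pr_surj (M : Type) [Field M] : Function.Surjective (pr M) :=
  fun x => ⟨TrivSqZeroExt.inl x, rfl⟩

lemma pr_ker (M : Type) [Field M] : IsNilpotent (RingHom.ker (pr M)) := by
  refine ⟨2, ?_⟩
  refine (pow_two (RingHom.ker (pr M))).trans ?_
  rw [Ideal.zero_eq_bot, eq_bot_iff, Ideal.mul_le]
  intro r hr s hs
  rw [RingHom.mem_ker, pr_apply] at hr hs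
  rw [Ideal.mem_bot]
  ext
  · rw [TrivSqZeroExt.fst_mul, hr, zero_mul, TrivSqZeroExt.fst_zero]
  · rw [TrivSqZeroExt.snd_mul, hr, hs, TrivSqZeroExt.snd_zero]
    simp

end DER_

open DER_ Algebra in
/-- **(DER)** -/
theorem t_DER : S_DER := by
  intro k _ _ n M _ _ _ _
  let _ : Algebra (Pn k n) M := (cm k n M).toAlgebra
  have : IsScalarTower (Pn k n) (En k n) M := IsScalarTower.of_algebraMap_eq' rfl
  have h1 : FormallyEtale (Pn k n) (En k n) :=
    FormallyEtale.of_isLocalization (nonZeroDivisors (Pn k n))
  have : CharZero (En k n) := by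
    infer_instance
  have h2 : FormallyEtale (En k n) M := FormallyEtale.of_isSeparable _ _
  have h3 : FormallyEtale (Pn k n) M := FormallyEtale.comp (Pn k n) (En k n) M
  have key : ∀ i : Fin n, ∃ D : M →+ M, (∀ x y, D (x * y) = x * D y + D x * y) ∧
      (∀ c : k, D (cm k n M (MvPolynomial.C c)) = 0) ∧
      ∀ j, D (cm k n M (MvPolynomial.X j)) = if i = j then cm k n M (MvPolynomial.X j) else 0 := by
    intro i
    obtain ⟨φ, p1, p2⟩ := lift_id (Pn k n) M (TrivSqZeroExt M M) (pr M) (pr_surj M) (pr_ker M)
      (psi k n M (cm k n M) i) (by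
        show _ = cm k n M
        apply MvPolynomial.ringHom_ext
        · intro c
          simp [psi, pr_apply]
        · intro j
          simp [psi, pr_apply]
          split_ifs <;> simp)
    refine ⟨(TrivSqZeroExt.sndHom M M).toAddMonoidHom.comp φ.toAddMonoidHom, ?_, ?_, ?_⟩
    · intro x y
      have q1 : (φ x).fst = x := p1 x
      have q2 : (φ y).fst = y := p1 y
      show (φ (x * y)).snd = x * (φ y).snd + (φ x).snd * y
      rw [map_mul, TrivSqZeroExt.snd_mul, q1, q2]
      simp
    · intro c
      show (φ (cm k n M (MvPolynomial.C c))).snd = 0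
      have := p2 (MvPolynomial.C c)
      change φ (cm k n M (MvPolynomial.C c)) = _ at this
      rw [this]
      simp [psi]
    · intro j
      show (φ (cm k n M (MvPolynomial.X j))).snd = _
      have := p2 (MvPolynomial.X j)
      change φ (cm k n M (MvPolynomial.X j)) = _ at this
      rw [this]
      simp [psi]
      split_ifs <;> simp
  choose D hm hc hx using key
  have hcomm : ∀ i j x, D i (D j x) = D j (D i x) := by
    intro i j x
    let Δ : M →+ M := (D i).comp (D j) - (D j).comp (D i)
    have hΔ : ∀ x, Δ x = D i (D j x) - D j (D i x) := fun _ => rfl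
    have hΔm : ∀ x y, Δ (x * y) = x * Δ y + Δ x * y := by
      intro x y
      rw [hΔ, hΔ, hΔ, hm, hm, map_add, map_add, hm, hm, hm, hm]
      ring
    have hΔ1 : Δ 1 = 0 := by
      have h := hΔm 1 1
      rw [one_mul, mul_one] at h
      have h' : Δ 1 + Δ 1 = Δ 1 := by
        rw [one_mul] at h
        exact h.symm
      simpa using h'
    have hΔ0 : ∀ a : Pn k n, Δ (algebraMap (Pn k n) M a) = 0 := by
      intro a
      show Δ (cm k n M a) = 0
      induction a using MvPolynomial.induction_on with
      | C c => rw [hΔ, hc, hc, map_zero, map_zero, sub_zero]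
      | add p q hp hq => rw [map_add, map_add, hp, hq, add_zero]
      | mul_X p l hp =>
        rw [map_mul, hΔm, hp, zero_mul, add_zero]
        have : Δ (cm k n M (MvPolynomial.X l)) = 0 := by
          rw [hΔ, hx, hx]
          by_cases h1 : i = l
          · by_cases h2 : j = l
            · rw [if_pos h1, if_pos h2, hx, hx, if_pos h1, if_pos h2, sub_self]
            · rw [if_pos h1, if_neg h2, hx, if_neg h2, map_zero, sub_zero]
          · by_cases h2 : j = l
            · rw [if_neg h1, if_pos h2, hx, if_neg h1, map_zero, sub_zero]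
            · rw [if_neg h1, if_neg h2, map_zero, map_zero, sub_zero]
        rw [this, mul_zero]
    have h := der_zero (Pn k n) M Δ hΔm hΔ0 x
    rw [hΔ] at h
    exact sub_eq_zero.1 h
  exact ⟨{
    D := fun i => (D i).toRatLinearMap
    leib := fun i x y => hm i x y
    const := fun i c => hc i c
    var := fun i j => hx i j
    comm := fun i j => by
      ext x
      exact hcomm i j x }⟩

end Pool.Agent.N120.TH
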