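import Pool.Agent.N120.TH.Stm

/-!
# Project TH, part DIR (helper300): existence of a good Laurent direction
-/

set_option autoImplicit false

namespace Pool.Agent.N120.TH

open Finset Polynomial

namespace DIR_

variable {k : Type} [Field k] {n : ℕ} {M : Type} [Field M] [Algebra (En k n) M]

/-- the elements which become rational along the direction -/
noncomputable def Ff (ρ : M →+* Rt k n) {v : Fin n → ℕ} (hρ : ρ.comp (cm k n M) = subR v) :
    IntermediateField (En k n) M :=
  ((algebraMap (RatFunc (Om k n)) (Rt k n)).fieldRange.comap ρ).toIntermediateField (by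
    intro x
    obtain ⟨p, q, hq, rfl⟩ := IsFractionRing.div_surjective (A := Pn k n) x
    have h1 : ∀ p : Pn k n, ρ (algebraMap (En k n) M (algebraMap (Pn k n) (En k n) p)) ∈
        (algebraMap (RatFunc (Om k n)) (Rt k n)).fieldRange := by
      intro p
      have h2 : ρ (algebraMap (En k n) M (algebraMap (Pn k n) (En k n) p)) = subR v p := by
        rw [← hρ]
        rfl
      rw [h2]
      exact ⟨_, rfl⟩
    rw [Subfield.mem_comap, map_div₀, map_div₀]
    exact div_mem (h1 p) (h1 q))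

theorem mem_Ff (ρ : M →+* Rt k n) {v : Fin n → ℕ} (hρ : ρ.comp (cm k n M) = subR v) (α : M) :
    α ∈ Ff ρ hρ ↔ ρ α ∈ (algebraMap (RatFunc (Om k n)) (Rt k n)).range := Iff.rfl

/-- a nonzero multiple of every element is integral over the polynomials -/
theorem int_mult [FiniteDimensional (En k n) M] (α : M) :
    ∃ b : Pn k n, b ≠ 0 ∧ (cm k n M).IsIntegralElem (cm k n M b * α) := by
  letI : Algebra (Pn k n) M := (cm k n M).toAlgebra
  haveI : IsScalarTower (Pn k n) (En k n) M := IsScalarTower.of_algebraMap_eq fun x => rfl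
  have h1 : IsIntegral (En k n) α := Algebra.IsIntegral.isIntegral α
  obtain ⟨b, hb⟩ := h1.exists_multiple_integral_of_isLocalization (nonZeroDivisors (Pn k n)) α
  refine ⟨b, nonZeroDivisors.coe_ne_zero b, ?_⟩
  rw [Submonoid.smul_def, Algebra.smul_def] at hb
  exact hb

theorem det_ne {m q : Fin n → ℕ} (hm : ∀ j, 1 ≤ m j) (hq : Function.Injective q) :
    (Matrix.of (fun j i : Fin n => ((m j * q j ^ (i : ℕ) : ℕ) : ℚ))).det ≠ 0 := by
  have h1 : (Matrix.of (fun j i : Fin n => ((m j * q j ^ (i : ℕ) : ℕ) : ℚ))) =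
      Matrix.of fun j i => (m j : ℚ) * Matrix.vandermonde (fun j => (q j : ℚ)) j i := by
    ext j i
    simp [Matrix.vandermonde_apply]
  rw [h1, Matrix.det_mul_column]
  refine mul_ne_zero (Finset.prod_ne_zero_iff.2 fun j _ => ?_) ?_
  · have := hm j
    positivity
  · rw [Matrix.det_vandermonde_ne_zero_iff]
    intro i j h
    have h' : (q i : ℚ) = (q j : ℚ) := h
    exact hq (by exact_mod_cast h')

end DIR_

open DIR_ in
/-- **DIR**. -/
theorem t_DIR (h1 : S_DER) (h2 : S_RHO) (h3 : S_EIG) (h4 : S_MONO) : S_DIR := by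
  intro k _ _ _ n M _ _ _ hPB
  haveI : CharZero (En k n) := inferInstance
  haveI : CharZero M := charZero_of_injective_algebraMap (algebraMap (En k n) M).injective
  by_contra hcon
  push Not at hcon
  have hbad : ∀ q : ℕ, ∃ (m : ℕ) (ρ : M →+* Rt k n) (α : M), 1 ≤ m ∧
      ρ.comp (cm k n M) = subR (fun i : Fin n => m * (q + 1) ^ (i : ℕ)) ∧
      ρ α ∈ (algebraMap (RatFunc (Om k n)) (Rt k n)).range ∧
      α ∉ (algebraMap (En k n) M).range := by
    intro q
    have h5 := hcon (fun i : Fin n => (q + 1) ^ (i : ℕ)) fun i => Nat.one_le_pow _ _ (by omega)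
    unfold GoodDir at h5
    push Not at h5
    obtain ⟨m, hm, ρ, hρ, α, h6, h7⟩ := h5
    exact ⟨m, ρ, α, hm, hρ, h6, h7⟩
  choose m ρ α hm hρ hα hα' using hbad
  haveI : Finite (IntermediateField (En k n) M) :=
    Field.finite_intermediateField_of_exists_primitive_element (En k n) M
      (Field.exists_primitive_element (En k n) M)
  obtain ⟨F, hF⟩ := Finite.exists_infinite_fiber fun q : ℕ => Ff (ρ q) (hρ q)
  obtain ⟨⟨q₀, hq₀'⟩⟩ : Nonempty ((fun q : ℕ => Ff (ρ q) (hρ q)) ⁻¹' {F}) := inferInstance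
  have hq₀ : Ff (ρ q₀) (hρ q₀) = F := hq₀'
  have hαF : α q₀ ∈ F := by
    rw [← hq₀, mem_Ff]
    exact hα q₀
  obtain ⟨b, hb0, hb⟩ := int_mult (k := k) (n := n) (α q₀)
  have hbM : cm k n M b ≠ 0 := by
    intro h
    apply hb0
    have h5 : Function.Injective (cm k n M) :=
      (algebraMap (En k n) M).injective.comp (IsFractionRing.injective (Pn k n) (En k n))
    exact h5 (by rw [h, map_zero])
  have hbF : cm k n M b * α q₀ ∈ F := F.mul_mem (F.algebraMap_mem _) hαF
  have hbE : cm k n M b * α q₀ ∉ (algebraMap (En k n) M).range := by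
    rintro ⟨z, hz⟩
    apply hα' q₀
    refine ⟨z / algebraMap (Pn k n) (En k n) b, ?_⟩
    rw [map_div₀, hz]
    exact mul_div_cancel_left₀ _ hbM
  set β : M := cm k n M b * α q₀
  obtain ⟨𝒟⟩ := h1 k n M
  set e : ℕ ↪ ((fun q : ℕ => Ff (ρ q) (hρ q)) ⁻¹' {F}) := Infinite.natEmbedding _
  have hk : ∀ j : Fin n, ∃ L : ℕ,
      𝒟.Kills (fun i : Fin n => m (e j) * ((e j : ℕ) + 1) ^ (i : ℕ)) L β := by
    intro j
    have hj : Ff (ρ (e j)) (hρ (e j)) = F := (e j).2
    refine h2 k n M 𝒟 _ (ρ (e j)) (hρ (e j)) β hb ?_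
    rw [← mem_Ff (ρ (e j)) (hρ (e j)), hj]
    exact hbF
  choose L hL using hk
  obtain ⟨m0, I, _, v, hm0, hsum, hv⟩ := h3 k n M 𝒟
    (fun j i : Fin n => m (e j) * ((e j : ℕ) + 1) ^ (i : ℕ))
    (det_ne (fun j => hm (e j)) fun i j h => by
      have h5 : (e i : ℕ) = (e j : ℕ) := Nat.succ_injective h
      exact Fin.val_injective (e.injective (Subtype.ext h5))) L β hL
  apply hbE
  rw [hsum]
  refine sum_mem fun χ _ => ?_
  obtain ⟨c, γ, hc⟩ := hv χ
  exact h4 k n M hPB m0 (v χ) c γ hm0 hc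

end Pool.Agent.N120.TH
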