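import Pool.Agent.N120.TH.Stm

/-!
# Project TH (helper120), part EIG (helper866): joint eigenvectors of the derivations are roots of monomials
-/

set_option autoImplicit false
set_option linter.unusedSectionVars false
set_option linter.style.haveILetI false

namespace Pool.Agent.N120.TH

open Finset Polynomial

namespace EIG_

/-! ### Joint eigenvectors -/

section lin

lemma comm_aeval {R : Type} [Ring R] [Algebra ℚ R] {a b : R} (h : Commute a b) (p : ℚ[X]) :
    Commute (aeval a p) b := by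
  rw [aeval_eq_sum_range]
  exact Commute.sum_left _ _ _ fun i _ => (h.pow_left i).smul_left _

/-- the polynomial `X (X - 1) ⋯ (X - L + 1)` -/
noncomputable def pp (L : ℕ) : ℚ[X] := ∏ l ∈ range L, (X - C (l : ℚ))

/-- Lagrange interpolation -/
lemma lag (L : ℕ) : ∃ e : ℕ → ℚ[X], (L ≠ 0 → ∑ l ∈ range L, e l = 1) ∧
    ∀ l < L, pp L ∣ (X - C (l : ℚ)) * e l := by
  refine ⟨fun l => Lagrange.basis (range L) (fun i : ℕ => (i : ℚ)) l, ?_, ?_⟩
  · intro hL
    exact Lagrange.sum_basis (fun a _ b _ hab => Nat.cast_injective hab)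
      (Finset.nonempty_range_iff.2 hL)
  · intro l hl
    have h1 : (X - C (l : ℚ)) * Lagrange.basis (range L) (fun i : ℕ => (i : ℚ)) l =
        (∏ j ∈ (range L).erase l, C ((l : ℚ) - (j : ℚ))⁻¹) * pp L := by
      unfold pp
      rw [← Finset.mul_prod_erase (range L) (fun l : ℕ => (X - C (l : ℚ)))
        (Finset.mem_range.2 hl)]
      unfold Lagrange.basis Lagrange.basisDivisor
      rw [Finset.prod_mul_distrib]
      ring
    rw [h1]
    exact Dvd.intro_left _ rfl

variable {M : Type} [AddCommGroup M] [Module ℚ M]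

lemma decomp {n : ℕ} (T : Fin n → Module.End ℚ M) (hT : ∀ i j, Commute (T i) (T j))
    (L : Fin n → ℕ) (α : M) (h : ∀ j, (aeval (T j) (pp (L j))) α = 0) (s : Finset (Fin n)) :
    ∃ (I : Type) (_ : Fintype I) (v : I → M), α = ∑ χ, v χ ∧
      ∀ χ, (∀ j ∈ s, ∃ c : ℚ, T j (v χ) = c • v χ) ∧
        ∀ j, (aeval (T j) (pp (L j))) (v χ) = 0 := by
  classical
  induction s using Finset.induction_on with
  | empty =>
    refine ⟨Unit, inferInstance, fun _ => α, by simp, fun _ => ⟨fun j hj => ?_, h⟩⟩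
    exact absurd hj (Finset.notMem_empty j)
  | insert j s hj ih =>
    obtain ⟨I, hI, v, hα, hv⟩ := ih
    obtain ⟨e, he1, he2⟩ := lag (L j)
    refine ⟨I × Fin (L j), inferInstance, fun x => (aeval (T j) (e x.2)) (v x.1), ?_, ?_⟩
    · rw [Fintype.sum_prod_type, hα]
      refine Finset.sum_congr rfl fun χ _ => ?_
      have h1 : ∑ l : Fin (L j), (aeval (T j) (e l)) (v χ) =
          ∑ l ∈ range (L j), (aeval (T j) (e l)) (v χ) :=
        Fin.sum_univ_eq_sum_range (fun l => (aeval (T j) (e l)) (v χ)) (L j)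
      change v χ = ∑ l : Fin (L j), (aeval (T j) (e l)) (v χ)
      rw [h1]
      by_cases hL : L j = 0
      · have h2 := (hv χ).2 j
        rw [hL] at h2 ⊢
        simpa [pp] using h2
      · rw [← LinearMap.sum_apply, ← map_sum, he1 hL, map_one, Module.End.one_apply]
    · rintro ⟨χ, l⟩
      have hc : ∀ i (q : ℚ[X]), (aeval (T i) q) ((aeval (T j) (e l)) (v χ)) =
          (aeval (T j) (e l)) ((aeval (T i) q) (v χ)) := by
        intro i q
        have h1 : Commute (aeval (T i) q) (aeval (T j) (e l)) :=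
          comm_aeval ((comm_aeval (hT j i) (e l)).symm) q
        exact congrArg (fun f : Module.End ℚ M => f (v χ)) h1.eq
      refine ⟨fun i hi => ?_, fun i => ?_⟩
      · rcases Finset.mem_insert.1 hi with rfl | hi
        · refine ⟨(l : ℕ), ?_⟩
          obtain ⟨q, hq⟩ := he2 l l.2
          have h1 : (aeval (T i) ((X - C ((l : ℕ) : ℚ)) * e l)) (v χ) = 0 := by
            rw [hq, mul_comm, map_mul, Module.End.mul_apply, (hv χ).2 i, map_zero]
          rw [map_mul, map_sub, aeval_X, aeval_C, Module.End.mul_apply, LinearMap.sub_apply,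
            Module.algebraMap_end_apply, sub_eq_zero] at h1
          exact h1
        · obtain ⟨c, hci⟩ := (hv χ).1 i hi
          refine ⟨c, ?_⟩
          have h1 := hc i X
          rw [aeval_X, hci, map_smul] at h1
          exact h1
      · change (aeval (T i) (pp (L i))) ((aeval (T j) (e l)) (v χ)) = 0
        rw [hc, (hv χ).2 i, map_zero]

end lin

/-! ### The derivations -/

section der

variable {k : Type} [Field k] {n : ℕ} {M : Type} [Field M] [CharZero M] [Algebra (En k n) M]
  (𝒟 : Ders k n M)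

lemma D_one (i : Fin n) : 𝒟.D i 1 = 0 := by
  have h := 𝒟.leib i 1 1
  rw [one_mul, one_mul, mul_one] at h
  exact left_eq_add.1 h

/-- eigenvectors -/
def Eig (i : Fin n) (a : ℚ) (w : M) : Prop := 𝒟.D i w = a • w

variable {𝒟}

lemma Eig.mul {i : Fin n} {a b : ℚ} {w w' : M} (h : Eig 𝒟 i a w) (h' : Eig 𝒟 i b w') :
    Eig 𝒟 i (a + b) (w * w') := by
  unfold Eig at *
  rw [𝒟.leib, h, h', mul_smul_comm, smul_mul_assoc, add_smul, add_comm]

lemma eig_one (i : Fin n) : Eig 𝒟 i 0 (1 : M) := by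
  unfold Eig
  rw [D_one, zero_smul]

lemma Eig.pow {i : Fin n} {a : ℚ} {w : M} (h : Eig 𝒟 i a w) (m : ℕ) :
    Eig 𝒟 i (m * a) (w ^ m) := by
  induction m with
  | zero =>
    rw [pow_zero, Nat.cast_zero, zero_mul]
    exact eig_one i
  | succ m ih =>
    have h1 := ih.mul h
    rw [pow_succ]
    have e : ((m + 1 : ℕ) : ℚ) * a = m * a + a := by push_cast; ring
    rw [e]
    exact h1

lemma Eig.inv {i : Fin n} {a : ℚ} {w : M} (h : Eig 𝒟 i a w) (h0 : w ≠ 0) :
    Eig 𝒟 i (-a) w⁻¹ := by
  unfold Eig at *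
  have h1 := 𝒟.leib i w w⁻¹
  rw [mul_inv_cancel₀ h0, D_one, h, smul_mul_assoc, mul_inv_cancel₀ h0] at h1
  have h2 : w * 𝒟.D i w⁻¹ = w * ((-a) • w⁻¹) := by
    rw [mul_smul_comm, mul_inv_cancel₀ h0, neg_smul]
    linear_combination -h1
  exact mul_left_cancel₀ h0 h2

lemma Eig.zpow {i : Fin n} {a : ℚ} {w : M} (h : Eig 𝒟 i a w) (h0 : w ≠ 0) (m : ℤ) :
    Eig 𝒟 i (m * a) (w ^ m) := by
  obtain ⟨m, rfl | rfl⟩ := m.eq_nat_or_neg
  · rw [zpow_natCast]
    exact_mod_cast h.pow m
  · rw [zpow_neg, zpow_natCast]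
    have h1 := (h.pow m).inv (pow_ne_zero _ h0)
    have e : (((-(m : ℤ)) : ℤ) : ℚ) * a = -(m * a) := by push_cast; ring
    rw [e]
    exact h1

lemma Eig.prod {ι : Type} {i : Fin n} (s : Finset ι) (a : ι → ℚ) (w : ι → M)
    (h : ∀ j ∈ s, Eig 𝒟 i (a j) (w j)) : Eig 𝒟 i (∑ j ∈ s, a j) (∏ j ∈ s, w j) := by
  classical
  induction s using Finset.induction_on with
  | empty =>
    rw [Finset.sum_empty, Finset.prod_empty]
    exact eig_one i
  | insert j s hj ih =>
    rw [Finset.sum_insert hj, Finset.prod_insert hj]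
    exact (h j (Finset.mem_insert_self j s)).mul
      (ih fun l hl => h l (Finset.mem_insert_of_mem hl))

variable (𝒟)

lemma eig_var (i j : Fin n) :
    Eig 𝒟 i (if i = j then 1 else 0) (cm k n M (MvPolynomial.X j)) := by
  unfold Eig
  rw [𝒟.var]
  split_ifs
  · rw [one_smul]
  · rw [zero_smul]

lemma eig_const (i : Fin n) (c : k) : Eig 𝒟 i 0 (cm k n M (MvPolynomial.C c)) := by
  unfold Eig
  rw [𝒟.const, zero_smul]

lemma cm_inj : Function.Injective (cm k n M) :=
  (algebraMap (En k n) M).injective.comp (IsFractionRing.injective (Pn k n) (En k n))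

lemma X_ne (j : Fin n) : cm k n M (MvPolynomial.X j) ≠ 0 := by
  intro h
  have h1 := cm_inj (k := k) (n := n) (M := M) (h.trans (map_zero _).symm)
  exact MvPolynomial.X_ne_zero j h1

lemma eig_zprod (i : Fin n) (β : Fin n → ℤ) :
    Eig 𝒟 i (β i) (∏ j, (cm k n M (MvPolynomial.X j)) ^ (β j)) := by
  have h := Eig.prod (𝒟 := 𝒟) (i := i) univ (fun j => (β j : ℚ) * (if i = j then 1 else 0))
    (fun j => (cm k n M (MvPolynomial.X j)) ^ (β j))
    (fun j _ => (eig_var 𝒟 i j).zpow (X_ne j) (β j))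
  have e : ∑ j, (β j : ℚ) * (if i = j then 1 else 0) = β i := by
    simp
  rw [e] at h
  exact h

lemma eig_monomial (i : Fin n) (a : Fin n →₀ ℕ) :
    Eig 𝒟 i (a i) (cm k n M (MvPolynomial.monomial a 1)) := by
  have h := Eig.prod (𝒟 := 𝒟) (i := i) univ (fun j => (a j : ℚ) * (if i = j then 1 else 0))
    (fun j => (cm k n M (MvPolynomial.X j)) ^ (a j))
    (fun j _ => (eig_var 𝒟 i j).pow (a j))
  have e : ∑ j, (a j : ℚ) * (if i = j then 1 else 0) = a i := by
    simp
  rw [e] at h
  have e2 : cm k n M (MvPolynomial.monomial a 1) =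
      ∏ j, (cm k n M (MvPolynomial.X j)) ^ (a j) := by
    rw [MvPolynomial.monomial_eq, map_one, one_mul, Finsupp.prod_fintype _ _ (by simp), map_prod]
    exact Finset.prod_congr rfl fun j _ => map_pow _ _ _
  rw [e2]
  exact h

/-- eigenvectors with different eigenvalues are independent -/
lemma indep (S : Finset (Fin n →₀ ℕ)) : ∀ w : (Fin n →₀ ℕ) → M,
    (∀ a ∈ S, ∀ i, Eig 𝒟 i (a i) (w a)) → ∑ a ∈ S, w a = 0 → ∀ a ∈ S, w a = 0 := by
  classical
  induction S using Finset.induction_on with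
  | empty =>
    intro w _ _ a ha
    exact absurd ha (Finset.notMem_empty a)
  | insert b S hb ih =>
    intro w hw hs
    rw [Finset.sum_insert hb] at hs
    have h1 : ∀ i, ∀ a ∈ S, ((a i : ℚ) - b i) • w a = 0 := by
      intro i
      refine ih (fun a => ((a i : ℚ) - b i) • w a) ?_ ?_
      · intro a ha j
        have h2 := hw a (Finset.mem_insert_of_mem ha) j
        unfold Eig at *
        rw [map_smul, h2, smul_comm]
      · have h2 : 𝒟.D i (w b + ∑ a ∈ S, w a) = 0 := by rw [hs, map_zero]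
        rw [map_add, map_sum, hw b (Finset.mem_insert_self b S) i,
          Finset.sum_congr rfl fun a ha => hw a (Finset.mem_insert_of_mem ha) i] at h2
        have h3 : (b i : ℚ) • (w b + ∑ a ∈ S, w a) = 0 := by rw [hs, smul_zero]
        rw [smul_add, Finset.smul_sum] at h3
        have h4 : ∑ a ∈ S, ((a i : ℚ) - b i) • w a =
            ∑ a ∈ S, (a i : ℚ) • w a - ∑ a ∈ S, (b i : ℚ) • w a := by
          rw [← Finset.sum_sub_distrib]
          exact Finset.sum_congr rfl fun a _ => sub_smul _ _ _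
        rw [h4]
        linear_combination h2 - h3
    have h2 : ∀ a ∈ S, w a = 0 := by
      intro a ha
      have hab : a ≠ b := fun h => hb (h ▸ ha)
      obtain ⟨i, hi⟩ : ∃ i, a i ≠ b i := by
        by_contra hcon
        push Not at hcon
        exact hab (Finsupp.ext hcon)
      have h3 := h1 i a ha
      rcases smul_eq_zero.1 h3 with h4 | h4
      · exfalso
        apply hi
        have h5 : (a i : ℚ) = b i := by linarith
        exact_mod_cast h5
      · exact h4
    intro a ha
    rcases Finset.mem_insert.1 ha with rfl | ha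
    · rw [Finset.sum_eq_zero h2, add_zero] at hs
      exact hs
    · exact h2 a ha

/-- the constants -/
lemma const_of [IsAlgClosed k] (z : M) (hz : ∀ i, 𝒟.D i z = 0) (halg : IsAlgebraic (En k n) z) :
    ∃ c : k, z = cm k n M (MvPolynomial.C c) := by
  classical
  letI : Algebra (Pn k n) M := (cm k n M).toAlgebra
  haveI : IsScalarTower (Pn k n) (En k n) M := IsScalarTower.of_algebraMap_eq fun x => rfl
  have h1 : IsAlgebraic (Pn k n) z := (IsFractionRing.isAlgebraic_iff (Pn k n) (En k n) M).2 halg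
  obtain ⟨p, hp0, hp⟩ := h1
  let S : Finset (Fin n →₀ ℕ) := (range (p.natDegree + 1)).biUnion fun l => (p.coeff l).support
  let w : (Fin n →₀ ℕ) → M := fun a => cm k n M (MvPolynomial.monomial a 1) *
    ∑ l ∈ range (p.natDegree + 1), cm k n M (MvPolynomial.C ((p.coeff l).coeff a)) * z ^ l
  have hz' : ∀ i, Eig 𝒟 i 0 z := fun i => by
    unfold Eig
    rw [hz, zero_smul]
  have hw : ∀ a ∈ S, ∀ i, Eig 𝒟 i (a i) (w a) := by
    intro a _ i
    have h2 : Eig 𝒟 i 0 (∑ l ∈ range (p.natDegree + 1),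
        cm k n M (MvPolynomial.C ((p.coeff l).coeff a)) * z ^ l) := by
      unfold Eig
      rw [map_sum, zero_smul]
      refine Finset.sum_eq_zero fun l _ => ?_
      have h3 := (eig_const 𝒟 i ((p.coeff l).coeff a)).mul ((hz' i).pow l)
      unfold Eig at h3
      rw [h3, mul_zero, add_zero, zero_smul]
    have h3 := (eig_monomial 𝒟 i a).mul h2
    rw [add_zero] at h3
    exact h3
  have hs : ∑ a ∈ S, w a = 0 := by
    have h2 : ∑ l ∈ range (p.natDegree + 1), cm k n M (p.coeff l) * z ^ l = 0 := by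
      rw [aeval_eq_sum_range] at hp
      rw [← hp]
      refine Finset.sum_congr rfl fun l _ => ?_
      rw [Algebra.smul_def]
      rfl
    have h3 : ∀ l ∈ range (p.natDegree + 1), cm k n M (p.coeff l) =
        ∑ a ∈ S, cm k n M (MvPolynomial.monomial a 1) *
          cm k n M (MvPolynomial.C ((p.coeff l).coeff a)) := by
      intro l hl
      have h4 : p.coeff l = ∑ a ∈ S, MvPolynomial.monomial a ((p.coeff l).coeff a) := by
        conv_lhs => rw [(p.coeff l).as_sum]
        refine Finset.sum_subset (Finset.subset_biUnion_of_mem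
          (fun l => (p.coeff l).support) hl) fun a _ ha => ?_
        rw [MvPolynomial.notMem_support_iff.1 ha, MvPolynomial.monomial_zero]
      conv_lhs => rw [h4]
      rw [map_sum]
      refine Finset.sum_congr rfl fun a _ => ?_
      rw [← map_mul]
      congr 1
      rw [mul_comm, MvPolynomial.C_mul_monomial, mul_one]
    have h5 : ∀ l ∈ range (p.natDegree + 1), cm k n M (p.coeff l) * z ^ l =
        ∑ a ∈ S, cm k n M (MvPolynomial.monomial a 1) *
          cm k n M (MvPolynomial.C ((p.coeff l).coeff a)) * z ^ l := by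
      intro l hl
      rw [h3 l hl, Finset.sum_mul]
    rw [Finset.sum_congr rfl h5, Finset.sum_comm] at h2
    rw [← h2]
    refine Finset.sum_congr rfl fun a _ => ?_
    change cm k n M (MvPolynomial.monomial a 1) * _ = _
    rw [Finset.mul_sum]
    refine Finset.sum_congr rfl fun l _ => ?_
    ring
  have hall := indep 𝒟 S w hw hs
  -- a nonzero coefficient
  obtain ⟨a, ha⟩ : ∃ a, p.leadingCoeff.coeff a ≠ 0 := by
    by_contra hcon
    push Not at hcon
    exact hp0 (leadingCoeff_eq_zero.1 (MvPolynomial.ext _ _ (by simpa using hcon)))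
  have haS : a ∈ S := by
    refine Finset.mem_biUnion.2 ⟨p.natDegree, Finset.self_mem_range_succ _, ?_⟩
    exact MvPolynomial.mem_support_iff.2 ha
  have h2 := hall a haS
  have h3 : ∑ l ∈ range (p.natDegree + 1),
      cm k n M (MvPolynomial.C ((p.coeff l).coeff a)) * z ^ l = 0 := by
    refine (mul_eq_zero.1 h2).resolve_left fun h4 => ?_
    have h5 := cm_inj (k := k) (n := n) (M := M) (h4.trans (map_zero _).symm)
    exact one_ne_zero (MvPolynomial.monomial_eq_zero.1 h5)
  -- `z` is algebraic over `k`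
  letI : Algebra k M := ((cm k n M).comp MvPolynomial.C).toAlgebra
  let q : k[X] := ∑ l ∈ range (p.natDegree + 1), Polynomial.C ((p.coeff l).coeff a) * X ^ l
  have hq : q ≠ 0 := by
    intro h4
    apply ha
    have h5 : q.coeff p.natDegree = p.leadingCoeff.coeff a := by
      change (∑ l ∈ range (p.natDegree + 1),
        Polynomial.C ((p.coeff l).coeff a) * X ^ l).coeff p.natDegree = _
      rw [finsetSum_coeff]
      simp only [coeff_C_mul, coeff_X_pow]
      rw [Finset.sum_eq_single p.natDegree]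
      · simp
      · intro j _ hj
        rw [if_neg (Ne.symm hj), mul_zero]
      · intro h6
        exact absurd (Finset.self_mem_range_succ _) h6
    rw [← h5, h4, coeff_zero]
  have hqz : aeval z q = 0 := by
    change aeval z (∑ l ∈ range (p.natDegree + 1), Polynomial.C ((p.coeff l).coeff a) * X ^ l) = 0
    rw [map_sum, ← h3]
    refine Finset.sum_congr rfl fun l _ => ?_
    rw [map_mul, map_pow, aeval_X, aeval_C]
    rfl
  have hint : IsIntegral k z := (show IsAlgebraic k z from ⟨q, hq, hqz⟩).isIntegral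
  have h4 := minpoly.mem_range_of_degree_eq_one k z
    (IsAlgClosed.degree_eq_one_of_irreducible k (minpoly.irreducible hint))
  obtain ⟨c, hc⟩ := h4
  exact ⟨c, hc.symm⟩

end der

end EIG_

theorem t_EIG : S_EIG := by
  intro k _ _ _ n M _ _ _ _ 𝒟 A hA L α hα
  classical
  have hcomm : ∀ i j, Commute (𝒟.Dv (A i)) (𝒟.Dv (A j)) := by
    intro i j
    unfold Ders.Dv
    refine Commute.sum_left _ _ _ fun a _ => Commute.sum_right _ _ _ fun b _ => ?_
    exact ((show Commute (𝒟.D a) (𝒟.D b) from 𝒟.comm a b).smul_left _).smul_right _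
  obtain ⟨I, hI, v, hv, hχ⟩ := EIG_.decomp (fun j => 𝒟.Dv (A j)) hcomm L α
    (fun j => hα j) univ
  -- eigenvectors of the `D i`
  have hD : ∀ χ, ∃ q : Fin n → ℚ, ∀ i, EIG_.Eig 𝒟 i (q i) (v χ) := by
    intro χ
    choose c hc using fun j => (hχ χ).1 j (Finset.mem_univ j)
    let Am : Matrix (Fin n) (Fin n) ℚ := Matrix.of (fun j i => (A j i : ℚ))
    have hinv : Am⁻¹ * Am = 1 := Matrix.nonsing_inv_mul Am (isUnit_iff_ne_zero.2 hA)
    refine ⟨fun i => ∑ j, Am⁻¹ i j * c j, fun i => ?_⟩
    unfold EIG_.Eig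
    have h1 : ∑ j, Am⁻¹ i j • (𝒟.Dv (A j)) (v χ) = 𝒟.D i (v χ) := by
      have h2 : ∀ j, Am⁻¹ i j • (𝒟.Dv (A j)) (v χ) =
          ∑ l, (Am⁻¹ i j * Am j l) • 𝒟.D l (v χ) := by
        intro j
        unfold Ders.Dv
        rw [LinearMap.sum_apply, Finset.smul_sum]
        refine Finset.sum_congr rfl fun l _ => ?_
        rw [LinearMap.smul_apply, smul_smul]
        rfl
      rw [Finset.sum_congr rfl fun j _ => h2 j, Finset.sum_comm]
      have h3 : ∀ l, ∑ j, (Am⁻¹ i j * Am j l) • 𝒟.D l (v χ) =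
          ((1 : Matrix (Fin n) (Fin n) ℚ) i l) • 𝒟.D l (v χ) := by
        intro l
        rw [← Finset.sum_smul, ← hinv, Matrix.mul_apply]
      rw [Finset.sum_congr rfl fun l _ => h3 l, Finset.sum_eq_single i]
      · rw [Matrix.one_apply_eq, one_smul]
      · intro l _ hl
        rw [Matrix.one_apply_ne (Ne.symm hl), zero_smul]
      · intro h4
        exact absurd (Finset.mem_univ i) h4
    rw [← h1, Finset.sum_smul]
    refine Finset.sum_congr rfl fun j _ => ?_
    rw [hc j, smul_smul]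
  choose q hq using hD
  let m0 : ℕ := ∏ χ, ∏ i, (q χ i).den
  have hm0 : 1 ≤ m0 := by
    refine Nat.one_le_iff_ne_zero.2 ?_
    exact Finset.prod_ne_zero_iff.2 fun χ _ => Finset.prod_ne_zero_iff.2 fun i _ => (q χ i).den_nz
  have hβ : ∀ χ i, ∃ β : ℤ, (β : ℚ) = m0 * q χ i := by
    intro χ i
    have h1 : (q χ i).den ∣ m0 :=
      (Finset.dvd_prod_of_mem (fun i => (q χ i).den) (Finset.mem_univ i)).trans
        (Finset.dvd_prod_of_mem (fun χ => ∏ i, (q χ i).den) (Finset.mem_univ χ))
    obtain ⟨d, hd⟩ := h1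
    refine ⟨d * (q χ i).num, ?_⟩
    rw [hd]
    push_cast
    have h2 := Rat.mul_den_eq_num (q χ i)
    linear_combination (-(d : ℚ)) * h2
  choose β hβ using hβ
  refine ⟨m0, I, hI, v, hm0, hv, fun χ => ?_⟩
  by_cases h0 : v χ = 0
  · refine ⟨0, 0, ?_⟩
    rw [h0, zero_pow (by omega), map_zero, map_zero, zero_mul]
  · set Pr : M := ∏ i, (cm k n M (MvPolynomial.X i)) ^ (β χ i) with hPr
    have hP0 : Pr ≠ 0 := Finset.prod_ne_zero_iff.2 fun i _ => zpow_ne_zero _ (EIG_.X_ne i)
    have hz : ∀ i, 𝒟.D i (v χ ^ m0 * Pr⁻¹) = 0 := by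
      intro i
      have h1 := ((hq χ i).pow m0).mul ((EIG_.eig_zprod 𝒟 i (β χ)).inv hP0)
      unfold EIG_.Eig at h1
      rw [h1, hβ χ i, add_neg_cancel, zero_smul]
    obtain ⟨c, hc⟩ := EIG_.const_of 𝒟 _ hz (Algebra.IsAlgebraic.isAlgebraic _)
    refine ⟨c, β χ, ?_⟩
    rw [← hc, mul_assoc, inv_mul_cancel₀ hP0, mul_one]

end Pool.Agent.N120.TH
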