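import Pool.Agent.N120.TH.Stm2

/-!
# ENT: entire curves from sections

Project TH (helper120), this file by helper424.
-/

set_option autoImplicit false
set_option linter.all false

namespace Pool.Agent.N120.TH

namespace ENT_

open Finset Polynomial

/-- evaluation of a polynomial after a ring homomorphism -/
theorem hom_eval {R S A : Type} [CommRing R] [CommRing S] [CommRing A] (α : R →+* S) (E : S →+* A)
    (p : Polynomial R) (x : S) : E ((p.map α).eval x) = (p.map (E.comp α)).eval (E x) := by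
  rw [← eval₂_hom, ← eval_map, Polynomial.map_map]

variable {K : Type} [Field K] {n : ℕ} {σ : K →+* ℂ} {τ : AlgebraicClosure K →+* ℂ}

theorem ev (hτ : τ.comp (algebraMap K (AlgebraicClosure K)) = σ) (t : Fin n → ℂ) (m : ℕ)
    (f : Polynomial (MvPolynomial (Fin n) K)) (h : Pn (AlgebraicClosure K) n) :
    MvPolynomial.eval₂Hom τ t (((bar f).map (MvPolynomial.expand m :
      Pn (AlgebraicClosure K) n →ₐ[AlgebraicClosure K] Pn (AlgebraicClosure K) n).toRingHom).eval h) =
      (f.map (MvPolynomial.eval₂Hom σ (fun i => t i ^ m))).eval (MvPolynomial.eval₂Hom τ t h) := by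
  unfold bar
  rw [Polynomial.map_map, hom_eval]
  congr 2
  apply MvPolynomial.ringHom_ext
  · intro a
    simp only [RingHom.comp_apply, AlgHom.toRingHom_eq_coe, RingHom.coe_coe, MvPolynomial.map_C,
      MvPolynomial.expand_C, MvPolynomial.eval₂Hom_C]
    rw [← hτ]
    rfl
  · intro i
    simp only [RingHom.comp_apply, AlgHom.toRingHom_eq_coe, RingHom.coe_coe, MvPolynomial.map_X,
      MvPolynomial.expand_X, MvPolynomial.eval₂Hom_X', map_pow]

theorem diff (τ : AlgebraicClosure K →+* ℂ) (g : Fin n → ℂ → ℂ) (hg : ∀ i, Differentiable ℂ (g i))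
    (h : Pn (AlgebraicClosure K) n) :
    Differentiable ℂ (fun z => MvPolynomial.eval₂Hom τ (fun i => g i z) h) := by
  induction h using MvPolynomial.induction_on with
  | C a =>
    simp only [MvPolynomial.eval₂Hom_C]
    exact differentiable_const _
  | add p q hp hq =>
    simp only [map_add]
    exact hp.add hq
  | mul_X p i hp =>
    simp only [map_mul, MvPolynomial.eval₂Hom_X']
    exact hp.mul (hg i)

end ENT_

open Finset Polynomial NumberField in
theorem t_ENT : S_ENT := by
  intro K _ _ σ n s f G hn hE m hm h hf j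
  letI : Algebra K ℂ := σ.toAlgebra
  let τA : AlgebraicClosure K →ₐ[K] ℂ := IsAlgClosed.lift
  obtain ⟨τ, hτd⟩ : ∃ τ : AlgebraicClosure K →+* ℂ, τ = τA.toRingHom := ⟨_, rfl⟩
  have hτ : τ.comp (algebraMap K (AlgebraicClosure K)) = σ := by
    rw [hτd]
    ext a
    exact τA.commutes a
  by_contra hg
  obtain ⟨g, hgd⟩ : ∃ g, g = ((bar (G j)).map (MvPolynomial.expand m :
    Pn (AlgebraicClosure K) n →ₐ[AlgebraicClosure K] Pn (AlgebraicClosure K) n).toRingHom).eval h :=
    ⟨_, rfl⟩
  rw [← hgd] at hg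
  -- a point
  have hg1 : MvPolynomial.map τ g * ∏ i : Fin n, MvPolynomial.X i ≠ 0 := by
    apply mul_ne_zero
    · intro h0
      apply hg
      apply MvPolynomial.map_injective τ τ.injective
      rw [h0, map_zero]
    · exact prod_ne_zero_iff.2 fun i _ => MvPolynomial.X_ne_zero i
  obtain ⟨x0, hx0⟩ : ∃ x0 : Fin n → ℂ,
      MvPolynomial.eval x0 (MvPolynomial.map τ g * ∏ i : Fin n, MvPolynomial.X i) ≠ 0 := by
    by_contra hcon
    push Not at hcon
    apply hg1
    apply MvPolynomial.funext
    intro x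
    rw [hcon x, map_zero]
  rw [map_mul, map_prod] at hx0
  have hx1 : MvPolynomial.eval₂Hom τ x0 g ≠ 0 := by
    intro h0
    apply hx0
    rw [MvPolynomial.eval_map, ← MvPolynomial.coe_eval₂Hom, h0, zero_mul]
  have hx2 : ∀ i, x0 i ≠ 0 := by
    intro i h0
    apply hx0
    rw [prod_eq_zero (mem_univ i) (by rw [MvPolynomial.eval_X, h0]), mul_zero]
  -- the curve
  have hcurve := hE (fun i z => (x0 i * Complex.exp z) ^ m)
    (fun z => MvPolynomial.eval₂Hom τ (fun i => x0 i * Complex.exp z) h) ?_ ?_ ?_ ?_ ?_ j 0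
  · rw [← ENT_.ev hτ (fun i => x0 i * Complex.exp 0) m (G j) h, ← hgd] at hcurve
    simp only [Complex.exp_zero, mul_one] at hcurve
    exact hx1 hcurve
  · intro i
    exact ((Complex.differentiable_exp.const_mul (x0 i)).pow m)
  · intro i z
    exact pow_ne_zero _ (mul_ne_zero (hx2 i) (Complex.exp_ne_zero z))
  · exact ENT_.diff τ (fun i z => x0 i * Complex.exp z)
      (fun i => Complex.differentiable_exp.const_mul (x0 i)) h
  · intro z
    rw [← ENT_.ev hτ (fun i => x0 i * Complex.exp z) m f h, hf, map_zero]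
  · refine ⟨0, 1 / m, Or.inl ⟨⟨0, hn⟩, ?_⟩⟩
    intro h0
    rw [Complex.exp_zero, mul_one, mul_pow, ← Complex.exp_nat_mul] at h0
    have hm0 : (m : ℂ) ≠ 0 := by
      have : m ≠ 0 := by omega
      exact_mod_cast this
    rw [mul_one_div_cancel hm0] at h0
    have h1 : Complex.exp 1 = 1 := by
      have h2 : x0 ⟨0, hn⟩ ^ m * Complex.exp 1 = x0 ⟨0, hn⟩ ^ m * 1 := by
        rw [← h0, mul_one]
      exact mul_left_cancel₀ (pow_ne_zero _ (hx2 _)) h2
    have h3 := congrArg norm h1
    rw [Complex.norm_exp, Complex.one_re, norm_one] at h3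
    have h4 := Real.add_one_lt_exp (x := 1) one_ne_zero
    linarith

end Pool.Agent.N120.TH
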