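import Pool.Agent.N120.TH.Stm

/-!
# Project TH (helper120), part FAC (helper866): a splitting field of minimal degree
-/

set_option autoImplicit false
set_option linter.unusedSectionVars false
set_option linter.style.haveILetI false

namespace Pool.Agent.N120.TH

open Finset Polynomial

namespace FAC_

/-- The degree drops if an element becomes rational. -/
lemma deg_lt {E M Ω : Type} [Field E] [CharZero E] [Field M] [Algebra E M] [FiniteDimensional E M]
    [Field Ω] [Algebra E Ω] (ι : M →+* Ω)
    (hE : ∀ e : E, ι (algebraMap E M e) ∈ (algebraMap E Ω).range) (α : M)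
    (hα : ι α ∈ (algebraMap E Ω).range) (hαn : α ∉ (algebraMap E M).range) :
    ∃ M' : IntermediateField E Ω, FiniteDimensional E M' ∧ (∀ z : M, ι z ∈ M') ∧
      Module.finrank E M' < Module.finrank E M := by
  let F : IntermediateField E M := IntermediateField.adjoin E {α}
  have hF : ∀ z : F, ι z ∈ (algebraMap E Ω).range := by
    intro z
    let S : IntermediateField E M := ((algebraMap E Ω).fieldRange.comap ι).toIntermediateField
      (fun e => hE e)
    have h1 : F ≤ S := by
      rw [IntermediateField.adjoin_le_iff]
      rintro x hx
      rw [Set.mem_singleton_iff.1 hx]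
      exact hα
    exact h1 z.2
  have hinj : Function.Injective (algebraMap E Ω) := (algebraMap E Ω).injective
  let e : E ≃+* (algebraMap E Ω).range := RingEquiv.ofBijective (algebraMap E Ω).rangeRestrict
    ⟨fun a b hab => hinj (congrArg Subtype.val hab), (algebraMap E Ω).rangeRestrict_surjective⟩
  let κ : F →+* E := (e.symm : (algebraMap E Ω).range →+* E).comp
    ((ι.comp (algebraMap F M)).codRestrict (algebraMap E Ω).range hF)
  have hκ : ∀ z : F, algebraMap E Ω (κ z) = ι z := by
    intro z
    have h1 : e (κ z) = (ι.comp (algebraMap F M)).codRestrict (algebraMap E Ω).range hF z :=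
      e.apply_symm_apply _
    exact congrArg Subtype.val h1
  have hcz : CharZero F := charZero_of_injective_algebraMap (algebraMap E F).injective
  haveI : FiniteDimensional F M := Module.Finite.of_restrictScalars_finite E F M
  obtain ⟨θ, hθ⟩ := Field.exists_primitive_element F M
  have hθd : (minpoly F θ).natDegree = Module.finrank F M :=
    (Field.primitive_element_iff_minpoly_natDegree_eq F θ).1 hθ
  have hθi : IsIntegral F θ := IsIntegral.of_finite F θ
  let p' : E[X] := (minpoly F θ).map κ
  have hp'm : p'.Monic := (minpoly.monic hθi).map κ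
  have hp'd : p'.natDegree = Module.finrank F M := by
    rw [← hθd]
    exact (minpoly.monic hθi).natDegree_map κ
  have hp'0 : aeval (ι θ) p' = 0 := by
    change eval₂ (algebraMap E Ω) (ι θ) ((minpoly F θ).map κ) = 0
    rw [eval₂_map]
    have h1 : (algebraMap E Ω).comp κ = ι.comp (algebraMap F M) := RingHom.ext hκ
    rw [h1, ← hom_eval₂]
    have h2 : eval₂ (algebraMap F M) θ (minpoly F θ) = 0 := minpoly.aeval F θ
    rw [h2, map_zero]
  have hint : IsIntegral E (ι θ) := ⟨p', hp'm, hp'0⟩
  refine ⟨IntermediateField.adjoin E {ι θ}, IntermediateField.adjoin.finiteDimensional hint, ?_, ?_⟩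
  · intro z
    let M' : IntermediateField E Ω := IntermediateField.adjoin E {ι θ}
    let S : IntermediateField F M := (M'.toSubfield.comap ι).toIntermediateField (fun x => by
      change ι x ∈ M'
      rw [← hκ x]
      exact M'.algebraMap_mem _)
    have h1 : IntermediateField.adjoin F {θ} ≤ S := by
      rw [IntermediateField.adjoin_le_iff]
      rintro x hx
      rw [Set.mem_singleton_iff.1 hx]
      change ι θ ∈ M'
      exact IntermediateField.mem_adjoin_simple_self E _
    have h2 : z ∈ S := h1 (by rw [hθ]; exact IntermediateField.mem_top)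
    exact h2
  · have h1 : Module.finrank E (IntermediateField.adjoin E {ι θ}) ≤ Module.finrank F M := by
      rw [IntermediateField.adjoin.finrank hint, ← hp'd]
      exact natDegree_le_of_dvd (minpoly.dvd E _ hp'0) hp'm.ne_zero
    have h2 : Module.finrank E F * Module.finrank F M = Module.finrank E M :=
      Module.finrank_mul_finrank E F M
    have h3 : Module.finrank E F ≠ 1 := by
      intro h4
      rw [IntermediateField.finrank_eq_one_iff, IntermediateField.adjoin_simple_eq_bot_iff,
        IntermediateField.mem_bot] at h4
      exact hαn h4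
    have h4 : 0 < Module.finrank E F := Module.finrank_pos
    have h5 : 0 < Module.finrank F M := Module.finrank_pos
    nlinarith [show 2 ≤ Module.finrank E F by omega]

section

variable {k : Type} [Field k] {n : ℕ}

/-- `f(x ^ e, y)` over the field of rational functions -/
noncomputable def fe (f : (Pn k n)[X]) (e : ℕ) : (En k n)[X] :=
  (f.map (MvPolynomial.expand e : Pn k n →ₐ[k] Pn k n).toRingHom).map
    (algebraMap (Pn k n) (En k n))

/-- the degree of the splitting field -/
noncomputable def dg (f : (Pn k n)[X]) (e : ℕ) : ℕ :=
  Module.finrank (En k n) (fe f e).SplittingField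

end

end FAC_

theorem t_FAC : S_FAC := by
  intro k _ _ _ n f hf
  classical
  haveI : CharZero (En k n) := by
    refine charZero_of_injective_algebraMap (R := Pn k n) ?_
    exact IsFractionRing.injective (Pn k n) (En k n)
  -- the minimal degree
  have hex : ∃ N : ℕ, ∃ e : ℕ, 1 ≤ e ∧ FAC_.dg f e = N := ⟨_, 1, le_refl 1, rfl⟩
  obtain ⟨k0, hk0, hk0N⟩ := Nat.find_spec hex
  have hmin : ∀ e, 1 ≤ e → FAC_.dg f k0 ≤ FAC_.dg f e := by
    intro e he
    rw [hk0N]
    exact Nat.find_min' hex ⟨e, he, rfl⟩
  let g := FAC_.fe f k0
  haveI : Normal (En k n) g.SplittingField := Normal.of_isSplittingField g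
  have hspl : (g.map (algebraMap (En k n) g.SplittingField)).Splits := SplittingField.splits g
  refine ⟨k0, g.SplittingField, inferInstance, inferInstance, inferInstance, inferInstance, hk0,
    ?_, ?_⟩
  · intro m hm ι hι α hα
    by_contra hαn
    have hιP : ∀ P : Pn k n, ι (cm k n g.SplittingField P) =
        algebraMap (En k n) (Om k n) (algebraMap (Pn k n) (En k n)
          (MvPolynomial.expand m P)) := fun P => congrArg (fun h => h P) hι
    have hE : ∀ e : En k n, ι (algebraMap (En k n) g.SplittingField e) ∈
        (algebraMap (En k n) (Om k n)).range := by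
      intro e
      obtain ⟨P, Q, -, rfl⟩ := IsFractionRing.div_surjective (Pn k n) e
      rw [map_div₀, map_div₀]
      have h1 := hιP P
      have h2 := hιP Q
      refine ⟨algebraMap (Pn k n) (En k n) (MvPolynomial.expand m P) /
        algebraMap (Pn k n) (En k n) (MvPolynomial.expand m Q), ?_⟩
      rw [map_div₀, ← h1, ← h2]
      rfl
    obtain ⟨M', hM'f, hM', hlt⟩ := FAC_.deg_lt ι hE α hα hαn
    have hmap : (FAC_.fe f (k0 * m)).map (algebraMap (En k n) (Om k n)) =
        (g.map (algebraMap (En k n) g.SplittingField)).map ι := by
      change ((f.map _).map _).map _ = (((f.map _).map _).map _).map _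
      rw [Polynomial.map_map, Polynomial.map_map, Polynomial.map_map, Polynomial.map_map,
        Polynomial.map_map]
      congr 1
      refine RingHom.ext fun P => ?_
      have h1 := hιP (MvPolynomial.expand k0 P)
      rw [← MvPolynomial.expand_mul, mul_comm] at h1
      exact h1.symm
    have hsplM' : ((FAC_.fe f (k0 * m)).map (algebraMap (En k n) M')).Splits := by
      refine IntermediateField.splits_of_splits (IsAlgClosed.splits _) fun x hx => ?_
      rw [Polynomial.rootSet_def, Finset.mem_coe, Multiset.mem_toFinset, Polynomial.aroots, hmap,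
        hspl.roots_map ι, Multiset.mem_map] at hx
      obtain ⟨r, -, rfl⟩ := hx
      exact hM' r
    let φ := SplittingField.lift (FAC_.fe f (k0 * m)) hsplM'
    have hle : FAC_.dg f (k0 * m) ≤ Module.finrank (En k n) M' :=
      LinearMap.finrank_le_finrank_of_injective (f := φ.toLinearMap) φ.toRingHom.injective
    have h1 := hmin (k0 * m) (Nat.one_le_iff_ne_zero.2 (by positivity))
    exact absurd (lt_of_lt_of_le hlt (h1.trans hle)) (lt_irrefl _)
  · have h1 : (f.map (MvPolynomial.expand k0 : Pn k n →ₐ[k] Pn k n).toRingHom).map
        (cm k n g.SplittingField) = g.map (algebraMap (En k n) g.SplittingField) := by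
      change _ = ((f.map _).map _).map _
      rw [Polynomial.map_map (algebraMap (Pn k n) (En k n))]
      rfl
    rw [h1]
    exact hspl

end Pool.Agent.N120.TH
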