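import Pool.Agent.N120.TH.Stm

/-!
# TH/FCT (helper755 for helper120): monic factorisation
-/

set_option autoImplicit false

namespace Pool.Agent.N120.TH

open Finset Polynomial

theorem FCT_.aux (k : Type) [Field k] (n : ℕ) : ∀ (N : ℕ) (g : (Pn k n)[X]), g.Monic →
    g.natDegree ≤ N → ∃ (r : ℕ) (φ : Fin r → (Pn k n)[X]), (∀ j, (φ j).Monic ∧
      Irreducible ((φ j).map (algebraMap (Pn k n) (En k n)))) ∧ g = ∏ j, φ j := by
  intro N
  induction N with
  | zero =>
    intro g hg hd
    refine ⟨0, fun _ => 1, fun j => j.elim0, ?_⟩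
    rw [Finset.univ_eq_empty, Finset.prod_empty]
    exact hg.natDegree_eq_zero.1 (Nat.le_zero.1 hd)
  | succ N ih =>
    intro g hg hd
    by_cases h0 : g.natDegree ≤ N
    · exact ih g hg h0
    have hdeg : g.natDegree = N + 1 := by omega
    have hg1 : g ≠ 1 := by
      rintro rfl
      rw [natDegree_one] at hdeg
      omega
    by_cases hirr : Irreducible g
    · refine ⟨1, fun _ => g, fun _ => ⟨hg, ?_⟩, ?_⟩
      · exact (hg.irreducible_iff_irreducible_map_fraction_map (K := En k n)).1 hirr
      · rw [Fin.prod_univ_one]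
    · rw [hg.irreducible_iff_natDegree] at hirr
      push Not at hirr
      obtain ⟨f, h, hf, hh, hfh, hf0, hh0⟩ := hirr hg1
      have h1 : f.natDegree + h.natDegree = N + 1 := by
        rw [← hdeg, ← hfh, hf.natDegree_mul hh]
      obtain ⟨r1, φ1, h2, h3⟩ := ih f hf (by omega)
      obtain ⟨r2, φ2, h4, h5⟩ := ih h hh (by omega)
      refine ⟨r1 + r2, Fin.append φ1 φ2, fun j => ?_, ?_⟩
      · refine Fin.addCases (fun i => ?_) (fun i => ?_) j
        · rw [Fin.append_left]
          exact h2 i
        · rw [Fin.append_right]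
          exact h4 i
      · rw [Fin.prod_univ_add]
        simp only [Fin.append_left, Fin.append_right]
        rw [← h3, ← h5, hfh]

theorem t_FCT : S_FCT := fun k _ n g hg => FCT_.aux k n g.natDegree g hg le_rfl

end Pool.Agent.N120.TH
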