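import Pool.Agent.N120.TH.Stm

/-!
Fibres of the exponent box (theorem `t_FIB`), project TH (helper120), by helper56.
-/

set_option autoImplicit false

namespace Pool.Agent.N120.TH

namespace FIB_

/-- Elements of the subgroup generated by `g` are products with exponents in `[0, |H|)`. -/
theorem expo {r : ℕ} {H : Type} [CommGroup H] [Fintype H] (g : Fin r → H) (k : H)
    (hk : k ∈ Subgroup.closure (Set.range g)) :
    ∃ w : Fin r → ℤ, (∀ j, 0 ≤ w j) ∧ (∀ j, w j < Fintype.card H) ∧ ∏ j, g j ^ (w j) = k := by
  classical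
  have h1 : ∃ w : Fin r → ℤ, ∏ j, g j ^ (w j) = k := by
    induction hk using Subgroup.closure_induction with
    | mem x hx =>
      obtain ⟨i, rfl⟩ := hx
      refine ⟨Pi.single i 1, ?_⟩
      rw [Finset.prod_eq_single i]
      · simp
      · intro j _ hj
        simp [Pi.single_eq_of_ne hj]
      · intro h
        exact absurd (Finset.mem_univ i) h
    | one => exact ⟨0, by simp⟩
    | mul x y _ _ hx hy =>
      obtain ⟨v, hv⟩ := hx
      obtain ⟨w, hw⟩ := hy
      refine ⟨v + w, ?_⟩
      rw [← hv, ← hw, ← Finset.prod_mul_distrib]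
      exact Finset.prod_congr rfl fun j _ => by rw [Pi.add_apply, zpow_add]
    | inv x _ hx =>
      obtain ⟨v, hv⟩ := hx
      refine ⟨-v, ?_⟩
      rw [← hv, ← Finset.prod_inv_distrib]
      exact Finset.prod_congr rfl fun j _ => by rw [Pi.neg_apply, zpow_neg]
  obtain ⟨w, hw⟩ := h1
  have hc : (0 : ℤ) < Fintype.card H := by exact_mod_cast Fintype.card_pos
  refine ⟨fun j => w j % (Fintype.card H : ℤ), fun j => Int.emod_nonneg _ hc.ne',
    fun j => Int.emod_lt_of_pos _ hc, ?_⟩
  rw [← hw]
  exact Finset.prod_congr rfl fun j _ => by rw [zpow_mod_card]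

end FIB_

/-- **FIB**. -/
theorem t_FIB : S_FIB := by
  classical
  intro r H _ _ g u N z hN
  have hw := fun k : Subgroup.closure (Set.range g) => FIB_.expo g k.1 k.2
  choose w hw0 hw1 hw2 using hw
  set F := (Fintype.piFinset (fun j => Finset.Ico (u j) (u j + N))).filter
    (fun v => ∏ j, g j ^ (v j) = z) with hF
  set B := Fintype.piFinset (fun j => Finset.Ico (u j) (u j + 2 * N)) with hB
  have hcard : (F ×ˢ (Finset.univ : Finset (Subgroup.closure (Set.range g)))).card ≤ B.card := by
    refine Finset.card_le_card_of_injOn (fun p => p.1 + w p.2) ?_ ?_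
    · rintro ⟨v, k⟩ hp
      have hv : v ∈ F := (Finset.mem_product.mp hp).1
      rw [hF, Finset.mem_filter, Fintype.mem_piFinset] at hv
      have : v + w k ∈ B := by
        rw [hB, Fintype.mem_piFinset]
        intro j
        have h1 := Finset.mem_Ico.mp (hv.1 j)
        have h2 := hw0 k j
        have h3 := hw1 k j
        have h4 : (Fintype.card H : ℤ) ≤ N := by exact_mod_cast hN
        rw [Finset.mem_Ico, Pi.add_apply]
        constructor <;> linarith [h1.1, h1.2]
      exact this
    · rintro ⟨v, k⟩ hp ⟨v', k'⟩ hp' he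
      have hv : v ∈ F := (Finset.mem_product.mp hp).1
      have hv' : v' ∈ F := (Finset.mem_product.mp hp').1
      rw [hF, Finset.mem_filter] at hv hv'
      have he' : v + w k = v' + w k' := he
      have h1 : ∀ (v : Fin r → ℤ) (k : Subgroup.closure (Set.range g)),
          ∏ j, g j ^ (v j) = z → ∏ j, g j ^ ((v + w k) j) = z * k := by
        intro v k h
        rw [← h, ← hw2 k, ← Finset.prod_mul_distrib]
        exact Finset.prod_congr rfl fun j _ => by rw [Pi.add_apply, zpow_add]
      have h2 := h1 v k hv.2
      have h3 := h1 v' k' hv'.2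
      rw [he', h3] at h2
      have hk : k = k' := Subtype.ext (mul_left_cancel h2).symm
      subst hk
      have hvv : v = v' := add_right_cancel he'
      rw [hvv]
  rw [Finset.card_product, Finset.card_univ, ← Nat.card_eq_fintype_card] at hcard
  have hBc : B.card = (2 * N) ^ r := by
    rw [hB, Fintype.card_piFinset]
    have h1 : ∀ j : Fin r, (Finset.Ico (u j) (u j + 2 * (N : ℤ))).card = 2 * N := by
      intro j
      rw [Int.card_Ico]
      omega
    rw [Finset.prod_congr rfl fun j _ => h1 j]
    simp
  rw [hBc] at hcard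
  have : ((F.card * Nat.card (Subgroup.closure (Set.range g)) : ℕ) : ℝ) ≤ ((2 * N) ^ r : ℕ) := by
    exact_mod_cast hcard
  push_cast at this
  exact this

end Pool.Agent.N120.TH
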