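import Pool.Agent.N120.TH.Stm

/-!
# TH/HIT: from irreducibility to roots of resolvents
-/

set_option autoImplicit false

namespace Pool.Agent.N120.TH

open Finset Polynomial

namespace HIT_

section resolvent

variable {B B' : Type} [CommRing B] [CommRing B']

/-- product of `X - ∏ (lam - t)` over the sub-multisets with `j` elements -/
noncomputable def UU (lam j : ℕ) (S : Multiset B) : B[X] :=
  ((S.powersetCard j).map (fun T => X - C ((T.map (fun t => (lam : B) - t)).prod))).prod

theorem UU_map (φ : B →+* B') (lam j : ℕ) (S : Multiset B) :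
    (UU lam j S).map φ = UU lam j (S.map φ) := by
  unfold UU
  rw [Polynomial.map_multiset_prod, Multiset.map_map, Multiset.powersetCard_map, Multiset.map_map]
  congr 1
  apply Multiset.map_congr rfl
  intro T _
  simp only [Function.comp_apply]
  rw [Polynomial.map_sub, map_X, map_C, map_multiset_prod, Multiset.map_map, Multiset.map_map]
  congr 3
  apply Multiset.map_congr rfl
  intro t _
  simp

theorem UU_monic (lam j : ℕ) (S : Multiset B) : (UU lam j S).Monic :=
  monic_multiset_prod_of_monic _ _ (fun T _ => monic_X_sub_C _)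

theorem UU_eval (lam j : ℕ) (S : Multiset B) (a : B) : (UU lam j S).eval a =
    ((S.powersetCard j).map (fun T => a - (T.map (fun t => (lam : B) - t)).prod)).prod := by
  unfold UU
  rw [eval_multiset_prod, Multiset.map_map]
  congr 1
  apply Multiset.map_congr rfl
  intro T _
  simp

theorem UU_root {lam j : ℕ} {S T : Multiset B} (h : T ∈ S.powersetCard j) :
    (UU lam j S).eval ((T.map (fun t => (lam : B) - t)).prod) = 0 := by
  rw [UU_eval]
  apply Multiset.prod_eq_zero
  rw [Multiset.mem_map]
  exact ⟨T, h, by simp⟩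

theorem UU_eq_zero [IsDomain B] {lam j : ℕ} {S : Multiset B} {a : B}
    (h : (UU lam j S).eval a = 0) :
    ∃ T ∈ S.powersetCard j, a = (T.map (fun t => (lam : B) - t)).prod := by
  rw [UU_eval, Multiset.prod_eq_zero_iff, Multiset.mem_map] at h
  obtain ⟨T, hT, h⟩ := h
  exact ⟨T, hT, sub_eq_zero.1 h⟩

/-- the generic roots -/
noncomputable def gen (D : ℕ) : Multiset (MvPolynomial (Fin D) ℤ) :=
  (univ : Finset (Fin D)).val.map MvPolynomial.X

theorem coeff_symm (D lam j c : ℕ) : ((UU lam j (gen D)).coeff c).IsSymmetric := by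
  intro e
  have h : (UU lam j (gen D)).map
      ((MvPolynomial.rename e : MvPolynomial (Fin D) ℤ →ₐ[ℤ] MvPolynomial (Fin D) ℤ) :
        MvPolynomial (Fin D) ℤ →+* MvPolynomial (Fin D) ℤ) = UU lam j (gen D) := by
    rw [UU_map]
    congr 1
    unfold gen
    rw [Multiset.map_map]
    conv_rhs => rw [← Multiset.map_univ_val_equiv e, Multiset.map_map]
    apply Multiset.map_congr rfl
    intro i _
    simp
  conv_rhs => rw [← h]
  rw [coeff_map]
  rfl

/-- the ring hom onto the symmetric polynomials -/
noncomputable def es (D : ℕ) : MvPolynomial (Fin D) ℤ →+* MvPolynomial (Fin D) ℤ :=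
  (MvPolynomial.aeval (fun i : Fin D => MvPolynomial.esymm (Fin D) ℤ (i + 1)) :
    MvPolynomial (Fin D) ℤ →ₐ[ℤ] MvPolynomial (Fin D) ℤ)

theorem exists_Q (D lam j : ℕ) : ∃ Q : (MvPolynomial (Fin D) ℤ)[X],
    Q.map (es D) = UU lam j (gen D) ∧ Q.Monic := by
  have h : UU lam j (gen D) ∈ lifts (es D) := by
    rw [lifts_iff_coeff_lifts]
    intro c
    have hs := coeff_symm D lam j c
    obtain ⟨q, hq⟩ := MvPolynomial.esymmAlgHom_surjective (σ := Fin D) (R := ℤ) (n := D) (by simp)
      ⟨(UU lam j (gen D)).coeff c, hs⟩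
    refine ⟨q, ?_⟩
    have h2 := congrArg Subtype.val hq
    rw [MvPolynomial.esymmAlgHom_apply] at h2
    exact h2
  obtain ⟨Q, h1, -, h3⟩ := lifts_and_natDegree_eq_and_monic h (UU_monic _ _ _)
  exact ⟨Q, h1, h3⟩

/-- substitute the coefficients of `f` -/
noncomputable def ph (D : ℕ) (f : B[X]) : MvPolynomial (Fin D) ℤ →+* B :=
  MvPolynomial.eval₂Hom (Int.castRingHom B)
    (fun i => (-1) ^ ((i : ℕ) + 1) * f.coeff (D - (i + 1)))

theorem ph_map (φ : B →+* B') (D : ℕ) (f : B[X]) : ph D (f.map φ) = φ.comp (ph D f) := by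
  apply MvPolynomial.ringHom_ext
  · intro r
    simp [ph]
  · intro i
    simp [ph]

theorem ph_prod (D : ℕ) (y : Fin D → B) :
    ph D (((univ : Finset (Fin D)).val.map y).map (fun t => X - C t)).prod =
      (MvPolynomial.eval₂Hom (Int.castRingHom B) y).comp (es D) := by
  apply MvPolynomial.ringHom_ext
  · intro r
    simp [ph, es]
  · intro i
    have hc : Multiset.card ((univ : Finset (Fin D)).val.map y) = D := by simp
    have hi : (i : ℕ) < D := i.2
    have h1 : (MvPolynomial.eval₂Hom (Int.castRingHom B) y).comp (es D) (MvPolynomial.X i) =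
        ((univ : Finset (Fin D)).val.map y).esymm (i + 1) := by
      rw [← MvPolynomial.aeval_esymm_eq_multiset_esymm (Fin D) ℤ]
      simp [es, MvPolynomial.aeval_def]
    rw [h1]
    unfold ph
    rw [MvPolynomial.eval₂Hom_X', Multiset.prod_X_sub_C_coeff _ (by rw [hc]; omega), hc]
    have h2 : D - (D - ((i : ℕ) + 1)) = i + 1 := by omega
    rw [h2, ← mul_assoc, ← mul_pow]
    simp

/-- the resolvent -/
noncomputable def RR (D lam j : ℕ) (f : B[X]) : B[X] := (exists_Q D lam j).choose.map (ph D f)

theorem RR_map (φ : B →+* B') (D lam j : ℕ) (f : B[X]) :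
    (RR D lam j f).map φ = RR D lam j (f.map φ) := by
  unfold RR
  rw [ph_map, Polynomial.map_map]

theorem RR_monic (D lam j : ℕ) (f : B[X]) : (RR D lam j f).Monic :=
  (exists_Q D lam j).choose_spec.2.map _

theorem RR_prod {D : ℕ} (lam j : ℕ) {S : Multiset B} (hS : Multiset.card S = D) :
    RR D lam j (S.map (fun t => X - C t)).prod = UU lam j S := by
  obtain ⟨y, hy⟩ : ∃ y : Fin D → B, (univ : Finset (Fin D)).val.map y = S := by
    subst hS
    induction S using Quotient.inductionOn with
    | _ l =>
      refine ⟨fun i => l.get (i.cast (by simp)), ?_⟩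
      rw [Fin.univ_val_map]
      simp
  unfold RR
  rw [← hy, ph_prod, ← Polynomial.map_map, (exists_Q D lam j).choose_spec.1, UU_map]
  congr 1
  unfold gen
  rw [Multiset.map_map]
  apply Multiset.map_congr rfl
  intro i _
  simp

end resolvent

theorem eval_map_apply' {A B : Type} [CommRing A] [CommRing B] (φ : A →+* B) (p : A[X]) (a : A) :
    (p.map φ).eval (φ a) = φ (p.eval a) := by
  rw [eval_map, eval₂_at_apply]

/-- a factor gives a root of the resolvent -/
theorem root_of_factor {K : Type} [Field K] {D : ℕ} (lam : ℕ) {g h : K[X]}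
    (hg : g.Monic) (hh : h.Monic) (hD : (g * h).natDegree = D) :
    (RR D lam g.natDegree (g * h)).eval (g.eval (lam : K)) = 0 := by
  set Ω := AlgebraicClosure K
  set φ := algebraMap K Ω
  apply φ.injective
  have hgs := IsAlgClosed.splits (g.map φ)
  have hhs := IsAlgClosed.splits (h.map φ)
  have eg := hgs.eq_prod_roots_of_monic (hg.map φ)
  have eh := hhs.eq_prod_roots_of_monic (hh.map φ)
  have hcg : Multiset.card (g.map φ).roots = g.natDegree := by
    rw [← hgs.natDegree_eq_card_roots, natDegree_map]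
  have hch : Multiset.card (h.map φ).roots = h.natDegree := by
    rw [← hhs.natDegree_eq_card_roots, natDegree_map]
  have hf : (g * h).map φ =
      (((g.map φ).roots + (h.map φ).roots).map (fun t => X - C t)).prod := by
    rw [Multiset.map_add, Multiset.prod_add, ← eg, ← eh, Polynomial.map_mul]
  rw [map_zero, ← eval_map_apply', RR_map, hf, RR_prod, ← eval_map_apply']
  · rw [hgs.eval_eq_prod_roots_of_monic (hg.map φ)]
    have := UU_root (lam := lam) (j := g.natDegree) (S := (g.map φ).roots + (h.map φ).roots)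
      (T := (g.map φ).roots) (by
        rw [Multiset.mem_powersetCard]
        exact ⟨Multiset.le_add_right _ _, hcg⟩)
    simpa using this
  · rw [Multiset.card_add, hcg, hch, ← hD, hg.natDegree_mul hh]

/-- a polynomial with values in the small field at many points is defined over it -/
theorem descend {E M : Type} [Field E] [Field M] [CharZero E] (ι : E →+* M) (G : M[X]) (j : ℕ)
    (hG : G.natDegree ≤ j) (s : Finset ℕ) (hs : j < s.card)
    (hv : ∀ l ∈ s, ∃ e : E, ι e = G.eval (l : M)) : ∃ H : E[X], H.map ι = G := by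
  classical
  choose! r hr using hv
  have hinj : Set.InjOn (fun l : ℕ => (l : E)) s := fun a _ b _ h => by
    simpa using h
  refine ⟨Lagrange.interpolate s (fun l : ℕ => (l : E)) r, ?_⟩
  have hinjM : Function.Injective (fun l : ℕ => (l : M)) := by
    intro a b h
    have h2 : ι (a : E) = ι (b : E) := by simpa using h
    have h3 := ι.injective h2
    exact_mod_cast h3
  have hcard : (s.image (fun l : ℕ => (l : M))).card = s.card :=
    card_image_of_injective _ hinjM
  apply Polynomial.eq_of_degrees_lt_of_eval_finset_eq (s.image (fun l : ℕ => (l : M)))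
  · rw [hcard, degree_map]
    exact Lagrange.degree_interpolate_lt _ hinj
  · rw [hcard]
    calc G.degree ≤ G.natDegree := degree_le_natDegree
      _ < s.card := by exact_mod_cast lt_of_le_of_lt hG hs
  · intro x hx
    obtain ⟨l, hl, rfl⟩ := mem_image.1 hx
    have h1 : ((l : ℕ) : M) = ι (l : E) := by simp
    rw [← hr l hl]
    conv_lhs => rw [h1, eval_map_apply']
    rw [Lagrange.eval_interpolate_at_node _ hinj hl]

variable {k : Type} [Field k] {n : ℕ}

/-- shorthand for the substitution `x_i ↦ x_i ^ m` -/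
noncomputable abbrev ex (k : Type) [Field k] (n m : ℕ) : Pn k n →+* Pn k n :=
  (MvPolynomial.expand m : Pn k n →ₐ[k] Pn k n).toRingHom

theorem ex_mul (m m' : ℕ) : ex k n (m * m') = (ex k n m).comp (ex k n m') := by
  apply RingHom.ext
  intro f
  exact MvPolynomial.expand_mul m m' f

/-- for some `lam` the resolvent has no section -/
theorem exists_lam [CharZero k] (f : (Pn k n)[X]) (hf : f.Monic) (j : ℕ) (hj1 : 1 ≤ j)
    (hjD : j < f.natDegree)
    (hirr : ∀ m : ℕ, 1 ≤ m → Irreducible ((f.map (ex k n m)).map (algebraMap (Pn k n) (En k n)))) :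
    ∃ lam : ℕ, NoSec (RR f.natDegree lam j f) := by
  classical
  by_contra hcon
  push Not at hcon
  have hcon' : ∀ lam : ℕ, ∃ m : ℕ, 1 ≤ m ∧ ∃ h : Pn k n,
      ((RR f.natDegree lam j f).map (ex k n m)).eval h = 0 := by
    intro lam
    have h := hcon lam
    unfold NoSec at h
    push Not at h
    obtain ⟨m, hm, h, hh⟩ := h
    exact ⟨m, hm, h, hh⟩
  choose mm hmm hh hroot using hcon'
  set D := f.natDegree with hD
  set Λ := range (D.choose j * j + 1) with hΛ
  set m := ∏ l ∈ Λ, mm l with hm
  have hm1 : 1 ≤ m := Nat.pos_of_ne_zero (Finset.prod_ne_zero_iff.2 (fun l _ => by have := hmm l; omega))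
  have hroot' : ∀ l ∈ Λ, ∃ H : Pn k n, (RR D l j (f.map (ex k n m))).eval H = 0 := by
    intro l hl
    obtain ⟨c, hc⟩ := Finset.dvd_prod_of_mem mm hl
    refine ⟨ex k n c (hh l), ?_⟩
    rw [hm, hc, mul_comm, ex_mul, ← Polynomial.map_map, ← RR_map, eval_map_apply', ← RR_map,
      hroot l, map_zero]
  -- the roots in an algebraic closure
  set φ : Pn k n →+* Om k n := (algebraMap (En k n) (Om k n)).comp (algebraMap (Pn k n) (En k n))
    with hφ
  set fm := f.map (ex k n m) with hfm
  have hfmm : fm.Monic := hf.map _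
  have hfmD : fm.natDegree = D := hf.natDegree_map _
  have hspl := IsAlgClosed.splits (fm.map φ)
  set S := (fm.map φ).roots with hS
  have heS : fm.map φ = (S.map (fun t => X - C t)).prod :=
    hspl.eq_prod_roots_of_monic (hfmm.map φ)
  have hcS : Multiset.card S = D := by
    rw [hS, ← hspl.natDegree_eq_card_roots, hfmm.natDegree_map, hfmD]
  have key : ∀ l : ℕ, ∃ T : Multiset (Om k n), l ∈ Λ → T ∈ S.powersetCard j ∧
      ∃ e : En k n, algebraMap (En k n) (Om k n) e = (T.map (fun t => (l : Om k n) - t)).prod := by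
    intro l
    by_cases hl : l ∈ Λ
    · obtain ⟨H, hH⟩ := hroot' l hl
      have h1 : (UU l j S).eval (φ H) = 0 := by
        rw [← RR_prod l j hcS, ← heS, ← RR_map, eval_map_apply', hH, map_zero]
      obtain ⟨T, hT, hT2⟩ := UU_eq_zero h1
      exact ⟨T, fun _ => ⟨hT, algebraMap (Pn k n) (En k n) H, hT2⟩⟩
    · exact ⟨0, fun h => absurd h hl⟩
  choose TT hTT using key
  have hpig : ∃ T ∈ (S.powersetCard j).toFinset, j < (Λ.filter (fun l => TT l = T)).card := by
    apply exists_lt_card_fiber_of_mul_lt_card_of_maps_to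
    · intro l hl
      rw [Multiset.mem_toFinset]
      exact (hTT l hl).1
    · calc (S.powersetCard j).toFinset.card * j ≤ (Multiset.card (S.powersetCard j)) * j :=
            Nat.mul_le_mul_right _ (Multiset.toFinset_card_le _)
        _ = D.choose j * j := by rw [Multiset.card_powersetCard, hcS]
        _ < Λ.card := by rw [hΛ, card_range]; exact Nat.lt_succ_self _
  obtain ⟨T, hT, hcard⟩ := hpig
  rw [Multiset.mem_toFinset, Multiset.mem_powersetCard] at hT
  obtain ⟨hTS, hTj⟩ := hT
  set G : (Om k n)[X] := (T.map (fun t => X - C t)).prod with hG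
  have hGm : G.Monic := monic_multiset_prod_of_monic _ _ (fun T _ => monic_X_sub_C _)
  have hGd : G.natDegree = j := by
    rw [hG, natDegree_multiset_prod_X_sub_C_eq_card, hTj]
  haveI : CharZero (En k n) := by
    haveI : CharZero (Pn k n) := inferInstance
    exact charZero_of_injective_algebraMap (IsFractionRing.injective (Pn k n) (En k n))
  obtain ⟨H, hH⟩ := descend (algebraMap (En k n) (Om k n)) G j hGd.le
    (Λ.filter (fun l => TT l = T)) hcard (by
      intro l hl
      rw [Finset.mem_filter] at hl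
      obtain ⟨-, e, he⟩ := hTT l hl.1
      refine ⟨e, ?_⟩
      rw [he, hl.2, hG, eval_multiset_prod, Multiset.map_map]
      congr 1
      apply Multiset.map_congr rfl
      intro t _
      simp)
  have hHd : H.natDegree = j := by
    rw [← hGd, ← hH, natDegree_map]
  have hdvd : H ∣ fm.map (algebraMap (Pn k n) (En k n)) := by
    rw [← Polynomial.map_dvd_map' (algebraMap (En k n) (Om k n)), hH, Polynomial.map_map]
    have h1 : fm.map ((algebraMap (En k n) (Om k n)).comp (algebraMap (Pn k n) (En k n))) =
        (S.map (fun t => X - C t)).prod := heS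
    rw [h1, hG]
    exact Multiset.prod_dvd_prod_of_le (Multiset.map_le_map hTS)
  obtain ⟨R, hR⟩ := hdvd
  have hne : fm.map (algebraMap (Pn k n) (En k n)) ≠ 0 := (hfmm.map _).ne_zero
  have hdeg : (fm.map (algebraMap (Pn k n) (En k n))).natDegree = D := by
    rw [hfmm.natDegree_map, hfmD]
  have hH0 : H ≠ 0 := by
    rintro rfl
    exact hne (by rw [hR, zero_mul])
  have hR0 : R ≠ 0 := by
    rintro rfl
    exact hne (by rw [hR, mul_zero])
  have hsum : H.natDegree + R.natDegree = D := by
    rw [← natDegree_mul hH0 hR0, ← hR, hdeg]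
  rcases (hirr m hm1).isUnit_or_isUnit hR with hu | hu
  · have := natDegree_eq_zero_of_isUnit hu
    omega
  · have := natDegree_eq_zero_of_isUnit hu
    omega

end HIT_

open HIT_ in
theorem t_HIT : S_HIT := by
  intro K _ _ n f hf hf1 hirr
  classical
  set D := f.natDegree with hD
  have hbarD : (bar f).natDegree = D := hf.natDegree_map _
  have hbar : (bar f).Monic := hf.map _
  haveI : CharZero (AlgebraicClosure K) :=
    charZero_of_injective_algebraMap (algebraMap K (AlgebraicClosure K)).injective
  have hex : ∀ j : ℕ, ∃ lam : ℕ, 1 ≤ j → j < D →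
      NoSec (RR D lam j (bar f)) := by
    intro j
    by_cases h : 1 ≤ j ∧ j < D
    · obtain ⟨lam, hl⟩ := exists_lam (bar f) hbar j h.1 (by rw [hbarD]; exact h.2) hirr
      rw [hbarD] at hl
      exact ⟨lam, fun _ _ => hl⟩
    · exact ⟨0, fun h1 h2 => absurd ⟨h1, h2⟩ h⟩
  choose lam hlam using hex
  refine ⟨D - 1, fun i => RR D (lam (i + 1)) (i + 1) f, ?_, ?_⟩
  · intro i
    refine ⟨RR_monic _ _ _ _, ?_⟩
    have h1 : bar (RR D (lam (i + 1)) (i + 1) f) = RR D (lam (i + 1)) (i + 1) (bar f) := RR_map _ _ _ _ _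
    rw [h1]
    exact hlam _ (by omega) (by have := i.2; omega)
  · intro x hx
    have hfx : (f.map (MvPolynomial.eval x)).Monic := hf.map _
    have hfxD : (f.map (MvPolynomial.eval x)).natDegree = D := hf.natDegree_map _
    rw [hfx.irreducible_iff_natDegree] at hx
    push Not at hx
    obtain ⟨g, h, hg, hh, hgh, hg0, hh0⟩ := hx (by
      intro h1
      rw [h1, natDegree_one] at hfxD
      omega)
    have hsum : g.natDegree + h.natDegree = D := by
      rw [← hg.natDegree_mul hh, hgh, hfxD]
    obtain ⟨i, hi⟩ : ∃ i : Fin (D - 1), (i : ℕ) + 1 = g.natDegree :=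
      ⟨⟨g.natDegree - 1, by omega⟩, by simp only; omega⟩
    refine ⟨i, g.eval ((lam (i + 1) : ℕ) : K), ?_⟩
    rw [RR_map, ← hgh, hi]
    exact root_of_factor _ hg hh (by rw [hgh, hfxD])

end Pool.Agent.N120.TH
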