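import Mathlib

/-!
# Hilbert's irreducibility theorem for the points of tori over finitely generated groups (project TH)

Statements of the lemmas (assembly by helper120). Main theorem: let `K` be a number field and
`f ∈ K[x_1..x_n][y]` a polynomial, monic in `y`, such that for no `m ≥ 1` the polynomial
`f(x_1^m, …, x_n^m, y)` has a root in `K̄[x_1..x_n]`. Let `Γ ≤ Kˣ` be finitely generated of rank `r ≥ 2`.
Then the number of the points `x ∈ Γ^n` of log height at most `T` such that `f(x, y) = 0` has a root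
`y ∈ K` is `O(T ^ (n r - 1 / 30))`.
-/

set_option autoImplicit false

namespace Pool.Agent.N120.TH

open Finset Polynomial NumberField

/-! ## Curves over finite fields -/

section Curves

/-- `Ψ(t ^ m, y)` -/
noncomputable def pull {A : Type} [CommRing A] (m : ℕ) (Ψ : A[X][X]) : A[X][X] :=
  Ψ.map (Polynomial.expand A m : A[X] →ₐ[A] A[X]).toRingHom

/-- **KUM**. -/
def S_KUM : Prop := ∀ (F : Type) [Field F] [IsAlgClosed F] (Ψ : F[X][X]), Ψ.Monic → Irreducible Ψ →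
  (∀ l : ℕ, l.Prime → l ≤ Ψ.natDegree → (l : F) ≠ 0 → Irreducible (pull l Ψ)) →
  ∀ m : ℕ, (m : F) ≠ 0 → Irreducible (pull m Ψ)

open Classical in
/-- **CRV**. -/
def S_CRV : Prop := ∀ (A : Type) [CommRing A] [IsDomain A] [CharZero A] (Ψ : A[X][X]), Ψ.Monic →
  1 ≤ Ψ.natDegree → ∀ (Ω : Type) [Field Ω] [IsAlgClosed Ω] (ι : A →+* Ω), Function.Injective ι →
  (∀ m : ℕ, 1 ≤ m → Irreducible ((pull m Ψ).map (mapRingHom ι))) →
  ∃ (C : ℝ) (d : A), 0 ≤ C ∧ d ≠ 0 ∧ ∀ (p : ℕ) [Fact p.Prime] (ψ : A →+* ZMod p), ψ d ≠ 0 →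
    ∀ M : ℕ, 1 ≤ M → ¬ p ∣ M →
    |((univ.filter (fun z : ZMod p × ZMod p =>
        evalEval (z.1 ^ M) z.2 (Ψ.map (mapRingHom ψ)) = 0)).card : ℝ) - p| ≤ C * M * Real.sqrt p

end Curves

/-! ## Points of covers of tori over finite fields -/

section Count

/-- `x_i ↦ b_i t ^ (v_i)` -/
noncomputable def twHom {n : ℕ} {L : Type} [CommRing L] (v : Fin n → ℕ) :
    MvPolynomial (Fin n) L →+* Polynomial (MvPolynomial (Fin n) L) :=
  MvPolynomial.eval₂Hom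
    ((Polynomial.C : MvPolynomial (Fin n) L →+* Polynomial (MvPolynomial (Fin n) L)).comp
      (MvPolynomial.C : L →+* MvPolynomial (Fin n) L))
    (fun i => Polynomial.C (MvPolynomial.X i) * Polynomial.X ^ v i)

/-- `Φ(b_1 t ^ (v_1), …, b_n t ^ (v_n), y)` -/
noncomputable def twist {n : ℕ} {L : Type} [CommRing L] (v : Fin n → ℕ)
    (Φ : Polynomial (MvPolynomial (Fin n) L)) :
    Polynomial (Polynomial (MvPolynomial (Fin n) L)) :=
  Φ.map (twHom v)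

/-- `Φ` is monic and there is a direction `a` such that all `Φ(b_i t ^ (m a_i), y)` are irreducible over
an algebraically closed field `Ω` which contains the independent variables `b_i`. -/
def Good {n : ℕ} {L : Type} [Field L] (Φ : Polynomial (MvPolynomial (Fin n) L)) : Prop :=
  Φ.Monic ∧ 1 ≤ Φ.natDegree ∧ ∃ (a : Fin n → ℕ) (Ω : Type) (_ : Field Ω) (_ : IsAlgClosed Ω)
    (ι : MvPolynomial (Fin n) L →+* Ω), (∀ i, 1 ≤ a i) ∧ Function.Injective ι ∧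
    ∀ m : ℕ, 1 ≤ m → Irreducible ((pull m (twist a Φ)).map (mapRingHom ι))

open Classical in
/-- the number of the roots of `Φ(x, y)` in `ZMod p` -/
noncomputable def nrt {n : ℕ} {R : Type} [CommRing R] {p : ℕ} [Fact p.Prime] (ψ : R →+* ZMod p)
    (Φ : Polynomial (MvPolynomial (Fin n) R)) (x : Fin n → ZMod p) : ℕ :=
  (univ.filter (fun y : ZMod p => (Φ.map (MvPolynomial.eval₂Hom ψ x)).eval y = 0)).card

/-- **CNT**. -/
def S_CNT : Prop := ∀ (n : ℕ) (L : Type) [Field L] [CharZero L]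
  (Φ : Polynomial (MvPolynomial (Fin n) L)), Good Φ →
  ∃ (C : ℝ) (s : Finset L), 0 ≤ C ∧ ∀ O : Subring L, (∀ z ∈ s, z ∈ O) →
    ∀ ΦO : Polynomial (MvPolynomial (Fin n) O), ΦO.map (MvPolynomial.map O.subtype) = Φ →
    ∀ (p : ℕ) [Fact p.Prime] (ψ : O →+* ZMod p) (M : ℕ), M ∣ p - 1 → ∀ c : Fin n → (ZMod p)ˣ,
      |(∑ u : Fin n → (ZMod p)ˣ,
          (nrt ψ ΦO (fun i => ((c i * u i ^ M : (ZMod p)ˣ) : ZMod p)) : ℝ)) - ((p : ℝ) - 1) ^ n| *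
        Real.sqrt p ≤ C * M * ((p : ℝ) - 1) ^ n

end Count

/-! ## Fields of algebraic functions on a torus -/

section Fields

/-- the coordinate ring of affine space -/
abbrev Pn (k : Type) [Field k] (n : ℕ) : Type := MvPolynomial (Fin n) k

/-- the field of rational functions -/
abbrev En (k : Type) [Field k] (n : ℕ) : Type := FractionRing (Pn k n)

/-- polynomials as elements of an extension field of the field of rational functions -/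
noncomputable def cm (k : Type) [Field k] (n : ℕ) (M : Type) [Field M] [Algebra (En k n) M] :
    Pn k n →+* M :=
  (algebraMap (En k n) M).comp (algebraMap (Pn k n) (En k n))

/-- the algebraic closure of `k(x_1..x_n)`; the `x_i` are also called `b_i` here -/
abbrev Om (k : Type) [Field k] (n : ℕ) : Type := AlgebraicClosure (En k n)

/-- the field `M` has no element outside `k(x)` which becomes rational by a substitution
`x_i ↦ x_i ^ m` -/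
def PB (k : Type) [Field k] (n : ℕ) (M : Type) [Field M] [Algebra (En k n) M] : Prop :=
  ∀ m : ℕ, 1 ≤ m → ∀ ι : M →+* Om k n,
    ι.comp (cm k n M) = (cm k n (Om k n)).comp (MvPolynomial.expand m : Pn k n →ₐ[k] Pn k n).toRingHom →
    ∀ α : M, ι α ∈ (algebraMap (En k n) (Om k n)).range → α ∈ (algebraMap (En k n) M).range

/-- the map `x_i ↦ b_i t ^ (v_i)` from `k[x]` to `Ω[t]` -/
noncomputable def sub {k : Type} [Field k] {n : ℕ} (v : Fin n → ℕ) : Pn k n →+* (Om k n)[X] :=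
  (mapRingHom (cm k n (Om k n))).comp (twHom v)

/-- the algebraic closure of `Ω(t)` -/
abbrev Rt (k : Type) [Field k] (n : ℕ) : Type := AlgebraicClosure (RatFunc (Om k n))

/-- the map `x_i ↦ b_i t ^ (v_i)` from `k[x]` to the algebraic closure of `Ω(t)` -/
noncomputable def subR {k : Type} [Field k] {n : ℕ} (v : Fin n → ℕ) : Pn k n →+* Rt k n :=
  ((algebraMap (RatFunc (Om k n)) (Rt k n)).comp
    (algebraMap (Om k n)[X] (RatFunc (Om k n)))).comp (sub v)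

/-- `a` is a direction such that no element of `M` outside `k(x)` becomes rational over `Ω(t)` by a
substitution `x_i ↦ b_i t ^ (m a_i)` -/
def GoodDir (k : Type) [Field k] (n : ℕ) (M : Type) [Field M] [Algebra (En k n) M] (a : Fin n → ℕ) :
    Prop :=
  ∀ m : ℕ, 1 ≤ m → ∀ ρ : M →+* Rt k n, ρ.comp (cm k n M) = subR (fun i => m * a i) →
    ∀ α : M, ρ α ∈ (algebraMap (RatFunc (Om k n)) (Rt k n)).range →
      α ∈ (algebraMap (En k n) M).range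

/-- the commuting derivations `x_i ∂/∂x_i` of `M` -/
structure Ders (k : Type) [Field k] (n : ℕ) (M : Type) [Field M] [CharZero M]
    [Algebra (En k n) M] where
  D : Fin n → Module.End ℚ M
  leib : ∀ i x y, D i (x * y) = x * D i y + D i x * y
  const : ∀ i (c : k), D i (cm k n M (MvPolynomial.C c)) = 0
  var : ∀ i j, D i (cm k n M (MvPolynomial.X j)) = if i = j then cm k n M (MvPolynomial.X j) else 0
  comm : ∀ i j, D i * D j = D j * D i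

/-- **DER**. -/
def S_DER : Prop := ∀ (k : Type) [Field k] [CharZero k] (n : ℕ) (M : Type) [Field M] [CharZero M]
  [Algebra (En k n) M] [FiniteDimensional (En k n) M], Nonempty (Ders k n M)

/-- the derivation `∑ A_i x_i ∂/∂x_i` -/
noncomputable def Ders.Dv {k : Type} [Field k] {n : ℕ} {M : Type} [Field M] [CharZero M]
    [Algebra (En k n) M] (𝒟 : Ders k n M) (A : Fin n → ℕ) : Module.End ℚ M :=
  ∑ i, (A i : ℚ) • 𝒟.D i

/-- `(D_A)(D_A - 1) ⋯ (D_A - L + 1) α = 0` -/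
def Ders.Kills {k : Type} [Field k] {n : ℕ} {M : Type} [Field M] [CharZero M]
    [Algebra (En k n) M] (𝒟 : Ders k n M) (A : Fin n → ℕ) (L : ℕ) (α : M) : Prop :=
  (Polynomial.aeval (𝒟.Dv A) (∏ l ∈ range L, (Polynomial.X - Polynomial.C (l : ℚ)))) α = 0

/-- **RHO**. -/
def S_RHO : Prop := ∀ (k : Type) [Field k] [IsAlgClosed k] [CharZero k] (n : ℕ) (M : Type) [Field M]
  [CharZero M] [Algebra (En k n) M] [FiniteDimensional (En k n) M] (𝒟 : Ders k n M)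
  (A : Fin n → ℕ) (ρ : M →+* Rt k n), ρ.comp (cm k n M) = subR A → ∀ α : M,
  (cm k n M).IsIntegralElem α → ρ α ∈ (algebraMap (RatFunc (Om k n)) (Rt k n)).range →
  ∃ L : ℕ, 𝒟.Kills A L α

/-- **EIG**. -/
def S_EIG : Prop := ∀ (k : Type) [Field k] [IsAlgClosed k] [CharZero k] (n : ℕ) (M : Type) [Field M]
  [CharZero M] [Algebra (En k n) M] [FiniteDimensional (En k n) M] (𝒟 : Ders k n M)
  (A : Fin n → Fin n → ℕ), (Matrix.of (fun j i => (A j i : ℚ))).det ≠ 0 → ∀ (L : Fin n → ℕ) (α : M),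
  (∀ j, 𝒟.Kills (A j) (L j) α) →
  ∃ (m0 : ℕ) (I : Type) (_ : Fintype I) (v : I → M), 1 ≤ m0 ∧ α = ∑ χ, v χ ∧
    ∀ χ, ∃ (c : k) (β : Fin n → ℤ),
      v χ ^ m0 = cm k n M (MvPolynomial.C c) * ∏ i, (cm k n M (MvPolynomial.X i)) ^ (β i)

/-- **MONO**. -/
def S_MONO : Prop := ∀ (k : Type) [Field k] [IsAlgClosed k] [CharZero k] (n : ℕ) (M : Type) [Field M]
  [Algebra (En k n) M] [FiniteDimensional (En k n) M], PB k n M → ∀ (m0 : ℕ) (v : M) (c : k)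
  (β : Fin n → ℤ), 1 ≤ m0 →
  v ^ m0 = cm k n M (MvPolynomial.C c) * ∏ i, (cm k n M (MvPolynomial.X i)) ^ (β i) →
  v ∈ (algebraMap (En k n) M).range

/-- **DIR**. -/
def S_DIR : Prop := ∀ (k : Type) [Field k] [IsAlgClosed k] [CharZero k] (n : ℕ) (M : Type) [Field M]
  [Algebra (En k n) M] [FiniteDimensional (En k n) M], PB k n M →
  ∃ a : Fin n → ℕ, (∀ i, 1 ≤ a i) ∧ GoodDir k n M a

/-- **FAC**. -/
def S_FAC : Prop := ∀ (k : Type) [Field k] [IsAlgClosed k] [CharZero k] (n : ℕ) (f : (Pn k n)[X]),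
  f.Monic → ∃ (k0 : ℕ) (M : Type) (_ : Field M) (_ : Algebra (En k n) M)
    (_ : FiniteDimensional (En k n) M) (_ : Normal (En k n) M), 1 ≤ k0 ∧ PB k n M ∧
    ((f.map (MvPolynomial.expand k0 : Pn k n →ₐ[k] Pn k n).toRingHom).map (cm k n M)).Splits

/-- **FCT**. -/
def S_FCT : Prop := ∀ (k : Type) [Field k] (n : ℕ) (g : (Pn k n)[X]), g.Monic →
  ∃ (r : ℕ) (φ : Fin r → (Pn k n)[X]), (∀ j, (φ j).Monic ∧
    Irreducible ((φ j).map (algebraMap (Pn k n) (En k n)))) ∧ g = ∏ j, φ j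

/-- **IRM**. -/
def S_IRM : Prop := ∀ (k : Type) [Field k] [IsAlgClosed k] [CharZero k] (n : ℕ) (M : Type) [Field M]
  [Algebra (En k n) M] [FiniteDimensional (En k n) M] (a : Fin n → ℕ), GoodDir k n M a →
  ∀ Φ : (Pn k n)[X], Φ.Monic → Irreducible (Φ.map (algebraMap (Pn k n) (En k n))) →
  (Φ.map (cm k n M)).Splits →
  ∀ m : ℕ, 1 ≤ m → Irreducible ((pull m (twist a Φ)).map (mapRingHom (cm k n (Om k n))))

/-- `E(x)^d φ(x, Q / E(x))`, `d` the degree of `φ` -/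
noncomputable def homog {n : ℕ} {L : Type} [Field L] (φ Q : Polynomial (MvPolynomial (Fin n) L))
    (E : MvPolynomial (Fin n) L) : Polynomial (MvPolynomial (Fin n) L) :=
  ∑ j ∈ range (φ.natDegree + 1), C (φ.coeff j) * Q ^ j * C E ^ (φ.natDegree - j)

/-- a root of `Φ` gives two different roots of `φ` -/
def TwoRoots {n : ℕ} {L : Type} [Field L] (φ Φ : Polynomial (MvPolynomial (Fin n) L))
    (E : MvPolynomial (Fin n) L) : Prop :=
  ∃ Q1 Q2 R : Polynomial (MvPolynomial (Fin n) L),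
    Φ ∣ homog φ Q1 E ∧ Φ ∣ homog φ Q2 E ∧ Φ ∣ (Q1 - Q2) * R - C (E ^ 2)

/-- **TWO**. -/
def S_TWO : Prop := ∀ (k : Type) [Field k] [IsAlgClosed k] [CharZero k] (n : ℕ) (M : Type) [Field M]
  [Algebra (En k n) M] [FiniteDimensional (En k n) M] [Normal (En k n) M] (φ : (Pn k n)[X]),
  φ.Monic → Irreducible (φ.map (algebraMap (Pn k n) (En k n))) → 2 ≤ φ.natDegree →
  (φ.map (cm k n M)).Splits →
  ∃ (Φ : (Pn k n)[X]) (E : Pn k n), Φ.Monic ∧ 1 ≤ Φ.natDegree ∧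
    Irreducible (Φ.map (algebraMap (Pn k n) (En k n))) ∧ (Φ.map (cm k n M)).Splits ∧ E ≠ 0 ∧
    TwoRoots φ Φ E

end Fields

/-! ## The algebraic part -/

section Alg

/-- no `f(x_1 ^ m, …, x_n ^ m, y)`, `m ≥ 1`, has a root in `k[x_1..x_n]` -/
def NoSec {k : Type} [Field k] {n : ℕ} (f : (Pn k n)[X]) : Prop :=
  ∀ m : ℕ, 1 ≤ m → ∀ h : Pn k n,
    (f.map (MvPolynomial.expand m : Pn k n →ₐ[k] Pn k n).toRingHom).eval h ≠ 0

/-- the polynomial over the algebraic closure -/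
noncomputable def bar {K : Type} [Field K] {n : ℕ} (f : Polynomial (MvPolynomial (Fin n) K)) :
    (Pn (AlgebraicClosure K) n)[X] :=
  f.map (MvPolynomial.map (algebraMap K (AlgebraicClosure K)))

/-- the data needed for the points `x = c w ^ k0` -/
def AlgOut (K : Type) [Field K] (n : ℕ) (f : Polynomial (MvPolynomial (Fin n) K)) (k0 : ℕ)
    (c : Fin n → K) : Prop :=
  ∃ (L : Type) (_ : Field L) (_ : NumberField L) (_ : Algebra K L) (r : ℕ)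
    (φ Φ : Fin r → Polynomial (MvPolynomial (Fin n) L)) (E : Fin r → MvPolynomial (Fin n) L),
    (∀ j, Good (φ j) ∧ Good (Φ j) ∧ E j ≠ 0 ∧ TwoRoots (φ j) (Φ j) (E j)) ∧
    ∀ (w : Fin n → K) (y : K), (f.map (MvPolynomial.eval (fun i => c i * w i ^ k0))).eval y = 0 →
      ∃ j, ((φ j).map (MvPolynomial.eval (fun i => algebraMap K L (w i)))).eval
        (algebraMap K L y) = 0

/-- **DESC**. -/
def S_DESC : Prop := ∀ (K : Type) [Field K] [NumberField K] (n : ℕ)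
  (f : Polynomial (MvPolynomial (Fin n) K)) (k0 : ℕ), 1 ≤ k0 → ∀ (r : ℕ)
  (φ Φ : Fin r → (Pn (AlgebraicClosure K) n)[X]) (E : Fin r → Pn (AlgebraicClosure K) n),
  (∀ j, Good (φ j) ∧ Good (Φ j) ∧ E j ≠ 0 ∧ TwoRoots (φ j) (Φ j) (E j)) →
  (bar f).map (MvPolynomial.expand k0 :
    Pn (AlgebraicClosure K) n →ₐ[AlgebraicClosure K] Pn (AlgebraicClosure K) n).toRingHom =
    ∏ j, φ j →
  ∀ c : Fin n → K, (∀ i, c i ≠ 0) → AlgOut K n f k0 c

/-- **ALG**. -/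
def S_ALG : Prop := ∀ (K : Type) [Field K] [NumberField K] (n : ℕ)
  (f : Polynomial (MvPolynomial (Fin n) K)), f.Monic → NoSec (bar f) →
  ∃ k0 : ℕ, 1 ≤ k0 ∧ ∀ c : Fin n → K, (∀ i, c i ≠ 0) → AlgOut K n f k0 c

/-- **HIT**. -/
def S_HIT : Prop := ∀ (K : Type) [Field K] [CharZero K] (n : ℕ)
  (f : Polynomial (MvPolynomial (Fin n) K)), f.Monic → 1 ≤ f.natDegree →
  (∀ m : ℕ, 1 ≤ m → Irreducible (((bar f).map (MvPolynomial.expand m :
    Pn (AlgebraicClosure K) n →ₐ[AlgebraicClosure K] Pn (AlgebraicClosure K) n).toRingHom).map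
      (algebraMap (Pn (AlgebraicClosure K) n) (En (AlgebraicClosure K) n)))) →
  ∃ (r : ℕ) (F : Fin r → Polynomial (MvPolynomial (Fin n) K)),
    (∀ j, (F j).Monic ∧ NoSec (bar (F j))) ∧
    ∀ x : Fin n → K, ¬ Irreducible (f.map (MvPolynomial.eval x)) →
      ∃ j, ∃ y : K, ((F j).map (MvPolynomial.eval x)).eval y = 0

end Alg

/-! ## The sieve -/

section Sieve

/-- a box of exponents -/
noncomputable def Box {n r : ℕ} (u : Fin n → Fin r → ℤ) (N : ℕ) : Finset (Fin n → Fin r → ℤ) :=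
  Fintype.piFinset (fun i => Fintype.piFinset (fun j => Finset.Ico (u i j) (u i j + N)))

/-- the point with the exponents `e` -/
def pt {n r : ℕ} {H : Type} [CommGroup H] (g : Fin r → H) (e : Fin n → Fin r → ℤ) : Fin n → H :=
  fun i => ∏ j, g j ^ (e i j)

/-- **PAIR**. -/
def S_PAIR : Prop := ∀ (n r : ℕ) (H H' : Type) [CommGroup H] [Fintype H] [IsCyclic H] [CommGroup H']
  [Fintype H'] (g : Fin r → H) (g' : Fin r → H') (ν : (Fin n → H) → ℝ) (ν' : (Fin n → H') → ℝ)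
  (D D' β : ℝ), 0 ≤ β → (∀ x, |ν x| ≤ D) → (∀ x, |ν' x| ≤ D') →
  (∀ M : ℕ, M ∣ Fintype.card H → ∀ c : Fin n → H,
    |∑ s : Fin n → H, ν (fun i => c i * s i ^ M)| ≤ β * M * (Fintype.card H : ℝ) ^ n) →
  ∀ (N : ℕ) (u : Fin n → Fin r → ℤ), 1 ≤ N →
    |∑ e ∈ Box u N, ν (pt g e) * ν' (pt g' e)| ≤
      (N : ℝ) ^ (n * r) * (D' * β * ((Subgroup.closure (Set.range g)).index *
        Nat.gcd (Fintype.card H) (Fintype.card H'))) +
      D * D' * (n * r) * (Fintype.card H * Fintype.card H') * (N : ℝ) ^ (n * r - 1)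

/-- **VAR**. -/
def S_VAR : Prop := ∀ (α : Type) (B : Finset α) (P : Finset ℕ) (F : ℕ → α → ℝ) (Q D0 : ℕ)
  (D κ E0 : ℝ), 1 ≤ D0 → 0 ≤ κ → 0 ≤ E0 → (∀ p ∈ P, 2 ≤ p ∧ p ≤ Q) →
  (∀ p ∈ P, ∀ e ∈ B, |F p e| ≤ D) →
  (∀ p ∈ P, ∀ p' ∈ P, p ≠ p' →
    |∑ e ∈ B, F p e * F p' e| ≤ (B.card : ℝ) * (κ * Nat.gcd (p - 1) (p' - 1)) + E0) →
  ∑ e ∈ B, (∑ p ∈ P, F p e) ^ 2 ≤
    (B.card : ℝ) * (D ^ 2 * P.card + κ * D0 * (P.card : ℝ) ^ 2 + D ^ 2 * (Q : ℝ) ^ 2 / D0) +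
      E0 * (P.card : ℝ) ^ 2

open Classical in
/-- **SZ** (Schwartz-Zippel with multiplicities). -/
def S_SZ : Prop := ∀ (F : Type) [Field F] (n : ℕ) (b : MvPolynomial (Fin n) F), b ≠ 0 →
  ∀ (α : Type) (B : Fin n → Finset α) (x : Fin n → α → F) (μ : ℝ), 0 ≤ μ →
  (∀ i z, (((B i).filter (fun v => x i v = z)).card : ℝ) ≤ μ * (B i).card) →
  (((Fintype.piFinset B).filter
    (fun e => MvPolynomial.eval (fun i => x i (e i)) b = 0)).card : ℝ) ≤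
    b.totalDegree * μ * ∏ i, ((B i).card : ℝ)

open Classical in
/-- **FIB**. -/
def S_FIB : Prop := ∀ (r : ℕ) (H : Type) [CommGroup H] [Fintype H] (g : Fin r → H) (u : Fin r → ℤ)
  (N : ℕ) (z : H), Fintype.card H ≤ N →
  (((Fintype.piFinset (fun j => Finset.Ico (u j) (u j + N))).filter
    (fun v => ∏ j, g j ^ (v j) = z)).card : ℝ) * Nat.card (Subgroup.closure (Set.range g)) ≤
    (2 * (N : ℝ)) ^ r

end Sieve

/-! ## Arithmetic -/

section Arith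

/-- the ring `𝓞_L[1/N]` -/
def ON (L : Type) [Field L] (N : ℕ) : Subring L where
  carrier := {x | ∃ k : ℕ, IsIntegral ℤ ((N : L) ^ k * x)}
  mul_mem' := by
    rintro x y ⟨k, hk⟩ ⟨l, hl⟩
    refine ⟨k + l, ?_⟩
    have : (N : L) ^ (k + l) * (x * y) = ((N : L) ^ k * x) * ((N : L) ^ l * y) := by ring
    rw [this]
    exact hk.mul hl
  one_mem' := ⟨0, by simpa using isIntegral_one⟩
  add_mem' := by
    rintro x y ⟨k, hk⟩ ⟨l, hl⟩
    refine ⟨k + l, ?_⟩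
    have : (N : L) ^ (k + l) * (x + y) =
        (N : L) ^ l * ((N : L) ^ k * x) + (N : L) ^ k * ((N : L) ^ l * y) := by ring
    have hN : IsIntegral ℤ (N : L) := by
      have := (isIntegral_algebraMap (R := ℤ) (A := L) (x := (N : ℤ)))
      simpa using this
    rw [this]
    exact ((hN.pow l).mul hk).add ((hN.pow k).mul hl)
  zero_mem' := ⟨0, by simpa using isIntegral_zero⟩
  neg_mem' := by
    rintro x ⟨k, hk⟩
    refine ⟨k, ?_⟩
    have : (N : L) ^ k * -x = -((N : L) ^ k * x) := by ring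
    rw [this]
    exact hk.neg

/-- **RING**. -/
def S_RING : Prop := ∀ (L : Type) [Field L] [NumberField L],
  (∀ s : Finset L, ∃ N : ℕ, 1 ≤ N ∧ ∀ z ∈ s, z ∈ ON L N) ∧
  (∀ N : ℕ, 1 ≤ N → ∀ x : L, IsIntegral (ON L N) x → x ∈ ON L N) ∧
  (∀ (N : ℕ) (x : 𝓞 L), (x : L) ∈ ON L N) ∧
  ∀ N : ℕ, 1 ≤ N → ∀ p : ℕ, p.Prime → ¬ p ∣ N → Nonempty (𝓞 L →+* ZMod p) →
    Nonempty (ON L N →+* ZMod p)

open Classical in
/-- **PR**. -/
def S_PR : Prop := ∀ (L : Type) [Field L] [NumberField L], ∃ c : ℝ, 0 < c ∧ ∃ T : ℕ, ∀ t : ℕ, T ≤ t →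
  c * (t / Real.log t) ≤
    (((range (t + 1)).filter (fun p => p.Prime ∧ Nonempty (𝓞 L →+* ZMod p))).card : ℝ)

/-- **IDX**. -/
def S_IDX : Prop := ∀ (L : Type) [Field L] [NumberField L] (g1 g2 : Lˣ),
  (∀ a b : ℤ, g1 ^ a * g2 ^ b = 1 → a = 0 ∧ b = 0) →
  ∃ C : ℝ, ∀ O : Subring L, (∀ x : 𝓞 L, (x : L) ∈ O) → ∀ y : ℝ, 1 ≤ y → ∀ P : Finset ℕ,
    (∀ p ∈ P, p.Prime ∧ ∃ (ψ : O →+* ZMod p) (z1 z2 : O) (h1 h2 : (ZMod p)ˣ), (z1 : L) = g1 ∧
      (z2 : L) = g2 ∧ ψ z1 = h1 ∧ ψ z2 = h2 ∧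
      (Nat.card (Subgroup.closure ({h1, h2} : Set (ZMod p)ˣ)) : ℝ) ≤ y) →
    (P.card : ℝ) ≤ C * y ^ (3 / 2 : ℝ)

/-- **LOC**. -/
def S_LOC : Prop := ∀ (n : ℕ) (L : Type) [Field L] (φ Φ : Polynomial (MvPolynomial (Fin n) L))
  (E : MvPolynomial (Fin n) L), φ.Monic → Φ.Monic → 1 ≤ Φ.natDegree → E ≠ 0 → TwoRoots φ Φ E →
  ∃ (s : Finset L) (δ : ℕ), ∀ O : Subring L, (∀ z ∈ s, z ∈ O) →
    ∃ φO ΦO : Polynomial (MvPolynomial (Fin n) O), φO.Monic ∧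
      φO.map (MvPolynomial.map O.subtype) = φ ∧ ΦO.map (MvPolynomial.map O.subtype) = Φ ∧
      ∀ (p : ℕ) [Fact p.Prime] (ψ : O →+* ZMod p), ∃ b : MvPolynomial (Fin n) (ZMod p), b ≠ 0 ∧
        b.totalDegree ≤ δ ∧ ∀ x : Fin n → ZMod p,
          nrt ψ φO x ≤ φ.natDegree ∧ nrt ψ ΦO x ≤ Φ.natDegree ∧
          (1 ≤ nrt ψ φO x → MvPolynomial.eval x b ≠ 0 →
            1 + (nrt ψ ΦO x : ℝ) / Φ.natDegree ≤ nrt ψ φO x)

/-- **PRM**. -/
def S_PRM : Prop := ∀ (L : Type) [Field L] [NumberField L] (r N0 : ℕ) (g : Fin r → Lˣ)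
  (i1 i2 : Fin r), 1 ≤ N0 → (∀ a b : ℤ, g i1 ^ a * g i2 ^ b = 1 → a = 0 ∧ b = 0) →
  (∀ i, ((g i : Lˣ) : L) ∈ ON L N0 ∧ (((g i)⁻¹ : Lˣ) : L) ∈ ON L N0) →
  ∃ (c : ℝ) (Q0 : ℕ), 0 < c ∧ ∀ Q : ℕ, Q0 ≤ Q → ∃ P : Finset ℕ,
    c * (Q / Real.log Q) ≤ (P.card : ℝ) ∧ ∀ p ∈ P, p.Prime ∧ p ≤ Q ∧
      (Q : ℝ) ^ (99 / 100 : ℝ) ≤ p ∧ ∃ (ψ : ON L N0 →+* ZMod p) (h : Fin r → (ZMod p)ˣ),
        (∀ i (z : ON L N0), (z : L) = g i → ψ z = h i) ∧
        (Q : ℝ) ^ (2 / 3 - 1 / 200 : ℝ) ≤ (Nat.card (Subgroup.closure (Set.range h)) : ℝ)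

open Classical in
/-- **NUM**. -/
def S_NUM : Prop := ∀ (n r D δ : ℕ) (C c : ℝ), 1 ≤ n → 1 ≤ r → 1 ≤ D → 0 ≤ C → 0 < c →
  ∃ (C' : ℝ) (N0 : ℕ), ∀ (N Q : ℕ), N0 ≤ N → Q = ⌊(N : ℝ) ^ (40 / 83 : ℝ)⌋₊ →
  ∀ P : Finset ℕ, c * (Q / Real.log Q) ≤ (P.card : ℝ) →
  ∀ (h : ∀ p : ℕ, Fin r → (ZMod p)ˣ) (W : ∀ p : ℕ, (Fin n → ZMod p) → ℝ)
    (b : ∀ p : ℕ, MvPolynomial (Fin n) (ZMod p)),
  (∀ p ∈ P, p.Prime ∧ p ≤ Q ∧ (Q : ℝ) ^ (99 / 100 : ℝ) ≤ p ∧
    (Q : ℝ) ^ (2 / 3 - 1 / 200 : ℝ) ≤ (Nat.card (Subgroup.closure (Set.range (h p))) : ℝ) ∧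
    b p ≠ 0 ∧ (b p).totalDegree ≤ δ ∧ (∀ x, |W p x| ≤ D) ∧
    ∀ [Fact p.Prime] (M : ℕ), M ∣ p - 1 → ∀ z : Fin n → (ZMod p)ˣ,
      |∑ s : Fin n → (ZMod p)ˣ, W p (fun i => ((z i * s i ^ M : (ZMod p)ˣ) : ZMod p))| *
        Real.sqrt p ≤ C * M * ((p : ℝ) - 1) ^ n) →
  ∀ u : Fin n → Fin r → ℤ,
    (((Box u N).filter (fun e => ∀ p ∈ P,
      MvPolynomial.eval (fun i => ((pt (h p) e i : (ZMod p)ˣ) : ZMod p)) (b p) ≠ 0 →
        1 / (D : ℝ) ≤ W p (fun i => ((pt (h p) e i : (ZMod p)ˣ) : ZMod p)))).card : ℝ) ≤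
      C' * (N : ℝ) ^ ((n * r : ℝ) - 1 / 29)

open Classical in
/-- **ONE**. -/
def S_ONE : Prop := ∀ (L : Type) [Field L] [NumberField L] (n r : ℕ)
  (φ Φ : Polynomial (MvPolynomial (Fin n) L)) (E : MvPolynomial (Fin n) L), 1 ≤ n → 2 ≤ r →
  Good φ → Good Φ → E ≠ 0 → TwoRoots φ Φ E → ∀ g : Fin r → Lˣ,
  (∀ v : Fin r → ℤ, ∏ j, g j ^ v j = 1 → v = 0) →
  ∃ C : ℝ, ∀ (u : Fin n → Fin r → ℤ) (N : ℕ), 1 ≤ N →
    (((Box u N).filter (fun e => ∃ y : L,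
      (φ.map (MvPolynomial.eval (fun i => ((pt g e i : Lˣ) : L)))).eval y = 0)).card : ℝ) ≤
      C * (N : ℝ) ^ ((n * r : ℝ) - 1 / 29)

end Arith

end Pool.Agent.N120.TH
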