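import Mathlib
import Pool.Agent.N120.TH.Stm

/-! Project TH (helper120), part IDX (helper999): few primes with a small reduction of two
independent units. -/

set_option autoImplicit false

namespace Pool.Agent.N120.TH

namespace IDX_

open NumberField

lemma zrel {G : Type} [CommGroup G] (g1 g2 : G) (u v : ℤ) :
    g1 ^ u * g2 ^ v = 1 ↔
      g1 ^ u.toNat * g2 ^ v.toNat = g1 ^ (-u).toNat * g2 ^ (-v).toNat := by
  have e1 : g1 ^ u = g1 ^ u.toNat * (g1 ^ (-u).toNat)⁻¹ := by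
    conv_lhs => rw [← Int.toNat_sub_toNat_neg u]
    rw [zpow_sub, zpow_natCast, zpow_natCast]
  have e2 : g2 ^ v = g2 ^ v.toNat * (g2 ^ (-v).toNat)⁻¹ := by
    conv_lhs => rw [← Int.toNat_sub_toNat_neg v]
    rw [zpow_sub, zpow_natCast, zpow_natCast]
  rw [e1, e2, mul_mul_mul_comm, ← mul_inv, mul_inv_eq_one]

/-- the integral element attached to a relation -/
noncomputable def xi {R : Type} [CommRing R] (α1 α2 : R) (d : ℤ) (u v : ℤ) : R :=
  α1 ^ u.toNat * α2 ^ v.toNat * (d : R) ^ ((-u).toNat + (-v).toNat) -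
    α1 ^ (-u).toNat * α2 ^ (-v).toNat * (d : R) ^ (u.toNat + v.toNat)

lemma map_xi {R S : Type} [CommRing R] [CommRing S] (f : R →+* S) (α1 α2 : R) (d u v : ℤ) :
    f (xi α1 α2 d u v) = xi (f α1) (f α2) d u v := by
  unfold xi
  simp only [map_sub, map_mul, map_pow, map_intCast]

lemma xi_eq {R : Type} [CommRing R] (g1 g2 : R) (d u v : ℤ) :
    xi ((d : R) * g1) (d * g2) d u v =
      (d : R) ^ (u.toNat + v.toNat + ((-u).toNat + (-v).toNat)) *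
        (g1 ^ u.toNat * g2 ^ v.toNat - g1 ^ (-u).toNat * g2 ^ (-v).toNat) := by
  unfold xi
  rw [mul_pow, mul_pow, mul_pow, mul_pow, pow_add _ (u.toNat + v.toNat), pow_add, pow_add]
  ring

/-- number of prime factors -/
theorem card_pf (m A k : ℕ) (hm : m ≠ 0) (h : m ≤ A ^ k) : m.primeFactors.card ≤ A * k := by
  have h1 : 2 ^ m.primeFactors.card ≤ ∏ p ∈ m.primeFactors, p := by
    rw [← Finset.prod_const]
    refine Finset.prod_le_prod' ?_
    intro p hp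
    exact (Nat.prime_of_mem_primeFactors hp).two_le
  have h2 : ∏ p ∈ m.primeFactors, p ≤ m :=
    Nat.le_of_dvd (Nat.pos_of_ne_zero hm) (Nat.prod_primeFactors_dvd m)
  have h3 : A ^ k ≤ 2 ^ (A * k) := by
    rw [pow_mul]
    exact Nat.pow_le_pow_left (Nat.lt_two_pow_self).le k
  exact (Nat.pow_le_pow_iff_right (by norm_num : 1 < 2)).1 (((h1.trans h2).trans h).trans h3)

lemma norm_xi_le {α1 α2 : ℂ} {d : ℤ} {B : ℝ} (hB : 1 ≤ B) (h1 : ‖α1‖ ≤ B) (h2 : ‖α2‖ ≤ B)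
    (h3 : |(d : ℝ)| ≤ B) (u v : ℤ) (N : ℕ) (hN : 1 ≤ N) (hu : |u| ≤ N) (hv : |v| ≤ N) :
    ‖xi α1 α2 d u v‖ ≤ (2 * B) ^ (2 * N) := by
  have hd : ‖(d : ℂ)‖ ≤ B := by
    rw [Complex.norm_intCast]
    exact h3
  have hB0 : 0 ≤ B := by linarith
  have key : ∀ a b c : ℕ, a + b + c ≤ 2 * N → ‖α1 ^ a * α2 ^ b * (d : ℂ) ^ c‖ ≤ B ^ (2 * N) := by
    intro a b c habc
    rw [norm_mul, norm_mul, norm_pow, norm_pow, norm_pow]
    calc ‖α1‖ ^ a * ‖α2‖ ^ b * ‖(d : ℂ)‖ ^ c ≤ B ^ a * B ^ b * B ^ c := by gcongr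
      _ = B ^ (a + b + c) := by rw [pow_add, pow_add]
      _ ≤ B ^ (2 * N) := pow_le_pow_right₀ hB habc
  unfold xi
  refine (norm_sub_le _ _).trans ?_
  have k1 := key u.toNat v.toNat ((-u).toNat + (-v).toNat) (by
    rw [abs_le] at hu hv
    omega)
  have k2 := key (-u).toNat (-v).toNat (u.toNat + v.toNat) (by
    rw [abs_le] at hu hv
    omega)
  have h4 : (2 : ℝ) ≤ 2 ^ (2 * N) := by
    calc (2 : ℝ) = 2 ^ 1 := by norm_num
      _ ≤ 2 ^ (2 * N) := pow_le_pow_right₀ (by norm_num) (by omega)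
  have h5 : 0 ≤ B ^ (2 * N) := by positivity
  rw [mul_pow]
  nlinarith

end IDX_

open IDX_ NumberField in
/-- **IDX**. -/
theorem t_IDX : S_IDX := by
  classical
  intro L _ _ g1 g2 hind
  obtain ⟨d, hd0, hd⟩ := exists_integral_multiples ℤ ℚ ({(g1 : L), (g2 : L)} : Finset L)
  have hdL : (d : L) ≠ 0 := by exact_mod_cast hd0
  obtain ⟨α1, hα1⟩ : ∃ α : 𝓞 L, (α : L) = (d : L) * g1 := by
    have : IsIntegral ℤ ((d : L) * g1) := by
      rw [← zsmul_eq_mul]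
      exact hd _ (Finset.mem_insert_self _ _)
    exact ⟨⟨_, this⟩, rfl⟩
  obtain ⟨α2, hα2⟩ : ∃ α : 𝓞 L, (α : L) = (d : L) * g2 := by
    have : IsIntegral ℤ ((d : L) * g2) := by
      rw [← zsmul_eq_mul]
      exact hd _ (Finset.mem_insert_of_mem (Finset.mem_singleton_self _))
    exact ⟨⟨_, this⟩, rfl⟩
  -- a bound for the conjugates
  obtain ⟨B, hB1, hB⟩ : ∃ B : ℝ, 1 ≤ B ∧ ∀ σ : L →ₐ[ℚ] ℂ, ‖σ (α1 : L)‖ ≤ B ∧ ‖σ (α2 : L)‖ ≤ B ∧
      |(d : ℝ)| ≤ B := by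
    have s1 : 0 ≤ ∑ σ : L →ₐ[ℚ] ℂ, ‖σ (α1 : L)‖ := Finset.sum_nonneg fun _ _ => norm_nonneg _
    have s2 : 0 ≤ ∑ σ : L →ₐ[ℚ] ℂ, ‖σ (α2 : L)‖ := Finset.sum_nonneg fun _ _ => norm_nonneg _
    have s3 := abs_nonneg (d : ℝ)
    refine ⟨1 + |(d : ℝ)| + ∑ σ : L →ₐ[ℚ] ℂ, ‖σ (α1 : L)‖ + ∑ σ : L →ₐ[ℚ] ℂ, ‖σ (α2 : L)‖,
      by linarith, fun σ => ⟨?_, ?_, by linarith⟩⟩
    · have h2 := Finset.single_le_sum (f := fun σ : L →ₐ[ℚ] ℂ => ‖σ (α1 : L)‖)
        (fun _ _ => norm_nonneg _) (Finset.mem_univ σ)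
      linarith
    · have h2 := Finset.single_le_sum (f := fun σ : L →ₐ[ℚ] ℂ => ‖σ (α2 : L)‖)
        (fun _ _ => norm_nonneg _) (Finset.mem_univ σ)
      linarith
  obtain ⟨n, hn⟩ : ∃ n : ℕ, n = Fintype.card (L →ₐ[ℚ] ℂ) := ⟨_, rfl⟩
  obtain ⟨A, hA⟩ : ∃ A : ℕ, A = ⌈(2 * B) ^ n⌉₊ := ⟨_, rfl⟩
  have hA' : (2 * B) ^ n ≤ A := by rw [hA]; exact Nat.le_ceil _
  obtain ⟨m, hm⟩ : ∃ m : ℤ × ℤ → ℕ, m = fun q =>
    Ideal.absNorm (Ideal.span {xi α1 α2 d q.1 q.2}) := ⟨_, rfl⟩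
  have hxi : ∀ u v : ℤ, ((xi α1 α2 d u v : 𝓞 L) : L) =
      (d : L) ^ (u.toNat + v.toNat + ((-u).toNat + (-v).toNat)) *
        ((g1 : L) ^ u.toNat * (g2 : L) ^ v.toNat - (g1 : L) ^ (-u).toNat * (g2 : L) ^ (-v).toNat) := by
    intro u v
    have h1 := map_xi (algebraMap (𝓞 L) L) α1 α2 d u v
    have h2 : algebraMap (𝓞 L) L α1 = (d : L) * g1 := hα1
    have h3 : algebraMap (𝓞 L) L α2 = (d : L) * g2 := hα2
    rw [h2, h3, xi_eq] at h1
    exact h1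
  have hne : ∀ u v : ℤ, ¬ (u = 0 ∧ v = 0) → xi α1 α2 d u v ≠ 0 := by
    intro u v huv h0
    have h2 : ((xi α1 α2 d u v : 𝓞 L) : L) = 0 := by rw [h0]; rfl
    rw [hxi] at h2
    rcases mul_eq_zero.1 h2 with h3 | h3
    · exact pow_ne_zero _ hdL h3
    · refine huv (hind u v ((zrel g1 g2 u v).2 (Units.ext ?_)))
      push_cast
      exact sub_eq_zero.1 h3
  have hmN : ∀ (N : ℕ), 1 ≤ N → ∀ u v : ℤ, ¬ (u = 0 ∧ v = 0) → |u| ≤ N → |v| ≤ N →
      m (u, v) ≠ 0 ∧ m (u, v) ≤ A ^ (2 * N) := by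
    intro N hN u v huv hu hv
    rw [hm]
    refine ⟨?_, ?_⟩
    · show Ideal.absNorm (Ideal.span {xi α1 α2 d u v}) ≠ 0
      rw [Ne, Ideal.absNorm_eq_zero_iff, Ideal.span_singleton_eq_bot]
      exact hne u v huv
    · show Ideal.absNorm (Ideal.span {xi α1 α2 d u v}) ≤ A ^ (2 * N)
      rw [Ideal.absNorm_span_singleton]
      have h2 : ((Algebra.norm ℤ (xi α1 α2 d u v) : ℤ) : ℚ) =
          Algebra.norm ℚ ((xi α1 α2 d u v : 𝓞 L) : L) := Algebra.coe_norm_int _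
      have h3 := Algebra.norm_eq_prod_embeddings ℚ ℂ ((xi α1 α2 d u v : 𝓞 L) : L)
      have h4 : ‖(algebraMap ℚ ℂ) (Algebra.norm ℚ ((xi α1 α2 d u v : 𝓞 L) : L))‖ ≤
          ((2 * B) ^ n) ^ (2 * N) := by
        rw [h3, norm_prod]
        have h5 : ∀ σ : L →ₐ[ℚ] ℂ, ‖σ ((xi α1 α2 d u v : 𝓞 L) : L)‖ ≤ (2 * B) ^ (2 * N) := by
          intro σ
          have e1 := map_xi ((σ : L →+* ℂ).comp (algebraMap (𝓞 L) L)) α1 α2 d u v
          have e2 : σ ((xi α1 α2 d u v : 𝓞 L) : L) =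
              ((σ : L →+* ℂ).comp (algebraMap (𝓞 L) L)) (xi α1 α2 d u v) := rfl
          rw [e2, e1]
          exact norm_xi_le hB1 (hB σ).1 (hB σ).2.1 (hB σ).2.2 u v N hN hu hv
        refine (Finset.prod_le_prod (fun _ _ => norm_nonneg _) fun σ _ => h5 σ).trans ?_
        rw [Finset.prod_const, Finset.card_univ, ← hn, ← pow_mul, ← pow_mul, Nat.mul_comm (2 * N) n]
      have h5 : (((Algebra.norm ℤ (xi α1 α2 d u v) : ℤ).natAbs : ℕ) : ℝ) ≤
          ((2 * B) ^ n) ^ (2 * N) := by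
        refine le_trans (le_of_eq ?_) h4
        rw [← h2]
        have e1 : (algebraMap ℚ ℂ) ((Algebra.norm ℤ (xi α1 α2 d u v) : ℤ) : ℚ) =
            ((Algebra.norm ℤ (xi α1 α2 d u v) : ℤ) : ℂ) := by
          rw [map_intCast]
        rw [e1, Complex.norm_intCast, Nat.cast_natAbs, Int.cast_abs]
      have h6 : (((Algebra.norm ℤ (xi α1 α2 d u v) : ℤ).natAbs : ℕ) : ℝ) ≤ (A : ℝ) ^ (2 * N) :=
        h5.trans (pow_le_pow_left₀ (by positivity) hA' _)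
      exact_mod_cast h6
  refine ⟨18 * A, fun O hO y hy P hP => ?_⟩
  obtain ⟨N, hN⟩ : ∃ N : ℕ, N = ⌊Real.sqrt y⌋₊ := ⟨_, rfl⟩
  have hs1 : 1 ≤ Real.sqrt y := Real.one_le_sqrt.2 hy
  have hN1 : 1 ≤ N := by
    rw [hN, Nat.one_le_floor_iff]
    exact hs1
  have hNle : (N : ℝ) ≤ Real.sqrt y := by
    rw [hN]
    exact Nat.floor_le (Real.sqrt_nonneg _)
  have hNlt : Real.sqrt y < N + 1 := by
    rw [hN]
    exact Nat.lt_floor_add_one _
  have hylt : y < ((N : ℝ) + 1) ^ 2 := by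
    have h1 := Real.sq_sqrt (by linarith : 0 ≤ y)
    nlinarith [Real.sqrt_nonneg y]
  obtain ⟨I, hI⟩ : ∃ I : Finset (ℤ × ℤ), I =
    (Finset.Icc (-(N : ℤ)) N ×ˢ Finset.Icc (-(N : ℤ)) N).filter fun q => ¬ (q.1 = 0 ∧ q.2 = 0) :=
    ⟨_, rfl⟩
  have hsub : P ⊆ I.biUnion fun q => (m q).primeFactors := by
    intro p hp
    obtain ⟨hpp, ψ, z1, z2, h1, h2, hz1, hz2, hψ1, hψ2, hcard⟩ := hP p hp
    haveI : Fact p.Prime := ⟨hpp⟩
    -- pigeonhole
    have hT : ((((Subgroup.closure ({h1, h2} : Set (ZMod p)ˣ) : Set (ZMod p)ˣ).toFinset).card : ℕ) : ℝ)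
        ≤ y := by
      refine le_trans (le_of_eq ?_) hcard
      rw [← Set.ncard_eq_toFinset_card', ← Nat.card_coe_set_eq]
      rfl
    have hlt : ((Subgroup.closure ({h1, h2} : Set (ZMod p)ˣ) : Set (ZMod p)ˣ).toFinset).card <
        (Finset.range (N + 1) ×ˢ Finset.range (N + 1)).card := by
      rw [Finset.card_product, Finset.card_range]
      have h3 : ((((Subgroup.closure ({h1, h2} : Set (ZMod p)ˣ) :
          Set (ZMod p)ˣ).toFinset).card : ℕ) : ℝ) < (((N + 1) * (N + 1) : ℕ) : ℝ) := by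
        push_cast
        nlinarith
      exact_mod_cast h3
    obtain ⟨a, ha, b, hb, hab, heq⟩ := Finset.exists_ne_map_eq_of_card_lt_of_maps_to hlt
      (f := fun q : ℕ × ℕ => h1 ^ q.1 * h2 ^ q.2) (by
        intro q _
        rw [Finset.mem_coe, Set.mem_toFinset]
        have m1 : h1 ∈ Subgroup.closure ({h1, h2} : Set (ZMod p)ˣ) :=
          Subgroup.subset_closure (Set.mem_insert _ _)
        have m2 : h2 ∈ Subgroup.closure ({h1, h2} : Set (ZMod p)ˣ) :=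
          Subgroup.subset_closure (Set.mem_insert_of_mem _ rfl)
        exact mul_mem (pow_mem m1 _) (pow_mem m2 _))
    have ha' := Finset.mem_product.1 ha
    have hb' := Finset.mem_product.1 hb
    rw [Finset.mem_range, Finset.mem_range] at ha' hb'
    obtain ⟨u, hu⟩ : ∃ u : ℤ, u = (a.1 : ℤ) - b.1 := ⟨_, rfl⟩
    obtain ⟨v, hv⟩ : ∃ v : ℤ, v = (a.2 : ℤ) - b.2 := ⟨_, rfl⟩
    have huv : ¬ (u = 0 ∧ v = 0) := by
      rintro ⟨e1, e2⟩
      apply hab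
      exact Prod.ext (by omega) (by omega)
    have hu' : |u| ≤ N := by
      rw [abs_le]
      omega
    have hv' : |v| ≤ N := by
      rw [abs_le]
      omega
    have hrel : h1 ^ u * h2 ^ v = 1 := by
      have heq' : h1 ^ a.1 * h2 ^ a.2 = h1 ^ b.1 * h2 ^ b.2 := heq
      rw [hu, hv, zpow_sub, zpow_sub, zpow_natCast, zpow_natCast, zpow_natCast, zpow_natCast,
        mul_mul_mul_comm, ← mul_inv, heq', mul_inv_cancel]
    rw [Finset.mem_biUnion]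
    refine ⟨(u, v), ?_, ?_⟩
    · rw [hI, Finset.mem_filter, Finset.mem_product, Finset.mem_Icc, Finset.mem_Icc]
      rw [abs_le] at hu' hv'
      exact ⟨⟨hu', hv'⟩, huv⟩
    · rw [Nat.mem_primeFactors]
      refine ⟨hpp, ?_, (hmN N hN1 u v huv hu' hv').1⟩
      let χ : 𝓞 L →+* ZMod p := ψ.comp
        { toFun := fun x => ⟨(x : L), hO x⟩
          map_one' := by ext; simp
          map_mul' := fun x y => by ext; simp
          map_zero' := by ext; simp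
          map_add' := fun x y => by ext; simp }
      have hχ : ∀ x : 𝓞 L, χ x = ψ ⟨(x : L), hO x⟩ := fun x => rfl
      have e1 : χ α1 = (d : ZMod p) * h1 := by
        rw [hχ]
        have e2 : (⟨(α1 : L), hO α1⟩ : O) = (d : O) * z1 := by
          apply Subtype.ext
          push_cast
          rw [hz1]
          exact hα1
        rw [e2, map_mul, map_intCast, hψ1]
      have e2 : χ α2 = (d : ZMod p) * h2 := by
        rw [hχ]
        have e2 : (⟨(α2 : L), hO α2⟩ : O) = (d : O) * z2 := by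
          apply Subtype.ext
          push_cast
          rw [hz2]
          exact hα2
        rw [e2, map_mul, map_intCast, hψ2]
      have h3 : χ (xi α1 α2 d u v) = 0 := by
        rw [map_xi, e1, e2, xi_eq]
        have h4 := congrArg (Units.val : (ZMod p)ˣ → ZMod p) ((zrel h1 h2 u v).1 hrel)
        push_cast at h4
        rw [h4, sub_self, mul_zero]
      have h5 := Ideal.absNorm_mem (Ideal.span {xi α1 α2 d u v})
      rw [Ideal.mem_span_singleton] at h5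
      obtain ⟨t, ht⟩ := h5
      have h6 : χ ((Ideal.absNorm (Ideal.span {xi α1 α2 d u v}) : ℕ) : 𝓞 L) = 0 := by
        rw [ht, map_mul, h3, zero_mul]
      rw [map_natCast, ZMod.natCast_eq_zero_iff] at h6
      rw [hm]
      exact h6
  have hIcard : I.card ≤ (2 * N + 1) ^ 2 := by
    rw [hI]
    refine (Finset.card_filter_le _ _).trans ?_
    rw [Finset.card_product, Int.card_Icc, pow_two]
    refine le_of_eq ?_
    have : ((N : ℤ) + 1 - -(N : ℤ)).toNat = 2 * N + 1 := by omega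
    rw [this]
  have hcardP : P.card ≤ (2 * N + 1) ^ 2 * (A * (2 * N)) := by
    refine (Finset.card_le_card hsub).trans (Finset.card_biUnion_le.trans ?_)
    have h1 : ∀ q ∈ I, (m q).primeFactors.card ≤ A * (2 * N) := by
      intro q hq
      rw [hI, Finset.mem_filter, Finset.mem_product, Finset.mem_Icc, Finset.mem_Icc] at hq
      obtain ⟨⟨hq1, hq2⟩, hq3⟩ := hq
      have h2 := hmN N hN1 q.1 q.2 hq3 (abs_le.2 hq1) (abs_le.2 hq2)
      exact card_pf _ A (2 * N) h2.1 h2.2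
    refine (Finset.sum_le_card_nsmul _ _ _ h1).trans ?_
    rw [smul_eq_mul]
    exact Nat.mul_le_mul_right _ hIcard
  have h7 : ((P.card : ℕ) : ℝ) ≤ (2 * N + 1) ^ 2 * (A * (2 * N)) := by
    exact_mod_cast hcardP
  have hN1' : (1 : ℝ) ≤ N := by exact_mod_cast hN1
  have h8 : ((2 * (N : ℝ) + 1) ^ 2 * (A * (2 * N))) ≤ 18 * A * (N : ℝ) ^ 3 := by
    have h9 : (2 * (N : ℝ) + 1) ^ 2 ≤ 9 * (N : ℝ) ^ 2 := by nlinarith
    have h10 : 0 ≤ (A : ℝ) * (2 * N) := by positivity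
    calc ((2 * (N : ℝ) + 1) ^ 2 * (A * (2 * N))) ≤ 9 * (N : ℝ) ^ 2 * (A * (2 * N)) :=
          mul_le_mul_of_nonneg_right h9 h10
      _ = 18 * A * (N : ℝ) ^ 3 := by ring
  have h11 : (N : ℝ) ^ 3 ≤ y ^ (3 / 2 : ℝ) := by
    have h12 : y ^ (3 / 2 : ℝ) = Real.sqrt y ^ 3 := by
      rw [Real.sqrt_eq_rpow, ← Real.rpow_natCast, ← Real.rpow_mul (by linarith)]
      norm_num
    rw [h12]
    exact pow_le_pow_left₀ (by positivity) hNle 3
  calc ((P.card : ℕ) : ℝ) ≤ 18 * A * (N : ℝ) ^ 3 := h7.trans h8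
    _ ≤ 18 * A * y ^ (3 / 2 : ℝ) := mul_le_mul_of_nonneg_left h11 (by positivity)

end Pool.Agent.N120.TH
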