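import Pool.Agent.N120.TH.Stm

/-!
# Irreducibility of the twisted polynomials in a good direction (project TH, part IRM)
-/

set_option autoImplicit false

namespace Pool.Agent.N120.TH

open Polynomial

namespace IRM_

theorem core {P E M W R : Type} [CommRing P] [Field E] [Field M] [CommRing W] [IsDomain W]
    [Field R] [IsAlgClosed R] (i : P →+* E) (j : E →+* M) (u : P →+* W) (τ : W →+* R)
    (ρ : M →+* R) (hρ : ρ.comp (j.comp i) = τ.comp u)
    (hgood : ∀ α : M, ρ α ∈ τ.range → α ∈ j.range) (Φ : P[X]) (hm : Φ.Monic)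
    (hirr : Irreducible (Φ.map i)) (hs : (Φ.map (j.comp i)).Splits) : Irreducible (Φ.map u) := by
  have hd : 0 < Φ.natDegree := by
    have h1 : (Φ.map i).natDegree = Φ.natDegree := hm.natDegree_map i
    have h2 := hirr.natDegree_pos
    omega
  have hPu : (Φ.map u).Monic := hm.map u
  have hdu : (Φ.map u).natDegree = Φ.natDegree := hm.natDegree_map u
  rw [hPu.irreducible_iff_natDegree]
  refine ⟨fun h => ?_, fun f g hf hg hfg => ?_⟩
  · rw [h, natDegree_one] at hdu
    omega
  by_contra hcon
  push Not at hcon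
  obtain ⟨hf0, hg0⟩ := hcon
  have hdeg : f.natDegree + g.natDegree = Φ.natDegree := by
    rw [← hdu, ← hfg, hf.natDegree_mul hg]
  set S := (Φ.map (j.comp i)).roots with hS
  have hSprod : Φ.map (j.comp i) = (S.map (fun θ => X - C θ)).prod :=
    hs.eq_prod_roots_of_monic (hm.map _)
  -- the roots over `R`
  have h1 : (Φ.map u).map τ = ((S.map ρ).map (fun θ => X - C θ)).prod := by
    rw [Polynomial.map_map, ← hρ, ← Polynomial.map_map, hSprod, Polynomial.map_multiset_prod,
      Multiset.map_map, Multiset.map_map]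
    congr 1
    refine Multiset.map_congr rfl fun θ _ => ?_
    simp
  have h2 : ((Φ.map u).map τ).roots = S.map ρ := by
    rw [h1, roots_multiset_prod_X_sub_C]
  have hne : (Φ.map u).map τ ≠ 0 := (hPu.map τ).ne_zero
  have h3 : (g.map τ).roots ≤ S.map ρ := by
    rw [← h2]
    refine Polynomial.roots.le_of_dvd hne ?_
    rw [← hfg, Polynomial.map_mul]
    exact Dvd.intro_left _ rfl
  have hgprod : g.map τ = ((g.map τ).roots.map (fun θ => X - C θ)).prod :=
    (IsAlgClosed.splits (g.map τ)).eq_prod_roots_of_monic (hg.map τ)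
  obtain ⟨T, hTρ⟩ : ∃ T : Multiset M, T.map ρ = (g.map τ).roots := by
    refine ⟨(g.map τ).roots.map (Function.invFun ρ), ?_⟩
    have h5 : ∀ θ ∈ (g.map τ).roots, (ρ ∘ Function.invFun ρ) θ = id θ := by
      intro θ hθ
      have h4 : θ ∈ S.map ρ := Multiset.mem_of_le h3 hθ
      rw [Multiset.mem_map] at h4
      obtain ⟨x, -, hx⟩ := h4
      exact Function.invFun_eq ⟨x, hx⟩
    calc ((g.map τ).roots.map (Function.invFun ρ)).map ρ =
          (g.map τ).roots.map (ρ ∘ Function.invFun ρ) := by rw [Multiset.map_map]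
      _ = (g.map τ).roots.map id := Multiset.map_congr rfl h5
      _ = (g.map τ).roots := Multiset.map_id _
  have hTS : T ≤ S := by
    rw [← Multiset.map_le_map_iff ρ.injective, hTρ]
    exact h3
  set G : M[X] := (T.map (fun θ => X - C θ)).prod with hG
  have hGρ : G.map ρ = g.map τ := by
    have h5 : G.map ρ = ((T.map ρ).map (fun θ => X - C θ)).prod := by
      rw [hG, Polynomial.map_multiset_prod, Multiset.map_map, Multiset.map_map]
      congr 1
      refine Multiset.map_congr rfl fun θ _ => ?_
      simp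
    rw [h5, hTρ]
    exact hgprod.symm
  have hGm : G.Monic := monic_multiset_prod_of_monic _ _ fun θ _ => monic_X_sub_C θ
  have hGd : G.natDegree = g.natDegree := by
    rw [← hGm.natDegree_map ρ, hGρ, hg.natDegree_map]
  have hGdvd : G ∣ Φ.map (j.comp i) := by
    rw [hSprod]
    exact Multiset.prod_dvd_prod_of_le (Multiset.map_le_map hTS)
  have hGlift : G ∈ lifts j := by
    rw [lifts_iff_coeff_lifts]
    intro l
    refine hgood _ ⟨g.coeff l, ?_⟩
    rw [← coeff_map, ← hGρ, coeff_map]
  obtain ⟨G0, hG0⟩ := (mem_lifts G).1 hGlift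
  have hG0d : G0.natDegree = g.natDegree := by
    rw [← hGd, ← hG0, natDegree_map]
  have hG0dvd : G0 ∣ Φ.map i := by
    rw [← Polynomial.map_dvd_map' j, hG0, Polynomial.map_map]
    exact hGdvd
  obtain ⟨H, hH⟩ := hG0dvd
  rcases hirr.isUnit_or_isUnit hH with h | h
  · have := natDegree_eq_zero_of_isUnit h
    omega
  · have h5 := natDegree_eq_zero_of_isUnit h
    have h6 : G0 ≠ 0 := by
      rintro rfl
      rw [natDegree_zero] at hG0d
      omega
    have h7 : (Φ.map i).natDegree = G0.natDegree + H.natDegree := by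
      rw [hH, natDegree_mul h6 h.ne_zero]
    rw [hm.natDegree_map i] at h7
    omega

theorem ext_hom {E M R : Type} [Field E] [Field M] [Algebra E M] [FiniteDimensional E M]
    [Field R] [IsAlgClosed R] (σ : E →+* R) :
    ∃ ρ : M →+* R, ρ.comp (algebraMap E M) = σ := by
  let _ := σ.toAlgebra
  refine ⟨((IsAlgClosed.lift : M →ₐ[E] R) : M →+* R), ?_⟩
  ext x
  exact (IsAlgClosed.lift : M →ₐ[E] R).commutes x

theorem expand_twHom {k : Type} [Field k] {n : ℕ} (a : Fin n → ℕ) (m : ℕ) :
    ((Polynomial.expand (Pn k n) m : (Pn k n)[X] →ₐ[Pn k n] (Pn k n)[X]).toRingHom).comp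
      (twHom a) = twHom (fun i => m * a i) := by
  apply MvPolynomial.ringHom_ext
  · intro c
    simp [twHom]
  · intro i
    simp [twHom, pow_mul]

theorem pull_eq {k : Type} [Field k] {n : ℕ} (a : Fin n → ℕ) (m : ℕ) (Φ : (Pn k n)[X]) :
    (pull m (twist a Φ)).map (mapRingHom (cm k n (Om k n))) =
      Φ.map (sub (fun i => m * a i)) := by
  unfold pull twist sub
  rw [Polynomial.map_map, Polynomial.map_map, ← expand_twHom]
  rfl

theorem cm_inj (k : Type) [Field k] (n : ℕ) : Function.Injective (cm k n (Om k n)) :=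
  (algebraMap (En k n) (Om k n)).injective.comp (IsFractionRing.injective (Pn k n) (En k n))

theorem sub_inj {k : Type} [Field k] {n : ℕ} (v : Fin n → ℕ) :
    Function.Injective (sub (k := k) v) := by
  have h1 : (evalRingHom (1 : Om k n)).comp (sub v) = cm k n (Om k n) := by
    apply MvPolynomial.ringHom_ext
    · intro c
      simp [sub, twHom]
    · intro i
      simp [sub, twHom]
  have h2 : Function.Injective ((evalRingHom (1 : Om k n)).comp (sub v)) := by
    rw [h1]
    exact cm_inj k n
  exact Function.Injective.of_comp h2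

theorem subR_inj {k : Type} [Field k] {n : ℕ} (v : Fin n → ℕ) :
    Function.Injective (subR (k := k) v) := by
  intro x y h
  apply sub_inj v
  apply IsFractionRing.injective (Om k n)[X] (RatFunc (Om k n))
  exact (algebraMap (RatFunc (Om k n)) (Rt k n)).injective h

end IRM_

open IRM_ in
theorem t_IRM : S_IRM := by
  intro k _ _ _ n M _ _ _ a hG Φ hm hirr hs m hm1
  rw [pull_eq]
  obtain ⟨ρ, hρ⟩ := ext_hom (M := M) (IsFractionRing.lift (K := En k n)
    (subR_inj (k := k) (fun i => m * a i)))
  have hρ' : ρ.comp (cm k n M) = subR (fun i => m * a i) := by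
    unfold cm
    rw [← RingHom.comp_assoc, hρ]
    refine RingHom.ext fun x => ?_
    rw [RingHom.comp_apply, IsFractionRing.lift_algebraMap]
  refine core (algebraMap (Pn k n) (En k n)) (algebraMap (En k n) M) (sub (fun i => m * a i))
    ((algebraMap (RatFunc (Om k n)) (Rt k n)).comp
      (algebraMap (Om k n)[X] (RatFunc (Om k n)))) ρ hρ' ?_ Φ hm hirr hs
  rintro α ⟨w, hw⟩
  exact hG m hm1 ρ hρ' α ⟨algebraMap (Om k n)[X] (RatFunc (Om k n)) w, hw⟩

end Pool.Agent.N120.TH
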