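import Pool.Agent.N120.TH.Stm

/-!
# Project TH, task KUM: pull-backs `t ↦ t ^ m` of an irreducible monic polynomial over `F[t]`
-/

set_option autoImplicit false

namespace Pool.Agent.N120.TH.KUM_

open Finset Polynomial Pool.Agent.N120.TH

variable {F : Type} [Field F]

/-- `t ↦ a t` -/
noncomputable def sc (a : F) : F[X] →+* F[X] := compRingHom (C a * X)

theorem sc_coeff (a : F) (p : F[X]) (n : ℕ) : (sc a p).coeff n = p.coeff n * a ^ n := by
  rw [sc, coe_compRingHom_apply, comp_C_mul_X_coeff]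

theorem sc_sc (a b : F) (p : F[X]) : sc a (sc b p) = sc (a * b) p := by
  ext n
  rw [sc_coeff, sc_coeff, sc_coeff]
  ring

theorem sc_one (p : F[X]) : sc 1 p = p := by
  ext n
  rw [sc_coeff, one_pow, mul_one]

/-- `t ↦ a t` on the coefficients -/
noncomputable def ph (a : F) : F[X][X] →+* F[X][X] := mapRingHom (sc a)

theorem ph_coeff (a : F) (P : F[X][X]) (n : ℕ) : (ph a P).coeff n = sc a (P.coeff n) := by
  rw [ph, coe_mapRingHom, coeff_map]

theorem ph_ph (a b : F) (P : F[X][X]) : ph a (ph b P) = ph (a * b) P := by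
  ext1 n
  rw [ph_coeff, ph_coeff, ph_coeff, sc_sc]

theorem ph_one (P : F[X][X]) : ph 1 P = P := by
  ext1 n
  rw [ph_coeff, sc_one]

theorem ph_iter (a : F) (k : ℕ) (P : F[X][X]) : (ph a)^[k] P = ph (a ^ k) P := by
  induction k with
  | zero => simp [ph_one]
  | succ k ih => rw [Function.iterate_succ_apply', ih, ph_ph, pow_succ']

/-- `ph a` as an equivalence -/
noncomputable def phE (a : F) (ha : a ≠ 0) : F[X][X] ≃+* F[X][X] :=
  RingEquiv.ofRingHom (ph a) (ph a⁻¹)
    (RingHom.ext fun P => by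
      rw [RingHom.comp_apply, ph_ph, mul_inv_cancel₀ ha, ph_one, RingHom.id_apply])
    (RingHom.ext fun P => by
      rw [RingHom.comp_apply, ph_ph, inv_mul_cancel₀ ha, ph_one, RingHom.id_apply])

theorem ph_irr (a : F) (ha : a ≠ 0) (P : F[X][X]) (h : Irreducible P) : Irreducible (ph a P) :=
  (MulEquiv.irreducible_iff (phE a ha)).2 h

theorem sc_inj (a : F) (ha : a ≠ 0) : Function.Injective (sc a) := by
  intro p q h
  have := congrArg (sc a⁻¹) h
  rwa [sc_sc, sc_sc, inv_mul_cancel₀ ha, sc_one, sc_one] at this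

theorem ph_monic (a : F) (P : F[X][X]) (h : P.Monic) : (ph a P).Monic := h.map _

theorem ph_natDegree (a : F) (P : F[X][X]) (h : P.Monic) : (ph a P).natDegree = P.natDegree :=
  h.natDegree_map _

theorem ph_pull (a : F) (k : ℕ) (hk : 0 < k) (ha : a ^ k = 1) (P : F[X][X]) :
    ph a (pull k P) = pull k P := by
  ext1 n
  rw [ph_coeff, pull, coeff_map]
  ext i
  rw [sc_coeff]
  change (expand F k (P.coeff n)).coeff i * a ^ i = (expand F k (P.coeff n)).coeff i
  rw [coeff_expand hk]
  split_ifs with h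
  · obtain ⟨j, rfl⟩ := h
    rw [pow_mul, ha, one_pow, mul_one]
  · rw [zero_mul]

theorem expand_of_fixed (a : F) (k : ℕ) (hk : 0 < k) (ha : IsPrimitiveRoot a k) (p : F[X])
    (hp : sc a p = p) : expand F k (contract k p) = p := by
  ext i
  rw [coeff_expand hk]
  split_ifs with h
  · rw [coeff_contract hk.ne', Nat.div_mul_cancel h]
  · have h1 := congrArg (fun q => q.coeff i) hp
    simp only [sc_coeff] at h1
    have h2 : a ^ i ≠ 1 := fun h3 => h ((ha.pow_eq_one_iff_dvd i).1 h3)
    have h3 : p.coeff i * (a ^ i - 1) = 0 := by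
      rw [mul_sub, h1, mul_one, sub_self]
    exact ((mul_eq_zero.1 h3).resolve_right (sub_ne_zero.2 h2)).symm

theorem expand_inj (k : ℕ) (hk : 0 < k) :
    Function.Injective (Polynomial.expand F k : F[X] →ₐ[F] F[X]).toRingHom :=
  fun _ _ h => Polynomial.expand_injective hk h

theorem exists_pull (a : F) (k : ℕ) (hk : 0 < k) (ha : IsPrimitiveRoot a k) (P : F[X][X])
    (hP : ph a P = P) : ∃ Q : F[X][X], pull k Q = P := by
  have h : P ∈ lifts (Polynomial.expand F k : F[X] →ₐ[F] F[X]).toRingHom := by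
    rw [lifts_iff_coeff_lifts]
    intro n
    refine ⟨contract k (P.coeff n), ?_⟩
    refine expand_of_fixed a k hk ha _ ?_
    rw [← ph_coeff, hP]
  obtain ⟨Q, hQ⟩ := (mem_lifts _).1 h
  exact ⟨Q, hQ⟩

theorem pull_pull (k l : ℕ) (P : F[X][X]) : pull k (pull l P) = pull (k * l) P := by
  ext1 n
  rw [pull, pull, pull, coeff_map, coeff_map, coeff_map]
  exact expand_expand k l _

theorem pull_monic_iff (k : ℕ) (hk : 0 < k) (P : F[X][X]) : (pull k P).Monic ↔ P.Monic :=
  ⟨fun h => monic_of_injective (expand_inj k hk) h, fun h => h.map _⟩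

theorem pull_dvd_iff (k : ℕ) (hk : 0 < k) (P Q : F[X][X]) (hP : P.Monic) :
    pull k P ∣ pull k Q ↔ P ∣ Q := map_dvd_map _ (expand_inj k hk) hP

theorem pull_natDegree (k : ℕ) (P : F[X][X]) (hP : P.Monic) :
    (pull k P).natDegree = P.natDegree := hP.natDegree_map _

theorem natDegree_pos (P : F[X][X]) (hP : P.Monic) (hi : Irreducible P) : 0 < P.natDegree := by
  refine Nat.pos_of_ne_zero fun h => hi.not_isUnit ?_
  rw [hP.natDegree_eq_zero.1 h]
  exact isUnit_one

/-- a monic irreducible factor -/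
theorem exists_monic_factor (P : F[X][X]) (hP : P.Monic) (h0 : 0 < P.natDegree) :
    ∃ g : F[X][X], g.Monic ∧ Irreducible g ∧ g ∣ P := by
  have hu : ¬ IsUnit P := by
    intro h
    have := hP.eq_one_of_isUnit h
    rw [this, natDegree_one] at h0
    exact lt_irrefl _ h0
  obtain ⟨g, hg, hgP⟩ := WfDvdMonoid.exists_irreducible_factor hu hP.ne_zero
  obtain ⟨h, hh⟩ := hgP
  have hlc : g.leadingCoeff * h.leadingCoeff = 1 := by
    rw [← leadingCoeff_mul, ← hh]
    exact hP
  have hunit : IsUnit (C h.leadingCoeff : F[X][X]) := by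
    refine IsUnit.map C ?_
    exact IsUnit.of_mul_eq_one_right _ hlc
  refine ⟨g * C h.leadingCoeff, ?_, ?_, ?_⟩
  · rw [Monic, leadingCoeff_mul, leadingCoeff_C, hlc]
  · exact (associated_mul_unit_left g _ hunit).symm.irreducible hg
  · exact ((associated_mul_unit_left g _ hunit).dvd).trans ⟨h, hh⟩

end Pool.Agent.N120.TH.KUM_

namespace Pool.Agent.N120.TH

open Finset Polynomial KUM_

theorem t_KUM : S_KUM := by
  intro F _ _ Ψ hmon hirr hl m hm
  have hm0 : 0 < m := Nat.pos_of_ne_zero fun h => hm (by rw [h, Nat.cast_zero])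
  have : NeZero (m : F) := ⟨hm⟩
  obtain ⟨ζ, hζ⟩ := HasEnoughRootsOfUnity.exists_primitiveRoot F m
  have hζ0 : ζ ≠ 0 := hζ.ne_zero hm0.ne'
  set D := Ψ.natDegree with hD
  have hD0 : 0 < D := natDegree_pos Ψ hmon hirr
  have hΦm : (pull m Ψ).Monic := (pull_monic_iff m hm0 Ψ).2 hmon
  have hΦd : (pull m Ψ).natDegree = D := pull_natDegree m Ψ hmon
  obtain ⟨g, hgm, hgi, hgd⟩ := exists_monic_factor (pull m Ψ) hΦm (by rw [hΦd]; exact hD0)
  have hg0 : 0 < g.natDegree := natDegree_pos g hgm hgi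
  have hφΦ : ∀ i, ph (ζ ^ i) (pull m Ψ) = pull m Ψ := fun i =>
    ph_pull _ m hm0 (by rw [← pow_mul, mul_comm, pow_mul, hζ.pow_eq_one, one_pow]) Ψ
  have hit : ∀ i, (ph ζ)^[i] g = ph (ζ ^ i) g := fun i => ph_iter ζ i g
  have him : ∀ i, ((ph ζ)^[i] g).Monic := fun i => by rw [hit]; exact ph_monic _ _ hgm
  have hii : ∀ i, Irreducible ((ph ζ)^[i] g) := fun i => by
    rw [hit]; exact ph_irr _ (pow_ne_zero i hζ0) _ hgi
  have hid : ∀ i, (ph ζ)^[i] g ∣ pull m Ψ := fun i => by
    rw [hit, ← hφΦ i]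
    exact _root_.map_dvd (ph (ζ ^ i)) hgd
  have hin : ∀ i, ((ph ζ)^[i] g).natDegree = g.natDegree := fun i => by
    rw [hit]; exact ph_natDegree _ _ hgm
  have hper : Function.IsPeriodicPt (ph ζ) m g := by
    change (ph ζ)^[m] g = g
    rw [hit, hζ.pow_eq_one, ph_one]
  set s := Function.minimalPeriod (ph ζ) g with hs
  have hsm : s ∣ m := hper.minimalPeriod_dvd
  have hs0 : 0 < s := hper.minimalPeriod_pos hm0
  have hss : (ph ζ)^[s] g = g := Function.iterate_minimalPeriod
  have hrel : ∀ i j, i < s → j < s → i ≠ j → IsRelPrime ((ph ζ)^[i] g) ((ph ζ)^[j] g) := by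
    intro i j hi hj hij
    rw [(hii i).isRelPrime_iff_not_dvd]
    intro hdvd
    have := eq_of_monic_of_associated (him i) (him j) ((hii i).associated_of_dvd (hii j) hdvd)
    exact hij (Function.iterate_injOn_Iio_minimalPeriod hi hj this)
  have hfull : ∏ i ∈ range s, (ph ζ)^[i] g ∣ pull m Ψ := by
    refine Finset.prod_dvd_of_isRelPrime ?_ fun i _ => hid i
    intro i hi j hj hij
    exact hrel i j (by simpa using hi) (by simpa using hj) hij
  have hsD : s * g.natDegree ≤ D := by
    have h1 := natDegree_le_of_dvd hfull hΦm.ne_zero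
    rw [natDegree_prod_of_monic _ _ fun i _ => him i, hΦd] at h1
    simpa [hin] using h1
  by_cases hs1 : s = 1
  · have hfix : ph ζ g = g := by
      have := hss
      rw [hs1, Function.iterate_one] at this
      exact this
    obtain ⟨Q, hQ⟩ := exists_pull ζ m hm0 hζ g hfix
    have hQm : Q.Monic := (pull_monic_iff m hm0 Q).1 (by rw [hQ]; exact hgm)
    have hQΨ : Q ∣ Ψ := (pull_dvd_iff m hm0 Q Ψ hQm).1 (by rw [hQ]; exact hgd)
    have hQd : Q.natDegree = g.natDegree := by rw [← hQ, pull_natDegree m Q hQm]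
    obtain ⟨W, hW⟩ := hQΨ
    rcases hirr.isUnit_or_isUnit hW with h | h
    · have := hQm.eq_one_of_isUnit h
      rw [this, natDegree_one] at hQd
      omega
    · have hWm : W.Monic := by
        refine hQm.of_mul_monic_left ?_
        rw [← hW]
        exact hmon
      have hW1 := hWm.eq_one_of_isUnit h
      rw [hW1, mul_one] at hW
      rw [hW, hQ]
      exact hgi
  · exfalso
    obtain ⟨l, hlp, r, hlr⟩ := Nat.exists_prime_and_dvd hs1
    obtain ⟨k0, hk0⟩ := hsm
    have hmlk : m = l * (r * k0) := by rw [hk0, hlr, mul_assoc]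
    set k := r * k0 with hk
    have hkpos : 0 < k := Nat.pos_of_ne_zero fun h => by
      rw [h, mul_zero] at hmlk
      omega
    have hr0 : 0 < r := Nat.pos_of_ne_zero fun h => by
      rw [h, mul_zero] at hlr
      omega
    set Q := ∏ j ∈ range r, (ph ζ)^[l * j] g with hQdef
    have hQdvd : Q ∣ pull m Ψ := by
      refine Finset.prod_dvd_of_isRelPrime ?_ fun i _ => hid _
      intro i hi j hj hij
      have hi' : i < r := by simpa using hi
      have hj' : j < r := by simpa using hj
      refine hrel (l * i) (l * j) ?_ ?_ ?_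
      · rw [hlr]; exact Nat.mul_lt_mul_of_pos_left hi' hlp.pos
      · rw [hlr]; exact Nat.mul_lt_mul_of_pos_left hj' hlp.pos
      · intro h
        exact hij (Nat.eq_of_mul_eq_mul_left hlp.pos h)
    have hQmon : Q.Monic := monic_prod_of_monic _ _ fun i _ => him _
    have hQdeg : Q.natDegree = r * g.natDegree := by
      rw [hQdef, natDegree_prod_of_monic _ _ fun i _ => him _]
      simp [hin]
    have hfix : ph (ζ ^ l) Q = Q := by
      rw [hQdef, map_prod]
      have h1 : ∀ j, ph (ζ ^ l) ((ph ζ)^[l * j] g) = (ph ζ)^[l * (j + 1)] g := by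
        intro j
        rw [hit, hit, ph_ph, ← pow_add]
        congr 2
        ring
      rw [Finset.prod_congr rfl fun j _ => h1 j]
      have h2 := Finset.prod_range_succ' (fun j => (ph ζ)^[l * j] g) r
      have h3 := Finset.prod_range_succ (fun j => (ph ζ)^[l * j] g) r
      rw [h2] at h3
      have h4 : (ph ζ)^[l * r] g = g := by rw [← hlr]; exact hss
      simp only [mul_zero, Function.iterate_zero, id_eq, h4] at h3
      exact mul_right_cancel₀ hgm.ne_zero h3
    have hprim : IsPrimitiveRoot (ζ ^ l) k := hζ.pow hm0 hmlk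
    obtain ⟨Q', hQ'⟩ := exists_pull (ζ ^ l) k hkpos hprim Q hfix
    have hQ'm : Q'.Monic := (pull_monic_iff k hkpos Q').1 (by rw [hQ']; exact hQmon)
    have hQ'd : Q'.natDegree = r * g.natDegree := by
      rw [← hQdeg, ← hQ', pull_natDegree k Q' hQ'm]
    have hΨl : Q' ∣ pull l Ψ := by
      refine (pull_dvd_iff k hkpos Q' _ hQ'm).1 ?_
      rw [hQ', pull_pull, mul_comm k l, ← hmlk]
      exact hQdvd
    have hlD : l ≤ D := by
      have h1 : l ≤ s := by rw [hlr]; exact Nat.le_mul_of_pos_right l hr0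
      have h2 : s ≤ s * g.natDegree := Nat.le_mul_of_pos_right s hg0
      omega
    have hlF : (l : F) ≠ 0 := by
      intro h
      apply hm
      rw [hmlk, Nat.cast_mul, h, zero_mul]
    have hirl := hl l hlp hlD hlF
    have hlm : (pull l Ψ).Monic := (pull_monic_iff l hlp.pos Ψ).2 hmon
    have hld : (pull l Ψ).natDegree = D := pull_natDegree l Ψ hmon
    have hrg : 0 < r * g.natDegree := Nat.mul_pos hr0 hg0
    obtain ⟨W, hW⟩ := hΨl
    rcases hirl.isUnit_or_isUnit hW with h | h
    · have := hQ'm.eq_one_of_isUnit h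
      rw [this, natDegree_one] at hQ'd
      omega
    · have hWm : W.Monic := by
        refine hQ'm.of_mul_monic_left ?_
        rw [← hW]
        exact hlm
      have hW1 := hWm.eq_one_of_isUnit h
      rw [hW1, mul_one] at hW
      rw [hW, hQ'd] at hld
      rw [hlr, mul_assoc, hld] at hsD
      have := hlp.two_le
      nlinarith

end Pool.Agent.N120.TH
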