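import Pool.Agent.N120.TH.Stm

/-!
# LOC: the local inequality for roots

Project TH (helper120), this file by helper507. `lift_mv`, `lift_poly` are those of
`Pool/Agent/N120/TC/A.lean`.
-/

set_option autoImplicit false
set_option linter.all false

namespace Pool.Agent.N120.TH

namespace LOC_

open Finset Polynomial

/-- lifting of a multivariate polynomial to a subring containing its coefficients -/
lemma lift_mv {K : Type} [CommRing K] {n : ℕ} (O : Subring K) (p : MvPolynomial (Fin n) K)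
    (h : ∀ z ∈ p.coeffs, z ∈ O) : ∃ q : MvPolynomial (Fin n) O,
      MvPolynomial.map O.subtype q = p := by
  have : p ∈ Set.range (MvPolynomial.map (σ := Fin n) O.subtype) := by
    rw [MvPolynomial.mem_range_map_iff_coeffs_subset]
    intro z hz
    exact ⟨⟨z, h z hz⟩, rfl⟩
  obtain ⟨q, hq⟩ := this
  exact ⟨q, hq⟩

open Classical in
/-- all the coefficients of the coefficients -/
noncomputable def cf {K : Type} [CommRing K] {n : ℕ}
    (p : Polynomial (MvPolynomial (Fin n) K)) : Finset K :=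
  p.support.biUnion (fun i => (p.coeff i).coeffs)

lemma lift_poly {K : Type} [CommRing K] {n : ℕ} (O : Subring K)
    (p : Polynomial (MvPolynomial (Fin n) K)) (h : ∀ z ∈ cf p, z ∈ O) :
    ∃ q : Polynomial (MvPolynomial (Fin n) O), q.map (MvPolynomial.map O.subtype) = p := by
  classical
  rw [← Polynomial.mem_lifts, Polynomial.lifts_iff_coeff_lifts]
  intro i
  by_cases hi : p.coeff i = 0
  · exact ⟨0, by rw [map_zero, hi]⟩
  · obtain ⟨q, hq⟩ := lift_mv O (p.coeff i) (fun z hz => h z (by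
      unfold cf
      rw [Finset.mem_biUnion]
      exact ⟨i, Polynomial.mem_support_iff.2 hi, hz⟩))
    exact ⟨q, hq⟩

lemma map_inj {K : Type} [CommRing K] {n : ℕ} (O : Subring K) :
    Function.Injective (MvPolynomial.map (σ := Fin n) O.subtype) :=
  MvPolynomial.map_injective _ O.subtype_injective

/-- the homogenization over a ring -/
noncomputable def hg {S : Type} [CommRing S] (d : ℕ) (φ Q : S[X]) (E : S) : S[X] :=
  ∑ j ∈ range (d + 1), C (φ.coeff j) * Q ^ j * C E ^ (d - j)

lemma hg_map {S T : Type} [CommRing S] [CommRing T] (f : S →+* T) (d : ℕ) (φ Q : S[X]) (E : S) :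
    (hg d φ Q E).map f = hg d (φ.map f) (Q.map f) (f E) := by
  unfold hg
  rw [Polynomial.map_sum]
  refine Finset.sum_congr rfl fun j _ => ?_
  rw [Polynomial.map_mul, Polynomial.map_mul, Polynomial.map_pow, Polynomial.map_pow,
    Polynomial.map_C, Polynomial.map_C, Polynomial.coeff_map]

lemma hg_eval {F : Type} [Field F] (d : ℕ) (φ Q : F[X]) (e y : F) (he : e ≠ 0)
    (hd : φ.natDegree ≤ d) : (hg d φ Q e).eval y = e ^ d * φ.eval (Q.eval y / e) := by
  unfold hg
  rw [eval_finsetSum, eval_eq_sum_range' (Nat.lt_succ_of_le hd), Finset.mul_sum]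
  refine Finset.sum_congr rfl fun j hj => ?_
  rw [Finset.mem_range] at hj
  rw [eval_mul, eval_mul, eval_pow, eval_pow, eval_C, eval_C, div_pow]
  have h1 : e ^ d = e ^ (d - j) * e ^ j := by rw [← pow_add, Nat.sub_add_cancel (by omega)]
  rw [h1]
  field_simp

lemma mem_nrt {n : ℕ} {R : Type} [CommRing R] {p : ℕ} [Fact p.Prime] (ψ : R →+* ZMod p)
    (Φ : Polynomial (MvPolynomial (Fin n) R)) (x : Fin n → ZMod p) (s : Finset (ZMod p))
    (hs : ∀ y ∈ s, (Φ.map (MvPolynomial.eval₂Hom ψ x)).eval y = 0) : s.card ≤ nrt ψ Φ x := by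
  classical
  unfold nrt
  refine Finset.card_le_card fun y hy => ?_
  rw [Finset.mem_filter]
  exact ⟨Finset.mem_univ _, hs y hy⟩

lemma nrt_le {n : ℕ} {R : Type} [CommRing R] {p : ℕ} [Fact p.Prime] (ψ : R →+* ZMod p)
    (Φ : Polynomial (MvPolynomial (Fin n) R)) (hΦ : Φ.Monic) (x : Fin n → ZMod p) :
    nrt ψ Φ x ≤ Φ.natDegree := by
  classical
  have hm := hΦ.map (MvPolynomial.eval₂Hom ψ x)
  have hd := hΦ.natDegree_map (MvPolynomial.eval₂Hom ψ x)
  rw [← hd]
  refine le_trans ?_ (card_roots' _)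
  refine le_trans ?_ (Multiset.toFinset_card_le _)
  unfold nrt
  refine Finset.card_le_card fun y hy => ?_
  rw [Finset.mem_filter] at hy
  rw [Multiset.mem_toFinset, mem_roots hm.ne_zero]
  exact hy.2

lemma exists_nrt {n : ℕ} {R : Type} [CommRing R] {p : ℕ} [Fact p.Prime] (ψ : R →+* ZMod p)
    (Φ : Polynomial (MvPolynomial (Fin n) R)) (x : Fin n → ZMod p) (h : nrt ψ Φ x ≠ 0) :
    ∃ y, (Φ.map (MvPolynomial.eval₂Hom ψ x)).eval y = 0 := by
  classical
  unfold nrt at h
  rw [Finset.card_ne_zero] at h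
  obtain ⟨y, hy⟩ := h
  rw [Finset.mem_filter] at hy
  exact ⟨y, hy.2⟩

end LOC_

open LOC_ Polynomial in
theorem t_LOC : S_LOC := by
  classical
  intro n L _ φ Φ E hφ hΦ hΦ1 hE hTR
  obtain ⟨Q1, Q2, R, ⟨A1, hA1⟩, ⟨A2, hA2⟩, ⟨A3, hA3⟩⟩ := hTR
  obtain ⟨m0, hm0⟩ := MvPolynomial.ne_zero_iff.1 hE
  refine ⟨cf φ ∪ cf Φ ∪ E.coeffs ∪ cf Q1 ∪ cf Q2 ∪ cf R ∪ cf A1 ∪ cf A2 ∪ cf A3 ∪
    {(MvPolynomial.coeff m0 E)⁻¹}, E.totalDegree, fun O hs => ?_⟩
  obtain ⟨φO, hφO⟩ := lift_poly O φ (fun z hz => hs z (by simp [hz]))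
  obtain ⟨ΦO, hΦO⟩ := lift_poly O Φ (fun z hz => hs z (by simp [hz]))
  obtain ⟨EO, hEO⟩ := lift_mv O E (fun z hz => hs z (by simp [hz]))
  obtain ⟨Q1O, hQ1O⟩ := lift_poly O Q1 (fun z hz => hs z (by simp [hz]))
  obtain ⟨Q2O, hQ2O⟩ := lift_poly O Q2 (fun z hz => hs z (by simp [hz]))
  obtain ⟨RO, hRO⟩ := lift_poly O R (fun z hz => hs z (by simp [hz]))
  obtain ⟨A1O, hA1O⟩ := lift_poly O A1 (fun z hz => hs z (by simp [hz]))
  obtain ⟨A2O, hA2O⟩ := lift_poly O A2 (fun z hz => hs z (by simp [hz]))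
  obtain ⟨A3O, hA3O⟩ := lift_poly O A3 (fun z hz => hs z (by simp [hz]))
  have hinvO : (MvPolynomial.coeff m0 E)⁻¹ ∈ O := hs _ (by simp)
  have hinj := map_inj (n := n) O
  have hφm : φO.Monic := Polynomial.monic_of_injective hinj (by rw [hφO]; exact hφ)
  have hΦm : ΦO.Monic := Polynomial.monic_of_injective hinj (by rw [hΦO]; exact hΦ)
  have hφd : φO.natDegree = φ.natDegree := by
    rw [← hφO, Polynomial.natDegree_map_eq_of_injective hinj]
  have hΦd : ΦO.natDegree = Φ.natDegree := by
    rw [← hΦO, Polynomial.natDegree_map_eq_of_injective hinj]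
  have i1 : hg φ.natDegree φO Q1O EO = ΦO * A1O := by
    apply Polynomial.map_injective _ hinj
    rw [hg_map, Polynomial.map_mul, hφO, hQ1O, hEO, hΦO, hA1O]
    exact hA1
  have i2 : hg φ.natDegree φO Q2O EO = ΦO * A2O := by
    apply Polynomial.map_injective _ hinj
    rw [hg_map, Polynomial.map_mul, hφO, hQ2O, hEO, hΦO, hA2O]
    exact hA2
  have i3 : (Q1O - Q2O) * RO - C (EO ^ 2) = ΦO * A3O := by
    apply Polynomial.map_injective _ hinj
    rw [Polynomial.map_sub, Polynomial.map_mul, Polynomial.map_sub, Polynomial.map_mul,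
      Polynomial.map_C, map_pow, hQ1O, hQ2O, hRO, hEO, hΦO, hA3O]
    exact hA3
  refine ⟨φO, ΦO, hφm, hφO, hΦO, fun p _ ψ => ⟨MvPolynomial.map ψ EO, ?_, ?_, fun x => ?_⟩⟩
  · -- `b` is not zero
    intro h0
    have h1 := congrArg (MvPolynomial.coeff m0) h0
    rw [MvPolynomial.coeff_map, MvPolynomial.coeff_zero] at h1
    have h2 : MvPolynomial.coeff m0 EO * ⟨_, hinvO⟩ = 1 := by
      apply O.subtype_injective
      rw [map_mul, map_one]
      have h3 : O.subtype (MvPolynomial.coeff m0 EO) = MvPolynomial.coeff m0 E := by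
        rw [← hEO, MvPolynomial.coeff_map]
      rw [h3]
      exact mul_inv_cancel₀ hm0
    have h4 := congrArg ψ h2
    rw [map_mul, h1, zero_mul, map_one] at h4
    exact zero_ne_one h4
  · -- the degree
    have h1 : EO.support = E.support := by
      rw [← hEO]
      exact (MvPolynomial.support_map_of_injective _ O.subtype_injective).symm
    have h2 : (MvPolynomial.map ψ EO).support ⊆ E.support := by
      rw [← h1]
      exact MvPolynomial.support_map_subset _ _
    exact Finset.sup_mono h2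
  · have hf : MvPolynomial.eval x (MvPolynomial.map ψ EO) = MvPolynomial.eval₂Hom ψ x EO := by
      rw [MvPolynomial.eval_map]
      rfl
    refine ⟨by rw [← hφd]; exact nrt_le ψ φO hφm x, by rw [← hΦd]; exact nrt_le ψ ΦO hΦm x,
      fun h1 hb => ?_⟩
    rw [hf] at hb
    by_cases h0 : nrt ψ ΦO x = 0
    · rw [h0, Nat.cast_zero, zero_div, add_zero]
      exact_mod_cast h1
    · obtain ⟨y, hy⟩ := exists_nrt ψ ΦO x h0
      obtain ⟨g, hgd⟩ : ∃ g, g = MvPolynomial.eval₂Hom ψ x := ⟨_, rfl⟩
      rw [← hgd] at hy hb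
      have hdg : (φO.map g).natDegree ≤ φ.natDegree := by
        rw [← hφd]
        exact natDegree_map_le
      have j1 : (φO.map g).eval ((Q1O.map g).eval y / g EO) = 0 := by
        have h2 := congrArg (fun P => (Polynomial.map g P).eval y) i1
        simp only [hg_map, Polynomial.map_mul, eval_mul, hy, zero_mul] at h2
        rw [hg_eval _ _ _ _ _ hb hdg] at h2
        exact (mul_eq_zero.1 h2).resolve_left (pow_ne_zero _ hb)
      have j2 : (φO.map g).eval ((Q2O.map g).eval y / g EO) = 0 := by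
        have h2 := congrArg (fun P => (Polynomial.map g P).eval y) i2
        simp only [hg_map, Polynomial.map_mul, eval_mul, hy, zero_mul] at h2
        rw [hg_eval _ _ _ _ _ hb hdg] at h2
        exact (mul_eq_zero.1 h2).resolve_left (pow_ne_zero _ hb)
      have j3 : (Q1O.map g).eval y / g EO ≠ (Q2O.map g).eval y / g EO := by
        intro he
        have h2 := congrArg (fun P => (Polynomial.map g P).eval y) i3
        simp only [Polynomial.map_mul, Polynomial.map_sub, Polynomial.map_C, eval_mul, eval_sub,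
          eval_C, hy, zero_mul, map_pow, Polynomial.map_pow, eval_pow] at h2
        have h3 : (Q1O.map g).eval y = (Q2O.map g).eval y := by
          field_simp at he
          exact he
        rw [h3, sub_self, zero_mul, zero_sub, neg_eq_zero] at h2
        exact pow_ne_zero 2 hb h2
      have j4 : 2 ≤ nrt ψ φO x := by
        have h2 := mem_nrt ψ φO x {(Q1O.map g).eval y / g EO, (Q2O.map g).eval y / g EO} (by
          intro z hz
          rw [Finset.mem_insert, Finset.mem_singleton] at hz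
          rw [← hgd]
          rcases hz with rfl | rfl
          · exact j1
          · exact j2)
        rwa [Finset.card_pair j3] at h2
      have j5 : (nrt ψ ΦO x : ℝ) / Φ.natDegree ≤ 1 := by
        have h2 := nrt_le ψ ΦO hΦm x
        rw [hΦd] at h2
        have h3 : (0 : ℝ) < Φ.natDegree := by exact_mod_cast hΦ1
        rw [div_le_one h3]
        exact_mod_cast h2
      have j6 : (2 : ℝ) ≤ nrt ψ φO x := by exact_mod_cast j4
      linarith

end Pool.Agent.N120.TH
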