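import Pool.Agent.N120.TH.Stm

/-!
# Project TH: Schwartz-Zippel with multiplicities (helper803, after helper407)
-/

set_option autoImplicit false

namespace Pool.Agent.N120.TH.SZ_

open Finset

lemma sum_pi_succ {α : Type} [DecidableEq α] (k : ℕ) (B : Fin (k + 1) → Finset α)
    (f : (Fin (k + 1) → α) → ℝ) :
    ∑ n ∈ Fintype.piFinset B, f n =
      ∑ n ∈ Fintype.piFinset (fun i : Fin k => B i.succ), ∑ a ∈ B 0,
        f (Fin.cons a n : Fin (k + 1) → α) := by
  rw [sum_comm, ← sum_product' (f := fun a n => f (Fin.cons a n : Fin (k + 1) → α))]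
  symm
  refine sum_bij' (fun p _ => (Fin.cons p.1 p.2 : Fin (k + 1) → α))
    (fun n _ => (n 0, fun i => n i.succ)) ?_ ?_ ?_ ?_ ?_
  · rintro ⟨a, n⟩ h
    simp only [mem_product, Fintype.mem_piFinset] at h ⊢
    intro i
    refine Fin.cases ?_ (fun j => ?_) i
    · simpa using h.1
    · simpa using h.2 j
  · intro n h
    simp only [mem_product, Fintype.mem_piFinset] at h ⊢
    exact ⟨h 0, fun i => h i.succ⟩
  · rintro ⟨a, n⟩ _
    simp
  · intro n _
    funext i
    refine Fin.cases ?_ (fun j => ?_) i <;> simp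
  · intro p _
    rfl

open Classical in
/-- the number of `e` in `B` with `φ e` a root of `q` -/
lemma roots_count {F : Type} [Field F] {α : Type} (q : Polynomial F) (hq : q ≠ 0) (B : Finset α)
    (φ : α → F) (μ : ℝ) (hμ : 0 ≤ μ)
    (h : ∀ z, ((B.filter (fun e => φ e = z)).card : ℝ) ≤ μ * B.card) :
    ((B.filter (fun e => q.eval (φ e) = 0)).card : ℝ) ≤ q.natDegree * (μ * B.card) := by
  have h1 : B.filter (fun e => q.eval (φ e) = 0) ⊆
      q.roots.toFinset.biUnion (fun z => B.filter (fun e => φ e = z)) := by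
    intro e he
    rw [mem_filter] at he
    rw [mem_biUnion]
    refine ⟨φ e, ?_, mem_filter.2 ⟨he.1, rfl⟩⟩
    rw [Multiset.mem_toFinset, Polynomial.mem_roots hq]
    exact he.2
  have h2 : ((B.filter (fun e => q.eval (φ e) = 0)).card : ℝ) ≤
      ∑ z ∈ q.roots.toFinset, ((B.filter (fun e => φ e = z)).card : ℝ) := by
    exact_mod_cast (card_le_card h1).trans card_biUnion_le
  refine h2.trans ?_
  calc ∑ z ∈ q.roots.toFinset, ((B.filter (fun e => φ e = z)).card : ℝ)
      ≤ ∑ _z ∈ q.roots.toFinset, μ * B.card := sum_le_sum fun z _ => h z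
    _ = (q.roots.toFinset.card : ℝ) * (μ * B.card) := by rw [sum_const, nsmul_eq_mul]
    _ ≤ q.natDegree * (μ * B.card) := by
        have h3 : q.roots.toFinset.card ≤ q.natDegree :=
          (Multiset.toFinset_card_le _).trans (Polynomial.card_roots' q)
        gcongr

lemma fin {N0 Q μ C d b S : ℝ} (hN : 0 ≤ N0) (hQ : 0 ≤ Q) (hμ : 0 ≤ μ) (hS : S ≤ C * μ * Q)
    (hd : C + d ≤ b) : N0 * S + Q * (d * (μ * N0)) ≤ b * μ * (N0 * Q) := by
  have h1 : N0 * S ≤ N0 * (C * μ * Q) := mul_le_mul_of_nonneg_left hS hN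
  have h2 : (C + d) * (μ * (N0 * Q)) ≤ b * (μ * (N0 * Q)) :=
    mul_le_mul_of_nonneg_right hd (mul_nonneg hμ (mul_nonneg hN hQ))
  linarith

open Classical in
lemma main {F : Type} [Field F] {α : Type} (μ : ℝ) (hμ : 0 ≤ μ) (n : ℕ) :
    ∀ (b : MvPolynomial (Fin n) F), b ≠ 0 →
    ∀ (B : Fin n → Finset α) (x : Fin n → α → F),
    (∀ i z, (((B i).filter (fun v => x i v = z)).card : ℝ) ≤ μ * (B i).card) →
    (((Fintype.piFinset B).filter
      (fun e => MvPolynomial.eval (fun i => x i (e i)) b = 0)).card : ℝ) ≤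
      b.totalDegree * μ * ∏ i, ((B i).card : ℝ) := by
  induction n with
  | zero =>
    intro b hb B x _
    have h1 := MvPolynomial.eq_C_of_isEmpty b
    have h2 : b.totalDegree = 0 := by rw [h1]; exact MvPolynomial.totalDegree_C _
    have h3 : (Fintype.piFinset B).filter
        (fun e => MvPolynomial.eval (fun i => x i (e i)) b = 0) = ∅ := by
      rw [filter_eq_empty_iff]
      intro e _ h
      rw [h1, MvPolynomial.eval_C] at h
      apply hb
      rw [h1, h, map_zero]
    rw [h3, h2]
    simp
  | succ n ih =>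
    intro b hb B x hx
    set p := MvPolynomial.finSuccEquiv F n b with hp
    have hp0 : p ≠ 0 := by
      rw [hp]
      exact (map_ne_zero_iff _ (MvPolynomial.finSuccEquiv F n).injective).2 hb
    set d := p.natDegree with hd
    set c := p.coeff d with hc
    have hc0 : c ≠ 0 := by
      rw [hc, hd]
      exact Polynomial.leadingCoeff_ne_zero.2 hp0
    have hdeg : c.totalDegree + d ≤ b.totalDegree :=
      MvPolynomial.totalDegree_coeff_finSuccEquiv_add_le b d hc0
    obtain ⟨N0, hN0⟩ : ∃ N0 : ℝ, N0 = ((B 0).card : ℝ) := ⟨_, rfl⟩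
    have hN00 : 0 ≤ N0 := by rw [hN0]; exact Nat.cast_nonneg _
    -- the count for one `e'`
    have hone : ∀ e' : Fin n → α, ∑ a ∈ B 0,
        (if MvPolynomial.eval (fun i => x i ((Fin.cons a e' : Fin (n + 1) → α) i)) b = 0
          then (1 : ℝ) else 0) ≤
        (if MvPolynomial.eval (fun i => x i.succ (e' i)) c = 0 then N0 else 0) +
          d * (μ * N0) := by
      intro e'
      set s : Fin n → F := fun i => x i.succ (e' i) with hs
      set q := Polynomial.map (MvPolynomial.eval s) p with hq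
      have hev : ∀ a : α,
          MvPolynomial.eval (fun i => x i ((Fin.cons a e' : Fin (n + 1) → α) i)) b =
            q.eval (x 0 a) := by
        intro a
        have h1 : (fun i => x i ((Fin.cons a e' : Fin (n + 1) → α) i)) =
            (Fin.cons (x 0 a) s : Fin (n + 1) → F) := by
          funext i
          refine Fin.cases ?_ (fun j => ?_) i <;> simp [hs]
        rw [h1, MvPolynomial.eval_eq_eval_mv_eval']
      simp only [hev]
      rw [sum_boole]
      by_cases hz : MvPolynomial.eval s c = 0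
      · rw [if_pos hz]
        have h1 : (((B 0).filter (fun a => q.eval (x 0 a) = 0)).card : ℝ) ≤ N0 := by
          rw [hN0]
          exact_mod_cast card_filter_le (B 0) (fun a => q.eval (x 0 a) = 0)
        have h2 : (0 : ℝ) ≤ d * (μ * N0) := by positivity
        linarith
      · rw [if_neg hz, zero_add]
        have hq0 : q ≠ 0 := by
          intro h
          apply hz
          have h1 : q.coeff d = 0 := by rw [h, Polynomial.coeff_zero]
          rw [hq, Polynomial.coeff_map] at h1
          exact h1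
        have h1 := roots_count q hq0 (B 0) (x 0) μ hμ (hx 0)
        rw [← hN0] at h1
        refine h1.trans ?_
        have h2 : (q.natDegree : ℝ) ≤ d := by exact_mod_cast Polynomial.natDegree_map_le
        exact mul_le_mul_of_nonneg_right h2 (mul_nonneg hμ hN00)
    have hih := ih c hc0 (fun i => B i.succ) (fun i => x i.succ) (fun i z => hx i.succ z)
    have hcard : (((Fintype.piFinset B).filter
        (fun e => MvPolynomial.eval (fun i => x i (e i)) b = 0)).card : ℝ) =
        ∑ e ∈ Fintype.piFinset B,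
          (if MvPolynomial.eval (fun i => x i (e i)) b = 0 then (1 : ℝ) else 0) := by
      rw [sum_boole]
    obtain ⟨Q, hQ⟩ : ∃ Q : ℝ, Q = ∏ i : Fin n, ((B i.succ).card : ℝ) := ⟨_, rfl⟩
    have hQ0 : 0 ≤ Q := by rw [hQ]; exact prod_nonneg fun i _ => Nat.cast_nonneg _
    obtain ⟨S, hS⟩ : ∃ S : ℝ, S = (((Fintype.piFinset (fun i : Fin n => B i.succ)).filter
        (fun e' => MvPolynomial.eval (fun i => x i.succ (e' i)) c = 0)).card : ℝ) := ⟨_, rfl⟩
    rw [← hS, ← hQ] at hih
    have hsum : ∑ e' ∈ Fintype.piFinset (fun i : Fin n => B i.succ),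
          ((if MvPolynomial.eval (fun i => x i.succ (e' i)) c = 0 then N0 else 0) +
            d * (μ * N0)) = N0 * S + Q * (d * (μ * N0)) := by
      rw [sum_add_distrib, sum_const, Fintype.card_piFinset, ← sum_filter, sum_const,
        nsmul_eq_mul, nsmul_eq_mul, hQ, hS]
      push_cast
      ring
    have hprod : ∏ i, ((B i).card : ℝ) = N0 * Q := by rw [Fin.prod_univ_succ, hQ, hN0]
    rw [hcard, sum_pi_succ, hprod]
    refine (sum_le_sum fun e' _ => hone e').trans ?_
    rw [hsum]
    have hdeg' : (c.totalDegree : ℝ) + d ≤ b.totalDegree := by exact_mod_cast hdeg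
    exact fin hN00 hQ0 hμ hih hdeg'

end Pool.Agent.N120.TH.SZ_

namespace Pool.Agent.N120.TH

theorem t_SZ : S_SZ := fun _ _ n b hb _ B x μ hμ h => SZ_.main μ hμ n b hb B x h

end Pool.Agent.N120.TH
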