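import Pool.Agent.N120.TH.Stm2
import Pool.Agent.N120.TH.SZ
import Pool.Agent.N120.TC.Core7

/-!
# Project TH: many `m`-th powers in `Γ ^ n` off a hypersurface (helper301)
-/

set_option autoImplicit false

namespace Pool.Agent.N120.TH.LOW_

open Finset

theorem inj {K : Type} [Field K] {r : ℕ} (γ : Fin r → Kˣ)
    (hind : ∀ e : Fin r → ℤ, ∏ j, γ j ^ e j = 1 → e = 0) (m : ℕ) (hm : 1 ≤ m) (v w : Fin r → ℕ)
    (h : (∏ j, γ j ^ v j) ^ m = (∏ j, γ j ^ w j) ^ m) : v = w := by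
  have h1 := hind (fun j => ((v j : ℤ) - w j) * (m : ℤ)) (by
    have h2 : ∀ j, γ j ^ (((v j : ℤ) - w j) * (m : ℤ)) = (γ j ^ v j) ^ m * ((γ j ^ w j) ^ m)⁻¹ := by
      intro j
      rw [zpow_mul, zpow_natCast, zpow_sub, zpow_natCast, zpow_natCast, mul_pow, inv_pow]
    rw [prod_congr rfl fun j _ => h2 j, prod_mul_distrib, prod_pow, prod_inv_distrib, prod_pow, h,
      mul_inv_cancel])
  funext j
  have h2 := congrFun h1 j
  simp only [Pi.zero_apply, mul_eq_zero] at h2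
  rcases h2 with h2 | h2 <;> omega

theorem height {K : Type} [Field K] [NumberField K] {r : ℕ} (γ : Fin r → Kˣ) (m N : ℕ)
    (v : Fin r → ℕ) (hv : ∀ j, v j ≤ N) :
    Height.logHeight₁ ((((∏ j, γ j ^ v j) ^ m : Kˣ)) : K) ≤
      m * (N * ∑ j, Height.logHeight₁ ((γ j : Kˣ) : K)) := by
  rw [Units.val_pow_eq_pow_val, Height.logHeight₁_pow, Units.coe_prod]
  refine mul_le_mul_of_nonneg_left ?_ (Nat.cast_nonneg m)
  refine (Height.logHeight₁_prod_le _ _).trans ?_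
  rw [mul_sum]
  refine sum_le_sum fun j _ => ?_
  rw [Units.val_pow_eq_pow_val, Height.logHeight₁_pow]
  refine mul_le_mul_of_nonneg_right ?_ (Height.zero_le_logHeight₁ _)
  exact_mod_cast hv j

/-- the count for a given `N` -/
theorem count {K : Type} [Field K] (n r N : ℕ) (H : MvPolynomial (Fin n) K) (hH : H ≠ 0)
    (γ : Fin r → Kˣ) (hind : ∀ e : Fin r → ℤ, ∏ j, γ j ^ e j = 1 → e = 0) (hr : 1 ≤ r)
    (hN : 2 * H.totalDegree + 1 ≤ N) (m : ℕ) (hm : 1 ≤ m) :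
    ∃ S : Finset (Fin n → Kˣ), (∀ x ∈ S, ∃ e : Fin n → Fin r → ℕ, (∀ i j, e i j ≤ N) ∧
      (∀ i, x i = (∏ j, γ j ^ e i j) ^ m) ∧
      MvPolynomial.eval (fun i => ((∏ j, γ j ^ e i j : Kˣ) : K)) H ≠ 0) ∧
      (N : ℝ) ^ (n * r) / 2 ≤ S.card := by
  classical
  obtain ⟨B, hB⟩ : ∃ B : Fin n → Finset (Fin r → ℕ), B = fun _ => Fintype.piFinset fun _ => range N :=
    ⟨_, rfl⟩
  have hBc : ∀ i, (B i).card = N ^ r := by
    intro i
    rw [hB]
    simp
  have hN1 : 1 ≤ N := by omega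
  have hN0 : (0 : ℝ) < N := by exact_mod_cast hN1
  have hNr : (0 : ℝ) < (N : ℝ) ^ r := pow_pos hN0 r
  have hxinj : ∀ v w : Fin r → ℕ, ((∏ j, γ j ^ v j : Kˣ) : K) = ((∏ j, γ j ^ w j : Kˣ) : K) → v = w := by
    intro v w h
    have h1 : (∏ j, γ j ^ v j) = ∏ j, γ j ^ w j := Units.ext h
    exact inj γ hind 1 le_rfl v w (by rw [h1])
  have hsz := t_SZ K n H hH (Fin r → ℕ) B (fun _ v => ((∏ j, γ j ^ v j : Kˣ) : K)) (((N : ℝ) ^ r)⁻¹)
    (inv_pos.2 hNr).le (by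
      intro i z
      rw [hBc, Nat.cast_pow, inv_mul_cancel₀ hNr.ne']
      have : ((B i).filter fun v => ((∏ j, γ j ^ v j : Kˣ) : K) = z).card ≤ 1 := by
        rw [card_le_one]
        intro v hv w hw
        rw [mem_filter] at hv hw
        exact hxinj v w (hv.2.trans hw.2.symm)
      exact_mod_cast this)
  obtain ⟨E, hE⟩ : ∃ E, E = Fintype.piFinset B := ⟨_, rfl⟩
  have hEc : (E.card : ℝ) = (N : ℝ) ^ (n * r) := by
    rw [hE, Fintype.card_piFinset]
    simp only [hBc]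
    rw [prod_const, card_univ, Fintype.card_fin, ← pow_mul, mul_comm r n]
    push_cast
    rfl
  rw [← hE] at hsz
  have hprod : ∏ i, ((B i).card : ℝ) = (N : ℝ) ^ (n * r) := by
    rw [← hEc, hE, Fintype.card_piFinset]
    push_cast
    rfl
  rw [hprod] at hsz
  have hbad : ((E.filter fun e => MvPolynomial.eval (fun i => ((∏ j, γ j ^ e i j : Kˣ) : K)) H = 0).card : ℝ) ≤
      (N : ℝ) ^ (n * r) / 2 := by
    refine hsz.trans ?_
    have h1 : ((N : ℝ) ^ r)⁻¹ ≤ (N : ℝ)⁻¹ := by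
      refine inv_anti₀ hN0 ?_
      have h2 : (1 : ℝ) ≤ N := by exact_mod_cast hN1
      calc (N : ℝ) = (N : ℝ) ^ 1 := (pow_one _).symm
        _ ≤ (N : ℝ) ^ r := pow_le_pow_right₀ h2 hr
    have h3 : (H.totalDegree : ℝ) * ((N : ℝ) ^ r)⁻¹ ≤ 1 / 2 := by
      calc (H.totalDegree : ℝ) * ((N : ℝ) ^ r)⁻¹ ≤ (H.totalDegree : ℝ) * (N : ℝ)⁻¹ :=
            mul_le_mul_of_nonneg_left h1 (Nat.cast_nonneg _)
        _ ≤ 1 / 2 := by
            rw [← div_eq_mul_inv, div_le_iff₀ hN0]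
            have : (2 : ℝ) * H.totalDegree + 1 ≤ N := by exact_mod_cast hN
            linarith
    calc _ ≤ 1 / 2 * (N : ℝ) ^ (n * r) := mul_le_mul_of_nonneg_right h3 (by positivity)
      _ = _ := by ring
  obtain ⟨G, hG⟩ : ∃ G, G = E.filter fun e =>
      ¬ MvPolynomial.eval (fun i => ((∏ j, γ j ^ e i j : Kˣ) : K)) H = 0 := ⟨_, rfl⟩
  have hGc : (N : ℝ) ^ (n * r) / 2 ≤ G.card := by
    have h1 := card_filter_add_card_filter_not (s := E) (fun e =>
      MvPolynomial.eval (fun i => ((∏ j, γ j ^ e i j : Kˣ) : K)) H = 0)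
    rw [← hG] at h1
    have h2 : ((E.filter fun e => MvPolynomial.eval (fun i => ((∏ j, γ j ^ e i j : Kˣ) : K)) H = 0).card : ℝ)
        + G.card = (N : ℝ) ^ (n * r) := by
      rw [← hEc]
      exact_mod_cast h1
    linarith
  refine ⟨G.image fun e i => (∏ j, γ j ^ e i j) ^ m, fun x hx => ?_, ?_⟩
  · obtain ⟨e, he, rfl⟩ := mem_image.1 hx
    rw [hG, mem_filter, hE] at he
    refine ⟨e, fun i j => ?_, fun i => rfl, he.2⟩
    have h1 := Fintype.mem_piFinset.1 he.1 i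
    rw [hB] at h1
    have h2 := Fintype.mem_piFinset.1 h1 j
    exact (mem_range.1 h2).le
  · rw [card_image_of_injective]
    · exact hGc
    · intro e e' h
      funext i
      exact inj γ hind m hm _ _ (congrFun h i)

end Pool.Agent.N120.TH.LOW_

namespace Pool.Agent.N120.TH

open Finset

/-- **LOW.** -/
theorem t_LOW : S_LOW := by
  classical
  intro K _ _ n m H hn hm hH Γ hΓ hr
  obtain ⟨γ, R, hγ, -, -, hind⟩ := Pool.Agent.N120.TC.exists_basis Γ hΓ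
  obtain ⟨r, hrr⟩ : ∃ r, r = Module.finrank ℤ (Additive Γ) := ⟨_, rfl⟩
  obtain ⟨A, hA⟩ : ∃ A : ℝ, A = 1 + ∑ j, Height.logHeight₁ ((γ j : Kˣ) : K) := ⟨_, rfl⟩
  have hA1 : 1 ≤ A := by
    rw [hA]
    have : 0 ≤ ∑ j, Height.logHeight₁ ((γ j : Kˣ) : K) :=
      sum_nonneg fun j _ => Height.zero_le_logHeight₁ _
    linarith
  have hm0 : (1 : ℝ) ≤ m := by exact_mod_cast hm
  have hmA : 0 < (m : ℝ) * A := by positivity
  refine ⟨1 / 2 * (1 / (2 * (m * A))) ^ (n * r), by positivity, m * A * (2 * H.totalDegree + 1),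
    fun T hT => ?_⟩
  have hTq : (2 * H.totalDegree + 1 : ℝ) ≤ T / (m * A) := by
    rw [le_div_iff₀ hmA]
    linarith
  obtain ⟨N, hN⟩ : ∃ N : ℕ, N = ⌊T / (m * A)⌋₊ := ⟨_, rfl⟩
  have hT0 : 0 ≤ T / (m * A) := le_trans (by positivity) hTq
  have hN1 : (N : ℝ) ≤ T / (m * A) := by
    rw [hN]
    exact Nat.floor_le hT0
  have hN2 : 2 * H.totalDegree + 1 ≤ N := by
    rw [hN, Nat.le_floor_iff hT0]
    push_cast
    exact hTq
  have hN3 : T / (2 * (m * A)) ≤ N := by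
    have h1 : T / (m * A) < N + 1 := by
      rw [hN]
      exact Nat.lt_floor_add_one _
    have h2 : (1 : ℝ) ≤ N := by
      have : 1 ≤ N := by omega
      exact_mod_cast this
    have h3 : T / (2 * (m * A)) = T / (m * A) / 2 := by
      field_simp
    rw [h3]
    linarith
  obtain ⟨S, hS, hSc⟩ := LOW_.count n _ N H hH γ hind hr hN2 m hm
  refine ⟨S, fun x hx => ?_, ?_⟩
  · obtain ⟨e, he, hxe, hev⟩ := hS x hx
    have hmem : ∀ i, ∏ j, γ j ^ e i j ∈ Γ := fun i =>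
      Subgroup.prod_mem _ fun j _ => Subgroup.pow_mem _ (hγ j) _
    refine ⟨fun i => ⟨?_, ?_⟩, fun i => ∏ j, γ j ^ e i j, fun i => ⟨hmem i, (hxe i).symm⟩, hev⟩
    · rw [hxe i]
      exact Subgroup.pow_mem _ (hmem i) _
    · rw [hxe i]
      refine (LOW_.height γ m N (e i) (he i)).trans ?_
      have h1 : ∑ j, Height.logHeight₁ ((γ j : Kˣ) : K) ≤ A := by
        rw [hA]
        linarith
      calc (m : ℝ) * (N * ∑ j, Height.logHeight₁ ((γ j : Kˣ) : K)) ≤ m * (N * A) := by gcongr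
        _ = N * (m * A) := by ring
        _ ≤ T / (m * A) * (m * A) := mul_le_mul_of_nonneg_right hN1 hmA.le
        _ = T := div_mul_cancel₀ _ hmA.ne'
  · have hTn : 0 ≤ T / (2 * (m * A)) := by
      have : T / (2 * (m * A)) = T / (m * A) / 2 := by field_simp
      rw [this]
      linarith
    have e1 : T ^ ((n : ℝ) * Module.finrank ℤ (Additive Γ)) = T ^ (n * r) := by
      rw [← hrr, ← Nat.cast_mul, Real.rpow_natCast]
    rw [e1]
    rw [← hrr] at hSc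
    refine le_trans ?_ hSc
    have h2 : (T / (2 * (m * A))) ^ (n * r) ≤ (N : ℝ) ^ (n * r) := pow_le_pow_left₀ hTn hN3 _
    have h3 : 1 / 2 * (1 / (2 * (m * A))) ^ (n * r) * T ^ (n * r) =
        (T / (2 * (m * A))) ^ (n * r) / 2 := by
      rw [div_pow, div_pow, one_pow]
      ring
    rw [h3]
    linarith

end Pool.Agent.N120.TH
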