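import Pool.Agent.N120.TH.Stm

/-! # TH/MONO: roots of monomials in `M` are rational (helper570) -/

set_option autoImplicit false

namespace Pool.Agent.N120.TH.MONO_

open Polynomial Pool.Agent.N120.TH

/-- extension of homomorphisms to algebraic extensions -/
theorem ext_hom {E M Ω : Type} [Field E] [Field M] [Field Ω] [Algebra E M] [Algebra.IsAlgebraic E M]
    [IsAlgClosed Ω] (θ : E →+* Ω) : ∃ ι : M →+* Ω, ι.comp (algebraMap E M) = θ := by
  let _ : Algebra E Ω := θ.toAlgebra
  refine ⟨(IsAlgClosed.lift : M →ₐ[E] Ω).toRingHom, ?_⟩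
  ext x
  exact AlgHom.commutes (IsAlgClosed.lift : M →ₐ[E] Ω) x

/-- extension to the field of fractions -/
theorem lift_frac {R K L : Type} [CommRing R] [IsDomain R] [Field K] [Algebra R K]
    [IsFractionRing R K] [Field L] (g : R →+* L) (hg : Function.Injective g) :
    ∃ θ : K →+* L, θ.comp (algebraMap R K) = g :=
  ⟨IsFractionRing.lift hg, RingHom.ext fun x => IsFractionRing.lift_algebraMap hg x⟩

/-- the roots of unity come from the algebraically closed field -/
theorem root_unity {k Ω : Type} [Field k] [IsAlgClosed k] [Field Ω] (j : k →+* Ω) (m : ℕ)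
    (hm : 1 ≤ m) (z : Ω) (hz : z ^ m = 1) : ∃ y : k, j y = z := by
  have hs : ((X : k[X]) ^ m - C 1).Splits := IsAlgClosed.splits _
  have hr := hs.roots_map j
  have hne : (X : k[X]) ^ m - C 1 ≠ 0 := X_pow_sub_C_ne_zero (by omega) 1
  have hmem : z ∈ (((X : k[X]) ^ m - C 1).map j).roots := by
    rw [mem_roots (Polynomial.map_ne_zero hne), IsRoot.def]
    simp [hz]
  rw [hr, Multiset.mem_map] at hmem
  obtain ⟨y, -, hy⟩ := hmem
  exact ⟨y, hy⟩

end Pool.Agent.N120.TH.MONO_

namespace Pool.Agent.N120.TH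

open Polynomial MONO_

theorem t_MONO : S_MONO := by
  intro k _ _ _ n M _ _ _ hPB m0 v c β hm0 hv
  -- the homomorphism `x_i ↦ x_i ^ m0`
  set ex : Pn k n →+* Pn k n := (MvPolynomial.expand m0 : Pn k n →ₐ[k] Pn k n).toRingHom with hex
  have hexi : Function.Injective ex := MvPolynomial.expand_injective (by omega)
  have hcm : Function.Injective (cm k n (Om k n)) := by
    exact (RingHom.injective (algebraMap (En k n) (Om k n))).comp
      (IsFractionRing.injective (Pn k n) (En k n))
  have hinj : Function.Injective ((cm k n (Om k n)).comp ex) := hcm.comp hexi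
  obtain ⟨θ, hθ1⟩ := lift_frac (K := En k n) ((cm k n (Om k n)).comp ex) hinj
  obtain ⟨ι, hι⟩ := ext_hom (M := M) θ
  have hι1 : ι.comp (cm k n M) = (cm k n (Om k n)).comp ex := by
    rw [← hθ1, ← hι]
    rfl
  refine hPB m0 hm0 ι hι1 v ?_
  -- values
  have hC : ∀ z : k, ι (cm k n M (MvPolynomial.C z)) = cm k n (Om k n) (MvPolynomial.C z) := by
    intro z
    have h1 := RingHom.congr_fun hι1 (MvPolynomial.C z)
    simp only [RingHom.comp_apply] at h1
    rw [h1]
    congr 1
    exact MvPolynomial.expand_C m0 z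
  have hX : ∀ i, ι (cm k n M (MvPolynomial.X i)) = cm k n (Om k n) (MvPolynomial.X i) ^ m0 := by
    intro i
    have h1 := RingHom.congr_fun hι1 (MvPolynomial.X i)
    simp only [RingHom.comp_apply] at h1
    rw [h1, ← map_pow]
    congr 1
    exact MvPolynomial.expand_X m0 i
  obtain ⟨c', hc'⟩ := IsAlgClosed.exists_pow_nat_eq c (by omega : 0 < m0)
  set w : Om k n := cm k n (Om k n) (MvPolynomial.C c') *
    ∏ i, (cm k n (Om k n) (MvPolynomial.X i)) ^ (β i) with hw
  have hpow : ι v ^ m0 = w ^ m0 := by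
    rw [← map_pow, hv, map_mul, map_prod, hC, hw, mul_pow, ← map_pow, ← map_pow, hc',
      ← Finset.prod_pow]
    congr 1
    refine Finset.prod_congr rfl fun i _ => ?_
    rw [map_zpow₀, hX, ← zpow_natCast, ← zpow_natCast, ← zpow_mul, ← zpow_mul, mul_comm]
  have hwr : ∀ z : k, cm k n (Om k n) (MvPolynomial.C z) * w ∈
      (algebraMap (En k n) (Om k n)).range := by
    intro z
    refine ⟨algebraMap (Pn k n) (En k n) (MvPolynomial.C z) *
      (algebraMap (Pn k n) (En k n) (MvPolynomial.C c') *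
        ∏ i, (algebraMap (Pn k n) (En k n) (MvPolynomial.X i)) ^ (β i)), ?_⟩
    rw [map_mul, map_mul, map_prod]
    simp only [map_zpow₀]
    rfl
  by_cases hw0 : w = 0
  · rw [hw0, zero_pow (by omega)] at hpow
    have h1 : ι v = 0 := by
      exact pow_eq_zero_iff (by omega) |>.1 hpow
    rw [h1]
    exact zero_mem _
  · have h1 : (ι v / w) ^ m0 = 1 := by
      rw [div_pow, hpow, div_self (pow_ne_zero _ hw0)]
    obtain ⟨y, hy⟩ := root_unity ((cm k n (Om k n)).comp MvPolynomial.C) m0 hm0 _ h1
    have h2 : ι v = cm k n (Om k n) (MvPolynomial.C y) * w := by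
      rw [eq_div_iff hw0] at hy
      exact hy.symm
    rw [h2]
    exact hwr y

end Pool.Agent.N120.TH
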