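import Pool.Agent.N120.TH.Stm

/-!
# TH/NUM: the final numerical step of the sieve (helper78, for helper120)
-/

set_option autoImplicit false

namespace Pool.Agent.N120.TH.NUM_

open Finset

/-! ### Counting -/

open Classical in
/-- the abstract form of the sieve -/
theorem count {α : Type} (S B : Finset α) (hS : S ⊆ B) (P : Finset ℕ) (hP : P.Nonempty)
    (F : ℕ → α → ℝ) (bad : ℕ → α → Prop) (D : ℝ) (hD : 1 ≤ D)
    (hF : ∀ p ∈ P, ∀ e ∈ B, |F p e| ≤ D)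
    (hb : ∀ e ∈ S, ∀ p ∈ P, ¬ bad p e → 1 / D ≤ F p e) :
    (S.card : ℝ) ≤ 8 * D ^ 2 / P.card * ∑ p ∈ P, ((B.filter (bad p)).card : ℝ) +
      4 * D ^ 2 / (P.card : ℝ) ^ 2 * ∑ e ∈ B, (∑ p ∈ P, F p e) ^ 2 := by
  have hk : (0 : ℝ) < P.card := by exact_mod_cast hP.card_pos
  have hD0 : 0 < D := by linarith
  have key : ∀ e ∈ S, (1 : ℝ) ≤ 8 * D ^ 2 / P.card * ((P.filter (fun p => bad p e)).card : ℝ) +
      4 * D ^ 2 / (P.card : ℝ) ^ 2 * (∑ p ∈ P, F p e) ^ 2 := by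
    intro e he
    set m : ℝ := ((P.filter (fun p => bad p e)).card : ℝ) with hm
    have hm0 : 0 ≤ m := Nat.cast_nonneg _
    have hn : ((P.filter (fun p => ¬ bad p e)).card : ℝ) = P.card - m := by
      have := Finset.card_filter_add_card_filter_not (s := P) (fun p => bad p e)
      rw [hm, ← this]
      push_cast
      ring
    by_cases h : (P.card : ℝ) ≤ 8 * D ^ 2 * m
    · have h1 : 1 ≤ 8 * D ^ 2 / P.card * m := by
        rw [div_mul_eq_mul_div, le_div_iff₀ hk, one_mul]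
        exact h
      have h2 : 0 ≤ 4 * D ^ 2 / (P.card : ℝ) ^ 2 * (∑ p ∈ P, F p e) ^ 2 := by positivity
      linarith
    · push Not at h
      have h1 : (P.card : ℝ) / (2 * D) ≤ ∑ p ∈ P, F p e := by
        rw [← Finset.sum_filter_add_sum_filter_not P (fun p => bad p e)]
        have h2 : -(D * m) ≤ ∑ p ∈ P.filter (fun p => bad p e), F p e := by
          have h3 : ∑ p ∈ P.filter (fun p => bad p e), (-D) ≤
              ∑ p ∈ P.filter (fun p => bad p e), F p e := by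
            refine Finset.sum_le_sum fun p hp => ?_
            exact (abs_le.1 (hF p (Finset.mem_filter.1 hp).1 e (hS he))).1
          rw [Finset.sum_const, nsmul_eq_mul] at h3
          linarith
        have h4 : (P.card - m) * (1 / D) ≤ ∑ p ∈ P.filter (fun p => ¬ bad p e), F p e := by
          have h3 : ∑ p ∈ P.filter (fun p => ¬ bad p e), (1 / D) ≤
              ∑ p ∈ P.filter (fun p => ¬ bad p e), F p e := by
            refine Finset.sum_le_sum fun p hp => ?_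
            exact hb e he p (Finset.mem_filter.1 hp).1 (Finset.mem_filter.1 hp).2
          rw [Finset.sum_const, nsmul_eq_mul, hn] at h3
          exact h3
        have h5 : (P.card : ℝ) / (2 * D) ≤ -(D * m) + (P.card - m) * (1 / D) := by
          rw [div_le_iff₀ (by positivity)]
          have h6 : (-(D * m) + (P.card - m) * (1 / D)) * (2 * D) =
              -(2 * D ^ 2 * m) + 2 * (P.card - m) := by
            field_simp
          rw [h6]
          nlinarith [mul_nonneg hm0 (sub_nonneg.2 (one_le_pow₀ hD : (1 : ℝ) ≤ D ^ 2))]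
        linarith
      have h7 : 0 < (P.card : ℝ) / (2 * D) := by positivity
      have h8 : ((P.card : ℝ) / (2 * D)) ^ 2 ≤ (∑ p ∈ P, F p e) ^ 2 :=
        pow_le_pow_left₀ h7.le h1 2
      have h9 : 1 ≤ 4 * D ^ 2 / (P.card : ℝ) ^ 2 * (∑ p ∈ P, F p e) ^ 2 := by
        calc (1 : ℝ) = 4 * D ^ 2 / (P.card : ℝ) ^ 2 * ((P.card : ℝ) / (2 * D)) ^ 2 := by
              field_simp
              norm_num
          _ ≤ _ := mul_le_mul_of_nonneg_left h8 (by positivity)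
      have h10 : 0 ≤ 8 * D ^ 2 / P.card * m := by positivity
      linarith
  have h1 : (S.card : ℝ) ≤ ∑ e ∈ B, (8 * D ^ 2 / P.card *
      ((P.filter (fun p => bad p e)).card : ℝ) +
      4 * D ^ 2 / (P.card : ℝ) ^ 2 * (∑ p ∈ P, F p e) ^ 2) := by
    calc (S.card : ℝ) = ∑ e ∈ S, (1 : ℝ) := by simp
      _ ≤ ∑ e ∈ S, (8 * D ^ 2 / P.card * ((P.filter (fun p => bad p e)).card : ℝ) +
          4 * D ^ 2 / (P.card : ℝ) ^ 2 * (∑ p ∈ P, F p e) ^ 2) := Finset.sum_le_sum key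
      _ ≤ _ := Finset.sum_le_sum_of_subset_of_nonneg hS fun e _ _ => by positivity
  rw [Finset.sum_add_distrib, ← Finset.mul_sum, ← Finset.mul_sum] at h1
  have h2 : ∑ e ∈ B, ((P.filter (fun p => bad p e)).card : ℝ) =
      ∑ p ∈ P, ((B.filter (bad p)).card : ℝ) := by
    have h3 : ∀ e, ((P.filter (fun p => bad p e)).card : ℝ) = ∑ p ∈ P, if bad p e then 1 else 0 := by
      intro e
      rw [Finset.sum_boole]
    have h4 : ∀ p, ((B.filter (bad p)).card : ℝ) = ∑ e ∈ B, if bad p e then 1 else 0 := by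
      intro p
      rw [Finset.sum_boole]
    rw [Finset.sum_congr rfl fun e _ => h3 e, Finset.sum_congr rfl fun p _ => h4 p,
      Finset.sum_comm]
  rw [h2] at h1
  exact h1

theorem row_card {r : ℕ} (u : Fin r → ℤ) (N : ℕ) :
    (Fintype.piFinset (fun j => Finset.Ico (u j) (u j + N))).card = N ^ r := by
  rw [Fintype.card_piFinset]
  simp

theorem box_card {n r : ℕ} (u : Fin n → Fin r → ℤ) (N : ℕ) : (Box u N).card = N ^ (n * r) := by
  unfold Box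
  rw [Fintype.card_piFinset]
  simp only [row_card]
  rw [Finset.prod_const, Finset.card_univ, Fintype.card_fin, ← pow_mul, mul_comm]

/-! ### The pairs of primes -/

theorem pair_bound (h1 : S_PAIR) {n r : ℕ} (p p' : ℕ) [Fact p.Prime] [Fact p'.Prime]
    (g : Fin r → (ZMod p)ˣ) (g' : Fin r → (ZMod p')ˣ) (W : (Fin n → ZMod p) → ℝ)
    (W' : (Fin n → ZMod p') → ℝ) (D C : ℝ) (hC : 0 ≤ C) (hW : ∀ x, |W x| ≤ D)
    (hW' : ∀ x, |W' x| ≤ D)
    (hs : ∀ M : ℕ, M ∣ p - 1 → ∀ z : Fin n → (ZMod p)ˣ,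
      |∑ s : Fin n → (ZMod p)ˣ, W (fun i => ((z i * s i ^ M : (ZMod p)ˣ) : ZMod p))| *
        Real.sqrt p ≤ C * M * ((p : ℝ) - 1) ^ n)
    (N : ℕ) (u : Fin n → Fin r → ℤ) (hN : 1 ≤ N) :
    |∑ e ∈ Box u N, W (fun i => ((pt g e i : (ZMod p)ˣ) : ZMod p)) *
        W' (fun i => ((pt g' e i : (ZMod p')ˣ) : ZMod p'))| ≤
      (N : ℝ) ^ (n * r) * (D * (C / Real.sqrt p) * ((Subgroup.closure (Set.range g)).index *
        Nat.gcd (p - 1) (p' - 1))) +
      D * D * (n * r) * (((p : ℝ) - 1) * ((p' : ℝ) - 1)) * (N : ℝ) ^ (n * r - 1) := by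
  have e1 : Fintype.card (ZMod p)ˣ = p - 1 := ZMod.card_units p
  have e2 : Fintype.card (ZMod p')ˣ = p' - 1 := ZMod.card_units p'
  have hp : 1 ≤ p := (Fact.out : p.Prime).one_le
  have hp' : 1 ≤ p' := (Fact.out : p'.Prime).one_le
  have hsq : 0 < Real.sqrt p := Real.sqrt_pos.2 (by exact_mod_cast hp)
  have e3 : ((p - 1 : ℕ) : ℝ) = (p : ℝ) - 1 := by rw [Nat.cast_sub hp, Nat.cast_one]
  have e4 : ((p' - 1 : ℕ) : ℝ) = (p' : ℝ) - 1 := by rw [Nat.cast_sub hp', Nat.cast_one]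
  have h := h1 n r (ZMod p)ˣ (ZMod p')ˣ g g' (fun x => W (fun i => (x i : ZMod p)))
    (fun x => W' (fun i => (x i : ZMod p'))) D D (C / Real.sqrt p) (by positivity)
    (fun x => hW _) (fun x => hW' _) (fun M hM z => by
      rw [e1] at hM
      have h := hs M hM z
      rw [e1, e3]
      rw [div_mul_eq_mul_div, div_mul_eq_mul_div, le_div_iff₀ hsq]
      exact h) N u hN
  rw [e1, e2, e3, e4] at h
  exact h

theorem idx_bound {Q sp idx cl : ℝ} (hQ : 0 < Q) (hsp : Q ^ (99 / 200 : ℝ) ≤ sp)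
    (hcl : Q ^ (2 / 3 - 1 / 200 : ℝ) ≤ cl) (hidx : 0 ≤ idx) (h : cl * idx ≤ Q) :
    idx / sp ≤ Q ^ (-(47 / 300) : ℝ) := by
  have h0 : 0 < Q ^ (99 / 200 : ℝ) := Real.rpow_pos_of_pos hQ _
  have h1 : 0 < Q ^ (2 / 3 - 1 / 200 : ℝ) := Real.rpow_pos_of_pos hQ _
  have hsp0 : 0 < sp := h0.trans_le hsp
  rw [div_le_iff₀ hsp0]
  have h2 : Q ^ (2 / 3 - 1 / 200 : ℝ) * idx ≤ Q := (mul_le_mul_of_nonneg_right hcl hidx).trans h
  have h3 : Q ^ (-(47 / 300) : ℝ) * Q ^ (99 / 200 : ℝ) * Q ^ (2 / 3 - 1 / 200 : ℝ) = Q := by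
    rw [← Real.rpow_add hQ, ← Real.rpow_add hQ]
    norm_num
  have h4 : idx ≤ Q ^ (-(47 / 300) : ℝ) * Q ^ (99 / 200 : ℝ) := by
    refine le_of_mul_le_mul_right ?_ h1
    rw [h3]
    linarith
  exact h4.trans (mul_le_mul_of_nonneg_left hsp (Real.rpow_nonneg hQ.le _))

/-! ### The bad points -/

open Classical in
theorem bad_bound (h3 : S_SZ) (h4 : S_FIB) {n r : ℕ} {F H : Type} [Field F] [CommGroup H]
    [Fintype H] (φ : H → F) (hφ : Function.Injective φ)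
    (g : Fin r → H) (b : MvPolynomial (Fin n) F) (hb : b ≠ 0) (δ : ℕ)
    (hδ : b.totalDegree ≤ δ) (N : ℕ) (hN : Fintype.card H ≤ N) (u : Fin n → Fin r → ℤ) (q : ℝ)
    (hq : 0 < q) (hcl : q ≤ (Nat.card (Subgroup.closure (Set.range g)) : ℝ))
    (bad : (Fin n → Fin r → ℤ) → Prop)
    (hbad : ∀ e, bad e ↔ MvPolynomial.eval (fun i => φ (pt g e i)) b = 0) :
    (((Box u N).filter bad).card : ℝ) ≤ δ * (2 ^ r / q) * (N : ℝ) ^ (n * r) := by
  have h := h3 F n b hb (Fin r → ℤ)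
    (fun i => Fintype.piFinset (fun j => Finset.Ico (u i j) (u i j + N)))
    (fun i v => φ (∏ j, g j ^ (v j))) (2 ^ r / q) (by positivity) (by
      intro i z
      rw [row_card]
      by_cases hz : z ∈ Set.range φ
      · obtain ⟨y, rfl⟩ := hz
        have h5 := h4 r H g (u i) N y hN
        have h6 : ((Fintype.piFinset (fun j => Finset.Ico (u i j) (u i j + N))).filter
            (fun v => φ (∏ j, g j ^ (v j)) = φ y)) =
            ((Fintype.piFinset (fun j => Finset.Ico (u i j) (u i j + N))).filter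
            (fun v => ∏ j, g j ^ (v j) = y)) := by
          refine Finset.filter_congr fun v _ => ?_
          exact hφ.eq_iff
        rw [h6, div_mul_eq_mul_div, le_div_iff₀ hq, Nat.cast_pow, ← mul_pow]
        refine le_trans ?_ h5
        exact mul_le_mul_of_nonneg_left hcl (Nat.cast_nonneg _)
      · have h0 : ((Fintype.piFinset (fun j => Finset.Ico (u i j) (u i j + N))).filter
            (fun v => φ (∏ j, g j ^ (v j)) = z)) = ∅ := by
          rw [Finset.filter_eq_empty_iff]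
          intro v _ hv
          exact hz ⟨_, hv⟩
        rw [h0, Finset.card_empty, Nat.cast_zero]
        positivity)
  simp only [row_card] at h
  have h5 : ((Fintype.piFinset (fun i => Fintype.piFinset
      (fun j => Finset.Ico (u i j) (u i j + N)))).filter (fun e => MvPolynomial.eval
        (fun i => φ (∏ j, g j ^ (e i j))) b = 0)) = ((Box u N).filter bad) := by
    refine Finset.filter_congr fun e _ => ?_
    rw [hbad]
    rfl
  rw [h5] at h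
  have h6 : ∏ i : Fin n, ((N ^ r : ℕ) : ℝ) = (N : ℝ) ^ (n * r) := by
    rw [Finset.prod_const, Finset.card_univ, Fintype.card_fin, Nat.cast_pow, ← pow_mul, mul_comm]
  rw [h6] at h
  refine h.trans ?_
  have h8 : (b.totalDegree : ℝ) ≤ δ := by exact_mod_cast hδ
  gcongr

/-! ### Numbers -/

theorem num_X {N Q : ℕ} (hN : 8 ≤ N) (hQ : Q = ⌊(N : ℝ) ^ (40 / 83 : ℝ)⌋₊) :
    2 ≤ Q ∧ (Q : ℝ) ^ (-(11 / 150) : ℝ) ≤ 2 * (N : ℝ) ^ (-(1 / 29) : ℝ) ∧
      (Q : ℝ) ^ 2 / N ≤ (N : ℝ) ^ (-(1 / 29) : ℝ) ∧ Q ≤ N := by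
  have hN0 : (0 : ℝ) < N := by
    have : (8 : ℝ) ≤ N := by exact_mod_cast hN
    linarith
  have hN1 : (1 : ℝ) ≤ N := by
    have : (8 : ℝ) ≤ N := by exact_mod_cast hN
    linarith
  set q : ℝ := (N : ℝ) ^ (40 / 83 : ℝ) with hq
  have hq0 : 0 < q := Real.rpow_pos_of_pos hN0 _
  have hq2 : 2 ≤ q := by
    have h1 : (8 : ℝ) ^ (1 / 3 : ℝ) = 2 := by
      rw [show (8 : ℝ) = 2 ^ (3 : ℝ) by norm_num, ← Real.rpow_mul (by norm_num)]
      norm_num
    calc (2 : ℝ) = (8 : ℝ) ^ (1 / 3 : ℝ) := h1.symm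
      _ ≤ (8 : ℝ) ^ (40 / 83 : ℝ) := Real.rpow_le_rpow_of_exponent_le (by norm_num) (by norm_num)
      _ ≤ q := Real.rpow_le_rpow (by norm_num) (by exact_mod_cast hN) (by norm_num)
  have hQ2 : 2 ≤ Q := by
    rw [hQ]
    exact Nat.le_floor (by exact_mod_cast hq2)
  have hQq : (Q : ℝ) ≤ q := by
    rw [hQ]
    exact Nat.floor_le hq0.le
  have hqQ : q ≤ 2 * Q := by
    have h1 : q < Q + 1 := by
      rw [hQ]
      exact Nat.lt_floor_add_one q
    have h2 : (2 : ℝ) ≤ Q := by exact_mod_cast hQ2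
    linarith
  have hQ0 : (0 : ℝ) < Q := by
    have h2 : (2 : ℝ) ≤ Q := by exact_mod_cast hQ2
    linarith
  refine ⟨hQ2, ?_, ?_, ?_⟩
  · calc (Q : ℝ) ^ (-(11 / 150) : ℝ) ≤ (q / 2) ^ (-(11 / 150) : ℝ) :=
          Real.rpow_le_rpow_of_nonpos (by positivity) (by linarith) (by norm_num)
      _ = q ^ (-(11 / 150) : ℝ) * 2 ^ (11 / 150 : ℝ) := by
          rw [Real.div_rpow hq0.le (by norm_num), Real.rpow_neg (by norm_num : (0 : ℝ) ≤ 2),
            div_inv_eq_mul]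
      _ ≤ q ^ (-(11 / 150) : ℝ) * 2 := by
          refine mul_le_mul_of_nonneg_left ?_ (Real.rpow_nonneg hq0.le _)
          calc (2 : ℝ) ^ (11 / 150 : ℝ) ≤ (2 : ℝ) ^ (1 : ℝ) :=
                Real.rpow_le_rpow_of_exponent_le (by norm_num) (by norm_num)
            _ = 2 := Real.rpow_one _
      _ = 2 * (N : ℝ) ^ (40 / 83 * -(11 / 150) : ℝ) := by
          rw [hq, ← Real.rpow_mul hN0.le, mul_comm]
      _ ≤ 2 * (N : ℝ) ^ (-(1 / 29) : ℝ) := by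
          refine mul_le_mul_of_nonneg_left ?_ (by norm_num)
          exact Real.rpow_le_rpow_of_exponent_le hN1 (by norm_num)
  · rw [div_le_iff₀ hN0]
    calc (Q : ℝ) ^ 2 ≤ q ^ 2 := pow_le_pow_left₀ hQ0.le hQq 2
      _ = (N : ℝ) ^ (80 / 83 : ℝ) := by
          rw [hq, ← Real.rpow_natCast, ← Real.rpow_mul hN0.le]
          norm_num
      _ ≤ (N : ℝ) ^ (-(1 / 29) + 1 : ℝ) :=
          Real.rpow_le_rpow_of_exponent_le hN1 (by norm_num)
      _ = (N : ℝ) ^ (-(1 / 29) : ℝ) * N := by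
          rw [Real.rpow_add hN0, Real.rpow_one]
  · have h1 : (Q : ℝ) ≤ N := by
      refine hQq.trans ?_
      calc q ≤ (N : ℝ) ^ (1 : ℝ) := Real.rpow_le_rpow_of_exponent_le hN1 (by norm_num)
        _ = N := Real.rpow_one _
    exact_mod_cast h1

theorem num_P {Q k c : ℝ} (hQ : 2 ≤ Q) (hc : 0 < c) (hk : c * (Q / Real.log Q) ≤ k) :
    0 < k ∧ 1 / k ≤ 200 / c * Q ^ (-(11 / 150) : ℝ) ∧
      Q ^ 2 / (Q ^ (1 / 12 : ℝ) * k ^ 2) ≤ 40000 / c ^ 2 * Q ^ (-(11 / 150) : ℝ) := by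
  have hQ0 : 0 < Q := by linarith
  have hl0 : 0 < Real.log Q := Real.log_pos (by linarith)
  have hl : Real.log Q ≤ 200 * Q ^ (1 / 200 : ℝ) := by
    have h := Real.log_le_rpow_div hQ0.le (ε := 1 / 200) (by norm_num)
    linarith
  have hk0 : 0 < c * (Q / Real.log Q) := by positivity
  have hkk : 0 < k := hk0.trans_le hk
  refine ⟨hkk, ?_, ?_⟩
  · calc 1 / k ≤ 1 / (c * (Q / Real.log Q)) := one_div_le_one_div_of_le hk0 hk
      _ = Real.log Q / (c * Q) := by field_simp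
      _ ≤ 200 * Q ^ (1 / 200 : ℝ) / (c * Q) := by gcongr
      _ = 200 / c * (Q ^ (1 / 200 : ℝ) / Q) := by field_simp
      _ ≤ 200 / c * Q ^ (-(11 / 150) : ℝ) := by
          refine mul_le_mul_of_nonneg_left ?_ (by positivity)
          calc Q ^ (1 / 200 : ℝ) / Q = Q ^ (1 / 200 - 1 : ℝ) := by
                rw [Real.rpow_sub hQ0, Real.rpow_one]
            _ ≤ Q ^ (-(11 / 150) : ℝ) :=
                Real.rpow_le_rpow_of_exponent_le (by linarith) (by norm_num)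
  · have h12 : 0 < Q ^ (1 / 12 : ℝ) := Real.rpow_pos_of_pos hQ0 _
    have h1 : (c * (Q / Real.log Q)) ^ 2 ≤ k ^ 2 := pow_le_pow_left₀ hk0.le hk 2
    have h2 : Real.log Q ^ 2 ≤ (200 * Q ^ (1 / 200 : ℝ)) ^ 2 := pow_le_pow_left₀ hl0.le hl 2
    calc Q ^ 2 / (Q ^ (1 / 12 : ℝ) * k ^ 2)
        ≤ Q ^ 2 / (Q ^ (1 / 12 : ℝ) * (c * (Q / Real.log Q)) ^ 2) := by gcongr
      _ = Real.log Q ^ 2 / (c ^ 2 * Q ^ (1 / 12 : ℝ)) := by field_simp
      _ ≤ (200 * Q ^ (1 / 200 : ℝ)) ^ 2 / (c ^ 2 * Q ^ (1 / 12 : ℝ)) := by gcongr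
      _ = 40000 / c ^ 2 * ((Q ^ (1 / 200 : ℝ)) ^ 2 / Q ^ (1 / 12 : ℝ)) := by
          field_simp
          norm_num
      _ = 40000 / c ^ 2 * Q ^ (-(11 / 150) : ℝ) := by
          congr 1
          rw [← Real.rpow_natCast, ← Real.rpow_mul hQ0.le, ← Real.rpow_sub hQ0]
          norm_num

/-- the collection of the error terms -/
theorem collect {D C c k Q N X Y q0 D0 κ E0 δr nr NN S2 S1 T : ℝ} (hD : 1 ≤ D) (hC : 0 ≤ C)
    (hc : 0 < c) (hk : 0 < k) (hQ : 0 < Q) (hN : 0 < N) (hD0 : 0 < D0) (hNN : 0 ≤ NN)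
    (hδ : 0 ≤ δr) (hnr : 0 ≤ nr) (hq0 : 0 < q0) (hXY : X ≤ 2 * Y) (hY : Q ^ 2 / N ≤ Y)
    (hqX : 1 / q0 ≤ X) (hk1 : 1 / k ≤ 200 / c * X)
    (hk2 : Q ^ 2 / (D0 * k ^ 2) ≤ 40000 / c ^ 2 * X) (hκ : κ * D0 ≤ 2 * D * C * X)
    (hE : E0 = NN * (D ^ 2 * nr * (Q ^ 2 / N)))
    (hS2 : S2 ≤ NN * (D ^ 2 * k + κ * D0 * k ^ 2 + D ^ 2 * Q ^ 2 / D0) + E0 * k ^ 2)
    (hS1 : S1 ≤ k * (δr / q0 * NN))
    (hT : T ≤ 8 * D ^ 2 / k * S1 + 4 * D ^ 2 / k ^ 2 * S2) :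
    T ≤ (8 * D ^ 2 * δr * 2 + 4 * D ^ 2 * (D ^ 2 * (200 / c) * 2 + 2 * D * C * 2 +
      D ^ 2 * (40000 / c ^ 2) * 2 + D ^ 2 * nr)) * (NN * Y) := by
  have h1 : 8 * D ^ 2 / k * S1 ≤ NN * (8 * D ^ 2 * δr * (1 / q0)) := by
    calc 8 * D ^ 2 / k * S1 ≤ 8 * D ^ 2 / k * (k * (δr / q0 * NN)) :=
          mul_le_mul_of_nonneg_left hS1 (by positivity)
      _ = NN * (8 * D ^ 2 * δr * (1 / q0)) := by field_simp
  have h2 : 4 * D ^ 2 / k ^ 2 * S2 ≤ NN * (4 * D ^ 2 * (D ^ 2 * (1 / k) + κ * D0 +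
      D ^ 2 * (Q ^ 2 / (D0 * k ^ 2)) + D ^ 2 * nr * (Q ^ 2 / N))) := by
    calc 4 * D ^ 2 / k ^ 2 * S2 ≤ 4 * D ^ 2 / k ^ 2 *
          (NN * (D ^ 2 * k + κ * D0 * k ^ 2 + D ^ 2 * Q ^ 2 / D0) + E0 * k ^ 2) :=
          mul_le_mul_of_nonneg_left hS2 (by positivity)
      _ = _ := by
          rw [hE]
          field_simp
  have h3 : 8 * D ^ 2 * δr * (1 / q0) ≤ 8 * D ^ 2 * δr * (2 * Y) := by
    refine mul_le_mul_of_nonneg_left (hqX.trans hXY) (by positivity)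
  have h4 : D ^ 2 * (1 / k) ≤ D ^ 2 * (200 / c * (2 * Y)) := by
    refine mul_le_mul_of_nonneg_left (hk1.trans ?_) (by positivity)
    exact mul_le_mul_of_nonneg_left hXY (by positivity)
  have h5 : κ * D0 ≤ 2 * D * C * (2 * Y) :=
    hκ.trans (mul_le_mul_of_nonneg_left hXY (by positivity))
  have h6 : D ^ 2 * (Q ^ 2 / (D0 * k ^ 2)) ≤ D ^ 2 * (40000 / c ^ 2 * (2 * Y)) := by
    refine mul_le_mul_of_nonneg_left (hk2.trans ?_) (by positivity)
    exact mul_le_mul_of_nonneg_left hXY (by positivity)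
  have h7 : D ^ 2 * nr * (Q ^ 2 / N) ≤ D ^ 2 * nr * Y :=
    mul_le_mul_of_nonneg_left hY (by positivity)
  have h8 : NN * (8 * D ^ 2 * δr * (1 / q0)) ≤ NN * (8 * D ^ 2 * δr * (2 * Y)) :=
    mul_le_mul_of_nonneg_left h3 hNN
  have h9 : NN * (4 * D ^ 2 * (D ^ 2 * (1 / k) + κ * D0 +
      D ^ 2 * (Q ^ 2 / (D0 * k ^ 2)) + D ^ 2 * nr * (Q ^ 2 / N))) ≤
      NN * (4 * D ^ 2 * (D ^ 2 * (200 / c * (2 * Y)) + 2 * D * C * (2 * Y) +
        D ^ 2 * (40000 / c ^ 2 * (2 * Y)) + D ^ 2 * nr * Y)) := by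
    refine mul_le_mul_of_nonneg_left (mul_le_mul_of_nonneg_left ?_ (by positivity)) hNN
    linarith
  have h10 : T ≤ NN * (8 * D ^ 2 * δr * (2 * Y)) + NN * (4 * D ^ 2 *
      (D ^ 2 * (200 / c * (2 * Y)) + 2 * D * C * (2 * Y) +
        D ^ 2 * (40000 / c ^ 2 * (2 * Y)) + D ^ 2 * nr * Y)) := by linarith
  refine h10.trans (le_of_eq ?_)
  ring

end Pool.Agent.N120.TH.NUM_

namespace Pool.Agent.N120.TH

open Finset NUM_

theorem t_NUM (h1 : S_PAIR) (h2 : S_VAR) (h3 : S_SZ) (h4 : S_FIB) : S_NUM := by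
  classical
  intro n r D δ C c hn hr hD hC hc
  refine ⟨8 * D ^ 2 * (δ * 2 ^ r) * 2 + 4 * D ^ 2 * (D ^ 2 * (200 / c) * 2 + 2 * D * C * 2 +
    D ^ 2 * (40000 / c ^ 2) * 2 + D ^ 2 * (n * r)), 8, ?_⟩
  intro N Q hN hQ P hP h W b hp u
  obtain ⟨hQ2, hX, hY, hQN⟩ := num_X hN hQ
  have hQr : (2 : ℝ) ≤ Q := by exact_mod_cast hQ2
  have hQ0 : (0 : ℝ) < Q := by linarith
  have hQ1 : (1 : ℝ) ≤ Q := by linarith
  obtain ⟨hk0, hk1, hk2⟩ := num_P hQr hc hP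
  have hN1 : 1 ≤ N := by omega
  have hN0 : (0 : ℝ) < N := by exact_mod_cast hN1
  have hD1 : (1 : ℝ) ≤ D := by exact_mod_cast hD
  have hD0' : (0 : ℝ) ≤ D := by linarith
  have hPn : P.Nonempty := card_pos.1 (by exact_mod_cast hk0)
  have hq0 : 0 < (Q : ℝ) ^ (2 / 3 - 1 / 200 : ℝ) := Real.rpow_pos_of_pos hQ0 _
  have hq12 : 1 ≤ (Q : ℝ) ^ (1 / 12 : ℝ) := Real.one_le_rpow hQ1 (by norm_num)
  have hprime : ∀ p ∈ P, p.Prime := fun p hpP => (hp p hpP).1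
  have hpQ : ∀ p ∈ P, p ≤ Q := fun p hpP => (hp p hpP).2.1
  -- the functions
  obtain ⟨F, hF⟩ : ∃ F : ℕ → (Fin n → Fin r → ℤ) → ℝ, ∀ p e, F p e =
      W p (fun i => ((pt (h p) e i : (ZMod p)ˣ) : ZMod p)) := ⟨_, fun _ _ => rfl⟩
  obtain ⟨bad, hbad⟩ : ∃ bad : ℕ → (Fin n → Fin r → ℤ) → Prop, ∀ p e, bad p e ↔
      MvPolynomial.eval (fun i => ((pt (h p) e i : (ZMod p)ˣ) : ZMod p)) (b p) = 0 :=
    ⟨_, fun _ _ => Iff.rfl⟩
  have hFD : ∀ p ∈ P, ∀ e ∈ Box u N, |F p e| ≤ D := by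
    intro p hpP e _
    rw [hF]
    exact (hp p hpP).2.2.2.2.2.2.1 _
  have hcount := count ((Box u N).filter (fun e => ∀ p ∈ P,
      MvPolynomial.eval (fun i => ((pt (h p) e i : (ZMod p)ˣ) : ZMod p)) (b p) ≠ 0 →
        1 / (D : ℝ) ≤ W p (fun i => ((pt (h p) e i : (ZMod p)ˣ) : ZMod p)))) (Box u N)
    (filter_subset _ _) P hPn F bad D hD1 hFD (by
      intro e he p hpP hb
      rw [hF]
      exact (mem_filter.1 he).2 p hpP (fun h5 => hb ((hbad p e).2 h5)))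
  -- the bad points
  have hS1 : ∑ p ∈ P, (((Box u N).filter (bad p)).card : ℝ) ≤
      P.card * ((δ * 2 ^ r : ℝ) / (Q : ℝ) ^ (2 / 3 - 1 / 200 : ℝ) * (N : ℝ) ^ (n * r)) := by
    rw [← nsmul_eq_mul, ← Finset.sum_const]
    refine Finset.sum_le_sum fun p hpP => ?_
    obtain ⟨h5, h6, -, h7, h8, h9, -, -⟩ := hp p hpP
    have : Fact p.Prime := ⟨h5⟩
    have h10 := bad_bound h3 h4 (fun x : (ZMod p)ˣ => (x : ZMod p)) Units.val_injective (h p) (b p)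
      h8 δ h9 N (by rw [ZMod.card_units]; omega) u _ hq0 h7 (bad p) (hbad p)
    refine h10.trans (le_of_eq ?_)
    ring
  -- the variance
  obtain ⟨D0, hD0⟩ : ∃ D0 : ℕ, D0 = ⌈(Q : ℝ) ^ (1 / 12 : ℝ)⌉₊ := ⟨_, rfl⟩
  have hD01 : (Q : ℝ) ^ (1 / 12 : ℝ) ≤ D0 := by
    rw [hD0]
    exact Nat.le_ceil _
  have hD02 : (D0 : ℝ) ≤ 2 * (Q : ℝ) ^ (1 / 12 : ℝ) := by
    have h5 : (D0 : ℝ) < (Q : ℝ) ^ (1 / 12 : ℝ) + 1 := by
      rw [hD0]
      exact Nat.ceil_lt_add_one (by positivity)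
    linarith
  have hD03 : 1 ≤ D0 := by
    have : (1 : ℝ) ≤ D0 := hq12.trans hD01
    exact_mod_cast this
  have hD04 : (0 : ℝ) < D0 := by exact_mod_cast hD03
  have hS2 := h2 (Fin n → Fin r → ℤ) (Box u N) P F Q D0 D
    (D * C * (Q : ℝ) ^ (-(47 / 300) : ℝ))
    ((N : ℝ) ^ (n * r) * (D ^ 2 * (n * r : ℝ) * ((Q : ℝ) ^ 2 / N))) hD03 (by positivity)
    (by positivity) (fun p hpP => ⟨(hprime p hpP).two_le, hpQ p hpP⟩) hFD (by
      intro p hpP p' hpP' _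
      have i1 : Fact p.Prime := ⟨hprime p hpP⟩
      have i2 : Fact p'.Prime := ⟨hprime p' hpP'⟩
      obtain ⟨-, h6, h7, h8, -, -, h9, h10⟩ := hp p hpP
      obtain ⟨-, h6', -, -, -, -, h9', -⟩ := hp p' hpP'
      have h11 := pair_bound h1 p p' (h p) (h p') (W p) (W p') D C hC h9 h9'
        (fun M hM z => h10 M hM z) N u hN1
      simp only [hF]
      refine h11.trans ?_
      rw [box_card, Nat.cast_pow]
      have hpr : (0 : ℝ) ≤ (p : ℝ) - 1 := by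
        have : (1 : ℝ) ≤ p := by exact_mod_cast (hprime p hpP).one_le
        linarith
      have hpr' : (0 : ℝ) ≤ (p' : ℝ) - 1 := by
        have : (1 : ℝ) ≤ p' := by exact_mod_cast (hprime p' hpP').one_le
        linarith
      have hp1 : (p : ℝ) ≤ Q := by exact_mod_cast h6
      have hp1' : (p' : ℝ) ≤ Q := by exact_mod_cast h6'
      have hsq : (Q : ℝ) ^ (99 / 200 : ℝ) ≤ Real.sqrt p := by
        rw [Real.sqrt_eq_rpow]
        calc (Q : ℝ) ^ (99 / 200 : ℝ) = ((Q : ℝ) ^ (99 / 100 : ℝ)) ^ (1 / 2 : ℝ) := by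
              rw [← Real.rpow_mul hQ0.le]
              norm_num
          _ ≤ (p : ℝ) ^ (1 / 2 : ℝ) := Real.rpow_le_rpow (by positivity) h7 (by norm_num)
      have hidx := idx_bound (idx := ((Subgroup.closure (Set.range (h p))).index : ℝ)) hQ0 hsq h8
        (Nat.cast_nonneg _) (by
          rw [← Nat.cast_mul, Subgroup.card_mul_index, Nat.card_eq_fintype_card, ZMod.card_units]
          have : p - 1 ≤ Q := by omega
          exact_mod_cast this)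
      have hg0 : (0 : ℝ) ≤ Nat.gcd (p - 1) (p' - 1) := Nat.cast_nonneg _
      have h12 : (D : ℝ) * (C / Real.sqrt p) * ((Subgroup.closure (Set.range (h p))).index *
          Nat.gcd (p - 1) (p' - 1)) ≤ D * C * (Q : ℝ) ^ (-(47 / 300) : ℝ) *
            Nat.gcd (p - 1) (p' - 1) := by
        calc (D : ℝ) * (C / Real.sqrt p) * ((Subgroup.closure (Set.range (h p))).index *
              Nat.gcd (p - 1) (p' - 1)) = D * C *
              ((Subgroup.closure (Set.range (h p))).index / Real.sqrt p) *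
                Nat.gcd (p - 1) (p' - 1) := by ring
          _ ≤ _ := mul_le_mul_of_nonneg_right
              (mul_le_mul_of_nonneg_left hidx (by positivity)) hg0
      have h13 : ((p : ℝ) - 1) * ((p' : ℝ) - 1) ≤ (Q : ℝ) ^ 2 := by
        rw [sq]
        exact mul_le_mul (by linarith) (by linarith) hpr' hQ0.le
      have h14 : (N : ℝ) ^ (n * r - 1) = (N : ℝ) ^ (n * r) / N := by
        rw [eq_div_iff hN0.ne', ← pow_succ]
        congr 1
        have : 1 ≤ n * r := Nat.mul_pos hn hr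
        omega
      refine add_le_add (mul_le_mul_of_nonneg_left h12 (by positivity)) ?_
      rw [h14]
      calc (D : ℝ) * D * (n * r) * (((p : ℝ) - 1) * ((p' : ℝ) - 1)) * ((N : ℝ) ^ (n * r) / N)
          ≤ (D : ℝ) * D * (n * r) * ((Q : ℝ) ^ 2) * ((N : ℝ) ^ (n * r) / N) := by gcongr
        _ = _ := by ring)
  rw [box_card, Nat.cast_pow] at hS2
  have hfin := collect (D := (D : ℝ)) (C := C) (c := c) (k := (P.card : ℝ)) (Q := (Q : ℝ))
    (N := (N : ℝ)) (X := (Q : ℝ) ^ (-(11 / 150) : ℝ)) (Y := (N : ℝ) ^ (-(1 / 29) : ℝ))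
    (q0 := (Q : ℝ) ^ (2 / 3 - 1 / 200 : ℝ)) (D0 := (D0 : ℝ))
    (κ := D * C * (Q : ℝ) ^ (-(47 / 300) : ℝ))
    (E0 := (N : ℝ) ^ (n * r) * (D ^ 2 * (n * r : ℝ) * ((Q : ℝ) ^ 2 / N)))
    (δr := (δ * 2 ^ r : ℝ)) (nr := (n * r : ℝ)) (NN := (N : ℝ) ^ (n * r)) hD1 hC hc hk0 hQ0 hN0
    hD04 (by positivity) (by positivity) (by positivity) hq0 hX hY ?_ hk1 ?_ ?_ rfl hS2 hS1 hcount
  · refine hfin.trans (le_of_eq ?_)
    congr 1
    rw [sub_eq_add_neg, Real.rpow_add hN0, ← Nat.cast_mul, Real.rpow_natCast]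
  · rw [one_div, ← Real.rpow_neg hQ0.le]
    exact Real.rpow_le_rpow_of_exponent_le hQ1 (by norm_num)
  · refine le_trans ?_ hk2
    gcongr
  · calc (D : ℝ) * C * (Q : ℝ) ^ (-(47 / 300) : ℝ) * D0
        ≤ D * C * (Q : ℝ) ^ (-(47 / 300) : ℝ) * (2 * (Q : ℝ) ^ (1 / 12 : ℝ)) := by gcongr
      _ = 2 * D * C * ((Q : ℝ) ^ (-(47 / 300) : ℝ) * (Q : ℝ) ^ (1 / 12 : ℝ)) := by ring
      _ = 2 * D * C * (Q : ℝ) ^ (-(11 / 150) : ℝ) := by
          rw [← Real.rpow_add hQ0]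
          norm_num

end Pool.Agent.N120.TH
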