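import Pool.Agent.N120.TH.Stm
import Pool.Agent.H484R2.Pit
import Pool.Agent.Helper923.PNT

/-!
# TH (helper120), PR: a positive proportion of the primes has a homomorphism `𝓞_L → ZMod p`

Written by helper615.
-/

set_option autoImplicit false

namespace Pool.Agent.N120.TH

open Finset NumberField Filter Topology

open Classical in
theorem t_PR : S_PR := by
  intro L _ _
  obtain ⟨d, hd⟩ : ∃ d : ℝ, d = Module.finrank ℚ L := ⟨_, rfl⟩
  have hd0 : 0 < d := by
    rw [hd]
    exact_mod_cast Module.finrank_pos (R := ℚ) (M := L)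
  have h1 := Pool.Agent.H484R2.pit L
  have h2 := Pool.Agent.Helper923.PNT.pi_tendsto.comp (tendsto_natCast_atTop_atTop (R := ℝ))
  have h3 := h1.eventually_const_le (show (1 / 2 : ℝ) < 1 by norm_num)
  have h4 := h2.eventually_const_le (show (1 / 2 : ℝ) < 1 by norm_num)
  obtain ⟨T, hT⟩ := eventually_atTop.1 ((h3.and h4).and (eventually_ge_atTop 2))
  refine ⟨1 / (4 * d), by positivity, T, fun t ht => ?_⟩
  obtain ⟨⟨a1, a2⟩, a3⟩ := hT t ht
  simp only [Function.comp_apply, Nat.floor_natCast] at a2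
  have ht2 : (2 : ℝ) ≤ t := by exact_mod_cast a3
  have hlog : 0 < Real.log t := Real.log_pos (by linarith)
  have hpi : (t : ℝ) / Real.log t ≤ 2 * Nat.primeCounting t := by
    rw [div_le_iff₀ hlog]
    rw [le_div_iff₀ (by linarith)] at a2
    linarith
  have hpi0 : (0 : ℝ) < Nat.primeCounting t := by
    have : 0 < (t : ℝ) / Real.log t := by positivity
    linarith
  rw [le_div_iff₀ hpi0] at a1
  have h5 : ∑ p ∈ (range (t + 1)).filter Nat.Prime, (Nat.card (𝓞 L →+* ZMod p) : ℝ)
      ≤ d * (((range (t + 1)).filter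
        (fun p => p.Prime ∧ Nonempty (𝓞 L →+* ZMod p))).card : ℝ) := by
    have e : (range (t + 1)).filter (fun p => p.Prime ∧ Nonempty (𝓞 L →+* ZMod p))
        = ((range (t + 1)).filter Nat.Prime).filter (fun p => Nonempty (𝓞 L →+* ZMod p)) := by
      rw [filter_filter]
    rw [e, card_filter]
    push_cast
    rw [mul_sum]
    refine sum_le_sum fun p hp => ?_
    have hp' := (mem_filter.1 hp).2
    by_cases h : Nonempty (𝓞 L →+* ZMod p)
    · rw [if_pos h, mul_one, hd]
      exact H332.PIT.hc_cast_le (K := L) hp'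
    · rw [if_neg h, mul_zero]
      rw [not_nonempty_iff] at h
      have : Nat.card (𝓞 L →+* ZMod p) = 0 := by
        rw [Nat.card_eq_zero]
        exact Or.inl h
      rw [this, Nat.cast_zero]
  obtain ⟨W, hW⟩ : ∃ W : ℝ, W = (((range (t + 1)).filter
        (fun p => p.Prime ∧ Nonempty (𝓞 L →+* ZMod p))).card : ℝ) := ⟨_, rfl⟩
  rw [← hW] at h5 ⊢
  have h6 : (t : ℝ) / Real.log t ≤ 4 * d * W := by linarith
  rw [div_mul_eq_mul_div, one_mul, div_le_iff₀ (by positivity)]
  linarith

end Pool.Agent.N120.TH
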