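import Pool.Agent.N120.TH.Stm

/-!
# TH (helper120), PRM: the set of the primes of the sieve

Written by helper615.
-/

set_option autoImplicit false

namespace Pool.Agent.N120.TH

open Finset NumberField Filter Topology

namespace PRM_

/-- `x ^ a = o(x / log x)` for `a < 1`. -/
lemma small (a : ℝ) (ha : a < 1) :
    Tendsto (fun x : ℝ => x ^ a * (Real.log x / x)) atTop (𝓝 0) := by
  have h1 := (isLittleO_log_rpow_atTop (sub_pos.2 ha)).tendsto_div_nhds_zero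
  refine h1.congr' ?_
  filter_upwards [eventually_gt_atTop 0] with x hx
  rw [Real.rpow_sub hx, Real.rpow_one]
  have := Real.rpow_pos_of_pos hx a
  field_simp

lemma num (c0 C n : ℝ) (hc : 0 < c0) : ∃ Q0 : ℕ, 2 ≤ Q0 ∧ ∀ Q : ℕ, Q0 ≤ Q →
    n + ((Q : ℝ) ^ (99 / 100 : ℝ) + 1) + C * (Q : ℝ) ^ (1 - 3 / 400 : ℝ)
      ≤ c0 / 2 * (Q / Real.log Q) := by
  have h0 := (small 0 (by norm_num)).const_mul (n + 1)
  have h1 := small (99 / 100) (by norm_num)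
  have h2 := (small (1 - 3 / 400) (by norm_num)).const_mul C
  have h3 := ((h0.add h1).add h2).comp (tendsto_natCast_atTop_atTop (R := ℝ))
  rw [mul_zero, mul_zero, add_zero, add_zero] at h3
  have h4 := h3.eventually_le_const (show (0 : ℝ) < c0 / 2 by positivity)
  obtain ⟨Q0, hQ0⟩ := eventually_atTop.1 h4
  refine ⟨max Q0 2, le_max_right _ _, fun Q hQ => ?_⟩
  have h5 := hQ0 Q ((le_max_left _ _).trans hQ)
  have h6 : (2 : ℝ) ≤ Q := by exact_mod_cast (le_max_right _ _).trans hQ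
  have hlog : 0 < Real.log Q := Real.log_pos (by linarith)
  have hQ : (0 : ℝ) < Q := by linarith
  simp only [Function.comp_apply, Real.rpow_zero, one_mul] at h5
  have h7 : (n + ((Q : ℝ) ^ (99 / 100 : ℝ) + 1) + C * (Q : ℝ) ^ (1 - 3 / 400 : ℝ))
      * (Real.log Q / Q) ≤ c0 / 2 := by
    refine le_trans (le_of_eq ?_) h5
    ring
  have h8 : 0 < Real.log Q / Q := by positivity
  calc n + ((Q : ℝ) ^ (99 / 100 : ℝ) + 1) + C * (Q : ℝ) ^ (1 - 3 / 400 : ℝ)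
      = ((n + ((Q : ℝ) ^ (99 / 100 : ℝ) + 1) + C * (Q : ℝ) ^ (1 - 3 / 400 : ℝ))
      * (Real.log Q / Q)) * (Q / Real.log Q) := by
        field_simp
    _ ≤ c0 / 2 * (Q / Real.log Q) := mul_le_mul_of_nonneg_right h7 (by positivity)

end PRM_

open PRM_ Classical in
theorem t_PRM (h1 : S_RING) (h2 : S_PR) (h3 : S_IDX) : S_PRM := by
  intro L _ _ r N0 g i1 i2 hN0 hind hg
  obtain ⟨-, -, hR3, hR4⟩ := h1 L
  obtain ⟨c0, hc0, T, hT⟩ := h2 L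
  obtain ⟨C, hC⟩ := h3 L (g i1) (g i2) hind
  obtain ⟨Q0, hQ02, hQ0⟩ := num c0 C N0 hc0
  refine ⟨c0 / 2, max Q0 T, by positivity, fun Q hQ => ?_⟩
  have hQT : T ≤ Q := (le_max_right _ _).trans hQ
  have hQQ : Q0 ≤ Q := (le_max_left _ _).trans hQ
  have hQ2 : (2 : ℝ) ≤ Q := by exact_mod_cast hQ02.trans hQQ
  obtain ⟨G, hG⟩ : ∃ G : ℕ → Prop, ∀ p, G p ↔ ∃ (ψ : ON L N0 →+* ZMod p) (h : Fin r → (ZMod p)ˣ),
        (∀ i (z : ON L N0), (z : L) = g i → ψ z = h i) ∧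
        (Q : ℝ) ^ (2 / 3 - 1 / 200 : ℝ) ≤ (Nat.card (Subgroup.closure (Set.range h)) : ℝ) :=
    ⟨_, fun _ => Iff.rfl⟩
  obtain ⟨P0, hP0⟩ : ∃ P0 : Finset ℕ, P0 = (range (Q + 1)).filter
    (fun p => p.Prime ∧ Nonempty (𝓞 L →+* ZMod p)) := ⟨_, rfl⟩
  have hcard0 := hT Q hQT
  rw [← hP0] at hcard0
  refine ⟨P0.filter (fun p : ℕ => (Q : ℝ) ^ (99 / 100 : ℝ) ≤ p ∧ G p), ?_, ?_⟩
  swap
  · intro p hp
    rw [mem_filter, hP0, mem_filter, mem_range] at hp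
    exact ⟨hp.1.2.1, by omega, hp.2.1, (hG p).1 hp.2.2⟩
  -- the exceptional primes
  obtain ⟨y, hy⟩ : ∃ y : ℝ, y = (Q : ℝ) ^ (2 / 3 - 1 / 200 : ℝ) := ⟨_, rfl⟩
  have hy1 : 1 ≤ y := by
    rw [hy]
    exact Real.one_le_rpow (by linarith) (by norm_num)
  have hbad := hC (ON L N0) (hR3 N0) y hy1
    (P0.filter (fun p : ℕ => ¬ p ∣ N0 ∧ ¬ G p)) (by
      intro p hp
      rw [mem_filter, hP0, mem_filter] at hp
      obtain ⟨⟨-, hpp, hne⟩, hpN, hpG⟩ := hp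
      have : Fact p.Prime := ⟨hpp⟩
      obtain ⟨ψ⟩ := hR4 N0 hN0 p hpp hpN hne
      have hu : ∀ i, ψ ⟨g i, (hg i).1⟩ * ψ ⟨((g i)⁻¹ : Lˣ), (hg i).2⟩ = 1 := by
        intro i
        rw [← map_mul]
        have : (⟨g i, (hg i).1⟩ * ⟨((g i)⁻¹ : Lˣ), (hg i).2⟩ : ON L N0) = 1 := by
          apply Subtype.ext
          show ((g i : Lˣ) : L) * (((g i)⁻¹ : Lˣ) : L) = 1
          rw [← Units.val_mul, mul_inv_cancel, Units.val_one]
        rw [this, map_one]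
      obtain ⟨h, hh⟩ : ∃ h : Fin r → (ZMod p)ˣ, ∀ i, ((h i : (ZMod p)ˣ) : ZMod p) =
          ψ ⟨g i, (hg i).1⟩ :=
        ⟨fun i => Units.mkOfMulEqOne _ _ (hu i), fun i => rfl⟩
      refine ⟨hpp, ψ, ⟨g i1, (hg i1).1⟩, ⟨g i2, (hg i2).1⟩, h i1, h i2, rfl, rfl,
        (hh i1).symm, (hh i2).symm, ?_⟩
      have h5 : ¬ (Q : ℝ) ^ (2 / 3 - 1 / 200 : ℝ)
          ≤ (Nat.card (Subgroup.closure (Set.range h)) : ℝ) := by
        intro h6
        apply hpG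
        rw [hG]
        refine ⟨ψ, h, fun i z hz => ?_, h6⟩
        rw [hh]
        congr 1
        exact Subtype.ext hz
      rw [← hy, not_le] at h5
      refine le_trans ?_ h5.le
      have h6 : Subgroup.closure ({h i1, h i2} : Set (ZMod p)ˣ) ≤
          Subgroup.closure (Set.range h) := by
        apply Subgroup.closure_mono
        intro z hz
        rcases hz with rfl | rfl
        · exact ⟨i1, rfl⟩
        · exact ⟨i2, rfl⟩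
      exact_mod_cast Nat.le_of_dvd Nat.card_pos (Subgroup.card_dvd_of_le h6))
  have hy2 : y ^ (3 / 2 : ℝ) = (Q : ℝ) ^ (1 - 3 / 400 : ℝ) := by
    rw [hy, ← Real.rpow_mul (by positivity)]
    norm_num
  rw [hy2] at hbad
  have hsub : P0 ⊆ (P0.filter (fun p : ℕ => (Q : ℝ) ^ (99 / 100 : ℝ) ≤ p ∧ G p)) ∪
      (N0.divisors ∪ (range (⌊(Q : ℝ) ^ (99 / 100 : ℝ)⌋₊ + 1) ∪
        P0.filter (fun p : ℕ => ¬ p ∣ N0 ∧ ¬ G p))) := by
    intro p hp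
    rw [mem_union, mem_union, mem_union]
    by_cases h4 : (Q : ℝ) ^ (99 / 100 : ℝ) ≤ p
    · by_cases h5 : G p
      · exact Or.inl (mem_filter.2 ⟨hp, h4, h5⟩)
      · by_cases h6 : p ∣ N0
        · exact Or.inr (Or.inl (Nat.mem_divisors.2 ⟨h6, by omega⟩))
        · exact Or.inr (Or.inr (Or.inr (mem_filter.2 ⟨hp, h6, h5⟩)))
    · refine Or.inr (Or.inr (Or.inl ?_))
      rw [not_le] at h4
      rw [mem_range, Nat.lt_succ_iff]
      exact Nat.le_floor h4.le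
  have hc1 := card_le_card hsub
  have hc2 := card_union_le (P0.filter (fun p : ℕ => (Q : ℝ) ^ (99 / 100 : ℝ) ≤ p ∧ G p))
      (N0.divisors ∪ (range (⌊(Q : ℝ) ^ (99 / 100 : ℝ)⌋₊ + 1) ∪
        P0.filter (fun p : ℕ => ¬ p ∣ N0 ∧ ¬ G p)))
  have hc3 := card_union_le N0.divisors (range (⌊(Q : ℝ) ^ (99 / 100 : ℝ)⌋₊ + 1) ∪
        P0.filter (fun p : ℕ => ¬ p ∣ N0 ∧ ¬ G p))
  have hc4 := card_union_le (range (⌊(Q : ℝ) ^ (99 / 100 : ℝ)⌋₊ + 1))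
        (P0.filter (fun p : ℕ => ¬ p ∣ N0 ∧ ¬ G p))
  have hc5 : N0.divisors.card ≤ N0 := Nat.card_divisors_le_self N0
  rw [card_range] at hc4
  have hc6 : (⌊(Q : ℝ) ^ (99 / 100 : ℝ)⌋₊ : ℝ) ≤ (Q : ℝ) ^ (99 / 100 : ℝ) :=
    Nat.floor_le (by positivity)
  have hc7 : P0.card ≤ (P0.filter (fun p : ℕ => (Q : ℝ) ^ (99 / 100 : ℝ) ≤ p ∧ G p)).card +
      (N0 + ((⌊(Q : ℝ) ^ (99 / 100 : ℝ)⌋₊ + 1) +
        (P0.filter (fun p : ℕ => ¬ p ∣ N0 ∧ ¬ G p)).card)) := by omega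
  have hc8 : (P0.card : ℝ) ≤ ((P0.filter (fun p : ℕ => (Q : ℝ) ^ (99 / 100 : ℝ) ≤ p ∧ G p)).card : ℝ) +
      ((N0 : ℝ) + (((⌊(Q : ℝ) ^ (99 / 100 : ℝ)⌋₊ : ℝ) + 1) +
        ((P0.filter (fun p : ℕ => ¬ p ∣ N0 ∧ ¬ G p)).card : ℝ))) := by exact_mod_cast hc7
  have hnum := hQ0 Q hQQ
  linarith

end Pool.Agent.N120.TH
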