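import Pool.Agent.N120.TH.Stm

/-!
# RHO: integral elements which become rational in a Laurent direction are killed by a polynomial
in the derivation
-/

set_option autoImplicit false

namespace Pool.Agent.N120.TH

open Finset Polynomial

namespace RHO_

open TensorProduct KaehlerDifferential in
/-- The derivation `t d/dt` extends to algebraic extensions of `F(t)`. -/
lemma exists_delta (F : Type) [Field F] [CharZero F] (T : Type) [Field T] [Algebra (RatFunc F) T]
    [Algebra.IsAlgebraic (RatFunc F) T] :
    ∃ δ : T → T, (∀ x y, δ (x + y) = δ x + δ y) ∧ (∀ x y, δ (x * y) = x * δ y + y * δ x) ∧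
      ∀ p : F[X], δ (algebraMap (RatFunc F) T (algebraMap F[X] (RatFunc F) p)) =
        algebraMap (RatFunc F) T (algebraMap F[X] (RatFunc F) (X * derivative p)) := by
  let _ : Algebra F[X] T := ((algebraMap (RatFunc F) T).comp (algebraMap F[X] (RatFunc F))).toAlgebra
  have : IsScalarTower F[X] (RatFunc F) T := IsScalarTower.of_algebraMap_eq' rfl
  have : CharZero (RatFunc F) := charZero_of_injective_algebraMap
    (algebraMap F (RatFunc F)).injective
  have : Algebra.FormallyEtale F[X] (RatFunc F) :=
    Algebra.FormallyEtale.of_isLocalization (nonZeroDivisors F[X])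
  have : Algebra.FormallyEtale (RatFunc F) T := Algebra.FormallyEtale.of_isSeparable _ _
  have : Algebra.FormallyEtale F[X] T := Algebra.FormallyEtale.comp F[X] (RatFunc F) T
  let D0 : Derivation ℤ F[X] T := (Algebra.linearMap F[X] T).compDer
    ((X : F[X]) • ((derivative' : Derivation F F[X] F[X]).restrictScalars ℤ))
  let l : T ⊗[F[X]] Ω[F[X]⁄ℤ] →ₗ[T] T := LinearMap.liftBaseChange T D0.liftKaehlerDifferential
  let δ : Derivation ℤ T T :=
    (l.comp (tensorKaehlerEquivOfFormallyEtale ℤ F[X] T).symm.toLinearMap).compDer (D ℤ T)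
  refine ⟨δ, fun x y => map_add δ x y, fun x y => by simp, fun p => ?_⟩
  have h1 : δ (algebraMap F[X] T p) = D0 p := by
    change l ((tensorKaehlerEquivOfFormallyEtale ℤ F[X] T).symm (D ℤ T (algebraMap F[X] T p))) = _
    rw [tensorKaehlerEquivOfFormallyEtale_symm_D_algebraMap]
    simp [l]
  exact h1

/-- A `ρ`-derivation which vanishes on `E` vanishes on algebraic separable extensions. -/
lemma der_zero {E M T : Type} [Field E] [Field M] [Algebra E M] [Algebra.IsSeparable E M] [Field T]
    (ρ : M →+* T) (d : M → T) (hadd : ∀ x y, d (x + y) = d x + d y)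
    (hmul : ∀ x y, d (x * y) = ρ x * d y + ρ y * d x) (hE : ∀ e : E, d (algebraMap E M e) = 0)
    (z : M) : d z = 0 := by
  have h0 : d 0 = 0 := by
    have := hadd 0 0
    rw [add_zero] at this
    simpa using this
  have hpow : ∀ n : ℕ, d (z ^ n) = n * ρ z ^ (n - 1) * d z := by
    intro n
    induction n with
    | zero =>
      have := hE 1
      rw [map_one] at this
      simp [this]
    | succ n ih =>
      rw [pow_succ, hmul, ih]
      rcases n with _ | n
      · simp
      · simp only [Nat.add_sub_cancel, map_pow]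
        push_cast
        ring
  have hpoly : ∀ p : E[X], d (aeval z p) = ρ (aeval z (derivative p)) * d z := by
    intro p
    induction p using Polynomial.induction_on' with
    | add p q hp hq =>
      rw [map_add, hadd, hp, hq, derivative_add, map_add, map_add, add_mul]
    | monomial n a =>
      rw [aeval_monomial, hmul, hE, hpow, derivative_monomial, aeval_monomial, map_mul, map_mul,
        map_mul, map_pow, map_natCast]
      simp only [map_natCast, map_pow]
      ring
  have hsep := Algebra.IsSeparable.isSeparable E z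
  have h1 := hpoly (minpoly E z)
  rw [minpoly.aeval, h0] at h1
  have h2 : ρ (aeval z (derivative (minpoly E z))) ≠ 0 := by
    rw [Ne, map_eq_zero]
    exact hsep.aeval_derivative_ne_zero (minpoly.aeval E z)
  rcases mul_eq_zero.mp h1.symm with h | h
  · exact absurd h h2
  · exact h

end RHO_

open RHO_ in
theorem t_RHO : S_RHO := by
  intro k _ _ _ n M _ _ _ _ 𝒟 A ρ hρ α hint hrange
  have : CharZero (Om k n) := charZero_of_injective_algebraMap (algebraMap (En k n) (Om k n)).injective
  have : CharZero (En k n) := by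
    have : CharZero (Pn k n) := charZero_of_injective_algebraMap
      (R := k) (MvPolynomial.C_injective _ _)
    exact charZero_of_injective_algebraMap (IsFractionRing.injective (Pn k n) (En k n))
  have : Algebra.IsSeparable (En k n) M := inferInstance
  have : Algebra.IsAlgebraic (RatFunc (Om k n)) (Rt k n) := AlgebraicClosure.isAlgebraic _
  obtain ⟨δ, hδa, hδm, hδp⟩ := exists_delta (Om k n) (Rt k n)
  have hρ' : ∀ p : Pn k n, ρ (cm k n M p) = algebraMap (RatFunc (Om k n)) (Rt k n)
      (algebraMap (Om k n)[X] (RatFunc (Om k n)) (sub A p)) := fun p => RingHom.congr_fun hρ p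
  -- the derivation `D_A`
  obtain ⟨DA, hDA⟩ : ∃ DA : Module.End ℚ M, DA = 𝒟.Dv A := ⟨_, rfl⟩
  have hDAapp : ∀ z, DA z = ∑ i, (A i : ℚ) • 𝒟.D i z := by
    intro z
    rw [hDA]
    simp [Ders.Dv, LinearMap.sum_apply]
  have hDAm : ∀ x y, DA (x * y) = x * DA y + y * DA x := by
    intro x y
    rw [hDAapp, hDAapp, hDAapp, Finset.mul_sum, Finset.mul_sum, ← Finset.sum_add_distrib]
    refine Finset.sum_congr rfl fun i _ => ?_
    rw [𝒟.leib, smul_add, mul_smul_comm, mul_smul_comm, mul_comm (𝒟.D i x) y]
  have hDAC : ∀ c : k, DA (cm k n M (MvPolynomial.C c)) = 0 := by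
    intro c
    rw [hDAapp]
    refine Finset.sum_eq_zero fun i _ => ?_
    rw [𝒟.const, smul_zero]
  have hDAX : ∀ j, DA (cm k n M (MvPolynomial.X j)) = (A j : M) * cm k n M (MvPolynomial.X j) := by
    intro j
    rw [hDAapp, Finset.sum_eq_single j]
    · rw [𝒟.var, if_pos rfl, Nat.cast_smul_eq_nsmul, nsmul_eq_mul]
    · intro i _ hi
      rw [𝒟.var, if_neg hi, smul_zero]
    · intro h
      exact absurd (Finset.mem_univ j) h
  have hd : ∀ z, ρ (DA z) - δ (ρ z) = 0 := by
    have hadd : ∀ x y : M, ρ (DA (x + y)) - δ (ρ (x + y)) =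
        (ρ (DA x) - δ (ρ x)) + (ρ (DA y) - δ (ρ y)) := by
      intro x y
      rw [map_add, map_add, map_add, hδa]
      ring
    have hmul : ∀ x y : M, ρ (DA (x * y)) - δ (ρ (x * y)) =
        ρ x * (ρ (DA y) - δ (ρ y)) + ρ y * (ρ (DA x) - δ (ρ x)) := by
      intro x y
      rw [hDAm, map_add, map_mul, map_mul, map_mul, hδm]
      ring
    have hP : ∀ p : Pn k n, ρ (DA (cm k n M p)) - δ (ρ (cm k n M p)) = 0 := by
      intro p
      induction p using MvPolynomial.induction_on with
      | C c =>
        rw [hDAC, map_zero, hρ', hδp]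
        have : sub A (MvPolynomial.C c : Pn k n) = C (cm k n (Om k n) (MvPolynomial.C c)) := by
          simp [sub, twHom]
        rw [this, derivative_C, mul_zero, map_zero, map_zero, sub_zero]
      | add p q hp hq =>
        rw [map_add (cm k n M), hadd, hp, hq, add_zero]
      | mul_X p j hp =>
        rw [map_mul (cm k n M), hmul, hp, mul_zero, add_zero, hDAX, hρ' (MvPolynomial.X j), hδp]
        have e1 : sub A (MvPolynomial.X j : Pn k n) =
            C (cm k n (Om k n) (MvPolynomial.X j)) * X ^ A j := by
          simp [sub, twHom]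
        have e2 : X * derivative (sub A (MvPolynomial.X j : Pn k n)) =
            (A j : (Om k n)[X]) * sub A (MvPolynomial.X j : Pn k n) := by
          rw [e1, derivative_C_mul, derivative_X_pow]
          rcases Nat.eq_zero_or_pos (A j) with h | h
          · simp [h]
          · obtain ⟨m, hm⟩ : ∃ m, A j = m + 1 := ⟨A j - 1, by omega⟩
            rw [hm]
            simp only [Nat.add_sub_cancel, map_natCast]
            ring
        rw [e2, map_mul ρ, map_natCast, map_mul (algebraMap (Om k n)[X] (RatFunc (Om k n))),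
          map_mul (algebraMap (RatFunc (Om k n)) (Rt k n)), map_natCast, map_natCast,
          ← hρ' (MvPolynomial.X j), sub_self, mul_zero]
    intro z
    refine der_zero (E := En k n) ρ (fun z => ρ (DA z) - δ (ρ z)) hadd hmul ?_ z
    intro e
    obtain ⟨a, b, hb, rfl⟩ := IsFractionRing.div_surjective (A := Pn k n) e
    have hb0 : algebraMap (Pn k n) (En k n) b ≠ 0 := by
      intro h
      exact nonZeroDivisors.ne_zero hb
        ((map_eq_zero_iff _ (IsFractionRing.injective (Pn k n) (En k n))).mp h)
    have h1 := hmul (algebraMap (En k n) M (algebraMap (Pn k n) (En k n) a /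
      algebraMap (Pn k n) (En k n) b)) (cm k n M b)
    have h2 : algebraMap (En k n) M (algebraMap (Pn k n) (En k n) a /
      algebraMap (Pn k n) (En k n) b) * cm k n M b = cm k n M a := by
      change _ * algebraMap (En k n) M (algebraMap (Pn k n) (En k n) b) = _
      rw [← map_mul, div_mul_cancel₀ _ hb0]
      rfl
    rw [h2, hP, hP, mul_zero, zero_add] at h1
    rcases mul_eq_zero.mp h1.symm with h | h
    · rw [map_eq_zero] at h
      exact absurd ((map_eq_zero (algebraMap (En k n) M)).mp h) hb0
    · exact h
  have hcomm : ∀ z, ρ (DA z) = δ (ρ z) := fun z => sub_eq_zero.mp (hd z)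
  -- the element `ρ α` is a polynomial
  obtain ⟨w, hw⟩ := hrange
  obtain ⟨p, hpm, hp0⟩ := hint
  have hwint : IsIntegral (Om k n)[X] w := by
    refine ⟨p.map (sub A), hpm.map _, ?_⟩
    apply (algebraMap (RatFunc (Om k n)) (Rt k n)).injective
    rw [map_zero, hom_eval₂, eval₂_map, hw]
    have e : ((algebraMap (RatFunc (Om k n)) (Rt k n)).comp
        (algebraMap (Om k n)[X] (RatFunc (Om k n)))).comp (sub A) = ρ.comp (cm k n M) := hρ.symm
    rw [e, ← hom_eval₂, hp0, map_zero]
  obtain ⟨P, hP⟩ := IsIntegrallyClosed.isIntegral_iff.mp hwint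
  -- the operators
  have key : ∀ L : ℕ, ∃ Q : (Om k n)[X],
      ρ ((Polynomial.aeval DA (∏ l ∈ range L, (Polynomial.X - Polynomial.C (l : ℚ)))) α) =
        algebraMap (RatFunc (Om k n)) (Rt k n) (algebraMap (Om k n)[X] (RatFunc (Om k n)) Q) ∧
      ∀ j, Q.coeff j = (∏ l ∈ range L, ((j : Om k n) - l)) * P.coeff j := by
    intro L
    induction L with
    | zero =>
      refine ⟨P, ?_, fun j => by simp⟩
      simp [hP, hw]
    | succ L ih =>
      obtain ⟨Q, hQ, hc⟩ := ih
      refine ⟨X * derivative Q - C (L : Om k n) * Q, ?_, ?_⟩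
      · rw [prod_range_succ, mul_comm, map_mul, Module.End.mul_apply]
        set β := (Polynomial.aeval DA (∏ l ∈ range L, (Polynomial.X - Polynomial.C (l : ℚ)))) α
          with hβ
        have e1 : (Polynomial.aeval DA (Polynomial.X - Polynomial.C (L : ℚ))) β =
            DA β - (L : M) * β := by
          rw [map_sub, aeval_X, aeval_C, LinearMap.sub_apply, Module.algebraMap_end_apply,
            Nat.cast_smul_eq_nsmul, nsmul_eq_mul]
        rw [e1, map_sub, hcomm, hQ, hδp, map_mul ρ, hQ, map_natCast, map_sub, map_sub]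
        congr 1
        rw [map_mul (algebraMap (Om k n)[X] (RatFunc (Om k n))), map_mul]
        simp
      · intro j
        rw [coeff_sub, coeff_C_mul, prod_range_succ, hc]
        rcases j with _ | j
        · rw [mul_coeff_zero, coeff_X_zero, zero_mul]
          push_cast
          ring
        · rw [coeff_X_mul, coeff_derivative, hc]
          push_cast
          ring
  refine ⟨P.natDegree + 1, ?_⟩
  obtain ⟨Q, hQ, hc⟩ := key (P.natDegree + 1)
  have hQ0 : Q = 0 := by
    ext j
    rw [hc, coeff_zero]
    by_cases hj : j ≤ P.natDegree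
    · rw [Finset.prod_eq_zero (Finset.mem_range.mpr (Nat.lt_succ_of_le hj)) (sub_self _), zero_mul]
    · rw [coeff_eq_zero_of_natDegree_lt (not_le.mp hj), mul_zero]
  rw [hQ0, map_zero, map_zero, map_eq_zero, hDA] at hQ
  exact hQ

end Pool.Agent.N120.TH
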