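import Pool.Agent.N120.TH.Stm

/-!
# TH/RING: the rings `𝓞_L[1/N]`
-/

set_option autoImplicit false

namespace Pool.Agent.N120.TH

open Finset Polynomial NumberField

namespace RING_

variable {L : Type} [Field L]

theorem natCast_integral (N : ℕ) : IsIntegral ℤ (N : L) := by
  have := (isIntegral_algebraMap (R := ℤ) (A := L) (x := (N : ℤ)))
  simpa using this

theorem mono (N M : ℕ) : ON L N ≤ ON L (N * M) := by
  rintro x ⟨k, hk⟩
  refine ⟨k, ?_⟩
  have : ((N * M : ℕ) : L) ^ k * x = (M : L) ^ k * ((N : L) ^ k * x) := by push_cast; ring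
  rw [this]
  exact ((natCast_integral M).pow k).mul hk

theorem one [NumberField L] (z : L) : ∃ N : ℕ, 1 ≤ N ∧ z ∈ ON L N := by
  have h : IsAlgebraic ℤ z :=
    (IsFractionRing.isAlgebraic_iff ℤ ℚ L).2 (Algebra.IsAlgebraic.isAlgebraic z)
  obtain ⟨y, hy, hyz⟩ := h.exists_integral_multiple
  refine ⟨y.natAbs, ?_, 1, ?_⟩
  · have : y.natAbs ≠ 0 := Int.natAbs_ne_zero.2 hy
    omega
  · rw [pow_one]
    rcases Int.natAbs_eq y with h | h
    · have h1 : ((y.natAbs : ℕ) : L) * z = y • z := by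
        conv_rhs => rw [h]
        simp
      rw [h1]
      exact hyz
    · have h1 : ((y.natAbs : ℕ) : L) * z = - (y • z) := by
        conv_rhs => rw [h]
        simp
      rw [h1]
      exact hyz.neg

theorem fin [NumberField L] (s : Finset L) : ∃ N : ℕ, 1 ≤ N ∧ ∀ z ∈ s, z ∈ ON L N := by
  classical
  induction s using Finset.induction_on with
  | empty => exact ⟨1, le_rfl, by simp⟩
  | insert a s ha ih =>
    obtain ⟨N, hN, h⟩ := ih
    obtain ⟨M, hM, h'⟩ := one a
    refine ⟨N * M, Nat.mul_pos hN hM, ?_⟩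
    intro z hz
    rcases Finset.mem_insert.1 hz with rfl | hz
    · rw [mul_comm]
      exact mono M N h'
    · exact mono N M (h z hz)

theorem mem_of_int [NumberField L] (N : ℕ) (x : 𝓞 L) : (x : L) ∈ ON L N :=
  ⟨0, by simpa using x.isIntegral_coe⟩

/-- the inclusion -/
def incl (L : Type) [Field L] [NumberField L] (N : ℕ) : 𝓞 L →+* ON L N :=
  (algebraMap (𝓞 L) L).codRestrict (ON L N) (fun x => mem_of_int N x)

/-- the algebra structure -/
@[reducible] def alg (L : Type) [Field L] [NumberField L] (N : ℕ) : Algebra (𝓞 L) (ON L N) :=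
  (incl L N).toAlgebra

theorem loc [NumberField L] (N : ℕ) (hN : 1 ≤ N) :
    @IsLocalization (𝓞 L) _ (Submonoid.powers (N : 𝓞 L)) (ON L N) _ (alg L N) := by
  letI := alg L N
  have hN0 : (N : L) ≠ 0 := by
    have : N ≠ 0 := by omega
    exact_mod_cast this
  have hmap : ∀ x : 𝓞 L, ((algebraMap (𝓞 L) (ON L N) x : ON L N) : L) = (x : L) := fun x => rfl
  have hpow : ∀ k : ℕ, (((N : 𝓞 L) ^ k : 𝓞 L) : L) = (N : L) ^ k := by
    intro k
    simp
  refine ⟨?_, ?_, ?_⟩
  · rintro ⟨_, k, rfl⟩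
    have hinv : ((N : L) ^ k)⁻¹ ∈ ON L N := by
      refine ⟨k, ?_⟩
      rw [mul_inv_cancel₀ (pow_ne_zero _ hN0)]
      exact isIntegral_one
    refine IsUnit.of_mul_eq_one (⟨((N : L) ^ k)⁻¹, hinv⟩ : ON L N) ?_
    apply Subtype.ext
    change ((algebraMap (𝓞 L) (ON L N) ((N : 𝓞 L) ^ k) : ON L N) : L) * ((N : L) ^ k)⁻¹ = 1
    rw [hmap, hpow, mul_inv_cancel₀ (pow_ne_zero _ hN0)]
  · rintro ⟨z, k, hk⟩
    refine ⟨(⟨(N : L) ^ k * z, hk⟩, ⟨(N : 𝓞 L) ^ k, k, rfl⟩), ?_⟩
    apply Subtype.ext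
    change z * ((algebraMap (𝓞 L) (ON L N) ((N : 𝓞 L) ^ k) : ON L N) : L) = (N : L) ^ k * z
    rw [hmap, hpow, mul_comm]
  · intro x y hxy
    refine ⟨1, ?_⟩
    have h := congrArg (fun t : ON L N => (t : L)) hxy
    simp only [hmap] at h
    have : x = y := by exact_mod_cast h
    rw [this]

end RING_

theorem t_RING : S_RING := by
  intro L _ _
  refine ⟨RING_.fin, ?_, RING_.mem_of_int, ?_⟩
  · intro N hN x hx
    letI := RING_.alg L N
    haveI := RING_.loc (L := L) N hN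
    haveI : IsScalarTower (𝓞 L) (ON L N) L := IsScalarTower.of_algebraMap_eq (fun _ => rfl)
    obtain ⟨m, hm⟩ := IsIntegral.exists_multiple_integral_of_isLocalization
      (Submonoid.powers (N : 𝓞 L)) x hx
    obtain ⟨_, k, rfl⟩ := m
    refine ⟨k, ?_⟩
    have h1 : IsIntegral (𝓞 L) ((N : L) ^ k * x) := by
      have h2 : ((⟨(fun i => (N : 𝓞 L) ^ i) k, k, rfl⟩ : Submonoid.powers (N : 𝓞 L)) • x : L) =
          (N : L) ^ k * x := by
        rw [Submonoid.smul_def, Algebra.smul_def]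
        simp
      rw [← h2]
      exact hm
    exact isIntegral_trans (R := ℤ) (A := 𝓞 L) _ h1
  · intro N hN p hp hpN ⟨φ⟩
    letI := RING_.alg L N
    haveI := RING_.loc (L := L) N hN
    haveI := Fact.mk hp
    refine ⟨IsLocalization.lift (M := Submonoid.powers (N : 𝓞 L)) (g := φ) ?_⟩
    rintro ⟨_, k, rfl⟩
    simp only [map_pow, map_natCast]
    apply IsUnit.pow
    rw [isUnit_iff_ne_zero]
    intro h
    exact hpN ((ZMod.natCast_eq_zero_iff _ _).1 h)

end Pool.Agent.N120.TH
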