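import Pool.Agent.N120.TH.Stm

/-!
# A resolvent whose roots give two roots of `φ` (project TH, part TWO; helper707)
-/

set_option autoImplicit false

namespace Pool.Agent.N120.TH.TWO_

open Polynomial

section gen

variable {P E M : Type} [CommRing P] [IsDomain P] [IsIntegrallyClosed P] [Field E] [Algebra P E]
  [IsFractionRing P E] [CharZero E] [Field M] [Algebra E M] [Algebra P M] [IsScalarTower P E M]
  [FiniteDimensional E M]

/-- the value at `θ` of the homogenized polynomial -/
theorem homog_eval (φ Q : P[X]) (e : P) (θ y : M) (hQ : aeval θ Q = algebraMap P M e * y)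
    (hy : aeval y φ = 0) :
    aeval θ (∑ j ∈ Finset.range (φ.natDegree + 1), C (φ.coeff j) * Q ^ j *
      C e ^ (φ.natDegree - j)) = 0 := by
  rw [map_sum]
  have h1 : ∀ j ∈ Finset.range (φ.natDegree + 1),
      aeval θ (C (φ.coeff j) * Q ^ j * C e ^ (φ.natDegree - j)) =
        algebraMap P M e ^ φ.natDegree * (φ.coeff j • y ^ j) := by
    intro j hj
    rw [Finset.mem_range] at hj
    rw [map_mul, map_mul, map_pow, map_pow, aeval_C, aeval_C, hQ, mul_pow, Algebra.smul_def]
    have h2 : φ.natDegree = j + (φ.natDegree - j) := by omega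
    rw [h2]
    have h3 : j + (φ.natDegree - j) - j = φ.natDegree - j := by omega
    rw [h3, pow_add]
    ring
  rw [Finset.sum_congr rfl h1, ← Finset.mul_sum, ← Polynomial.aeval_eq_sum_range, hy, mul_zero]

omit [IsIntegrallyClosed P] [CharZero E] in
theorem repr (θ : M) (hθ : IntermediateField.adjoin E {θ} = ⊤) (x : M) :
    ∃ (q : P[X]) (b : P), b ≠ 0 ∧ aeval θ q = algebraMap P M b * x := by
  have hx : x ∈ IntermediateField.adjoin E {θ} := by rw [hθ]; trivial
  have hint : IsIntegral E θ := Algebra.IsIntegral.isIntegral θ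
  rw [← IntermediateField.mem_toSubalgebra,
    IntermediateField.adjoin_simple_toSubalgebra_of_isAlgebraic hint.isAlgebraic,
    Algebra.adjoin_singleton_eq_range_aeval] at hx
  obtain ⟨q, rfl⟩ := hx
  obtain ⟨b, hb⟩ := IsLocalization.integerNormalization_map_to_map (nonZeroDivisors P) q
  refine ⟨IsLocalization.integerNormalization (nonZeroDivisors P) q, b,
    nonZeroDivisors.ne_zero b.2, ?_⟩
  rw [← Polynomial.aeval_map_algebraMap E, hb]
  show aeval θ ((b : P) • q) = _
  rw [← algebraMap_smul E, map_smul, Algebra.smul_def, ← IsScalarTower.algebraMap_apply]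
  rfl

theorem two_gen [Normal E M] (φ : P[X])
    (hirr : Irreducible (φ.map (algebraMap P E))) (hd : 2 ≤ (φ.map (algebraMap P E)).natDegree)
    (hs : (φ.map (algebraMap P M)).Splits) :
    ∃ (Φ : P[X]) (e : P), Φ.Monic ∧ 1 ≤ Φ.natDegree ∧ Irreducible (Φ.map (algebraMap P E)) ∧
      (Φ.map (algebraMap P M)).Splits ∧ e ≠ 0 ∧ ∃ Q1 Q2 R : P[X],
        Φ ∣ (∑ j ∈ Finset.range (φ.natDegree + 1), C (φ.coeff j) * Q1 ^ j *
          C e ^ (φ.natDegree - j)) ∧
        Φ ∣ (∑ j ∈ Finset.range (φ.natDegree + 1), C (φ.coeff j) * Q2 ^ j *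
          C e ^ (φ.natDegree - j)) ∧ Φ ∣ (Q1 - Q2) * R - C (e ^ 2) := by
  classical
  -- two roots
  have hmap : (φ.map (algebraMap P E)).map (algebraMap E M) = φ.map (algebraMap P M) := by
    rw [Polynomial.map_map, ← IsScalarTower.algebraMap_eq]
  have hcard := card_rootSet_eq_natDegree (K := M) hirr.separable (by rw [hmap]; exact hs)
  have h2 : 1 < Fintype.card ((φ.map (algebraMap P E)).rootSet M) := by omega
  obtain ⟨⟨y1, hy1⟩, ⟨y2, hy2⟩, hne⟩ := Fintype.exists_pair_of_one_lt_card h2
  have hne' : y1 ≠ y2 := fun h => hne (Subtype.ext h)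
  have hr : ∀ y ∈ (φ.map (algebraMap P E)).rootSet M, aeval y φ = 0 := by
    intro y hy
    have := aeval_eq_zero_of_mem_rootSet hy
    rwa [Polynomial.aeval_map_algebraMap] at this
  -- a primitive integral element
  obtain ⟨θ', hθ'⟩ := Field.exists_primitive_element E M
  have halg : IsAlgebraic P θ' := by
    have h3 : IsAlgebraic E θ' := Algebra.IsAlgebraic.isAlgebraic θ'
    exact (IsFractionRing.isAlgebraic_iff P E M).2 h3
  obtain ⟨b, hb0, hθint⟩ := IsAlgebraic.exists_integral_multiple halg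
  set θ : M := b • θ' with hθ
  have hinj : Function.Injective (algebraMap P M) := by
    rw [IsScalarTower.algebraMap_eq P E M]
    exact (algebraMap E M).injective.comp (IsFractionRing.injective P E)
  have hbM : algebraMap P M b ≠ 0 := fun h => hb0 (hinj (by rw [h, map_zero]))
  have htop : IntermediateField.adjoin E {θ} = ⊤ := by
    rw [eq_top_iff, ← hθ', IntermediateField.adjoin_simple_le_iff]
    have h3 : θ ∈ IntermediateField.adjoin E {θ} := IntermediateField.mem_adjoin_simple_self E θ
    have h4 : θ' = (algebraMap P E b)⁻¹ • θ := by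
      rw [hθ, ← algebraMap_smul E b θ', smul_smul, inv_mul_cancel₀, one_smul]
      intro h5
      apply hbM
      rw [IsScalarTower.algebraMap_apply P E M, h5, map_zero]
    rw [h4]
    exact IntermediateField.smul_mem _ h3
  have htf : Module.IsTorsionFree P M := by
    rw [Module.isTorsionFree_iff_algebraMap_injective]
    exact hinj
  -- the data
  obtain ⟨q1, b1, hb1, e1⟩ := repr (P := P) (E := E) θ htop y1
  obtain ⟨q2, b2, hb2, e2⟩ := repr (P := P) (E := E) θ htop y2
  obtain ⟨q3, b3, hb3, e3⟩ := repr (P := P) (E := E) θ htop (y1 - y2)⁻¹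
  have hmin : minpoly E θ = (minpoly P θ).map (algebraMap P E) :=
    minpoly.isIntegrallyClosed_eq_field_fractions' E hθint
  have f1 : aeval θ (C (b2 * b3) * q1) = algebraMap P M (b1 * b2 * b3) * y1 := by
    rw [map_mul, aeval_C, e1]
    simp only [map_mul]
    ring
  have f2 : aeval θ (C (b1 * b3) * q2) = algebraMap P M (b1 * b2 * b3) * y2 := by
    rw [map_mul, aeval_C, e2]
    simp only [map_mul]
    ring
  have f3 : aeval θ (C (b1 * b2) * q3) = algebraMap P M (b1 * b2 * b3) * (y1 - y2)⁻¹ := by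
    rw [map_mul, aeval_C, e3]
    simp only [map_mul]
    ring
  refine ⟨minpoly P θ, b1 * b2 * b3, minpoly.monic hθint, minpoly.natDegree_pos hθint, ?_, ?_,
    mul_ne_zero (mul_ne_zero hb1 hb2) hb3, C (b2 * b3) * q1, C (b1 * b3) * q2, C (b1 * b2) * q3,
    ?_, ?_, ?_⟩
  · rw [← hmin]
    exact minpoly.irreducible (Algebra.IsIntegral.isIntegral θ)
  · have h5 : (minpoly P θ).map (algebraMap P M) =
        (minpoly E θ).map (algebraMap E M) := by
      rw [hmin, Polynomial.map_map, ← IsScalarTower.algebraMap_eq]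
    rw [h5]
    exact Normal.splits inferInstance θ
  · exact minpoly.isIntegrallyClosed_dvd hθint (homog_eval φ _ _ θ y1 f1 (hr y1 hy1))
  · exact minpoly.isIntegrallyClosed_dvd hθint (homog_eval φ _ _ θ y2 f2 (hr y2 hy2))
  · apply minpoly.isIntegrallyClosed_dvd hθint
    rw [map_sub, map_mul, map_sub, f1, f2, f3, aeval_C, map_pow]
    have h6 : y1 - y2 ≠ 0 := sub_ne_zero.2 hne'
    field_simp
    ring

end gen

end Pool.Agent.N120.TH.TWO_

namespace Pool.Agent.N120.TH

open Polynomial

theorem t_TWO : S_TWO := by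
  intro k _ _ _ n M _ _ _ _ φ hm hirr hd hs
  letI : Algebra (Pn k n) M := (cm k n M).toAlgebra
  haveI : IsScalarTower (Pn k n) (En k n) M := IsScalarTower.of_algebraMap_eq fun _ => rfl
  obtain ⟨Φ, e, h1, h2, h3, h4, h5, Q1, Q2, R, h6, h7, h8⟩ :=
    TWO_.two_gen (P := Pn k n) (E := En k n) (M := M) φ hirr (by
      rw [hm.natDegree_map]
      exact hd) hs
  exact ⟨Φ, e, h1, h2, h3, h4, h5, Q1, Q2, R, h6, h7, h8⟩

end Pool.Agent.N120.TH
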