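import Pool.Agent.N120.TH.Stm

/-!
# VAR: variance over the primes (helper614)
-/

set_option autoImplicit false

namespace Pool.Agent.N120.TH

open Finset

namespace VAR_

/-- few elements of `P` are `1` modulo `d` -/
theorem card_one_mod (P : Finset ℕ) (Q d : ℕ) (hP : ∀ p ∈ P, 2 ≤ p ∧ p ≤ Q) :
    (P.filter (fun p => d ∣ p - 1)).card ≤ Q / d := by
  rw [← Nat.Ioc_filter_dvd_card_eq_div]
  refine Finset.card_le_card_of_injOn (fun p => p - 1) ?_ ?_
  · intro p hp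
    rw [Finset.mem_coe, mem_filter] at hp
    have := hP p hp.1
    show p - 1 ∈ _
    rw [Finset.mem_coe, mem_filter, mem_Ioc]
    exact ⟨by omega, hp.2⟩
  · intro p hp q hq h
    rw [Finset.mem_coe, mem_filter] at hp hq
    have h1 := hP p hp.1
    have h2 := hP q hq.1
    have h3 : p - 1 = q - 1 := h
    omega

/-- few pairs have a large gcd -/
theorem card_gcd (P : Finset ℕ) (Q D0 : ℕ) (hD0 : 1 ≤ D0) (hP : ∀ p ∈ P, 2 ≤ p ∧ p ≤ Q) :
    (∑ p ∈ P, ∑ p' ∈ P, (if D0 < Nat.gcd (p - 1) (p' - 1) then (1 : ℝ) else 0)) ≤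
      (Q : ℝ) ^ 2 / D0 := by
  have hD0r : (0 : ℝ) < D0 := by exact_mod_cast hD0
  have h1 : ∀ p ∈ P, ∀ p' ∈ P, (if D0 < Nat.gcd (p - 1) (p' - 1) then (1 : ℝ) else 0) ≤
      ∑ d ∈ Ioc D0 Q, (if d ∣ p - 1 then (1 : ℝ) else 0) * (if d ∣ p' - 1 then (1 : ℝ) else 0) := by
    intro p hp p' hp'
    have hnn : ∀ d ∈ Ioc D0 Q, (0 : ℝ) ≤
        (if d ∣ p - 1 then (1 : ℝ) else 0) * (if d ∣ p' - 1 then (1 : ℝ) else 0) := by
      intro d _
      split_ifs <;> norm_num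
    split_ifs with h
    · have hp2 := hP p hp
      have hmem : Nat.gcd (p - 1) (p' - 1) ∈ Ioc D0 Q := by
        rw [mem_Ioc]
        refine ⟨h, ?_⟩
        have : Nat.gcd (p - 1) (p' - 1) ≤ p - 1 := Nat.gcd_le_left _ (by omega)
        omega
      have h2 := Finset.single_le_sum hnn hmem
      rw [if_pos (Nat.gcd_dvd_left _ _), if_pos (Nat.gcd_dvd_right _ _), one_mul] at h2
      exact h2
    · exact Finset.sum_nonneg hnn
  have h2 : ∀ d ∈ Ioc D0 Q, (∑ p ∈ P, (if d ∣ p - 1 then (1 : ℝ) else 0)) ≤ (Q : ℝ) / d := by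
    intro d hd
    rw [Finset.sum_boole]
    have h3 : ((P.filter (fun p => d ∣ p - 1)).card : ℝ) ≤ ((Q / d : ℕ) : ℝ) := by
      exact_mod_cast card_one_mod P Q d hP
    exact h3.trans Nat.cast_div_le
  calc (∑ p ∈ P, ∑ p' ∈ P, (if D0 < Nat.gcd (p - 1) (p' - 1) then (1 : ℝ) else 0))
      ≤ ∑ p ∈ P, ∑ p' ∈ P, ∑ d ∈ Ioc D0 Q,
          (if d ∣ p - 1 then (1 : ℝ) else 0) * (if d ∣ p' - 1 then (1 : ℝ) else 0) :=
        Finset.sum_le_sum fun p hp => Finset.sum_le_sum fun p' hp' => h1 p hp p' hp'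
    _ = ∑ d ∈ Ioc D0 Q, (∑ p ∈ P, (if d ∣ p - 1 then (1 : ℝ) else 0)) ^ 2 := by
        have e1 : ∀ p ∈ P, ∑ p' ∈ P, ∑ d ∈ Ioc D0 Q,
            (if d ∣ p - 1 then (1 : ℝ) else 0) * (if d ∣ p' - 1 then (1 : ℝ) else 0) =
            ∑ d ∈ Ioc D0 Q, ∑ p' ∈ P,
            (if d ∣ p - 1 then (1 : ℝ) else 0) * (if d ∣ p' - 1 then (1 : ℝ) else 0) :=
          fun p _ => Finset.sum_comm
        rw [Finset.sum_congr rfl e1, Finset.sum_comm]
        refine Finset.sum_congr rfl fun d _ => ?_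
        rw [sq, Finset.sum_mul_sum]
    _ ≤ ∑ d ∈ Ioc D0 Q, ((Q : ℝ) / d) ^ 2 := by
        refine Finset.sum_le_sum fun d hd => ?_
        refine pow_le_pow_left₀ (Finset.sum_nonneg fun p _ => ?_) (h2 d hd) 2
        split_ifs <;> norm_num
    _ = (Q : ℝ) ^ 2 * ∑ d ∈ Ioc D0 Q, ((d : ℝ) ^ 2)⁻¹ := by
        rw [Finset.mul_sum]
        refine Finset.sum_congr rfl fun d _ => ?_
        rw [div_pow, div_eq_mul_inv]
    _ ≤ (Q : ℝ) ^ 2 * (D0 : ℝ)⁻¹ := by
        refine mul_le_mul_of_nonneg_left ?_ (by positivity)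
        rcases le_or_gt D0 Q with h | h
        · have h3 := sum_Ioc_inv_sq_le_sub (α := ℝ) (by omega : D0 ≠ 0) h
          have h4 : (0 : ℝ) ≤ (Q : ℝ)⁻¹ := by positivity
          linarith
        · rw [Finset.Ioc_eq_empty (by omega), Finset.sum_empty]
          positivity
    _ = (Q : ℝ) ^ 2 / D0 := by rw [div_eq_mul_inv]

end VAR_

open VAR_ in
theorem t_VAR : S_VAR := by
  intro α B P F Q D0 D κ E0 hD0 hκ hE0 hP hF hpair
  have hD0r : (1 : ℝ) ≤ D0 := by exact_mod_cast hD0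
  have hBc : (0 : ℝ) ≤ B.card := Nat.cast_nonneg _
  have hpt : ∀ p ∈ P, ∀ p' ∈ P, ∑ e ∈ B, F p e * F p' e ≤
      (if p = p' then (B.card : ℝ) * D ^ 2 else 0) + (B.card * (κ * D0) + E0) +
        (B.card * D ^ 2) * (if D0 < Nat.gcd (p - 1) (p' - 1) then (1 : ℝ) else 0) := by
    intro p hp p' hp'
    have htr : ∑ e ∈ B, F p e * F p' e ≤ (B.card : ℝ) * D ^ 2 := by
      calc ∑ e ∈ B, F p e * F p' e ≤ ∑ _e ∈ B, D ^ 2 := by
            refine Finset.sum_le_sum fun e he => ?_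
            have h1 := hF p hp e he
            have h2 := hF p' hp' e he
            calc F p e * F p' e ≤ |F p e * F p' e| := le_abs_self _
              _ = |F p e| * |F p' e| := abs_mul _ _
              _ ≤ D * D := mul_le_mul h1 h2 (abs_nonneg _) ((abs_nonneg _).trans h1)
              _ = D ^ 2 := (sq D).symm
        _ = _ := by rw [Finset.sum_const, nsmul_eq_mul]
    have hn1 : 0 ≤ (B.card : ℝ) * (κ * D0) + E0 := by positivity
    have hn2 : 0 ≤ (B.card : ℝ) * D ^ 2 := by positivity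
    by_cases h1 : p = p'
    · rw [if_pos h1]
      have h3 : (0 : ℝ) ≤ (B.card * D ^ 2) *
          (if D0 < Nat.gcd (p - 1) (p' - 1) then (1 : ℝ) else 0) := by
        split_ifs <;> simp [hn2]
      linarith
    · rw [if_neg h1]
      by_cases h2 : D0 < Nat.gcd (p - 1) (p' - 1)
      · rw [if_pos h2]
        linarith
      · rw [if_neg h2]
        have h3 := (le_abs_self _).trans (hpair p hp p' hp' h1)
        have h4 : ((Nat.gcd (p - 1) (p' - 1) : ℕ) : ℝ) ≤ D0 := by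
          exact_mod_cast not_lt.1 h2
        have h5 : (B.card : ℝ) * (κ * Nat.gcd (p - 1) (p' - 1)) ≤ B.card * (κ * D0) := by
          gcongr
        linarith
  have hsq : ∑ e ∈ B, (∑ p ∈ P, F p e) ^ 2 = ∑ p ∈ P, ∑ p' ∈ P, ∑ e ∈ B, F p e * F p' e := by
    have e1 : ∀ e ∈ B, (∑ p ∈ P, F p e) ^ 2 = ∑ p ∈ P, ∑ p' ∈ P, F p e * F p' e := by
      intro e _
      rw [sq, Finset.sum_mul_sum]
    rw [Finset.sum_congr rfl e1, Finset.sum_comm]
    refine Finset.sum_congr rfl fun p _ => ?_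
    rw [Finset.sum_comm]
  rw [hsq]
  have hcg := card_gcd P Q D0 hD0 hP
  calc ∑ p ∈ P, ∑ p' ∈ P, ∑ e ∈ B, F p e * F p' e
      ≤ ∑ p ∈ P, ∑ p' ∈ P, ((if p = p' then (B.card : ℝ) * D ^ 2 else 0) +
          (B.card * (κ * D0) + E0) +
        (B.card * D ^ 2) * (if D0 < Nat.gcd (p - 1) (p' - 1) then (1 : ℝ) else 0)) :=
        Finset.sum_le_sum fun p hp => Finset.sum_le_sum fun p' hp' => hpt p hp p' hp'
    _ = P.card * ((B.card : ℝ) * D ^ 2) + (P.card : ℝ) ^ 2 * (B.card * (κ * D0) + E0) +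
        (B.card * D ^ 2) *
          (∑ p ∈ P, ∑ p' ∈ P, (if D0 < Nat.gcd (p - 1) (p' - 1) then (1 : ℝ) else 0)) := by
        simp only [Finset.sum_add_distrib, Finset.sum_const, nsmul_eq_mul, ← Finset.mul_sum,
          Finset.sum_ite_eq]
        rw [Finset.sum_ite_mem, Finset.inter_self, Finset.sum_const, nsmul_eq_mul]
        ring
    _ ≤ P.card * ((B.card : ℝ) * D ^ 2) + (P.card : ℝ) ^ 2 * (B.card * (κ * D0) + E0) +
        (B.card * D ^ 2) * ((Q : ℝ) ^ 2 / D0) := by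
        have : 0 ≤ (B.card : ℝ) * D ^ 2 := by positivity
        gcongr
    _ = _ := by ring

end Pool.Agent.N120.TH
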