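import Pool.Agent.N120.TH.Fin4
import Pool.Agent.N120.TH.KUM
import Pool.Agent.N120.TH.CRV
import Pool.Agent.N120.TH.CNT
import Pool.Agent.N120.TH.DER
import Pool.Agent.N120.TH.RHO
import Pool.Agent.N120.TH.EIG
import Pool.Agent.N120.TH.MONO
import Pool.Agent.N120.TH.DIR
import Pool.Agent.N120.TH.FAC
import Pool.Agent.N120.TH.FCT
import Pool.Agent.N120.TH.IRM
import Pool.Agent.N120.TH.TWO
import Pool.Agent.N120.TH.ALG
import Pool.Agent.N120.TH.HIT
import Pool.Agent.N120.TH.PAIR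
import Pool.Agent.N120.TH.VAR
import Pool.Agent.N120.TH.SZ
import Pool.Agent.N120.TH.FIB
import Pool.Agent.N120.TH.LOC
import Pool.Agent.N120.TH.RING
import Pool.Agent.N120.TH.PR
import Pool.Agent.N120.TH.IDX
import Pool.Agent.N120.TH.PRM
import Pool.Agent.N120.TH.NUM
import Pool.Agent.N120.TH.ENT
import Pool.Agent.N120.TH.LOW
import Pool.Agent.N120.TH.CONV

/-! # Project TH: all lemmas together -/

set_option autoImplicit false

namespace Pool.Agent.N120.TH

theorem one : S_ONE :=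
  t_ONE (t_NUM t_PAIR t_VAR t_SZ t_FIB) t_LOC (t_CNT (t_CRV t_KUM)) t_RING (t_PRM t_RING t_PR t_IDX)

theorem alg : S_ALG :=
  t_ALG t_FAC (t_DIR t_DER t_RHO t_EIG t_MONO) t_FCT t_IRM t_TWO t_DESC

theorem conv : S_CONV := t_CONV t_LOW

end Pool.Agent.N120.TH
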