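import Pool.Agent.N120.TH.Stm

/-!
# Project TH (helper120), DESC (helper27): descent of the data to a number field
-/

set_option autoImplicit false

namespace Pool.Agent.N120.TH

open Finset Polynomial NumberField

namespace DESC_

/-! ### The field of the coefficients -/

section Field

variable {K : Type} [Field K] {n : ℕ}

/-- Finitely many polynomials over the algebraic closure have their coefficients in a finite extension. -/
theorem exists_field {ι : Type} [Finite ι] (P : ι → (Pn (AlgebraicClosure K) n)[X]) :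
    ∃ L : IntermediateField K (AlgebraicClosure K), FiniteDimensional K L ∧ ∀ i,
      ∃ P' : Polynomial (MvPolynomial (Fin n) L),
        P'.map (MvPolynomial.map (algebraMap L (AlgebraicClosure K))) = P i := by
  classical
  set S : Set (AlgebraicClosure K) := ⋃ i, ⋃ j ∈ ((P i).support : Set ℕ),
    (fun m => ((P i).coeff j).coeff m) '' (((P i).coeff j).support : Set (Fin n →₀ ℕ)) with hS
  have hfin : S.Finite := by
    refine Set.finite_iUnion fun i => ?_
    refine Set.Finite.biUnion (Finset.finite_toSet _) fun j _ => ?_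
    exact (Finset.finite_toSet _).image _
  have : Finite S := hfin
  refine ⟨IntermediateField.adjoin K S, ?_, fun i => ?_⟩
  · exact IntermediateField.finiteDimensional_adjoin fun x _ => Algebra.IsIntegral.isIntegral x
  · have h1 : P i ∈ Polynomial.lifts
        (MvPolynomial.map (σ := Fin n) (algebraMap (IntermediateField.adjoin K S)
          (AlgebraicClosure K))) := by
      rw [Polynomial.lifts_iff_coeff_lifts]
      intro j
      have h2 : (P i).coeff j ∈ Set.range (MvPolynomial.map (σ := Fin n)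
          (algebraMap (IntermediateField.adjoin K S) (AlgebraicClosure K))) := by
        rw [MvPolynomial.mem_range_map_iff_coeffs_subset]
        intro z hz
        rw [Finset.mem_coe, MvPolynomial.mem_coeffs_iff] at hz
        obtain ⟨m, hm, rfl⟩ := hz
        have hj : j ∈ (P i).support := by
          rw [Polynomial.mem_support_iff]
          intro h0
          rw [h0] at hm
          simp at hm
        refine ⟨⟨((P i).coeff j).coeff m, IntermediateField.subset_adjoin K S ?_⟩, rfl⟩
        rw [hS]
        exact Set.mem_iUnion.2 ⟨i, Set.mem_iUnion₂.2 ⟨j, hj, ⟨m, hm, rfl⟩⟩⟩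
      exact h2
    exact (Polynomial.mem_lifts _).1 h1

end Field

/-! ### The substitution -/

section Subst

variable {L k : Type} [Field L] [Field k] {n : ℕ}

/-- `X_i ↦ b_i X_i` and a change of the constants -/
noncomputable def th (g : L →+* k) (b : Fin n → k) : MvPolynomial (Fin n) L →+* MvPolynomial (Fin n) k :=
  MvPolynomial.eval₂Hom (MvPolynomial.C.comp g) fun i => MvPolynomial.C (b i) * MvPolynomial.X i

theorem th_C (g : L →+* k) (b : Fin n → k) (c : L) :
    th g b (MvPolynomial.C c) = MvPolynomial.C (g c) := by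
  unfold th
  rw [MvPolynomial.coe_eval₂Hom, MvPolynomial.eval₂_C]
  rfl

theorem th_X (g : L →+* k) (b : Fin n → k) (i : Fin n) :
    th g b (MvPolynomial.X i) = MvPolynomial.C (b i) * MvPolynomial.X i := by
  unfold th
  rw [MvPolynomial.coe_eval₂Hom, MvPolynomial.eval₂_X]

theorem th_inv (b : Fin n → k) (hb : ∀ i, b i ≠ 0) :
    (th (RingHom.id k) fun i => (b i)⁻¹).comp (th (RingHom.id k) b) = RingHom.id _ := by
  apply MvPolynomial.ringHom_ext
  · intro c
    rw [RingHom.comp_apply, th_C, th_C]
    rfl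
  · intro i
    rw [RingHom.comp_apply, th_X, map_mul, th_C, th_X, ← mul_assoc, ← map_mul]
    rw [RingHom.id_apply, mul_inv_cancel₀ (hb i), map_one, one_mul]
    rfl

theorem th_eq (g : L →+* k) (b : Fin n → k) :
    th g b = (th (RingHom.id k) b).comp (MvPolynomial.map g) := by
  apply MvPolynomial.ringHom_ext
  · intro c
    rw [RingHom.comp_apply, th_C, MvPolynomial.map_C, th_C]
    rfl
  · intro i
    rw [RingHom.comp_apply, th_X, MvPolynomial.map_X, th_X]

theorem th_inj (g : L →+* k) (b : Fin n → k) (hb : ∀ i, b i ≠ 0) :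
    Function.Injective (th g b) := by
  rw [th_eq, RingHom.coe_comp]
  refine Function.Injective.comp ?_ (MvPolynomial.map_injective _ g.injective)
  have h1 := th_inv b hb
  intro x y hxy
  have h2 := congrArg (th (RingHom.id k) fun i => (b i)⁻¹) hxy
  rw [← RingHom.comp_apply, ← RingHom.comp_apply, h1] at h2
  exact h2

/-- the substitution and the twist -/
theorem good_hom (g : L →+* k) (b : Fin n → k) (a : Fin n → ℕ) (m : ℕ) {Ω : Type} [Field Ω]
    (ι : MvPolynomial (Fin n) k →+* Ω) :
    ((mapRingHom (ι.comp (th g b))).comp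
        (Polynomial.expand (MvPolynomial (Fin n) L) m : (MvPolynomial (Fin n) L)[X] →ₐ[_] _).toRingHom).comp
          (twHom a) =
      (((mapRingHom ι).comp
        (Polynomial.expand (MvPolynomial (Fin n) k) m : (MvPolynomial (Fin n) k)[X] →ₐ[_] _).toRingHom).comp
          (twHom a)).comp (th g b) := by
  apply MvPolynomial.ringHom_ext
  · intro c
    simp [twHom, th_C]
  · intro i
    simp [twHom, th_X, mul_assoc]

theorem good_of (g : L →+* k) (b : Fin n → k) (hb : ∀ i, b i ≠ 0)
    {φ : Polynomial (MvPolynomial (Fin n) k)} {φ' : Polynomial (MvPolynomial (Fin n) L)}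
    (h : φ'.map (th g b) = φ) (hφ : Good φ) : Good φ' := by
  obtain ⟨h1, h2, a, Ω, i1, i2, ι, ha, hι, hirr⟩ := hφ
  have hinj := th_inj g b hb
  refine ⟨monic_of_injective hinj (by rw [h]; exact h1), ?_, a, Ω, i1, i2, ι.comp (th g b), ha,
    hι.comp hinj, ?_⟩
  · rw [← h, natDegree_map_eq_of_injective hinj] at h2
    exact h2
  · intro m hm
    have h3 := hirr m hm
    have h4 : (pull m (twist a φ')).map (mapRingHom (ι.comp (th g b))) =
        (pull m (twist a φ)).map (mapRingHom ι) := by
      rw [← h]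
      unfold pull twist
      rw [Polynomial.map_map, Polynomial.map_map, Polynomial.map_map, Polynomial.map_map,
        Polynomial.map_map, good_hom]
    rw [h4]
    exact h3

theorem homog_map (g : MvPolynomial (Fin n) L →+* MvPolynomial (Fin n) k)
    (hg : Function.Injective g) (φ Q : Polynomial (MvPolynomial (Fin n) L))
    (E : MvPolynomial (Fin n) L) :
    (homog φ Q E).map g = homog (φ.map g) (Q.map g) (g E) := by
  unfold homog
  rw [natDegree_map_eq_of_injective hg, Polynomial.map_sum]
  refine Finset.sum_congr rfl fun j _ => ?_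
  rw [Polynomial.map_mul, Polynomial.map_mul, Polynomial.map_pow, Polynomial.map_pow,
    Polynomial.map_C, Polynomial.map_C, Polynomial.coeff_map]

end Subst

end DESC_

open DESC_ in
theorem t_DESC : S_DESC := by
  intro K _ _ n f k0 hk0 r φ Φ E hj hprod c hc
  set Kb := AlgebraicClosure K with hKb
  -- the roots of `c`
  have hγ : ∀ i, ∃ γ : Kb, γ ^ k0 = algebraMap K Kb (c i) := fun i =>
    IsAlgClosed.exists_pow_nat_eq _ hk0
  choose γ hγ using hγ
  have hγ0 : ∀ i, γ i ≠ 0 := by
    intro i h0
    have h1 := hγ i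
    rw [h0, zero_pow (by omega)] at h1
    exact hc i ((_root_.map_eq_zero _).1 h1.symm)
  have hγ1 : ∀ i, (γ i)⁻¹ ≠ 0 := fun i => inv_ne_zero (hγ0 i)
  -- the witnesses
  have hw : ∀ j, ∃ Q1 Q2 R D1 D2 D3 : (Pn Kb n)[X], homog (φ j) Q1 (E j) = Φ j * D1 ∧
      homog (φ j) Q2 (E j) = Φ j * D2 ∧ (Q1 - Q2) * R - C (E j ^ 2) = Φ j * D3 := by
    intro j
    obtain ⟨Q1, Q2, R, ⟨D1, h1⟩, ⟨D2, h2⟩, ⟨D3, h3⟩⟩ := (hj j).2.2.2
    exact ⟨Q1, Q2, R, D1, D2, D3, h1, h2, h3⟩
  choose Q1 Q2 R D1 D2 D3 hD1 hD2 hD3 using hw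
  -- the field
  set fam : Fin r × Fin 9 → (Pn Kb n)[X] := fun p =>
    (![φ p.1, Φ p.1, C (E p.1), Q1 p.1, Q2 p.1, R p.1, D1 p.1, D2 p.1, D3 p.1] : Fin 9 → (Pn Kb n)[X])
      p.2 with hfam
  obtain ⟨L, hL, hlift⟩ := exists_field (K := K) fun p => (fam p).map (th (RingHom.id Kb) γ)
  have : NumberField L := NumberField.of_module_finite K L
  set g : L →+* Kb := algebraMap L Kb with hg
  set θ : MvPolynomial (Fin n) L →+* Pn Kb n := th g fun i => (γ i)⁻¹ with hθ
  have hθi : Function.Injective θ := th_inj g _ hγ1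
  have hθm : Function.Injective (Polynomial.map θ) := Polynomial.map_injective θ hθi
  have hlift' : ∀ p, ∃ P' : Polynomial (MvPolynomial (Fin n) L), P'.map θ = fam p := by
    intro p
    obtain ⟨P', hP'⟩ := hlift p
    refine ⟨P', ?_⟩
    rw [hθ, th_eq, ← Polynomial.map_map, hP', Polynomial.map_map, th_inv γ hγ0, Polynomial.map_id]
  choose lf hlf using hlift'
  have e0 : ∀ j, (lf (j, 0)).map θ = φ j := fun j => hlf (j, 0)
  have e1 : ∀ j, (lf (j, 1)).map θ = Φ j := fun j => hlf (j, 1)
  have e2 : ∀ j, (lf (j, 2)).map θ = C (E j) := fun j => hlf (j, 2)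
  have e3 : ∀ j, (lf (j, 3)).map θ = Q1 j := fun j => hlf (j, 3)
  have e4 : ∀ j, (lf (j, 4)).map θ = Q2 j := fun j => hlf (j, 4)
  have e5 : ∀ j, (lf (j, 5)).map θ = R j := fun j => hlf (j, 5)
  have e6 : ∀ j, (lf (j, 6)).map θ = D1 j := fun j => hlf (j, 6)
  have e7 : ∀ j, (lf (j, 7)).map θ = D2 j := fun j => hlf (j, 7)
  have e8 : ∀ j, (lf (j, 8)).map θ = D3 j := fun j => hlf (j, 8)
  have eE : ∀ j, θ ((lf (j, 2)).coeff 0) = E j := by
    intro j
    rw [← Polynomial.coeff_map, e2, Polynomial.coeff_C_zero]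
  refine ⟨L, inferInstance, inferInstance, inferInstance, r, fun j => lf (j, 0),
    fun j => lf (j, 1), fun j => (lf (j, 2)).coeff 0, fun j => ⟨?_, ?_, ?_, ?_⟩, ?_⟩
  · exact good_of g _ hγ1 (e0 j) (hj j).1
  · exact good_of g _ hγ1 (e1 j) (hj j).2.1
  · intro h0
    apply (hj j).2.2.1
    rw [← eE j]
    exact (congrArg θ h0).trans (map_zero θ)
  · refine ⟨lf (j, 3), lf (j, 4), lf (j, 5), ⟨lf (j, 6), ?_⟩, ⟨lf (j, 7), ?_⟩, ⟨lf (j, 8), ?_⟩⟩
    · apply hθm
      rw [homog_map θ hθi, Polynomial.map_mul, e0, e1, e3, e6, eE, hD1]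
    · apply hθm
      rw [homog_map θ hθi, Polynomial.map_mul, e0, e1, e4, e7, eE, hD2]
    · apply hθm
      rw [Polynomial.map_mul, Polynomial.map_sub, Polynomial.map_mul, Polynomial.map_sub,
        Polynomial.map_C, map_pow, e1, e3, e4, e5, e8, eE, hD3]
  · intro w y h0
    -- the point over the algebraic closure
    set x : Fin n → Kb := fun i => γ i * algebraMap K Kb (w i) with hx
    have h1 : ((((bar f).map (MvPolynomial.expand k0 : Pn Kb n →ₐ[Kb] Pn Kb n).toRingHom).map
        (MvPolynomial.eval x)).eval (algebraMap K Kb y)) = 0 := by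
      unfold bar
      rw [Polynomial.map_map, Polynomial.map_map]
      have h2 : ((MvPolynomial.eval x).comp
          (MvPolynomial.expand k0 : Pn Kb n →ₐ[Kb] Pn Kb n).toRingHom).comp
            (MvPolynomial.map (algebraMap K Kb)) =
          (algebraMap K Kb).comp (MvPolynomial.eval fun i => c i * w i ^ k0) := by
        apply MvPolynomial.ringHom_ext
        · intro z
          simp
        · intro i
          simp [hx, mul_pow, hγ]
      rw [h2, ← Polynomial.map_map, Polynomial.eval_map_apply, h0, map_zero]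
    rw [hprod, Polynomial.map_prod, Polynomial.eval_prod, Finset.prod_eq_zero_iff] at h1
    obtain ⟨j, -, h1⟩ := h1
    refine ⟨j, ?_⟩
    apply g.injective
    rw [map_zero, ← h1, ← e0 j, Polynomial.map_map]
    have h3 : (MvPolynomial.eval x).comp θ =
        g.comp (MvPolynomial.eval fun i => algebraMap K L (w i)) := by
      apply MvPolynomial.ringHom_ext
      · intro z
        rw [RingHom.comp_apply, hθ, th_C]
        simp
      · intro i
        rw [RingHom.comp_apply, hθ, th_X]
        simp only [map_mul, MvPolynomial.eval_C, MvPolynomial.eval_X, RingHom.comp_apply, hx]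
        rw [inv_mul_cancel_left₀ (hγ0 i)]
        rfl
    rw [h3, ← Polynomial.map_map]
    exact (Polynomial.eval_map_apply _ _).symm

end Pool.Agent.N120.TH
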