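import Pool.Agent.N120.TH.Stm

/-!
# Project TH, second part: closed subsets, entire curves, the converse
-/

set_option autoImplicit false

namespace Pool.Agent.N120.TH

open Finset Polynomial NumberField

/-- every section of `V: f(x, y) = 0` over a map `x ↦ x ^ m` (over the algebraic closure) lies in the
closed subset `V'` given by the polynomials `G_j` -/
def Sec {K : Type} [Field K] {n s : ℕ} (f : Polynomial (MvPolynomial (Fin n) K))
    (G : Fin s → Polynomial (MvPolynomial (Fin n) K)) : Prop :=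
  ∀ m : ℕ, 1 ≤ m → ∀ h : Pn (AlgebraicClosure K) n,
    ((bar f).map (MvPolynomial.expand m : Pn (AlgebraicClosure K) n →ₐ[AlgebraicClosure K]
      Pn (AlgebraicClosure K) n).toRingHom).eval h = 0 →
    ∀ j, ((bar (G j)).map (MvPolynomial.expand m : Pn (AlgebraicClosure K) n →ₐ[AlgebraicClosure K]
      Pn (AlgebraicClosure K) n).toRingHom).eval h = 0

/-- every nonconstant entire curve `(X_1, …, X_n, Y)` in `V: f(x, y) = 0`, `x_i ≠ 0`, lies in `V'` -/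
def EntIn {K : Type} [Field K] (σ : K →+* ℂ) {n s : ℕ} (f : Polynomial (MvPolynomial (Fin n) K))
    (G : Fin s → Polynomial (MvPolynomial (Fin n) K)) : Prop :=
  ∀ (X : Fin n → ℂ → ℂ) (Y : ℂ → ℂ), (∀ i, Differentiable ℂ (X i)) → (∀ i z, X i z ≠ 0) →
    Differentiable ℂ Y →
    (∀ z, (f.map (MvPolynomial.eval₂Hom σ (fun i => X i z))).eval (Y z) = 0) →
    (∃ z w, (∃ i, X i z ≠ X i w) ∨ Y z ≠ Y w) →
    ∀ j z, ((G j).map (MvPolynomial.eval₂Hom σ (fun i => X i z))).eval (Y z) = 0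

/-- the polynomial over an extension field -/
noncomputable def ext {K : Type} [Field K] (F : Type) [Field F] [Algebra K F] {n : ℕ}
    (f : Polynomial (MvPolynomial (Fin n) K)) : Polynomial (MvPolynomial (Fin n) F) :=
  f.map (MvPolynomial.map (algebraMap K F))

/-- the points of `Γ ^ n` of height at most `T` (seen from `y`) above which `V(K)` has a point outside
`V'` -/
def XP {K : Type} [Field K] [NumberField K] {n s : ℕ} (f : Polynomial (MvPolynomial (Fin n) K))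
    (G : Fin s → Polynomial (MvPolynomial (Fin n) K)) (Γ : Subgroup Kˣ) (y : Fin n → Kˣ) (T : ℝ) :
    Set (Fin n → Kˣ) :=
  {x | (∀ i, x i ∈ Γ ∧ Height.logHeight₁ ((x i / y i : Kˣ) : K) ≤ T) ∧
    ∃ w : K, (f.map (MvPolynomial.eval (fun i => ((x i : Kˣ) : K)))).eval w = 0 ∧
      ∃ j, ((G j).map (MvPolynomial.eval (fun i => ((x i : Kˣ) : K)))).eval w ≠ 0}

/-- **ENT**. -/
def S_ENT : Prop := ∀ (K : Type) [Field K] [NumberField K] (σ : K →+* ℂ) (n s : ℕ)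
  (f : Polynomial (MvPolynomial (Fin n) K)) (G : Fin s → Polynomial (MvPolynomial (Fin n) K)),
  1 ≤ n → EntIn σ f G → Sec f G

/-- **LOW**. -/
def S_LOW : Prop := ∀ (K : Type) [Field K] [NumberField K] (n m : ℕ) (H : MvPolynomial (Fin n) K),
  1 ≤ n → 1 ≤ m → H ≠ 0 → ∀ Γ : Subgroup Kˣ, Γ.FG → 1 ≤ Module.finrank ℤ (Additive Γ) →
  ∃ c : ℝ, 0 < c ∧ ∃ T0 : ℝ, ∀ T : ℝ, T0 ≤ T → ∃ S : Finset (Fin n → Kˣ),
    (∀ x ∈ S, (∀ i, x i ∈ Γ ∧ Height.logHeight₁ ((x i : Kˣ) : K) ≤ T) ∧ ∃ t : Fin n → Kˣ,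
      (∀ i, t i ∈ Γ ∧ t i ^ m = x i) ∧ MvPolynomial.eval (fun i => ((t i : Kˣ) : K)) H ≠ 0) ∧
    c * T ^ ((n : ℝ) * Module.finrank ℤ (Additive Γ)) ≤ (S.card : ℝ)

/-- **CONV**. -/
def S_CONV : Prop := ∀ (K : Type) [Field K] [NumberField K] (n s : ℕ)
  (f : Polynomial (MvPolynomial (Fin n) K)) (G : Fin s → Polynomial (MvPolynomial (Fin n) K)),
  1 ≤ n →
  (∀ (F : Type) [Field F] [NumberField F] [Algebra K F] (Γ : Subgroup Fˣ), Γ.FG →
    2 ≤ Module.finrank ℤ (Additive Γ) → ∀ (c : ℝ), 0 < c → ∀ T0 : ℝ, ∃ T : ℝ, T0 ≤ T ∧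
    (XP (ext F f) (fun j => ext F (G j)) Γ 1 T).Finite ∧
    ((XP (ext F f) (fun j => ext F (G j)) Γ 1 T).ncard : ℝ) <
      c * T ^ ((n : ℝ) * Module.finrank ℤ (Additive Γ))) →
  Sec f G

end Pool.Agent.N120.TH
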