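import Pool.Agent.N120.TH.Fin1R
import Pool.Agent.N120.TH.Fin3

/-! # Project TH: several components and a closed subset, better exponent -/

set_option autoImplicit false

namespace Pool.Agent.N120.TH

open Finset Polynomial NumberField

namespace Fin3R_

open Classical in
theorem comp (h1 : S_ONER) (h2 : S_ALG) (h3 : S_FCT) {K : Type} [Field K] [NumberField K]
    {n r s : ℕ} (hn : 1 ≤ n) (hr : 2 ≤ r) {θ : ℝ} (hθ : 0 < θ)
    (hθ1 : θ < ((r : ℝ) - 1) / (5 * r + 3)) (f : Polynomial (MvPolynomial (Fin n) K)) (hf : f.Monic)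
    (G : Fin s → Polynomial (MvPolynomial (Fin n) K)) (hS : Sec f G)
    (γ : Fin r → Kˣ) (hγ : ∀ v : Fin r → ℤ, ∏ j, γ j ^ v j = 1 → v = 0) (ω : Fin n → Kˣ) :
    ∃ C : ℝ, 0 ≤ C ∧ ∀ (u : Fin n → Fin r → ℤ) (N : ℕ), 1 ≤ N →
      (((Box u N).filter (fun e => ∃ y : K,
        (f.map (MvPolynomial.eval (fun i => ((ω i * pt γ e i : Kˣ) : K)))).eval y = 0 ∧
        ∃ j, ((G j).map (MvPolynomial.eval (fun i => ((ω i * pt γ e i : Kˣ) : K)))).eval y ≠ 0)).card
          : ℝ) ≤ C * (N : ℝ) ^ ((n * r : ℝ) - θ) := by
  obtain ⟨t, φ, hφ, hprod⟩ := h3 (AlgebraicClosure K) n (bar f) (hf.map _)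
  have key : ∀ i : Fin t, ∃ C : ℝ, 0 ≤ C ∧ ∀ (u : Fin n → Fin r → ℤ) (N : ℕ), 1 ≤ N →
      (((Box u N).filter (fun e => ∃ y : K,
        ((φ i).map (MvPolynomial.eval (fun i => algebraMap K (AlgebraicClosure K)
          ((ω i * pt γ e i : Kˣ) : K)))).eval (algebraMap K (AlgebraicClosure K) y) = 0 ∧
        ∃ j, ((G j).map (MvPolynomial.eval (fun i => ((ω i * pt γ e i : Kˣ) : K)))).eval y ≠ 0)).card
          : ℝ) ≤ C * (N : ℝ) ^ ((n * r : ℝ) - θ) := by
    intro i
    by_cases hns : NoSec (φ i)
    · obtain ⟨L, hL, hlift⟩ := DESC_.exists_field (K := K) (ι := Unit) (fun _ => φ i)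
      obtain ⟨g, hg⟩ := hlift ()
      haveI : FiniteDimensional K L := hL
      haveI : FiniteDimensional ℚ L := Module.Finite.trans K L
      haveI : CharZero L := charZero_of_injective_algebraMap (algebraMap K L).injective
      haveI : NumberField L := ⟨⟩
      have hinj : Function.Injective (MvPolynomial.map (σ := Fin n)
          (algebraMap L (AlgebraicClosure K))) :=
        MvPolynomial.map_injective _ (algebraMap L (AlgebraicClosure K)).injective
      have hgm : g.Monic := by
        rw [hinj.monic_map_iff, hg]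
        exact (hφ i).1
      have hgn : NoSec (bar g) := by
        intro m hm h hh
        let τ : AlgebraicClosure L →ₐ[L] AlgebraicClosure K := IsAlgClosed.lift
        have h4 : (bar g).map (MvPolynomial.map (σ := Fin n) (τ : AlgebraicClosure L →+* AlgebraicClosure K)) =
            φ i := by
          rw [← hg]
          unfold bar
          rw [Polynomial.map_map]
          congr 1
          apply MvPolynomial.ringHom_ext
          · intro a
            simp
          · intro j
            simp
        apply hns m hm (MvPolynomial.map (τ : AlgebraicClosure L →+* AlgebraicClosure K) h)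
        rw [← h4, Fin3_.sec_map, hh, map_zero]
      obtain ⟨γ', hγ'⟩ : ∃ γ' : Fin r → Lˣ, γ' = fun j => Units.map (algebraMap K L : K →* L) (γ j) :=
        ⟨_, rfl⟩
      obtain ⟨ω', hω'⟩ : ∃ ω' : Fin n → Lˣ, ω' = fun j => Units.map (algebraMap K L : K →* L) (ω j) :=
        ⟨_, rfl⟩
      have hgi : ∀ v : Fin r → ℤ, ∏ j, γ' j ^ v j = 1 → v = 0 := by
        intro v hv
        apply hγ
        have h2 : Units.map (algebraMap K L : K →* L) (∏ j, γ j ^ v j) = 1 := by
          rw [map_prod]
          rw [hγ'] at hv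
          simp only [map_zpow]
          exact hv
        have h3 : Function.Injective (Units.map (algebraMap K L : K →* L)) :=
          Units.map_injective (algebraMap K L).injective
        exact h3 (by rw [h2, map_one])
      have hpt : ∀ (e : Fin n → Fin r → ℤ) (i : Fin n),
          ((ω' i * pt γ' e i : Lˣ) : L) = algebraMap K L ((ω i * pt γ e i : Kˣ) : K) := by
        intro e i
        have := One_.pt_map (Units.map (algebraMap K L : K →* L)) γ e i
        rw [hγ', hω', ← this, ← map_mul]
        rfl
      obtain ⟨C, hC0, hC⟩ := Fin1R_.boxes h1 h2 hn hr hθ hθ1 g hgm hgn γ' hgi ω'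
      refine ⟨C, hC0, fun u N hN => le_trans ?_ (hC u N hN)⟩
      have hsub : ((Box u N).filter (fun e => ∃ y : K,
        ((φ i).map (MvPolynomial.eval (fun i => algebraMap K (AlgebraicClosure K)
          ((ω i * pt γ e i : Kˣ) : K)))).eval (algebraMap K (AlgebraicClosure K) y) = 0 ∧
        ∃ j, ((G j).map (MvPolynomial.eval (fun i => ((ω i * pt γ e i : Kˣ) : K)))).eval y ≠ 0)) ⊆
          ((Box u N).filter (fun e => ∃ y : L,
        (g.map (MvPolynomial.eval (fun i => ((ω' i * pt γ' e i : Lˣ) : L)))).eval y = 0)) := by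
        intro e he
        rw [mem_filter] at he ⊢
        obtain ⟨he1, y, hy, -⟩ := he
        refine ⟨he1, algebraMap K L y, ?_⟩
        apply (algebraMap L (AlgebraicClosure K)).injective
        rw [map_zero, ← Fin3_.ev_map, hg, ← IsScalarTower.algebraMap_apply K L (AlgebraicClosure K)]
        have h5 : (fun i => algebraMap L (AlgebraicClosure K) ((ω' i * pt γ' e i : Lˣ) : L)) =
            fun i => algebraMap K (AlgebraicClosure K) ((ω i * pt γ e i : Kˣ) : K) := by
          funext i
          rw [hpt, ← IsScalarTower.algebraMap_apply K L (AlgebraicClosure K)]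
        rw [h5]
        exact hy
      exact_mod_cast card_le_card hsub
    · -- a section of `φ i`: everything lies in `V'`
      unfold NoSec at hns
      push Not at hns
      obtain ⟨m, hm, h, hh⟩ := hns
      have hbf : ((bar f).map (MvPolynomial.expand m : Pn (AlgebraicClosure K) n →ₐ[AlgebraicClosure K]
          Pn (AlgebraicClosure K) n).toRingHom).eval h = 0 := by
        rw [hprod, Polynomial.map_prod, Polynomial.eval_prod]
        exact prod_eq_zero (mem_univ i) hh
      have hdvd : ∀ j, φ i ∣ bar (G j) := fun j =>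
        Fin3_.dvd_of_sec hm (φ i) (bar (G j)) (hφ i).1 (hφ i).2 h hh (hS m hm h hbf j)
      refine ⟨0, le_rfl, fun u N hN => ?_⟩
      rw [zero_mul]
      have hem : ((Box u N).filter (fun e => ∃ y : K,
        ((φ i).map (MvPolynomial.eval (fun i => algebraMap K (AlgebraicClosure K)
          ((ω i * pt γ e i : Kˣ) : K)))).eval (algebraMap K (AlgebraicClosure K) y) = 0 ∧
        ∃ j, ((G j).map (MvPolynomial.eval (fun i => ((ω i * pt γ e i : Kˣ) : K)))).eval y ≠ 0)) =
          ∅ := by
        rw [filter_eq_empty_iff]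
        rintro e - ⟨y, hy, j, hj⟩
        apply hj
        apply (algebraMap K (AlgebraicClosure K)).injective
        rw [map_zero, ← Fin3_.ev_map]
        obtain ⟨q, hq⟩ := hdvd j
        have h5 : (G j).map (MvPolynomial.map (algebraMap K (AlgebraicClosure K))) = φ i * q := hq
        rw [h5, Polynomial.map_mul, Polynomial.eval_mul, hy, zero_mul]
      rw [hem]
      simp
  choose C hC0 hC using key
  refine ⟨∑ i, C i, sum_nonneg fun _ _ => hC0 _, fun u N hN => ?_⟩
  have hsub : ((Box u N).filter (fun e => ∃ y : K,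
        (f.map (MvPolynomial.eval (fun i => ((ω i * pt γ e i : Kˣ) : K)))).eval y = 0 ∧
        ∃ j, ((G j).map (MvPolynomial.eval (fun i => ((ω i * pt γ e i : Kˣ) : K)))).eval y ≠ 0)) ⊆
      (univ : Finset (Fin t)).biUnion (fun i => (Box u N).filter (fun e => ∃ y : K,
        ((φ i).map (MvPolynomial.eval (fun i => algebraMap K (AlgebraicClosure K)
          ((ω i * pt γ e i : Kˣ) : K)))).eval (algebraMap K (AlgebraicClosure K) y) = 0 ∧
        ∃ j, ((G j).map (MvPolynomial.eval (fun i => ((ω i * pt γ e i : Kˣ) : K)))).eval y ≠ 0)) := by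
    intro e he
    rw [mem_filter] at he
    obtain ⟨he1, y, hy, hj⟩ := he
    have h4 : ((bar f).map (MvPolynomial.eval (fun i => algebraMap K (AlgebraicClosure K)
          ((ω i * pt γ e i : Kˣ) : K)))).eval (algebraMap K (AlgebraicClosure K) y) = 0 := by
      unfold bar
      rw [Fin3_.ev_map, hy, map_zero]
    rw [hprod, Polynomial.map_prod, Polynomial.eval_prod, prod_eq_zero_iff] at h4
    obtain ⟨i, -, hi⟩ := h4
    rw [mem_biUnion]
    exact ⟨i, mem_univ _, mem_filter.2 ⟨he1, y, hi, hj⟩⟩
  have h4 := (card_le_card hsub).trans card_biUnion_le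
  refine le_trans (by exact_mod_cast h4) (le_trans (sum_le_sum fun i _ => hC i u N hN) ?_)
  rw [sum_mul]

end Fin3R_

end Pool.Agent.N120.TH
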