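import Pool.Agent.N120.TH.Fin4
import Pool.Agent.N120.TH.Fin3R

/-! # Project TH: the bound for heights, better exponent -/

set_option autoImplicit false

namespace Pool.Agent.N120.TH

open Finset Polynomial NumberField

namespace Fin4R_

lemma theta_lt {r : ℕ} {θ : ℝ} (h : θ < ((r : ℝ) - 1) / (5 * r + 3)) : θ ≤ 1 := by
  have h1 : ((r : ℝ) - 1) / (5 * r + 3) ≤ 1 := by
    rw [div_le_one (by positivity)]
    have : (0 : ℝ) ≤ r := Nat.cast_nonneg _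
    linarith
  linarith

lemma ex_theta {r : ℕ} (hr : 2 ≤ r) : ∃ θ : ℝ, 0 < θ ∧ θ < ((r : ℝ) - 1) / (5 * r + 3) := by
  have h2 : (2 : ℝ) ≤ r := by exact_mod_cast hr
  have h1 : 0 < ((r : ℝ) - 1) / (5 * r + 3) := div_pos (by linarith) (by positivity)
  exact ⟨_, half_pos h1, half_lt_self h1⟩

theorem spars (h1 : S_ONER) (h2 : S_ALG) (h3 : S_FCT) {K : Type} [Field K] [NumberField K]
    {n s : ℕ} (hn : 1 ≤ n) (f : Polynomial (MvPolynomial (Fin n) K)) (hf : f.Monic)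
    (G : Fin s → Polynomial (MvPolynomial (Fin n) K)) (hS : Sec f G) (Γ : Subgroup Kˣ) (hΓ : Γ.FG)
    (hr : 2 ≤ Module.finrank ℤ (Additive Γ)) {θ : ℝ} (hθ : 0 < θ)
    (hθ1 : θ < ((Module.finrank ℤ (Additive Γ) : ℝ) - 1) / (5 * Module.finrank ℤ (Additive Γ) + 3)) :
    ∃ C : ℝ, 0 ≤ C ∧ ∀ y : Fin n → Kˣ, (∀ i, y i ∈ Γ) → ∀ T : ℝ, 1 ≤ T →
      (XP f G Γ y T).Finite ∧ ((XP f G Γ y T).ncard : ℝ) ≤
        C * T ^ ((n : ℝ) * Module.finrank ℤ (Additive Γ) - θ) := by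
  obtain ⟨γ, R, hγΓ, hRΓ, hrep, hind⟩ := TC.exists_basis Γ hΓ
  refine Fin2_.heights_gen Γ n _ _ ?_ γ R hrep hind (fun x => ∃ w : K,
      (f.map (MvPolynomial.eval (fun i => ((x i : Kˣ) : K)))).eval w = 0 ∧
      ∃ j, ((G j).map (MvPolynomial.eval (fun i => ((x i : Kˣ) : K)))).eval w ≠ 0) ?_
  · have a1 : (1 : ℝ) ≤ n := by exact_mod_cast hn
    have a2 : (2 : ℝ) ≤ Module.finrank ℤ (Additive Γ) := by exact_mod_cast hr
    have a3 := theta_lt hθ1
    nlinarith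
  · intro ω
    exact Fin3R_.comp h1 h2 h3 hn hr hθ hθ1 f hf G hS γ hind ω

/-- the sparseness of the points outside `V'` over all number fields -/
def Sparse {K : Type} [Field K] [NumberField K] {n s : ℕ} (f : Polynomial (MvPolynomial (Fin n) K))
    (G : Fin s → Polynomial (MvPolynomial (Fin n) K)) : Prop :=
  ∀ (F : Type) [Field F] [NumberField F] [Algebra K F] (Γ : Subgroup Fˣ), Γ.FG →
    2 ≤ Module.finrank ℤ (Additive Γ) → ∀ θ : ℝ, 0 < θ →
    θ < ((Module.finrank ℤ (Additive Γ) : ℝ) - 1) / (5 * Module.finrank ℤ (Additive Γ) + 3) →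
    ∃ C : ℝ, ∀ y : Fin n → Fˣ, (∀ i, y i ∈ Γ) →
      ∀ T : ℝ, 1 ≤ T → (Fin4_.PP (ext F f) (fun j => ext F (G j)) Γ y T).Finite ∧
        ((Fin4_.PP (ext F f) (fun j => ext F (G j)) Γ y T).ncard : ℝ) ≤
          C * T ^ ((n : ℝ) * Module.finrank ℤ (Additive Γ) - θ)

/-- a weak form -/
def NotPos {K : Type} [Field K] [NumberField K] {n s : ℕ} (f : Polynomial (MvPolynomial (Fin n) K))
    (G : Fin s → Polynomial (MvPolynomial (Fin n) K)) : Prop :=
  ∀ (F : Type) [Field F] [NumberField F] [Algebra K F] (Γ : Subgroup Fˣ), Γ.FG →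
    2 ≤ Module.finrank ℤ (Additive Γ) → ∀ c : ℝ, 0 < c → ∀ T0 : ℝ, ∃ T : ℝ, T0 ≤ T ∧
      (Fin4_.PP (ext F f) (fun j => ext F (G j)) Γ 1 T).Finite ∧
        ((Fin4_.PP (ext F f) (fun j => ext F (G j)) Γ 1 T).ncard : ℝ) <
          c * T ^ ((n : ℝ) * Module.finrank ℤ (Additive Γ))

theorem tfae (h1 : S_ONER) (h2 : S_ALG) (h3 : S_FCT) (h4 : S_CONV) {K : Type} [Field K]
    [NumberField K] {n s : ℕ} (hn : 1 ≤ n) (f : Polynomial (MvPolynomial (Fin n) K)) (hf : f.Monic)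
    (G : Fin s → Polynomial (MvPolynomial (Fin n) K)) :
    [Sec f G, Sparse f G, NotPos f G].TFAE := by
  have h12 : Sec f G → Sparse f G := by
    intro hS F _ _ _ Γ hΓ hr θ hθ hθ1
    have hfF : (ext F f).Monic := hf.map _
    obtain ⟨C, hC0, hC⟩ := spars h1 h2 h3 hn (ext F f) hfF _ (Fin4_.sec_ext f G hS F) Γ hΓ hr hθ hθ1
    refine ⟨(ext F f).natDegree * C, fun y hy T hT => ?_⟩
    obtain ⟨e1, e2⟩ := hC y hy T hT
    obtain ⟨e3, e4⟩ := Fin4_.PP_le (ext F f) hfF (fun j => ext F (G j)) Γ y T e1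
    refine ⟨e3, ?_⟩
    have e5 : ((Fin4_.PP (ext F f) (fun j => ext F (G j)) Γ y T).ncard : ℝ) ≤
        (ext F f).natDegree * ((XP (ext F f) (fun j => ext F (G j)) Γ y T).ncard : ℝ) := by
      exact_mod_cast e4
    rw [mul_assoc]
    exact e5.trans (mul_le_mul_of_nonneg_left e2 (Nat.cast_nonneg _))
  have h23 : Sparse f G → NotPos f G := by
    intro hS F _ _ _ Γ hΓ hr c hc T0
    obtain ⟨θ, hθ, hθ1⟩ := ex_theta hr
    obtain ⟨C, hC⟩ := hS F Γ hΓ hr θ hθ hθ1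
    have ht : Filter.Tendsto (fun T : ℝ => C * T ^ (-θ)) Filter.atTop (nhds 0) := by
      have := (tendsto_rpow_neg_atTop hθ).const_mul C
      rwa [mul_zero] at this
    obtain ⟨T, hT1, hT2⟩ := ((ht.eventually_lt_const hc).and
      (Filter.eventually_ge_atTop (max T0 1))).exists
    have hT3 : 1 ≤ T := le_trans (le_max_right _ _) hT2
    obtain ⟨e1, e2⟩ := hC 1 (fun i => Γ.one_mem) T hT3
    refine ⟨T, le_trans (le_max_left _ _) hT2, e1, lt_of_le_of_lt e2 ?_⟩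
    have hTp : 0 < T := by linarith
    rw [sub_eq_add_neg, Real.rpow_add hTp, mul_comm (T ^ _) (T ^ _), ← mul_assoc]
    exact mul_lt_mul_of_pos_right hT1 (Real.rpow_pos_of_pos hTp _)
  have h31 : NotPos f G → Sec f G := by
    intro hS
    apply h4 K n s f G hn
    intro F _ _ _ Γ hΓ hr c hc T0
    obtain ⟨T, hT, e1, e2⟩ := hS F Γ hΓ hr c hc T0
    refine ⟨T, hT, ?_, ?_⟩
    · rw [← Fin4_.fst_PP]
      exact e1.image _
    · refine lt_of_le_of_lt ?_ e2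
      rw [← Fin4_.fst_PP]
      exact_mod_cast Set.ncard_image_le e1
  tfae_have 1 → 2 := h12
  tfae_have 2 → 3 := h23
  tfae_have 3 → 1 := h31
  tfae_finish

end Fin4R_

end Pool.Agent.N120.TH
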