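import Pool.Agent.N120.TH.Stm3

/-!
# Project TH, fourth part: better exponents, depending on the rank
-/

set_option autoImplicit false

namespace Pool.Agent.N120.TH

open Finset Polynomial NumberField

open Classical in
/-- **IDXR**. -/
def S_IDXR : Prop := ∀ (L : Type) [Field L] [NumberField L] (r : ℕ) (g : Fin r → Lˣ), 1 ≤ r →
  (∀ v : Fin r → ℤ, ∏ j, g j ^ v j = 1 → v = 0) →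
  ∃ C : ℝ, ∀ O : Subring L, (∀ x : 𝓞 L, (x : L) ∈ O) → ∀ y : ℝ, 1 ≤ y → ∀ P : Finset ℕ,
    (∀ p ∈ P, p.Prime ∧ ∃ (ψ : O →+* ZMod p) (z : Fin r → O) (h : Fin r → (ZMod p)ˣ),
      (∀ j, (z j : L) = g j ∧ ψ (z j) = h j) ∧
      (Nat.card (Subgroup.closure (Set.range h)) : ℝ) ≤ y) →
    (P.card : ℝ) ≤ C * y ^ (((r : ℝ) + 1) / r)

/-- **PRMR**. -/
def S_PRMR : Prop := ∀ (L : Type) [Field L] [NumberField L] (r N0 : ℕ) (g : Fin r → Lˣ) (ε : ℝ),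
  0 < ε → 1 ≤ r → 1 ≤ N0 → (∀ v : Fin r → ℤ, ∏ j, g j ^ v j = 1 → v = 0) →
  (∀ i, ((g i : Lˣ) : L) ∈ ON L N0 ∧ (((g i)⁻¹ : Lˣ) : L) ∈ ON L N0) →
  ∃ (c : ℝ) (Q0 : ℕ), 0 < c ∧ ∀ Q : ℕ, Q0 ≤ Q → ∃ P : Finset ℕ,
    c * (Q / Real.log Q) ≤ (P.card : ℝ) ∧ ∀ p ∈ P, p.Prime ∧ p ≤ Q ∧
      (Q : ℝ) ^ (1 - ε) ≤ p ∧ ∃ (ψ : ON L N0 →+* ZMod p) (h : Fin r → (ZMod p)ˣ),
        (∀ i (z : ON L N0), (z : L) = g i → ψ z = h i) ∧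
        (Q : ℝ) ^ ((r : ℝ) / (r + 1) - ε) ≤ (Nat.card (Subgroup.closure (Set.range h)) : ℝ)

/-- **VARA**. -/
def S_VARA : Prop := ∀ (α : Type) (B : Finset α) (P : Finset ℕ) (F : ℕ → α → ℝ) (Q : ℕ)
  (D κ E0 : ℝ), 1 ≤ Q → 0 ≤ κ → 0 ≤ E0 → (∀ p ∈ P, 2 ≤ p ∧ p ≤ Q) →
  (∀ p ∈ P, ∀ e ∈ B, |F p e| ≤ D) →
  (∀ p ∈ P, ∀ p' ∈ P, p ≠ p' →
    |∑ e ∈ B, F p e * F p' e| ≤ (B.card : ℝ) * (κ * Nat.gcd (p - 1) (p' - 1)) + E0) →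
  ∑ e ∈ B, (∑ p ∈ P, F p e) ^ 2 ≤
    (B.card : ℝ) * (D ^ 2 * P.card + κ * ((Q : ℝ) ^ 2 * (1 + Real.log Q))) +
      E0 * (P.card : ℝ) ^ 2

open Classical in
/-- **NUMR**. -/
def S_NUMR : Prop := ∀ (r : ℕ) (θ : ℝ), 2 ≤ r → 0 < θ → θ < ((r : ℝ) - 1) / (5 * r + 3) →
  ∃ (ε κ : ℝ), 0 < ε ∧ 0 < κ ∧ ∀ (n D δ : ℕ) (C c : ℝ), 1 ≤ n → 1 ≤ D → 0 ≤ C → 0 < c →
  ∃ (C' : ℝ) (N0 : ℕ), ∀ (N Q : ℕ), N0 ≤ N → Q = ⌊(N : ℝ) ^ κ⌋₊ →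
  ∀ P : Finset ℕ, c * (Q / Real.log Q) ≤ (P.card : ℝ) →
  ∀ (h : ∀ p : ℕ, Fin r → (ZMod p)ˣ) (W : ∀ p : ℕ, (Fin n → ZMod p) → ℝ)
    (b : ∀ p : ℕ, MvPolynomial (Fin n) (ZMod p)),
  (∀ p ∈ P, p.Prime ∧ p ≤ Q ∧ (Q : ℝ) ^ (1 - ε) ≤ p ∧
    (Q : ℝ) ^ ((r : ℝ) / (r + 1) - ε) ≤ (Nat.card (Subgroup.closure (Set.range (h p))) : ℝ) ∧
    b p ≠ 0 ∧ (b p).totalDegree ≤ δ ∧ (∀ x, |W p x| ≤ D) ∧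
    ∀ [Fact p.Prime] (M : ℕ), M ∣ p - 1 → ∀ z : Fin n → (ZMod p)ˣ,
      |∑ s : Fin n → (ZMod p)ˣ, W p (fun i => ((z i * s i ^ M : (ZMod p)ˣ) : ZMod p))| *
        Real.sqrt p ≤ C * M * ((p : ℝ) - 1) ^ n) →
  ∀ u : Fin n → Fin r → ℤ,
    (((Box u N).filter (fun e => ∀ p ∈ P,
      MvPolynomial.eval (fun i => ((pt (h p) e i : (ZMod p)ˣ) : ZMod p)) (b p) ≠ 0 →
        1 / (D : ℝ) ≤ W p (fun i => ((pt (h p) e i : (ZMod p)ˣ) : ZMod p)))).card : ℝ) ≤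
      C' * (N : ℝ) ^ ((n * r : ℝ) - θ)

open Classical in
/-- **ONER**. -/
def S_ONER : Prop := ∀ (L : Type) [Field L] [NumberField L] (n r : ℕ)
  (φ Φ : Polynomial (MvPolynomial (Fin n) L)) (E : MvPolynomial (Fin n) L) (θ : ℝ), 1 ≤ n →
  2 ≤ r → 0 < θ → θ < ((r : ℝ) - 1) / (5 * r + 3) →
  Good φ → Good Φ → E ≠ 0 → TwoRoots φ Φ E → ∀ g : Fin r → Lˣ,
  (∀ v : Fin r → ℤ, ∏ j, g j ^ v j = 1 → v = 0) →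
  ∃ C : ℝ, ∀ (u : Fin n → Fin r → ℤ) (N : ℕ), 1 ≤ N →
    (((Box u N).filter (fun e => ∃ y : L,
      (φ.map (MvPolynomial.eval (fun i => ((pt g e i : Lˣ) : L)))).eval y = 0)).card : ℝ) ≤
      C * (N : ℝ) ^ ((n * r : ℝ) - θ)

end Pool.Agent.N120.TH
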