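import Mathlib
import Pool.Agent.N120.TH.Stm4
import Pool.Agent.N120.TH.IDX

/-! Project TH (helper120), part IDXR: few primes with a small reduction of `r` independent
units.  Adapted from `IDX.lean` (helper999). -/

set_option autoImplicit false

namespace Pool.Agent.N120.TH

namespace IDXR_

open NumberField Finset

variable {r : ℕ}

/-- the positive part -/
noncomputable def sp (u : Fin r → ℤ) : ℕ := ∑ j, (u j).toNat

/-- the negative part -/
noncomputable def sn (u : Fin r → ℤ) : ℕ := ∑ j, (-u j).toNat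

lemma zrel {G : Type} [CommGroup G] (g : Fin r → G) (u : Fin r → ℤ) :
    ∏ j, g j ^ u j = 1 ↔ ∏ j, g j ^ (u j).toNat = ∏ j, g j ^ (-u j).toNat := by
  have e1 : ∏ j, g j ^ u j = (∏ j, g j ^ (u j).toNat) * (∏ j, g j ^ (-u j).toNat)⁻¹ := by
    rw [← Finset.prod_inv_distrib, ← Finset.prod_mul_distrib]
    refine Finset.prod_congr rfl fun j _ => ?_
    conv_lhs => rw [← Int.toNat_sub_toNat_neg (u j)]
    rw [zpow_sub, zpow_natCast, zpow_natCast]
  rw [e1, mul_inv_eq_one]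

/-- the integral element attached to a relation -/
noncomputable def xi {R : Type} [CommRing R] (α : Fin r → R) (d : ℤ) (u : Fin r → ℤ) : R :=
  (∏ j, α j ^ (u j).toNat) * (d : R) ^ sn u - (∏ j, α j ^ (-u j).toNat) * (d : R) ^ sp u

lemma map_xi {R S : Type} [CommRing R] [CommRing S] (f : R →+* S) (α : Fin r → R) (d : ℤ)
    (u : Fin r → ℤ) : f (xi α d u) = xi (fun j => f (α j)) d u := by
  unfold xi
  simp only [map_sub, map_mul, map_pow, map_intCast, map_prod]

lemma xi_eq {R : Type} [CommRing R] (g : Fin r → R) (d : ℤ) (u : Fin r → ℤ) :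
    xi (fun j => (d : R) * g j) d u =
      (d : R) ^ (sp u + sn u) * (∏ j, g j ^ (u j).toNat - ∏ j, g j ^ (-u j).toNat) := by
  unfold xi sp sn
  simp only [mul_pow, Finset.prod_mul_distrib, Finset.prod_pow_eq_pow_sum]
  rw [pow_add]
  ring

lemma sum_le (u : Fin r → ℤ) (N : ℕ) (hu : ∀ j, |u j| ≤ N) : sp u + sn u ≤ r * N := by
  unfold sp sn
  rw [← Finset.sum_add_distrib]
  refine (Finset.sum_le_card_nsmul _ _ N fun j _ => ?_).trans ?_
  · have := hu j
    rw [abs_le] at this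
    omega
  · rw [Finset.card_univ, Fintype.card_fin, smul_eq_mul]

lemma norm_xi_le {α : Fin r → ℂ} {d : ℤ} {B : ℝ} (hB : 1 ≤ B) (h1 : ∀ j, ‖α j‖ ≤ B)
    (h3 : |(d : ℝ)| ≤ B) (u : Fin r → ℤ) (N : ℕ) (hN : 1 ≤ r * N) (hu : ∀ j, |u j| ≤ N) :
    ‖xi α d u‖ ≤ (2 * B) ^ (r * N) := by
  have hd : ‖(d : ℂ)‖ ≤ B := by
    rw [Complex.norm_intCast]
    exact h3
  have hB0 : 0 ≤ B := by linarith
  have hs := sum_le u N hu
  have key : ∀ (a : Fin r → ℕ) (c : ℕ), (∑ j, a j) + c ≤ r * N →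
      ‖(∏ j, α j ^ a j) * (d : ℂ) ^ c‖ ≤ B ^ (r * N) := by
    intro a c habc
    rw [norm_mul, norm_prod, norm_pow]
    have e1 : ∏ j, ‖α j ^ a j‖ ≤ ∏ j, B ^ a j := by
      refine Finset.prod_le_prod (fun _ _ => norm_nonneg _) fun j _ => ?_
      rw [norm_pow]
      exact pow_le_pow_left₀ (norm_nonneg _) (h1 j) _
    rw [Finset.prod_pow_eq_pow_sum] at e1
    calc (∏ j, ‖α j ^ a j‖) * ‖(d : ℂ)‖ ^ c ≤ B ^ (∑ j, a j) * B ^ c := by gcongr
      _ = B ^ ((∑ j, a j) + c) := by rw [pow_add]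
      _ ≤ B ^ (r * N) := pow_le_pow_right₀ hB habc
  unfold xi
  refine (norm_sub_le _ _).trans ?_
  have k1 := key (fun j => (u j).toNat) (sn u) hs
  have k2 := key (fun j => (-u j).toNat) (sp u) (by
    have : sn u + sp u ≤ r * N := by omega
    exact this)
  have h4 : (2 : ℝ) ≤ 2 ^ (r * N) := by
    calc (2 : ℝ) = 2 ^ 1 := by norm_num
      _ ≤ 2 ^ (r * N) := pow_le_pow_right₀ (by norm_num) hN
  have h5 : 0 ≤ B ^ (r * N) := by positivity
  rw [mul_pow]
  nlinarith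

end IDXR_

open IDXR_ NumberField in
/-- **IDXR**. -/
theorem t_IDXR' : S_IDXR := by
  classical
  intro L _ _ r g hr hind
  obtain ⟨d, hd0, hd⟩ := exists_integral_multiples ℤ ℚ
    (Finset.univ.image fun j : Fin r => (g j : L))
  have hdL : (d : L) ≠ 0 := by exact_mod_cast hd0
  have hα' : ∀ j : Fin r, ∃ α : 𝓞 L, (α : L) = (d : L) * g j := by
    intro j
    have : IsIntegral ℤ ((d : L) * g j) := by
      rw [← zsmul_eq_mul]
      exact hd _ (Finset.mem_image_of_mem _ (Finset.mem_univ j))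
    exact ⟨⟨_, this⟩, rfl⟩
  choose α hα using hα'
  -- a bound for the conjugates
  obtain ⟨B, hB1, hBd, hB⟩ : ∃ B : ℝ, 1 ≤ B ∧ |(d : ℝ)| ≤ B ∧
      ∀ σ : L →ₐ[ℚ] ℂ, ∀ j, ‖σ (α j : L)‖ ≤ B := by
    have s1 : 0 ≤ ∑ σ : L →ₐ[ℚ] ℂ, ∑ j, ‖σ (α j : L)‖ :=
      Finset.sum_nonneg fun _ _ => Finset.sum_nonneg fun _ _ => norm_nonneg _
    have s3 := abs_nonneg (d : ℝ)
    refine ⟨1 + |(d : ℝ)| + ∑ σ : L →ₐ[ℚ] ℂ, ∑ j, ‖σ (α j : L)‖,
      by linarith, by linarith, fun σ j => ?_⟩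
    have h2 := Finset.single_le_sum (f := fun σ : L →ₐ[ℚ] ℂ => ∑ j, ‖σ (α j : L)‖)
        (fun _ _ => Finset.sum_nonneg fun _ _ => norm_nonneg _) (Finset.mem_univ σ)
    have h3 := Finset.single_le_sum (f := fun j => ‖σ (α j : L)‖)
        (fun _ _ => norm_nonneg _) (Finset.mem_univ j)
    have h2' : ∑ j, ‖σ (α j : L)‖ ≤ ∑ σ : L →ₐ[ℚ] ℂ, ∑ j, ‖σ (α j : L)‖ := h2
    have h3' : ‖σ (α j : L)‖ ≤ ∑ j, ‖σ (α j : L)‖ := h3
    linarith
  obtain ⟨n, hn⟩ : ∃ n : ℕ, n = Fintype.card (L →ₐ[ℚ] ℂ) := ⟨_, rfl⟩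
  obtain ⟨A, hA⟩ : ∃ A : ℕ, A = ⌈(2 * B) ^ n⌉₊ := ⟨_, rfl⟩
  have hA' : (2 * B) ^ n ≤ A := by rw [hA]; exact Nat.le_ceil _
  obtain ⟨m, hm⟩ : ∃ m : (Fin r → ℤ) → ℕ, m = fun u =>
    Ideal.absNorm (Ideal.span {xi α d u}) := ⟨_, rfl⟩
  have hxi : ∀ u : Fin r → ℤ, ((xi α d u : 𝓞 L) : L) =
      (d : L) ^ (sp u + sn u) *
        (∏ j, (g j : L) ^ (u j).toNat - ∏ j, (g j : L) ^ (-u j).toNat) := by
    intro u
    have h1 := map_xi (algebraMap (𝓞 L) L) α d u
    have h2 : (fun j => algebraMap (𝓞 L) L (α j)) = fun j => (d : L) * (g j : L) :=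
      funext fun j => hα j
    rw [h2, xi_eq] at h1
    exact h1
  have hne : ∀ u : Fin r → ℤ, u ≠ 0 → xi α d u ≠ 0 := by
    intro u huv h0
    have h2 : ((xi α d u : 𝓞 L) : L) = 0 := by rw [h0]; rfl
    rw [hxi] at h2
    rcases mul_eq_zero.1 h2 with h3 | h3
    · exact pow_ne_zero _ hdL h3
    · refine huv (hind u ((zrel g u).2 (Units.ext ?_)))
      push_cast
      exact sub_eq_zero.1 h3
  have hmN : ∀ (N : ℕ), 1 ≤ N → ∀ u : Fin r → ℤ, u ≠ 0 → (∀ j, |u j| ≤ N) →
      m u ≠ 0 ∧ m u ≤ A ^ (r * N) := by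
    intro N hN u huv hu
    have hrN : 1 ≤ r * N := Nat.mul_pos hr hN
    rw [hm]
    refine ⟨?_, ?_⟩
    · show Ideal.absNorm (Ideal.span {xi α d u}) ≠ 0
      rw [Ne, Ideal.absNorm_eq_zero_iff, Ideal.span_singleton_eq_bot]
      exact hne u huv
    · show Ideal.absNorm (Ideal.span {xi α d u}) ≤ A ^ (r * N)
      rw [Ideal.absNorm_span_singleton]
      have h2 : ((Algebra.norm ℤ (xi α d u) : ℤ) : ℚ) =
          Algebra.norm ℚ ((xi α d u : 𝓞 L) : L) := Algebra.coe_norm_int _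
      have h3 := Algebra.norm_eq_prod_embeddings ℚ ℂ ((xi α d u : 𝓞 L) : L)
      have h4 : ‖(algebraMap ℚ ℂ) (Algebra.norm ℚ ((xi α d u : 𝓞 L) : L))‖ ≤
          ((2 * B) ^ n) ^ (r * N) := by
        rw [h3, norm_prod]
        have h5 : ∀ σ : L →ₐ[ℚ] ℂ, ‖σ ((xi α d u : 𝓞 L) : L)‖ ≤ (2 * B) ^ (r * N) := by
          intro σ
          have e1 := map_xi ((σ : L →+* ℂ).comp (algebraMap (𝓞 L) L)) α d u
          have e2 : σ ((xi α d u : 𝓞 L) : L) =
              ((σ : L →+* ℂ).comp (algebraMap (𝓞 L) L)) (xi α d u) := rfl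
          rw [e2, e1]
          exact norm_xi_le hB1 (hB σ) hBd u N hrN hu
        refine (Finset.prod_le_prod (fun _ _ => norm_nonneg _) fun σ _ => h5 σ).trans ?_
        rw [Finset.prod_const, Finset.card_univ, ← hn, ← pow_mul, ← pow_mul,
          Nat.mul_comm (r * N) n]
      have h5 : (((Algebra.norm ℤ (xi α d u) : ℤ).natAbs : ℕ) : ℝ) ≤
          ((2 * B) ^ n) ^ (r * N) := by
        refine le_trans (le_of_eq ?_) h4
        rw [← h2]
        have e1 : (algebraMap ℚ ℂ) ((Algebra.norm ℤ (xi α d u) : ℤ) : ℚ) =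
            ((Algebra.norm ℤ (xi α d u) : ℤ) : ℂ) := by
          rw [map_intCast]
        rw [e1, Complex.norm_intCast, Nat.cast_natAbs, Int.cast_abs]
      have h6 : (((Algebra.norm ℤ (xi α d u) : ℤ).natAbs : ℕ) : ℝ) ≤ (A : ℝ) ^ (r * N) :=
        h5.trans (pow_le_pow_left₀ (by positivity) hA' _)
      exact_mod_cast h6
  refine ⟨3 ^ r * (A * r), fun O hO y hy P hP => ?_⟩
  have hr0 : (0 : ℝ) < r := by exact_mod_cast hr
  obtain ⟨s, hs⟩ : ∃ s : ℝ, s = y ^ (1 / (r : ℝ)) := ⟨_, rfl⟩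
  have hs1 : 1 ≤ s := by rw [hs]; exact Real.one_le_rpow hy (by positivity)
  have hsr : s ^ r = y := by
    rw [hs, ← Real.rpow_natCast, ← Real.rpow_mul (by linarith), one_div,
      inv_mul_cancel₀ hr0.ne', Real.rpow_one]
  obtain ⟨N, hN⟩ : ∃ N : ℕ, N = ⌊s⌋₊ := ⟨_, rfl⟩
  have hN1 : 1 ≤ N := by
    rw [hN, Nat.one_le_floor_iff]
    exact hs1
  have hNle : (N : ℝ) ≤ s := by
    rw [hN]
    exact Nat.floor_le (by linarith)
  have hNlt : s < N + 1 := by
    rw [hN]
    exact Nat.lt_floor_add_one _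
  have hylt : y < ((N : ℝ) + 1) ^ r := by
    rw [← hsr]
    exact pow_lt_pow_left₀ hNlt (by linarith) (by omega)
  obtain ⟨I, hI⟩ : ∃ I : Finset (Fin r → ℤ), I =
    (Fintype.piFinset fun _ : Fin r => Finset.Icc (-(N : ℤ)) N).filter fun u => u ≠ 0 :=
    ⟨_, rfl⟩
  have hsub : P ⊆ I.biUnion fun q => (m q).primeFactors := by
    intro p hp
    obtain ⟨hpp, ψ, z, h, hz, hcard⟩ := hP p hp
    haveI : Fact p.Prime := ⟨hpp⟩
    -- pigeonhole
    have hT : ((((Subgroup.closure (Set.range h) : Set (ZMod p)ˣ).toFinset).card : ℕ) : ℝ)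
        ≤ y := by
      refine le_trans (le_of_eq ?_) hcard
      rw [← Set.ncard_eq_toFinset_card', ← Nat.card_coe_set_eq]
      rfl
    have hlt : ((Subgroup.closure (Set.range h) : Set (ZMod p)ˣ).toFinset).card <
        (Fintype.piFinset fun _ : Fin r => Finset.range (N + 1)).card := by
      rw [Fintype.card_piFinset, Finset.prod_const, Finset.card_range, Finset.card_univ,
        Fintype.card_fin]
      have h3 : ((((Subgroup.closure (Set.range h) :
          Set (ZMod p)ˣ).toFinset).card : ℕ) : ℝ) < (((N + 1) ^ r : ℕ) : ℝ) := by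
        push_cast
        linarith
      exact_mod_cast h3
    obtain ⟨a, ha, b, hb, hab, heq⟩ := Finset.exists_ne_map_eq_of_card_lt_of_maps_to hlt
      (f := fun q : Fin r → ℕ => ∏ j, h j ^ q j) (by
        intro q _
        rw [Finset.mem_coe, Set.mem_toFinset]
        exact Subgroup.prod_mem _ fun j _ => pow_mem (Subgroup.subset_closure (Set.mem_range_self j)) _)
    have ha' := Fintype.mem_piFinset.1 ha
    have hb' := Fintype.mem_piFinset.1 hb
    obtain ⟨u, hu⟩ : ∃ u : Fin r → ℤ, u = fun j => (a j : ℤ) - b j := ⟨_, rfl⟩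
    have huv : u ≠ 0 := by
      intro h0
      apply hab
      funext j
      have := congrFun h0 j
      rw [hu] at this
      have h1 : (a j : ℤ) - b j = 0 := this
      omega
    have hu' : ∀ j, |u j| ≤ N := by
      intro j
      have h1 := Finset.mem_range.1 (ha' j)
      have h2 := Finset.mem_range.1 (hb' j)
      rw [hu, abs_le]
      constructor
      · show -(N : ℤ) ≤ (a j : ℤ) - b j
        omega
      · show (a j : ℤ) - b j ≤ (N : ℤ)
        omega
    have hrel : ∏ j, h j ^ u j = 1 := by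
      have heq' : ∏ j, h j ^ a j = ∏ j, h j ^ b j := heq
      have e1 : ∏ j, h j ^ u j = (∏ j, h j ^ a j) * (∏ j, h j ^ b j)⁻¹ := by
        rw [← Finset.prod_inv_distrib, ← Finset.prod_mul_distrib]
        refine Finset.prod_congr rfl fun j _ => ?_
        rw [hu]
        show h j ^ ((a j : ℤ) - b j) = _
        rw [zpow_sub, zpow_natCast, zpow_natCast]
      rw [e1, heq', mul_inv_cancel]
    rw [Finset.mem_biUnion]
    refine ⟨u, ?_, ?_⟩
    · rw [hI, Finset.mem_filter, Fintype.mem_piFinset]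
      refine ⟨fun j => ?_, huv⟩
      rw [Finset.mem_Icc]
      exact abs_le.1 (hu' j)
    · rw [Nat.mem_primeFactors]
      refine ⟨hpp, ?_, (hmN N hN1 u huv hu').1⟩
      let χ : 𝓞 L →+* ZMod p := ψ.comp
        { toFun := fun x => ⟨(x : L), hO x⟩
          map_one' := by ext; simp
          map_mul' := fun x y => by ext; simp
          map_zero' := by ext; simp
          map_add' := fun x y => by ext; simp }
      have hχ : ∀ x : 𝓞 L, χ x = ψ ⟨(x : L), hO x⟩ := fun x => rfl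
      have e1 : (fun j => χ (α j)) = fun j => (d : ZMod p) * ((h j : (ZMod p)ˣ) : ZMod p) := by
        funext j
        rw [hχ]
        have e2 : (⟨(α j : L), hO (α j)⟩ : O) = (d : O) * z j := by
          apply Subtype.ext
          push_cast
          rw [(hz j).1]
          exact hα j
        rw [e2, map_mul, map_intCast, (hz j).2]
      have h3 : χ (xi α d u) = 0 := by
        rw [map_xi, e1, xi_eq]
        have h4 := congrArg (Units.val : (ZMod p)ˣ → ZMod p) ((zrel h u).1 hrel)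
        push_cast at h4
        rw [h4, sub_self, mul_zero]
      have h5 := Ideal.absNorm_mem (Ideal.span {xi α d u})
      rw [Ideal.mem_span_singleton] at h5
      obtain ⟨t, ht⟩ := h5
      have h6 : χ ((Ideal.absNorm (Ideal.span {xi α d u}) : ℕ) : 𝓞 L) = 0 := by
        rw [ht, map_mul, h3, zero_mul]
      rw [map_natCast, ZMod.natCast_eq_zero_iff] at h6
      rw [hm]
      exact h6
  have hIcard : I.card ≤ (2 * N + 1) ^ r := by
    rw [hI]
    refine (Finset.card_filter_le _ _).trans ?_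
    rw [Fintype.card_piFinset, Finset.prod_const, Int.card_Icc, Finset.card_univ,
      Fintype.card_fin]
    refine le_of_eq ?_
    have : ((N : ℤ) + 1 - -(N : ℤ)).toNat = 2 * N + 1 := by omega
    rw [this]
  have hcardP : P.card ≤ (2 * N + 1) ^ r * (A * (r * N)) := by
    refine (Finset.card_le_card hsub).trans (Finset.card_biUnion_le.trans ?_)
    have h1 : ∀ q ∈ I, (m q).primeFactors.card ≤ A * (r * N) := by
      intro q hq
      rw [hI, Finset.mem_filter, Fintype.mem_piFinset] at hq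
      have h2 := hmN N hN1 q hq.2 fun j => abs_le.2 (Finset.mem_Icc.1 (hq.1 j))
      exact IDX_.card_pf _ A (r * N) h2.1 h2.2
    refine (Finset.sum_le_card_nsmul _ _ _ h1).trans ?_
    rw [smul_eq_mul]
    exact Nat.mul_le_mul_right _ hIcard
  have h7 : ((P.card : ℕ) : ℝ) ≤ (2 * N + 1) ^ r * (A * (r * N)) := by
    exact_mod_cast hcardP
  have hN1' : (1 : ℝ) ≤ N := by exact_mod_cast hN1
  have h9 : (2 * (N : ℝ) + 1) ^ r ≤ 3 ^ r * s ^ r := by
    rw [← mul_pow]
    exact pow_le_pow_left₀ (by positivity) (by linarith) r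
  have h12 : y ^ (((r : ℝ) + 1) / r) = s ^ r * s := by
    rw [add_div, div_self hr0.ne', Real.rpow_add (by linarith), Real.rpow_one, ← hs, hsr]
  have h13 : ((A : ℝ) * (r * N)) ≤ A * (r * s) := by gcongr
  rw [h12]
  calc ((P.card : ℕ) : ℝ) ≤ (2 * N + 1) ^ r * (A * (r * N)) := h7
    _ ≤ (3 ^ r * s ^ r) * (A * (r * s)) := by
        refine mul_le_mul h9 h13 (by positivity) (by positivity)
    _ = 3 ^ r * (A * r) * (s ^ r * s) := by ring

end Pool.Agent.N120.TH
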