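import Pool.Agent.N120.TH.Stm4
import Pool.Agent.N120.TH.NUM

/-!
# TH/NUMR: the final numerical step of the sieve, with an exponent depending on the rank
(helper424, for helper120, after TH/NUM of helper78)
-/

set_option autoImplicit false

namespace Pool.Agent.N120.TH.NUMR_

open Finset

theorem idx_bound {Q sp idx cl ε a b : ℝ} (hQ : 0 < Q) (hsp : Q ^ a ≤ sp)
    (hcl : Q ^ b ≤ cl) (hidx : 0 ≤ idx) (h : cl * idx ≤ Q) (hε : ε = 1 - a - b) :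
    idx / sp ≤ Q ^ ε := by
  have h0 : 0 < Q ^ a := Real.rpow_pos_of_pos hQ _
  have h1 : 0 < Q ^ b := Real.rpow_pos_of_pos hQ _
  have hsp0 : 0 < sp := h0.trans_le hsp
  rw [div_le_iff₀ hsp0]
  have h2 : Q ^ b * idx ≤ Q := (mul_le_mul_of_nonneg_right hcl hidx).trans h
  have h3 : Q ^ ε * Q ^ a * Q ^ b = Q := by
    rw [← Real.rpow_add hQ, ← Real.rpow_add hQ, hε]
    have : 1 - a - b + a + b = 1 := by ring
    rw [this, Real.rpow_one]
  have h4 : idx ≤ Q ^ ε * Q ^ a := by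
    refine le_of_mul_le_mul_right ?_ h1
    rw [h3]
    linarith
  exact h4.trans (mul_le_mul_of_nonneg_left hsp (Real.rpow_nonneg hQ.le _))

theorem num_X {N Q : ℕ} {κ θ β : ℝ} (hκ1 : 1 / 3 ≤ κ) (hκ2 : κ ≤ 1) (hθ : 2 * κ - 1 ≤ -θ)
    (hβ0 : 0 ≤ β) (hβ1 : β ≤ 1) (hβ : θ ≤ κ * β) (hN : 8 ≤ N) (hQ : Q = ⌊(N : ℝ) ^ κ⌋₊) :
    2 ≤ Q ∧ (Q : ℝ) ^ (-β) ≤ 2 * (N : ℝ) ^ (-θ) ∧
      (Q : ℝ) ^ 2 / N ≤ (N : ℝ) ^ (-θ) ∧ Q ≤ N := by
  have hN0 : (0 : ℝ) < N := by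
    have : (8 : ℝ) ≤ N := by exact_mod_cast hN
    linarith
  have hN1 : (1 : ℝ) ≤ N := by
    have : (8 : ℝ) ≤ N := by exact_mod_cast hN
    linarith
  set q : ℝ := (N : ℝ) ^ κ with hq
  have hq0 : 0 < q := Real.rpow_pos_of_pos hN0 _
  have hq2 : 2 ≤ q := by
    have h1 : (8 : ℝ) ^ (1 / 3 : ℝ) = 2 := by
      rw [show (8 : ℝ) = 2 ^ (3 : ℝ) by norm_num, ← Real.rpow_mul (by norm_num)]
      norm_num
    calc (2 : ℝ) = (8 : ℝ) ^ (1 / 3 : ℝ) := h1.symm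
      _ ≤ (8 : ℝ) ^ κ := Real.rpow_le_rpow_of_exponent_le (by norm_num) hκ1
      _ ≤ q := Real.rpow_le_rpow (by norm_num) (by exact_mod_cast hN) (by linarith)
  have hQ2 : 2 ≤ Q := by
    rw [hQ]
    exact Nat.le_floor (by exact_mod_cast hq2)
  have hQq : (Q : ℝ) ≤ q := by
    rw [hQ]
    exact Nat.floor_le hq0.le
  have hqQ : q ≤ 2 * Q := by
    have h1 : q < Q + 1 := by
      rw [hQ]
      exact Nat.lt_floor_add_one q
    have h2 : (2 : ℝ) ≤ Q := by exact_mod_cast hQ2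
    linarith
  have hQ0 : (0 : ℝ) < Q := by
    have h2 : (2 : ℝ) ≤ Q := by exact_mod_cast hQ2
    linarith
  refine ⟨hQ2, ?_, ?_, ?_⟩
  · calc (Q : ℝ) ^ (-β) ≤ (q / 2) ^ (-β) :=
          Real.rpow_le_rpow_of_nonpos (by positivity) (by linarith) (by linarith)
      _ = q ^ (-β) * 2 ^ β := by
          rw [Real.div_rpow hq0.le (by norm_num), Real.rpow_neg (by norm_num : (0 : ℝ) ≤ 2),
            div_inv_eq_mul]
      _ ≤ q ^ (-β) * 2 := by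
          refine mul_le_mul_of_nonneg_left ?_ (Real.rpow_nonneg hq0.le _)
          calc (2 : ℝ) ^ β ≤ (2 : ℝ) ^ (1 : ℝ) :=
                Real.rpow_le_rpow_of_exponent_le (by norm_num) hβ1
            _ = 2 := Real.rpow_one _
      _ = 2 * (N : ℝ) ^ (κ * -β) := by
          rw [hq, ← Real.rpow_mul hN0.le, mul_comm]
      _ ≤ 2 * (N : ℝ) ^ (-θ) := by
          refine mul_le_mul_of_nonneg_left ?_ (by norm_num)
          exact Real.rpow_le_rpow_of_exponent_le hN1 (by linarith)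
  · rw [div_le_iff₀ hN0]
    calc (Q : ℝ) ^ 2 ≤ q ^ 2 := pow_le_pow_left₀ hQ0.le hQq 2
      _ = (N : ℝ) ^ (2 * κ) := by
          rw [hq, ← Real.rpow_natCast, ← Real.rpow_mul hN0.le]
          congr 1
          push_cast
          ring
      _ ≤ (N : ℝ) ^ (-θ + 1) :=
          Real.rpow_le_rpow_of_exponent_le hN1 (by linarith)
      _ = (N : ℝ) ^ (-θ) * N := by
          rw [Real.rpow_add hN0, Real.rpow_one]
  · have h1 : (Q : ℝ) ≤ N := by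
      refine hQq.trans ?_
      calc q ≤ (N : ℝ) ^ (1 : ℝ) := Real.rpow_le_rpow_of_exponent_le hN1 hκ2
        _ = N := Real.rpow_one _
    exact_mod_cast h1

theorem num_P {Q k c ε β κ A : ℝ} (hQ : 2 ≤ Q) (hc : 0 < c) (hε : 0 < ε) (hβ : β ≤ 1 - ε / 4)
    (hk : c * (Q / Real.log Q) ≤ k) (hA : 0 ≤ A) (hκ : κ = A * Q ^ (-β - 3 * ε / 4)) :
    0 < k ∧ 1 / k ≤ (1 + 4 / ε) / c * Q ^ (-β) ∧
      κ * (Q ^ 2 * (1 + Real.log Q)) / k ^ 2 ≤ A * ((1 + 4 / ε) ^ 3 / c ^ 2) * Q ^ (-β) := by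
  have hQ0 : 0 < Q := by linarith
  have hQ1 : 1 ≤ Q := by linarith
  have hl0 : 0 < Real.log Q := Real.log_pos (by linarith)
  have hp1 : 1 ≤ Q ^ (ε / 4) := Real.one_le_rpow hQ1 (by positivity)
  have hl' : 1 + Real.log Q ≤ (1 + 4 / ε) * Q ^ (ε / 4) := by
    have h := Real.log_le_rpow_div hQ0.le (ε := ε / 4) (by positivity)
    have h2 : Q ^ (ε / 4) / (ε / 4) = 4 / ε * Q ^ (ε / 4) := by field_simp
    rw [h2] at h
    linarith
  have hl : Real.log Q ≤ (1 + 4 / ε) * Q ^ (ε / 4) := by linarith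
  have hK : 0 < 1 + 4 / ε := by positivity
  obtain ⟨K, hKe⟩ : ∃ K : ℝ, K = 1 + 4 / ε := ⟨_, rfl⟩
  rw [← hKe] at hl hl' hK ⊢
  have hk0 : 0 < c * (Q / Real.log Q) := by positivity
  have hkk : 0 < k := hk0.trans_le hk
  refine ⟨hkk, ?_, ?_⟩
  · calc 1 / k ≤ 1 / (c * (Q / Real.log Q)) := one_div_le_one_div_of_le hk0 hk
      _ = Real.log Q / (c * Q) := by field_simp
      _ ≤ K * Q ^ (ε / 4) / (c * Q) := by gcongr
      _ = K / c * (Q ^ (ε / 4) / Q) := by field_simp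
      _ ≤ K / c * Q ^ (-β) := by
          refine mul_le_mul_of_nonneg_left ?_ (by positivity)
          calc Q ^ (ε / 4) / Q = Q ^ (ε / 4 - 1) := by
                rw [Real.rpow_sub hQ0, Real.rpow_one]
            _ ≤ Q ^ (-β) :=
                Real.rpow_le_rpow_of_exponent_le (by linarith) (by linarith)
  · have h1 : (c * (Q / Real.log Q)) ^ 2 ≤ k ^ 2 := pow_le_pow_left₀ hk0.le hk 2
    have h2 : Real.log Q ^ 2 ≤ (K * Q ^ (ε / 4)) ^ 2 := pow_le_pow_left₀ hl0.le hl 2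
    have hκ0 : 0 ≤ κ := by rw [hκ]; positivity
    calc κ * (Q ^ 2 * (1 + Real.log Q)) / k ^ 2
        ≤ κ * (Q ^ 2 * (1 + Real.log Q)) / (c * (Q / Real.log Q)) ^ 2 := by gcongr
      _ = κ * ((1 + Real.log Q) * Real.log Q ^ 2) / c ^ 2 := by field_simp
      _ ≤ κ * ((K * Q ^ (ε / 4)) * (K * Q ^ (ε / 4)) ^ 2) / c ^ 2 := by gcongr
      _ = A * (K ^ 3 / c ^ 2) * (Q ^ (-β - 3 * ε / 4) * (Q ^ (ε / 4)) ^ 3) := by
          rw [hκ]
          field_simp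
      _ = A * (K ^ 3 / c ^ 2) * Q ^ (-β) := by
          congr 1
          rw [← Real.rpow_natCast, ← Real.rpow_mul hQ0.le, ← Real.rpow_add hQ0]
          congr 1
          push_cast
          ring

/-- the collection of the error terms -/
theorem collect {D a1 a2 k Q N X Y q0 κL E0 δr nr NN S2 S1 T : ℝ} (hD : 1 ≤ D)
    (ha1 : 0 ≤ a1) (ha2 : 0 ≤ a2)
    (hk : 0 < k) (hNN : 0 ≤ NN)
    (hδ : 0 ≤ δr) (hnr : 0 ≤ nr) (hXY : X ≤ 2 * Y) (hY : Q ^ 2 / N ≤ Y)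
    (hqX : 1 / q0 ≤ X) (hk1 : 1 / k ≤ a1 * X)
    (hk2 : κL / k ^ 2 ≤ a2 * X)
    (hE : E0 = NN * (D ^ 2 * nr * (Q ^ 2 / N)))
    (hS2 : S2 ≤ NN * (D ^ 2 * k + κL) + E0 * k ^ 2)
    (hS1 : S1 ≤ k * (δr / q0 * NN))
    (hT : T ≤ 8 * D ^ 2 / k * S1 + 4 * D ^ 2 / k ^ 2 * S2) :
    T ≤ (8 * D ^ 2 * δr * 2 + 4 * D ^ 2 * (D ^ 2 * a1 * 2 + a2 * 2 + D ^ 2 * nr)) * (NN * Y) := by
  have h1 : 8 * D ^ 2 / k * S1 ≤ NN * (8 * D ^ 2 * δr * (1 / q0)) := by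
    calc 8 * D ^ 2 / k * S1 ≤ 8 * D ^ 2 / k * (k * (δr / q0 * NN)) :=
          mul_le_mul_of_nonneg_left hS1 (by positivity)
      _ = NN * (8 * D ^ 2 * δr * (1 / q0)) := by
          rw [div_eq_mul_one_div δr q0]
          field_simp
  have h2 : 4 * D ^ 2 / k ^ 2 * S2 ≤ NN * (4 * D ^ 2 * (D ^ 2 * (1 / k) + κL / k ^ 2 +
      D ^ 2 * nr * (Q ^ 2 / N))) := by
    calc 4 * D ^ 2 / k ^ 2 * S2 ≤ 4 * D ^ 2 / k ^ 2 *
          (NN * (D ^ 2 * k + κL) + E0 * k ^ 2) :=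
          mul_le_mul_of_nonneg_left hS2 (by positivity)
      _ = _ := by
          rw [hE]
          field_simp
  have h3 : 8 * D ^ 2 * δr * (1 / q0) ≤ 8 * D ^ 2 * δr * (2 * Y) := by
    refine mul_le_mul_of_nonneg_left (hqX.trans hXY) (by positivity)
  have h4 : D ^ 2 * (1 / k) ≤ D ^ 2 * (a1 * (2 * Y)) := by
    refine mul_le_mul_of_nonneg_left (hk1.trans ?_) (by positivity)
    exact mul_le_mul_of_nonneg_left hXY ha1
  have h5 : κL / k ^ 2 ≤ a2 * (2 * Y) :=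
    hk2.trans (mul_le_mul_of_nonneg_left hXY ha2)
  have h7 : D ^ 2 * nr * (Q ^ 2 / N) ≤ D ^ 2 * nr * Y :=
    mul_le_mul_of_nonneg_left hY (by positivity)
  have h8 : NN * (8 * D ^ 2 * δr * (1 / q0)) ≤ NN * (8 * D ^ 2 * δr * (2 * Y)) :=
    mul_le_mul_of_nonneg_left h3 hNN
  have h9 : NN * (4 * D ^ 2 * (D ^ 2 * (1 / k) + κL / k ^ 2 +
      D ^ 2 * nr * (Q ^ 2 / N))) ≤
      NN * (4 * D ^ 2 * (D ^ 2 * (a1 * (2 * Y)) + a2 * (2 * Y) + D ^ 2 * nr * Y)) := by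
    refine mul_le_mul_of_nonneg_left (mul_le_mul_of_nonneg_left ?_ (by positivity)) hNN
    linarith
  have h10 : T ≤ NN * (8 * D ^ 2 * δr * (2 * Y)) + NN * (4 * D ^ 2 *
      (D ^ 2 * (a1 * (2 * Y)) + a2 * (2 * Y) + D ^ 2 * nr * Y)) := by linarith
  refine h10.trans (le_of_eq ?_)
  ring

/-- the choice of the parameters -/
theorem params (r : ℕ) (θ : ℝ) (hr : 2 ≤ r) (h0 : 0 < θ) (h1 : θ < ((r : ℝ) - 1) / (5 * r + 3)) :
    ∃ ε κ β : ℝ, 0 < ε ∧ 0 < κ ∧ 1 / 3 ≤ κ ∧ κ ≤ 1 ∧ 2 * κ - 1 ≤ -θ ∧ 0 ≤ β ∧ β ≤ 1 ∧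
      θ ≤ κ * β ∧ β ≤ 1 - ε / 4 ∧
      1 - (1 - ε) / 2 - ((r : ℝ) / (r + 1) - ε) ≤ -β - 3 * ε / 4 ∧
      β ≤ (r : ℝ) / (r + 1) - ε := by
  have hr' : (2 : ℝ) ≤ r := by exact_mod_cast hr
  have hr1 : (0 : ℝ) < r + 1 := by linarith
  obtain ⟨a, ha⟩ : ∃ a : ℝ, a = ((r : ℝ) - 1) / (2 * (r + 1)) := ⟨_, rfl⟩
  have ha0 : 0 < a := by rw [ha]; apply div_pos <;> linarith
  have ha1 : a < 1 / 2 := by
    rw [ha, div_lt_iff₀ (by linarith)]
    linarith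
  have hra : (r : ℝ) / (r + 1) = 1 / 2 + a := by
    rw [ha]
    field_simp
    ring
  have hθa : θ < a / (2 + a) := by
    have : a / (2 + a) = ((r : ℝ) - 1) / (5 * r + 3) := by
      have h2 : (0 : ℝ) < 5 * r + 3 := by linarith
      have h3 : 2 + a = (5 * r + 3) / (2 * (r + 1)) := by
        rw [ha]
        field_simp
        ring
      rw [h3, ha]
      field_simp
    rw [this]
    exact h1
  have hθ2 : θ * (2 + a) < a := by rwa [lt_div_iff₀ (by linarith)] at hθa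
  have hθ3 : θ < 1 / 5 := by nlinarith
  refine ⟨(a - 2 * θ / (1 - θ)) / 6, (1 - θ) / 2, (a + 2 * θ / (1 - θ)) / 2, ?_⟩
  have hθ4 : 0 < 1 - θ := by linarith
  obtain ⟨t, ht⟩ : ∃ t : ℝ, t = 2 * θ / (1 - θ) := ⟨_, rfl⟩
  rw [← ht]
  have ht0 : 0 < t := by rw [ht]; positivity
  have hta : t < a := by
    rw [ht, div_lt_iff₀ hθ4]
    linarith
  have htt : (1 - θ) * t = 2 * θ := by rw [ht]; field_simp
  refine ⟨by linarith, by linarith, by linarith, by linarith, by linarith, by linarith,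
    by linarith, ?_, by linarith, ?_, ?_⟩
  · nlinarith
  · rw [hra]; linarith
  · rw [hra]; linarith

end Pool.Agent.N120.TH.NUMR_

namespace Pool.Agent.N120.TH

open Finset NUMR_
open NUM_ (count row_card box_card pair_bound bad_bound)

theorem t_NUMR (h1 : S_PAIR) (h2 : S_VARA) (h3 : S_SZ) (h4 : S_FIB) : S_NUMR := by
  classical
  intro r θ hr hθ0 hθ1
  obtain ⟨ε, κ₀, β, hε, hκ0, hκ1, hκ2, hκθ, hβ0, hβ1, hκβ, hβε, hexp, hβq⟩ :=
    params r θ hr hθ0 hθ1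
  refine ⟨ε, κ₀, hε, hκ0, ?_⟩
  intro n D δ C c hn hD hC hc
  refine ⟨8 * D ^ 2 * (δ * 2 ^ r) * 2 + 4 * D ^ 2 * (D ^ 2 * ((1 + 4 / ε) / c) * 2 +
    (D * C * ((1 + 4 / ε) ^ 3 / c ^ 2)) * 2 + D ^ 2 * (n * r)), 8, ?_⟩
  intro N Q hN hQ P hP h W b hp u
  obtain ⟨hQ2, hX, hY, hQN⟩ := num_X hκ1 hκ2 hκθ hβ0 hβ1 hκβ hN hQ
  have hQr : (2 : ℝ) ≤ Q := by exact_mod_cast hQ2
  have hQ0 : (0 : ℝ) < Q := by linarith
  have hQ1 : (1 : ℝ) ≤ Q := by linarith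
  have hN1 : 1 ≤ N := by omega
  have hN0 : (0 : ℝ) < N := by exact_mod_cast hN1
  have hD1 : (1 : ℝ) ≤ D := by exact_mod_cast hD
  have hD0' : (0 : ℝ) ≤ D := by linarith
  obtain ⟨hk0, hk1, hk2⟩ := num_P (κ := D * C * (Q : ℝ) ^ (-β - 3 * ε / 4)) (A := D * C)
    hQr hc hε hβε hP (by positivity) rfl
  have hPn : P.Nonempty := card_pos.1 (by exact_mod_cast hk0)
  have hq0 : 0 < (Q : ℝ) ^ ((r : ℝ) / (r + 1) - ε) := Real.rpow_pos_of_pos hQ0 _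
  have hprime : ∀ p ∈ P, p.Prime := fun p hpP => (hp p hpP).1
  have hpQ : ∀ p ∈ P, p ≤ Q := fun p hpP => (hp p hpP).2.1
  -- the functions
  obtain ⟨F, hF⟩ : ∃ F : ℕ → (Fin n → Fin r → ℤ) → ℝ, ∀ p e, F p e =
      W p (fun i => ((pt (h p) e i : (ZMod p)ˣ) : ZMod p)) := ⟨_, fun _ _ => rfl⟩
  obtain ⟨bad, hbad⟩ : ∃ bad : ℕ → (Fin n → Fin r → ℤ) → Prop, ∀ p e, bad p e ↔
      MvPolynomial.eval (fun i => ((pt (h p) e i : (ZMod p)ˣ) : ZMod p)) (b p) = 0 :=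
    ⟨_, fun _ _ => Iff.rfl⟩
  have hFD : ∀ p ∈ P, ∀ e ∈ Box u N, |F p e| ≤ D := by
    intro p hpP e _
    rw [hF]
    exact (hp p hpP).2.2.2.2.2.2.1 _
  have hcount := count ((Box u N).filter (fun e => ∀ p ∈ P,
      MvPolynomial.eval (fun i => ((pt (h p) e i : (ZMod p)ˣ) : ZMod p)) (b p) ≠ 0 →
        1 / (D : ℝ) ≤ W p (fun i => ((pt (h p) e i : (ZMod p)ˣ) : ZMod p)))) (Box u N)
    (filter_subset _ _) P hPn F bad D hD1 hFD (by
      intro e he p hpP hb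
      rw [hF]
      exact (mem_filter.1 he).2 p hpP (fun h5 => hb ((hbad p e).2 h5)))
  -- the bad points
  have hS1 : ∑ p ∈ P, (((Box u N).filter (bad p)).card : ℝ) ≤
      P.card * ((δ * 2 ^ r : ℝ) / (Q : ℝ) ^ ((r : ℝ) / (r + 1) - ε) * (N : ℝ) ^ (n * r)) := by
    rw [← nsmul_eq_mul, ← Finset.sum_const]
    refine Finset.sum_le_sum fun p hpP => ?_
    obtain ⟨h5, h6, -, h7, h8, h9, -, -⟩ := hp p hpP
    have : Fact p.Prime := ⟨h5⟩
    have h10 := bad_bound h3 h4 (fun x : (ZMod p)ˣ => (x : ZMod p)) Units.val_injective (h p) (b p)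
      h8 δ h9 N (by rw [ZMod.card_units]; omega) u _ hq0 h7 (bad p) (hbad p)
    refine h10.trans (le_of_eq ?_)
    ring
  -- the variance
  have hS2 := h2 (Fin n → Fin r → ℤ) (Box u N) P F Q D
    (D * C * (Q : ℝ) ^ (-β - 3 * ε / 4))
    ((N : ℝ) ^ (n * r) * (D ^ 2 * (n * r : ℝ) * ((Q : ℝ) ^ 2 / N))) (by omega) (by positivity)
    (by positivity) (fun p hpP => ⟨(hprime p hpP).two_le, hpQ p hpP⟩) hFD (by
      intro p hpP p' hpP' _
      have i1 : Fact p.Prime := ⟨hprime p hpP⟩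
      have i2 : Fact p'.Prime := ⟨hprime p' hpP'⟩
      obtain ⟨-, h6, h7, h8, -, -, h9, h10⟩ := hp p hpP
      obtain ⟨-, h6', -, -, -, -, h9', -⟩ := hp p' hpP'
      have h11 := pair_bound h1 p p' (h p) (h p') (W p) (W p') D C hC h9 h9'
        (fun M hM z => h10 M hM z) N u hN1
      simp only [hF]
      refine h11.trans ?_
      rw [box_card, Nat.cast_pow]
      have hpr : (0 : ℝ) ≤ (p : ℝ) - 1 := by
        have : (1 : ℝ) ≤ p := by exact_mod_cast (hprime p hpP).one_le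
        linarith
      have hpr' : (0 : ℝ) ≤ (p' : ℝ) - 1 := by
        have : (1 : ℝ) ≤ p' := by exact_mod_cast (hprime p' hpP').one_le
        linarith
      have hp1 : (p : ℝ) ≤ Q := by exact_mod_cast h6
      have hp1' : (p' : ℝ) ≤ Q := by exact_mod_cast h6'
      have hsq : (Q : ℝ) ^ ((1 - ε) / 2) ≤ Real.sqrt p := by
        rw [Real.sqrt_eq_rpow]
        calc (Q : ℝ) ^ ((1 - ε) / 2) = ((Q : ℝ) ^ (1 - ε)) ^ (1 / 2 : ℝ) := by
              rw [← Real.rpow_mul hQ0.le]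
              congr 1
              ring
          _ ≤ (p : ℝ) ^ (1 / 2 : ℝ) := Real.rpow_le_rpow (by positivity) h7 (by norm_num)
      have hidx0 := idx_bound (idx := ((Subgroup.closure (Set.range (h p))).index : ℝ)) hQ0 hsq h8
        (Nat.cast_nonneg _) (by
          rw [← Nat.cast_mul, Subgroup.card_mul_index, Nat.card_eq_fintype_card, ZMod.card_units]
          have : p - 1 ≤ Q := by omega
          exact_mod_cast this) rfl
      have hidx := hidx0.trans (Real.rpow_le_rpow_of_exponent_le hQ1 hexp)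
      have hg0 : (0 : ℝ) ≤ Nat.gcd (p - 1) (p' - 1) := Nat.cast_nonneg _
      have h12 : (D : ℝ) * (C / Real.sqrt p) * ((Subgroup.closure (Set.range (h p))).index *
          Nat.gcd (p - 1) (p' - 1)) ≤ D * C * (Q : ℝ) ^ (-β - 3 * ε / 4) *
            Nat.gcd (p - 1) (p' - 1) := by
        calc (D : ℝ) * (C / Real.sqrt p) * ((Subgroup.closure (Set.range (h p))).index *
              Nat.gcd (p - 1) (p' - 1)) = D * C *
              ((Subgroup.closure (Set.range (h p))).index / Real.sqrt p) *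
                Nat.gcd (p - 1) (p' - 1) := by ring
          _ ≤ _ := mul_le_mul_of_nonneg_right
              (mul_le_mul_of_nonneg_left hidx (by positivity)) hg0
      have h13 : ((p : ℝ) - 1) * ((p' : ℝ) - 1) ≤ (Q : ℝ) ^ 2 := by
        rw [sq]
        exact mul_le_mul (by linarith) (by linarith) hpr' hQ0.le
      have h14 : (N : ℝ) ^ (n * r - 1) = (N : ℝ) ^ (n * r) / N := by
        rw [eq_div_iff hN0.ne', ← pow_succ]
        congr 1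
        have : 1 ≤ n * r := Nat.mul_pos hn (by omega)
        omega
      refine add_le_add (mul_le_mul_of_nonneg_left h12 (by positivity)) ?_
      rw [h14]
      calc (D : ℝ) * D * (n * r) * (((p : ℝ) - 1) * ((p' : ℝ) - 1)) * ((N : ℝ) ^ (n * r) / N)
          ≤ (D : ℝ) * D * (n * r) * ((Q : ℝ) ^ 2) * ((N : ℝ) ^ (n * r) / N) := by gcongr
        _ = _ := by ring)
  rw [box_card, Nat.cast_pow] at hS2
  have hfin := collect (D := (D : ℝ)) (a1 := (1 + 4 / ε) / c)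
    (a2 := D * C * ((1 + 4 / ε) ^ 3 / c ^ 2)) (k := (P.card : ℝ)) (Q := (Q : ℝ))
    (N := (N : ℝ)) (X := (Q : ℝ) ^ (-β)) (Y := (N : ℝ) ^ (-θ))
    (q0 := (Q : ℝ) ^ ((r : ℝ) / (r + 1) - ε))
    (κL := D * C * (Q : ℝ) ^ (-β - 3 * ε / 4) * ((Q : ℝ) ^ 2 * (1 + Real.log Q)))
    (E0 := (N : ℝ) ^ (n * r) * (D ^ 2 * (n * r : ℝ) * ((Q : ℝ) ^ 2 / N)))
    (δr := (δ * 2 ^ r : ℝ)) (nr := (n * r : ℝ)) (NN := (N : ℝ) ^ (n * r)) hD1 (by positivity)
    (by positivity) hk0 (by positivity) (by positivity) (by positivity) hX hY ?_ hk1 hk2 rfl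
    hS2 hS1 hcount
  · refine hfin.trans (le_of_eq ?_)
    congr 1
    rw [sub_eq_add_neg, Real.rpow_add hN0, ← Nat.cast_mul, Real.rpow_natCast]
  · rw [one_div, ← Real.rpow_neg hQ0.le]
    exact Real.rpow_le_rpow_of_exponent_le hQ1 (by linarith)

end Pool.Agent.N120.TH
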