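import Pool.Agent.N120.TH.Stm4

/-!
# VARA: variance over the primes with the average of the gcd (helper136, after VAR by helper614)
-/

set_option autoImplicit false

namespace Pool.Agent.N120.TH

open Finset

namespace VARA_

/-- few elements of `P` are `1` modulo `d` -/
theorem card_one_mod (P : Finset ℕ) (Q d : ℕ) (hP : ∀ p ∈ P, 2 ≤ p ∧ p ≤ Q) :
    (P.filter (fun p => d ∣ p - 1)).card ≤ Q / d := by
  rw [← Nat.Ioc_filter_dvd_card_eq_div]
  refine Finset.card_le_card_of_injOn (fun p => p - 1) ?_ ?_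
  · intro p hp
    rw [Finset.mem_coe, mem_filter] at hp
    have := hP p hp.1
    show p - 1 ∈ _
    rw [Finset.mem_coe, mem_filter, mem_Ioc]
    exact ⟨by omega, hp.2⟩
  · intro p hp q hq h
    rw [Finset.mem_coe, mem_filter] at hp hq
    have h1 := hP p hp.1
    have h2 := hP q hq.1
    have h3 : p - 1 = q - 1 := h
    omega

/-- the average of the gcd -/
theorem sum_gcd (P : Finset ℕ) (Q : ℕ) (hP : ∀ p ∈ P, 2 ≤ p ∧ p ≤ Q) :
    (∑ p ∈ P, ∑ p' ∈ P, (Nat.gcd (p - 1) (p' - 1) : ℝ)) ≤ (Q : ℝ) ^ 2 * (1 + Real.log Q) := by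
  have h1 : ∀ p ∈ P, ∀ p' ∈ P, (Nat.gcd (p - 1) (p' - 1) : ℝ) ≤
      ∑ d ∈ Icc 1 Q, (d : ℝ) * ((if d ∣ p - 1 then (1 : ℝ) else 0) * (if d ∣ p' - 1 then (1 : ℝ) else 0)) := by
    intro p hp p' hp'
    have hnn : ∀ d ∈ Icc 1 Q, (0 : ℝ) ≤
        (d : ℝ) * ((if d ∣ p - 1 then (1 : ℝ) else 0) * (if d ∣ p' - 1 then (1 : ℝ) else 0)) := by
      intro d _
      split_ifs <;> simp
    have hp2 := hP p hp
    have hmem : Nat.gcd (p - 1) (p' - 1) ∈ Icc 1 Q := by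
      rw [mem_Icc]
      have h3 : Nat.gcd (p - 1) (p' - 1) ≤ p - 1 := Nat.gcd_le_left _ (by omega)
      have h4 : 0 < Nat.gcd (p - 1) (p' - 1) := Nat.gcd_pos_of_pos_left _ (by omega)
      omega
    have h2 := Finset.single_le_sum hnn hmem
    rw [if_pos (Nat.gcd_dvd_left _ _), if_pos (Nat.gcd_dvd_right _ _), one_mul, mul_one] at h2
    exact h2
  have h2 : ∀ d ∈ Icc 1 Q, (∑ p ∈ P, (if d ∣ p - 1 then (1 : ℝ) else 0)) ≤ (Q : ℝ) / d := by
    intro d hd
    rw [Finset.sum_boole]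
    have h3 : ((P.filter (fun p => d ∣ p - 1)).card : ℝ) ≤ ((Q / d : ℕ) : ℝ) := by
      exact_mod_cast card_one_mod P Q d hP
    exact h3.trans Nat.cast_div_le
  have hharm : ∑ d ∈ Icc 1 Q, ((d : ℝ))⁻¹ ≤ 1 + Real.log Q := by
    have h3 := harmonic_le_one_add_log Q
    rw [harmonic_eq_sum_Icc] at h3
    push_cast at h3
    exact h3
  calc (∑ p ∈ P, ∑ p' ∈ P, (Nat.gcd (p - 1) (p' - 1) : ℝ))
      ≤ ∑ p ∈ P, ∑ p' ∈ P, ∑ d ∈ Icc 1 Q,
          (d : ℝ) * ((if d ∣ p - 1 then (1 : ℝ) else 0) * (if d ∣ p' - 1 then (1 : ℝ) else 0)) :=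
        Finset.sum_le_sum fun p hp => Finset.sum_le_sum fun p' hp' => h1 p hp p' hp'
    _ = ∑ d ∈ Icc 1 Q, (d : ℝ) * (∑ p ∈ P, (if d ∣ p - 1 then (1 : ℝ) else 0)) ^ 2 := by
        have e1 : ∀ p ∈ P, ∑ p' ∈ P, ∑ d ∈ Icc 1 Q,
            (d : ℝ) * ((if d ∣ p - 1 then (1 : ℝ) else 0) * (if d ∣ p' - 1 then (1 : ℝ) else 0)) =
            ∑ d ∈ Icc 1 Q, ∑ p' ∈ P,
            (d : ℝ) * ((if d ∣ p - 1 then (1 : ℝ) else 0) * (if d ∣ p' - 1 then (1 : ℝ) else 0)) :=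
          fun p _ => Finset.sum_comm
        rw [Finset.sum_congr rfl e1, Finset.sum_comm]
        refine Finset.sum_congr rfl fun d _ => ?_
        rw [sq, Finset.sum_mul_sum, Finset.mul_sum]
        refine Finset.sum_congr rfl fun p _ => ?_
        rw [Finset.mul_sum]
    _ ≤ ∑ d ∈ Icc 1 Q, (d : ℝ) * ((Q : ℝ) / d) ^ 2 := by
        refine Finset.sum_le_sum fun d hd => ?_
        refine mul_le_mul_of_nonneg_left ?_ (Nat.cast_nonneg d)
        refine pow_le_pow_left₀ (Finset.sum_nonneg fun p _ => ?_) (h2 d hd) 2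
        split_ifs <;> norm_num
    _ = (Q : ℝ) ^ 2 * ∑ d ∈ Icc 1 Q, ((d : ℝ))⁻¹ := by
        rw [Finset.mul_sum]
        refine Finset.sum_congr rfl fun d hd => ?_
        have hd0 : (d : ℝ) ≠ 0 := by
          rw [mem_Icc] at hd
          exact_mod_cast (by omega : d ≠ 0)
        field_simp
    _ ≤ (Q : ℝ) ^ 2 * (1 + Real.log Q) := mul_le_mul_of_nonneg_left hharm (by positivity)

end VARA_

open VARA_ in
theorem t_VARA : S_VARA := by
  intro α B P F Q D κ E0 hQ hκ hE0 hP hF hpair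
  have hBc : (0 : ℝ) ≤ B.card := Nat.cast_nonneg _
  have hpt : ∀ p ∈ P, ∀ p' ∈ P, ∑ e ∈ B, F p e * F p' e ≤
      (if p = p' then (B.card : ℝ) * D ^ 2 else 0) + E0 +
        (B.card * κ) * (Nat.gcd (p - 1) (p' - 1) : ℝ) := by
    intro p hp p' hp'
    have hn : 0 ≤ (B.card * κ) * (Nat.gcd (p - 1) (p' - 1) : ℝ) := by positivity
    by_cases h1 : p = p'
    · rw [if_pos h1]
      have htr : ∑ e ∈ B, F p e * F p' e ≤ (B.card : ℝ) * D ^ 2 := by
        calc ∑ e ∈ B, F p e * F p' e ≤ ∑ _e ∈ B, D ^ 2 := by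
              refine Finset.sum_le_sum fun e he => ?_
              have h1 := hF p hp e he
              have h2 := hF p' hp' e he
              calc F p e * F p' e ≤ |F p e * F p' e| := le_abs_self _
                _ = |F p e| * |F p' e| := abs_mul _ _
                _ ≤ D * D := mul_le_mul h1 h2 (abs_nonneg _) ((abs_nonneg _).trans h1)
                _ = D ^ 2 := (sq D).symm
          _ = _ := by rw [Finset.sum_const, nsmul_eq_mul]
      linarith
    · rw [if_neg h1]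
      have h3 := (le_abs_self _).trans (hpair p hp p' hp' h1)
      have h4 : (B.card : ℝ) * (κ * Nat.gcd (p - 1) (p' - 1)) =
        (B.card * κ) * (Nat.gcd (p - 1) (p' - 1) : ℝ) := by ring
      linarith
  have hsq : ∑ e ∈ B, (∑ p ∈ P, F p e) ^ 2 = ∑ p ∈ P, ∑ p' ∈ P, ∑ e ∈ B, F p e * F p' e := by
    have e1 : ∀ e ∈ B, (∑ p ∈ P, F p e) ^ 2 = ∑ p ∈ P, ∑ p' ∈ P, F p e * F p' e := by
      intro e _
      rw [sq, Finset.sum_mul_sum]
    rw [Finset.sum_congr rfl e1, Finset.sum_comm]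
    refine Finset.sum_congr rfl fun p _ => ?_
    rw [Finset.sum_comm]
  rw [hsq]
  have hcg := sum_gcd P Q hP
  calc ∑ p ∈ P, ∑ p' ∈ P, ∑ e ∈ B, F p e * F p' e
      ≤ ∑ p ∈ P, ∑ p' ∈ P, ((if p = p' then (B.card : ℝ) * D ^ 2 else 0) + E0 +
        (B.card * κ) * (Nat.gcd (p - 1) (p' - 1) : ℝ)) :=
        Finset.sum_le_sum fun p hp => Finset.sum_le_sum fun p' hp' => hpt p hp p' hp'
    _ = P.card * ((B.card : ℝ) * D ^ 2) + (P.card : ℝ) ^ 2 * E0 +
        (B.card * κ) * (∑ p ∈ P, ∑ p' ∈ P, (Nat.gcd (p - 1) (p' - 1) : ℝ)) := by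
        simp only [Finset.sum_add_distrib, Finset.sum_const, nsmul_eq_mul, ← Finset.mul_sum,
          Finset.sum_ite_eq]
        rw [Finset.sum_ite_mem, Finset.inter_self, Finset.sum_const, nsmul_eq_mul]
        ring
    _ ≤ P.card * ((B.card : ℝ) * D ^ 2) + (P.card : ℝ) ^ 2 * E0 +
        (B.card * κ) * ((Q : ℝ) ^ 2 * (1 + Real.log Q)) := by
        have : 0 ≤ (B.card : ℝ) * κ := by positivity
        have := mul_le_mul_of_nonneg_left hcg this
        linarith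
    _ = _ := by ring

end Pool.Agent.N120.TH
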