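import Pool.Agent.N120.TH.All
import Pool.Agent.N120.TH.Fin4R
import Pool.Agent.N120.TH.VARA
import Pool.Agent.N120.TH.IDXRb
import Pool.Agent.N120.TH.PRMR
import Pool.Agent.N120.TH.NUMR

/-! # Project TH: all lemmas together, better exponent -/

set_option autoImplicit false

namespace Pool.Agent.N120.TH

theorem oneR : S_ONER :=
  t_ONER (t_NUMR t_PAIR t_VARA t_SZ t_FIB) t_LOC (t_CNT (t_CRV t_KUM)) t_RING
    (t_PRMR t_RING t_PR t_IDXR')

end Pool.Agent.N120.TH
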