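import Pool.Agent.N120.TH.Stm3
import Pool.Agent.N120.TH.CONV
import Pool.Agent.N120.TH.DESC
import Pool.Agent.N120.TH.LOW

/-!
# CONVJ: sparse points of degree at most `e` imply that there are no factors of degree at most `e`

Project TH (helper120), this file by helper619, after `CONV.lean` (helper424).
-/

set_option autoImplicit false
set_option linter.all false

namespace Pool.Agent.N120.TH

namespace CONVJ_

open Finset Polynomial

/-- the substitution over the algebraic closure and over a subfield -/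
theorem up {K F Kb : Type} [Field K] [Field F] [Field Kb] [Algebra K F] [Algebra K Kb]
    [Algebra F Kb] [IsScalarTower K F Kb] {n : ℕ} (m : ℕ)
    (f : Polynomial (MvPolynomial (Fin n) K)) :
    ((ext F f).map (MvPolynomial.expand m : Pn F n →ₐ[F] Pn F n).toRingHom).map
      (MvPolynomial.map (algebraMap F Kb)) =
    ((f.map (MvPolynomial.map (algebraMap K Kb))).map (MvPolynomial.expand m :
      Pn Kb n →ₐ[Kb] Pn Kb n).toRingHom) := by
  unfold ext
  rw [Polynomial.map_map, Polynomial.map_map, Polynomial.map_map]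
  congr 1
  apply MvPolynomial.ringHom_ext
  · intro a
    simp only [RingHom.comp_apply, AlgHom.toRingHom_eq_coe, RingHom.coe_coe, MvPolynomial.map_C,
      MvPolynomial.expand_C]
    rw [← IsScalarTower.algebraMap_apply]
  · intro i
    simp only [RingHom.comp_apply, AlgHom.toRingHom_eq_coe, RingHom.coe_coe, MvPolynomial.map_X,
      MvPolynomial.expand_X, map_pow]

/-- the values -/
theorem ev {K F : Type} [Field K] [Field F] [Algebra K F] {n : ℕ} (m : ℕ)
    (f : Polynomial (MvPolynomial (Fin n) K)) (t : Fin n → F) :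
    ((ext F f).map (MvPolynomial.expand m : Pn F n →ₐ[F] Pn F n).toRingHom).map
      (MvPolynomial.eval t) =
    (ext F f).map (MvPolynomial.eval (fun i => t i ^ m)) := by
  rw [Polynomial.map_map]
  congr 1
  apply MvPolynomial.ringHom_ext
  · intro a
    simp only [RingHom.comp_apply, AlgHom.toRingHom_eq_coe, RingHom.coe_coe,
      MvPolynomial.expand_C, MvPolynomial.eval_C]
  · intro i
    simp only [RingHom.comp_apply, AlgHom.toRingHom_eq_coe, RingHom.coe_coe,
      MvPolynomial.expand_X, MvPolynomial.eval_X, map_pow]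

end CONVJ_

open Finset Polynomial NumberField in
theorem t_CONVJ : S_CONVJ := by
  intro K _ _ n e f hn hfm hyp j hj1 hje m hm gb hb hgm hf hdeg
  obtain ⟨F, hFD, hPF⟩ := DESC_.exists_field (K := K) (n := n) ![gb, hb]
  have hNF : NumberField F := NumberField.of_module_finite K F
  obtain ⟨g1, hg1⟩ := hPF 0
  obtain ⟨h1, hh1⟩ := hPF 1
  simp only [Matrix.cons_val_zero, Matrix.cons_val_one] at hg1 hh1
  have hinj0 : Function.Injective
      (MvPolynomial.map (σ := Fin n) (algebraMap F (AlgebraicClosure K))) :=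
    MvPolynomial.map_injective _ (algebraMap F (AlgebraicClosure K)).injective
  have hinj := Polynomial.map_injective _ hinj0
  have hf1 : (ext F f).map (MvPolynomial.expand m : Pn F n →ₐ[F] Pn F n).toRingHom = g1 * h1 := by
    apply hinj
    rw [Polynomial.map_mul, hg1, hh1, ← hf]
    exact CONVJ_.up (K := K) (F := F) (Kb := AlgebraicClosure K) m f
  have hg1m : g1.Monic := by
    apply Polynomial.monic_of_injective hinj0
    rw [hg1]
    exact hgm
  have hg1d : g1.natDegree = j := by
    rw [← hdeg, ← hg1, Polynomial.natDegree_map_eq_of_injective hinj0]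
  obtain ⟨Γ, hΓ, hr⟩ := CONV_.exists_group F
  obtain ⟨c, hc, T0, hT0⟩ := t_LOW F n m 1 hn hm one_ne_zero Γ hΓ (by omega)
  obtain ⟨T, hT, hfin, hlt⟩ := hyp F Γ hΓ hr c hc T0
  obtain ⟨A, hA, hAc⟩ := hT0 T hT
  have hsub : (A : Set (Fin n → Fˣ)) ⊆ XD (ext F f) e Γ 1 T := by
    intro x hx
    obtain ⟨h2, t, h3, h4⟩ := hA x hx
    have hxt : (fun i => ((t i : Fˣ) : F) ^ m) = fun i => ((x i : Fˣ) : F) := by
      funext i
      rw [← (h3 i).2, Units.val_pow_eq_pow_val]
    refine ⟨fun i => ⟨(h2 i).1, ?_⟩, g1.map (MvPolynomial.eval (fun i => ((t i : Fˣ) : F))),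
      hg1m.map _, ?_, ?_, ?_⟩
    · rw [Pi.one_apply, div_one]
      exact (h2 i).2
    · rw [hg1m.natDegree_map, hg1d]
      exact hj1
    · rw [hg1m.natDegree_map, hg1d]
      exact hje
    · rw [← hxt, ← CONVJ_.ev, hf1, Polynomial.map_mul]
      exact Dvd.intro _ rfl
  have h5 : A.card ≤ (XD (ext F f) e Γ 1 T).ncard := by
    rw [← Set.ncard_coe_finset]
    exact Set.ncard_le_ncard hsub hfin
  have h6 : (A.card : ℝ) ≤ ((XD (ext F f) e Γ 1 T).ncard : ℝ) := by
    exact_mod_cast h5
  linarith

end Pool.Agent.N120.TH
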