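import Pool.Agent.N120.TH.One

/-! # Project TH: the sieve bound for all covers, exponents in boxes -/

set_option autoImplicit false

namespace Pool.Agent.N120.TH

open Finset Polynomial NumberField

namespace Fin1_

open Classical in
theorem sieve (h1 : S_ONE) {K : Type} [Field K] [NumberField K] {n r k0 : ℕ} (hn : 1 ≤ n)
    (hr : 2 ≤ r) (f : Polynomial (MvPolynomial (Fin n) K)) (c : Fin n → K)
    (hA : AlgOut K n f k0 c) (γ : Fin r → Kˣ) (hγ : ∀ v : Fin r → ℤ, ∏ j, γ j ^ v j = 1 → v = 0) :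
    ∃ C : ℝ, 0 ≤ C ∧ ∀ (u : Fin n → Fin r → ℤ) (N : ℕ), 1 ≤ N →
      (((Box u N).filter (fun e => ∃ y : K,
        (f.map (MvPolynomial.eval (fun i => c i * ((pt γ e i : Kˣ) : K) ^ k0))).eval y = 0)).card : ℝ) ≤
      C * (N : ℝ) ^ ((n * r : ℝ) - 1 / 29) := by
  obtain ⟨L, hL1, hL2, hL3, s, φ, Φ, E, hgood, hroot⟩ := hA
  obtain ⟨g, hg⟩ : ∃ g : Fin r → Lˣ, g = fun j => Units.map (algebraMap K L : K →* L) (γ j) := ⟨_, rfl⟩
  have hpt : ∀ e : Fin n → Fin r → ℤ, (fun i => algebraMap K L ((pt γ e i : Kˣ) : K)) =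
      fun i => ((pt g e i : Lˣ) : L) := by
    intro e
    funext i
    have := One_.pt_map (Units.map (algebraMap K L : K →* L)) γ e i
    rw [hg, ← this]
    rfl
  have hgi : ∀ v : Fin r → ℤ, ∏ j, g j ^ v j = 1 → v = 0 := by
    intro v hv
    apply hγ
    have h2 : Units.map (algebraMap K L : K →* L) (∏ j, γ j ^ v j) = 1 := by
      rw [map_prod]
      rw [hg] at hv
      simp only [map_zpow]
      exact hv
    have h3 : Function.Injective (Units.map (algebraMap K L : K →* L)) :=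
      Units.map_injective (algebraMap K L).injective
    exact h3 (by rw [h2, map_one])
  have hone := fun j => h1 L n r (φ j) (Φ j) (E j) hn hr (hgood j).1 (hgood j).2.1
    (hgood j).2.2.1 (hgood j).2.2.2 g hgi
  choose C hC using hone
  refine ⟨∑ j, |C j|, sum_nonneg fun _ _ => abs_nonneg _, ?_⟩
  intro u N hN
  have hsub : ((Box u N).filter (fun e => ∃ y : K,
        (f.map (MvPolynomial.eval (fun i => c i * ((pt γ e i : Kˣ) : K) ^ k0))).eval y = 0)) ⊆
      (univ : Finset (Fin s)).biUnion (fun j => (Box u N).filter (fun e => ∃ y : L,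
      ((φ j).map (MvPolynomial.eval (fun i => ((pt g e i : Lˣ) : L)))).eval y = 0)) := by
    intro e he
    rw [mem_filter] at he
    obtain ⟨he1, y, hy⟩ := he
    obtain ⟨j, hj⟩ := hroot (fun i => ((pt γ e i : Kˣ) : K)) y hy
    rw [hpt e] at hj
    rw [mem_biUnion]
    exact ⟨j, mem_univ _, mem_filter.2 ⟨he1, _, hj⟩⟩
  have h2 := (card_le_card hsub).trans card_biUnion_le
  have h3 : (((Box u N).filter (fun e => ∃ y : K,
        (f.map (MvPolynomial.eval (fun i => c i * ((pt γ e i : Kˣ) : K) ^ k0))).eval y = 0)).card : ℝ) ≤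
      ∑ j, (((Box u N).filter (fun e => ∃ y : L,
      ((φ j).map (MvPolynomial.eval (fun i => ((pt g e i : Lˣ) : L)))).eval y = 0)).card : ℝ) := by
    exact_mod_cast h2
  refine h3.trans ?_
  rw [sum_mul]
  refine sum_le_sum fun j _ => (hC j u N hN).trans ?_
  exact mul_le_mul_of_nonneg_right (le_abs_self _) (Real.rpow_nonneg (Nat.cast_nonneg _) _)

open Classical in
theorem boxes (h1 : S_ONE) (h2 : S_ALG) {K : Type} [Field K] [NumberField K] {n r : ℕ} (hn : 1 ≤ n)
    (hr : 2 ≤ r) (f : Polynomial (MvPolynomial (Fin n) K)) (hf : f.Monic) (hns : NoSec (bar f))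
    (γ : Fin r → Kˣ) (hγ : ∀ v : Fin r → ℤ, ∏ j, γ j ^ v j = 1 → v = 0) (ω : Fin n → Kˣ) :
    ∃ C : ℝ, 0 ≤ C ∧ ∀ (u : Fin n → Fin r → ℤ) (N : ℕ), 1 ≤ N →
      (((Box u N).filter (fun e => ∃ y : K,
        (f.map (MvPolynomial.eval (fun i => ((ω i * pt γ e i : Kˣ) : K)))).eval y = 0)).card : ℝ) ≤
      C * (N : ℝ) ^ ((n * r : ℝ) - 1 / 29) := by
  obtain ⟨k0, hk0, hA⟩ := h2 K n f hf hns
  have hsv := fun ρ : Fin n → Fin r → Fin k0 => sieve h1 hn hr f
    (fun i => ((ω i * ∏ j, γ j ^ ((ρ i j : ℕ) : ℤ) : Kˣ) : K))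
    (hA _ (fun i => Units.ne_zero _)) γ hγ
  choose C hC0 hC using hsv
  refine ⟨∑ ρ, C ρ, sum_nonneg fun _ _ => hC0 _, ?_⟩
  intro u N hN
  have hk : (0 : ℤ) < k0 := by exact_mod_cast hk0
  have hsub : ((Box u N).filter (fun e => ∃ y : K,
        (f.map (MvPolynomial.eval (fun i => ((ω i * pt γ e i : Kˣ) : K)))).eval y = 0)) ⊆
      (univ : Finset (Fin n → Fin r → Fin k0)).biUnion (fun ρ =>
        ((Box (fun i j => u i j / k0) N).filter (fun e => ∃ y : K,
        (f.map (MvPolynomial.eval (fun i => ((ω i * ∏ j, γ j ^ ((ρ i j : ℕ) : ℤ) : Kˣ) : K) *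
          ((pt γ e i : Kˣ) : K) ^ k0))).eval y = 0)).image (fun q i j => k0 * q i j + (ρ i j : ℕ))) := by
    intro e he
    rw [mem_filter] at he
    obtain ⟨he1, y, hy⟩ := he
    rw [mem_biUnion]
    have hmod : ∀ i j, 0 ≤ e i j % k0 ∧ e i j % k0 < k0 := fun i j =>
      ⟨Int.emod_nonneg _ hk.ne', Int.emod_lt_of_pos _ hk⟩
    refine ⟨fun i j => ⟨(e i j % k0).toNat, by have := hmod i j; omega⟩, mem_univ _, ?_⟩
    rw [mem_image]
    have hρ : ∀ i j, (((e i j % k0).toNat : ℕ) : ℤ) = e i j % k0 := fun i j =>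
      Int.toNat_of_nonneg (hmod i j).1
    refine ⟨fun i j => e i j / k0, ?_, ?_⟩
    · rw [mem_filter]
      refine ⟨?_, y, ?_⟩
      · unfold Box at he1 ⊢
        rw [Fintype.mem_piFinset] at he1 ⊢
        intro i
        have h3 := he1 i
        rw [Fintype.mem_piFinset] at h3 ⊢
        intro j
        have h4 := h3 j
        rw [mem_Ico] at h4 ⊢
        refine ⟨Int.ediv_le_ediv hk h4.1, ?_⟩
        by_contra hcon
        push Not at hcon
        have h5 := Int.mul_ediv_add_emod (e i j) k0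
        have h6 := Int.mul_ediv_add_emod (u i j) k0
        have h7 := Int.emod_lt_of_pos (u i j) hk
        have h8 := (hmod i j).1
        have hN' : (1 : ℤ) ≤ N := by exact_mod_cast hN
        have hk' : (1 : ℤ) ≤ k0 := by exact_mod_cast hk0
        have h9 : (k0 : ℤ) * (u i j / k0 + N) ≤ k0 * (e i j / k0) :=
          mul_le_mul_of_nonneg_left hcon hk.le
        nlinarith
      · have h3 : (fun i => ((ω i * ∏ j, γ j ^ (((e i j % k0).toNat : ℕ) : ℤ) : Kˣ) : K) *
            ((pt γ (fun i j => e i j / k0) i : Kˣ) : K) ^ k0) =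
            fun i => ((ω i * pt γ e i : Kˣ) : K) := by
          funext i
          rw [← Units.val_pow_eq_pow_val, ← Units.val_mul]
          congr 1
          rw [mul_assoc]
          congr 1
          unfold pt
          rw [← prod_pow, ← prod_mul_distrib]
          refine prod_congr rfl fun j _ => ?_
          rw [hρ i j, ← zpow_natCast, ← zpow_mul, ← zpow_add]
          congr 1
          have h5 := Int.mul_ediv_add_emod (e i j) k0
          rw [mul_comm (e i j / k0)]
          omega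
        show (f.map (MvPolynomial.eval (fun i => ((ω i * ∏ j, γ j ^ (((e i j % k0).toNat : ℕ) : ℤ) : Kˣ) : K) *
            ((pt γ (fun i j => e i j / k0) i : Kˣ) : K) ^ k0))).eval y = 0
        rw [h3]
        exact hy
    · funext i j
      show (k0 : ℤ) * (e i j / k0) + ((e i j % k0).toNat : ℕ) = e i j
      rw [hρ i j]
      exact Int.mul_ediv_add_emod (e i j) k0
  have h3 := (card_le_card hsub).trans card_biUnion_le
  have h4 : (((Box u N).filter (fun e => ∃ y : K,
        (f.map (MvPolynomial.eval (fun i => ((ω i * pt γ e i : Kˣ) : K)))).eval y = 0)).card : ℝ) ≤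
      ∑ ρ : Fin n → Fin r → Fin k0, (((Box (fun i j => u i j / k0) N).filter (fun e => ∃ y : K,
        (f.map (MvPolynomial.eval (fun i => ((ω i * ∏ j, γ j ^ ((ρ i j : ℕ) : ℤ) : Kˣ) : K) *
          ((pt γ e i : Kˣ) : K) ^ k0))).eval y = 0)).card : ℝ) := by
    have h5 := h3.trans (sum_le_sum fun ρ _ => card_image_le)
    exact_mod_cast h5
  refine h4.trans ?_
  rw [sum_mul]
  exact sum_le_sum fun ρ _ => hC ρ _ N hN

end Fin1_

end Pool.Agent.N120.TH
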