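import Pool.Agent.N120.TH.Stm
import Pool.Agent.N120.TC.Core7

/-! # Project TH: from exponents in boxes to heights -/

set_option autoImplicit false

namespace Pool.Agent.N120.TH

open Finset Polynomial NumberField

namespace Fin2_

open Classical in
theorem heights_gen {K : Type} [Field K] [NumberField K] (Γ : Subgroup Kˣ) (n r : ℕ) (ρ : ℝ)
    (hρ : 0 ≤ ρ) (γ : Fin r → Kˣ) (R : Finset Kˣ)
    (hrep : ∀ x ∈ Γ, ∃ ω ∈ R, ∃ e : Fin r → ℤ, x = ω * ∏ j, γ j ^ e j)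
    (hind : ∀ e : Fin r → ℤ, ∏ j, γ j ^ e j = 1 → e = 0)
    (Q : (Fin n → Kˣ) → Prop)
    (hQ : ∀ ω : Fin n → Kˣ, ∃ C : ℝ, 0 ≤ C ∧ ∀ (u : Fin n → Fin r → ℤ) (N : ℕ), 1 ≤ N →
      (((Box u N).filter (fun e => Q (fun i => ω i * pt γ e i))).card : ℝ) ≤ C * (N : ℝ) ^ ρ) :
    ∃ C : ℝ, 0 ≤ C ∧ ∀ y : Fin n → Kˣ, (∀ i, y i ∈ Γ) → ∀ T : ℝ, 1 ≤ T →
      {x : Fin n → Kˣ | (∀ i, x i ∈ Γ ∧ Height.logHeight₁ ((x i / y i : Kˣ) : K) ≤ T) ∧
        Q x}.Finite ∧
      (({x : Fin n → Kˣ | (∀ i, x i ∈ Γ ∧ Height.logHeight₁ ((x i / y i : Kˣ) : K) ≤ T) ∧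
        Q x}).ncard : ℝ) ≤ C * T ^ ρ := by
  obtain ⟨c, hc1, hc⟩ := TC.norm_lower K γ hind
  choose C hC0 hC using hQ
  obtain ⟨B, hB⟩ : ∃ B : ℝ, B = ∑ ω ∈ R, Height.logHeight₁ ((ω : Kˣ) : K) := ⟨_, rfl⟩
  have hh0 : ∀ z : K, 0 ≤ Height.logHeight₁ z := fun z => Height.zero_le_logHeight₁ z
  have hB0 : 0 ≤ B := by rw [hB]; exact sum_nonneg fun ω _ => hh0 _
  have hBω : ∀ ω ∈ R, Height.logHeight₁ ((ω : Kˣ) : K) ≤ B := by
    intro ω hω
    rw [hB]
    exact single_le_sum (f := fun ω : Kˣ => Height.logHeight₁ ((ω : Kˣ) : K))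
      (fun ω _ => hh0 _) hω
  obtain ⟨W, hWd⟩ : ∃ W : Finset (Fin n → Kˣ), W = Fintype.piFinset (fun _ => R) := ⟨_, rfl⟩
  obtain ⟨A, hAd⟩ : ∃ A : ℝ, A = 2 * (c * (1 + 2 * B)) + 3 := ⟨_, rfl⟩
  have hA1 : 1 ≤ A := by
    rw [hAd]
    have : 0 ≤ (c : ℝ) * (1 + 2 * B) := by positivity
    linarith
  refine ⟨(∑ ω ∈ W, C ω) * A ^ ρ,
    mul_nonneg (sum_nonneg fun ω _ => hC0 ω) (Real.rpow_nonneg (by linarith) _), ?_⟩
  intro y hy T hT
  have hT0 : 0 < T := by linarith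
  obtain ⟨L, hL⟩ : ∃ L : ℕ, L = ⌈(c : ℝ) * (1 + 2 * B) * T⌉₊ := ⟨_, rfl⟩
  have hL1 : (c : ℝ) * (1 + 2 * B) * T ≤ L := by rw [hL]; exact Nat.le_ceil _
  have hL2 : (L : ℝ) ≤ (c : ℝ) * (1 + 2 * B) * T + 1 := by
    rw [hL]
    exact (Nat.ceil_lt_add_one (by positivity)).le
  obtain ⟨N, hN⟩ : ∃ N : ℕ, N = 2 * L + 1 := ⟨_, rfl⟩
  have hN1 : 1 ≤ N := by omega
  have hNA : (N : ℝ) ≤ A * T := by
    rw [hN, hAd]
    push_cast
    nlinarith
  choose ω' hω' v hv using fun i => hrep (y i) (hy i)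
  have hsub : {x : Fin n → Kˣ | (∀ i, x i ∈ Γ ∧ Height.logHeight₁ ((x i / y i : Kˣ) : K) ≤ T) ∧
        Q x} ⊆ ((W.biUnion (fun ω => ((Box (fun i j => v i j - L) N).filter
          (fun e => Q (fun i => ω i * pt γ e i))).image (fun e i => ω i * pt γ e i)) :
      Finset (Fin n → Kˣ)) : Set (Fin n → Kˣ)) := by
    rintro x ⟨hx1, hx2⟩
    choose ω hω e he using fun i => hrep (x i) (hx1 i).1
    have hbd : ∀ i j, |((e i j - v i j : ℤ) : ℝ)| ≤ L := by
      intro i j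
      refine (hc (fun j => e i j - v i j) j).trans ?_
      have h2 : ∏ j, γ j ^ (e i j - v i j) = (x i / y i) * ((ω i)⁻¹ * ω' i) := by
        have h3 : ∏ j, γ j ^ (e i j - v i j) = (∏ j, γ j ^ e i j) * (∏ j, γ j ^ v i j)⁻¹ := by
          rw [← prod_inv_distrib, ← prod_mul_distrib]
          refine prod_congr rfl fun j _ => ?_
          rw [zpow_sub]
        rw [h3, he i, hv i, div_eq_mul_inv, mul_inv]
        have h4 : ∀ a b w w' : Kˣ, (w * a) * (w'⁻¹ * b⁻¹) * (w⁻¹ * w') =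
            (w * w⁻¹) * (w' * w'⁻¹) * (a * b⁻¹) := by
          intro a b w w'
          ac_rfl
        rw [h4, mul_inv_cancel, mul_inv_cancel, one_mul, one_mul]
      have h3 : Height.logHeight₁ (((∏ j, γ j ^ (e i j - v i j) : Kˣ)) : K) ≤ T + 2 * B := by
        rw [h2, Units.val_mul]
        refine (Height.logHeight₁_mul_le _ _).trans ?_
        refine add_le_add (hx1 i).2 ?_
        rw [Units.val_mul]
        refine (Height.logHeight₁_mul_le _ _).trans ?_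
        rw [Units.val_inv_eq_inv_val, Height.logHeight₁_inv, two_mul]
        exact add_le_add (hBω _ (hω i)) (hBω _ (hω' i))
      have h5 : (c : ℝ) * Height.logHeight₁ (((∏ j, γ j ^ (e i j - v i j) : Kˣ)) : K) ≤
          c * (T + 2 * B) := mul_le_mul_of_nonneg_left h3 (Nat.cast_nonneg _)
      refine h5.trans (le_trans ?_ hL1)
      rw [mul_assoc]
      refine mul_le_mul_of_nonneg_left ?_ (Nat.cast_nonneg _)
      nlinarith
    have hbd2 : ∀ i j, -(L : ℤ) ≤ e i j - v i j ∧ e i j - v i j ≤ L := by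
      intro i j
      have h2 := abs_le.1 (hbd i j)
      constructor
      · exact_mod_cast h2.1
      · exact_mod_cast h2.2
    have hxp : (fun i => ω i * pt γ e i) = x := by
      funext i
      exact (he i).symm
    rw [mem_coe, mem_biUnion]
    refine ⟨ω, ?_, ?_⟩
    · rw [hWd, Fintype.mem_piFinset]
      exact hω
    · rw [mem_image]
      refine ⟨e, ?_, hxp⟩
      rw [mem_filter]
      refine ⟨?_, ?_⟩
      · unfold Box
        rw [Fintype.mem_piFinset]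
        intro i
        rw [Fintype.mem_piFinset]
        intro j
        rw [mem_Ico]
        have h6 := hbd2 i j
        show v i j - L ≤ e i j ∧ e i j < v i j - L + (N : ℤ)
        have h7 : (N : ℤ) = 2 * L + 1 := by rw [hN]; push_cast; ring
        rw [h7]
        exact ⟨by linarith [h6.1], by linarith [h6.2]⟩
      · rw [hxp]
        exact hx2
  have hfin : {x : Fin n → Kˣ | (∀ i, x i ∈ Γ ∧ Height.logHeight₁ ((x i / y i : Kˣ) : K) ≤ T) ∧
        Q x}.Finite := (finite_toSet _).subset hsub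
  refine ⟨hfin, ?_⟩
  have h1 := Set.ncard_le_ncard hsub (finite_toSet _)
  rw [Set.ncard_coe_finset] at h1
  have h2 : ∀ ω ∈ W, ((((Box (fun i j => v i j - L) N).filter
          (fun e => Q (fun i => ω i * pt γ e i))).image (fun e i => ω i * pt γ e i)).card : ℝ) ≤
          C ω * (N : ℝ) ^ ρ := by
    intro ω _
    refine le_trans ?_ (hC ω (fun i j => v i j - L) N hN1)
    exact_mod_cast card_image_le
  have h3 := h1.trans card_biUnion_le
  have h4 : (({x : Fin n → Kˣ | (∀ i, x i ∈ Γ ∧ Height.logHeight₁ ((x i / y i : Kˣ) : K) ≤ T) ∧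
        Q x}).ncard : ℝ) ≤ ∑ ω ∈ W, ((((Box (fun i j => v i j - L) N).filter
          (fun e => Q (fun i => ω i * pt γ e i))).image (fun e i => ω i * pt γ e i)).card : ℝ) := by
    exact_mod_cast h3
  refine h4.trans ((sum_le_sum h2).trans ?_)
  rw [← sum_mul, mul_assoc]
  refine mul_le_mul_of_nonneg_left ?_ (sum_nonneg fun ω _ => hC0 ω)
  rw [← Real.mul_rpow (by linarith) hT0.le]
  exact Real.rpow_le_rpow (Nat.cast_nonneg _) hNA hρ

end Fin2_

end Pool.Agent.N120.TH
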