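import Pool.Agent.N120.TH.Fin2
import Pool.Agent.N120.TH.Fin3

/-! # Project TH: base change, the bound for heights -/

set_option autoImplicit false

namespace Pool.Agent.N120.TH

open Finset Polynomial NumberField

namespace Fin4_

theorem sec_ext {K : Type} [Field K] [NumberField K] {n s : ℕ}
    (f : Polynomial (MvPolynomial (Fin n) K)) (G : Fin s → Polynomial (MvPolynomial (Fin n) K))
    (hS : Sec f G) (F : Type) [Field F] [NumberField F] [Algebra K F] :
    Sec (ext F f) (fun j => ext F (G j)) := by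
  haveI : FiniteDimensional K F := Module.Finite.of_restrictScalars_finite ℚ K F
  haveI : Algebra.IsAlgebraic K F := inferInstance
  haveI : Algebra.IsAlgebraic K (AlgebraicClosure F) := Algebra.IsAlgebraic.trans K F _
  let τ : AlgebraicClosure F →ₐ[K] AlgebraicClosure K := IsAlgClosed.lift
  have h4 : ∀ g : Polynomial (MvPolynomial (Fin n) K),
      (bar (ext F g)).map (MvPolynomial.map (σ := Fin n)
        (τ : AlgebraicClosure F →+* AlgebraicClosure K)) = bar g := by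
    intro g
    unfold bar ext
    rw [Polynomial.map_map, Polynomial.map_map]
    congr 1
    apply MvPolynomial.ringHom_ext
    · intro a
      simp only [RingHom.comp_apply, MvPolynomial.map_C]
      rw [← IsScalarTower.algebraMap_apply K F (AlgebraicClosure F)]
      congr 1
      exact τ.commutes a
    · intro j
      simp
  intro m hm h hh j
  have hinj : Function.Injective (MvPolynomial.map (σ := Fin n)
      (τ : AlgebraicClosure F →+* AlgebraicClosure K)) :=
    MvPolynomial.map_injective _ τ.toRingHom.injective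
  apply hinj
  rw [map_zero, ← Fin3_.sec_map, h4]
  apply hS m hm
  rw [← h4 f, Fin3_.sec_map, hh, map_zero]

theorem spars (h1 : S_ONE) (h2 : S_ALG) (h3 : S_FCT) {K : Type} [Field K] [NumberField K]
    {n s : ℕ} (hn : 1 ≤ n) (f : Polynomial (MvPolynomial (Fin n) K)) (hf : f.Monic)
    (G : Fin s → Polynomial (MvPolynomial (Fin n) K)) (hS : Sec f G) (Γ : Subgroup Kˣ) (hΓ : Γ.FG)
    (hr : 2 ≤ Module.finrank ℤ (Additive Γ)) :
    ∃ C : ℝ, 0 ≤ C ∧ ∀ y : Fin n → Kˣ, (∀ i, y i ∈ Γ) → ∀ T : ℝ, 1 ≤ T →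
      (XP f G Γ y T).Finite ∧ ((XP f G Γ y T).ncard : ℝ) ≤
        C * T ^ ((n : ℝ) * Module.finrank ℤ (Additive Γ) - 1 / 29) := by
  obtain ⟨γ, R, hγΓ, hRΓ, hrep, hind⟩ := TC.exists_basis Γ hΓ
  refine Fin2_.heights_gen Γ n _ _ ?_ γ R hrep hind (fun x => ∃ w : K,
      (f.map (MvPolynomial.eval (fun i => ((x i : Kˣ) : K)))).eval w = 0 ∧
      ∃ j, ((G j).map (MvPolynomial.eval (fun i => ((x i : Kˣ) : K)))).eval w ≠ 0) ?_
  · have a1 : (1 : ℝ) ≤ n := by exact_mod_cast hn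
    have a2 : (2 : ℝ) ≤ Module.finrank ℤ (Additive Γ) := by exact_mod_cast hr
    nlinarith
  · intro ω
    exact Fin3_.comp h1 h2 h3 hn hr f hf G hS γ hind ω

/-- the points themselves -/
def PP {K : Type} [Field K] [NumberField K] {n s : ℕ} (f : Polynomial (MvPolynomial (Fin n) K))
    (G : Fin s → Polynomial (MvPolynomial (Fin n) K)) (Γ : Subgroup Kˣ) (y : Fin n → Kˣ) (T : ℝ) :
    Set ((Fin n → Kˣ) × K) :=
  {z | (∀ i, z.1 i ∈ Γ ∧ Height.logHeight₁ ((z.1 i / y i : Kˣ) : K) ≤ T) ∧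
    (f.map (MvPolynomial.eval (fun i => ((z.1 i : Kˣ) : K)))).eval z.2 = 0 ∧
      ∃ j, ((G j).map (MvPolynomial.eval (fun i => ((z.1 i : Kˣ) : K)))).eval z.2 ≠ 0}

lemma fst_PP {K : Type} [Field K] [NumberField K] {n s : ℕ} (f : Polynomial (MvPolynomial (Fin n) K))
    (G : Fin s → Polynomial (MvPolynomial (Fin n) K)) (Γ : Subgroup Kˣ) (y : Fin n → Kˣ) (T : ℝ) :
    Prod.fst '' (PP f G Γ y T) = XP f G Γ y T := by
  ext x
  constructor
  · rintro ⟨⟨x', w⟩, ⟨h1, h2, h3⟩, rfl⟩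
    exact ⟨h1, w, h2, h3⟩
  · rintro ⟨h1, w, h2, h3⟩
    exact ⟨(x, w), ⟨h1, h2, h3⟩, rfl⟩

open Classical in
lemma PP_le {K : Type} [Field K] [NumberField K] {n s : ℕ} (f : Polynomial (MvPolynomial (Fin n) K))
    (hf : f.Monic) (G : Fin s → Polynomial (MvPolynomial (Fin n) K)) (Γ : Subgroup Kˣ)
    (y : Fin n → Kˣ) (T : ℝ) (hfin : (XP f G Γ y T).Finite) :
    (PP f G Γ y T).Finite ∧ (PP f G Γ y T).ncard ≤ f.natDegree * (XP f G Γ y T).ncard := by
  obtain ⟨S, hS⟩ : ∃ S : Finset ((Fin n → Kˣ) × K), S = hfin.toFinset.biUnion (fun x =>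
      ((f.map (MvPolynomial.eval (fun i => ((x i : Kˣ) : K)))).roots.toFinset).image
        (fun w => (x, w))) := ⟨_, rfl⟩
  have hsub : PP f G Γ y T ⊆ (S : Set ((Fin n → Kˣ) × K)) := by
    rintro ⟨x, w⟩ ⟨h1, h2, h3⟩
    rw [hS, mem_coe, mem_biUnion]
    refine ⟨x, ?_, ?_⟩
    · rw [Set.Finite.mem_toFinset]
      exact ⟨h1, w, h2, h3⟩
    · rw [mem_image]
      refine ⟨w, ?_, rfl⟩
      rw [Multiset.mem_toFinset, Polynomial.mem_roots (hf.map _).ne_zero]
      exact h2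
  have hcard : S.card ≤ f.natDegree * (XP f G Γ y T).ncard := by
    rw [hS, Set.ncard_eq_toFinset_card _ hfin, mul_comm]
    refine card_biUnion_le.trans ?_
    refine (sum_le_card_nsmul _ _ f.natDegree fun x _ => ?_).trans (le_of_eq (smul_eq_mul _ _))
    refine card_image_le.trans ((Multiset.toFinset_card_le _).trans ?_)
    exact (Polynomial.card_roots' _).trans (Polynomial.natDegree_map_le)
  refine ⟨(finite_toSet _).subset hsub, ?_⟩
  refine le_trans ?_ hcard
  rw [← Set.ncard_coe_finset]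
  exact Set.ncard_le_ncard hsub (finite_toSet _)

/-- the sparseness of the points outside `V'` over all number fields -/
def Sparse {K : Type} [Field K] [NumberField K] {n s : ℕ} (f : Polynomial (MvPolynomial (Fin n) K))
    (G : Fin s → Polynomial (MvPolynomial (Fin n) K)) : Prop :=
  ∀ (F : Type) [Field F] [NumberField F] [Algebra K F] (Γ : Subgroup Fˣ), Γ.FG →
    2 ≤ Module.finrank ℤ (Additive Γ) → ∃ C : ℝ, ∀ y : Fin n → Fˣ, (∀ i, y i ∈ Γ) →
      ∀ T : ℝ, 1 ≤ T → (PP (ext F f) (fun j => ext F (G j)) Γ y T).Finite ∧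
        ((PP (ext F f) (fun j => ext F (G j)) Γ y T).ncard : ℝ) ≤
          C * T ^ ((n : ℝ) * Module.finrank ℤ (Additive Γ) - 1 / 29)

/-- a weak form -/
def NotPos {K : Type} [Field K] [NumberField K] {n s : ℕ} (f : Polynomial (MvPolynomial (Fin n) K))
    (G : Fin s → Polynomial (MvPolynomial (Fin n) K)) : Prop :=
  ∀ (F : Type) [Field F] [NumberField F] [Algebra K F] (Γ : Subgroup Fˣ), Γ.FG →
    2 ≤ Module.finrank ℤ (Additive Γ) → ∀ c : ℝ, 0 < c → ∀ T0 : ℝ, ∃ T : ℝ, T0 ≤ T ∧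
      (PP (ext F f) (fun j => ext F (G j)) Γ 1 T).Finite ∧
        ((PP (ext F f) (fun j => ext F (G j)) Γ 1 T).ncard : ℝ) <
          c * T ^ ((n : ℝ) * Module.finrank ℤ (Additive Γ))

theorem tfae (h1 : S_ONE) (h2 : S_ALG) (h3 : S_FCT) (h4 : S_CONV) {K : Type} [Field K]
    [NumberField K] {n s : ℕ} (hn : 1 ≤ n) (f : Polynomial (MvPolynomial (Fin n) K)) (hf : f.Monic)
    (G : Fin s → Polynomial (MvPolynomial (Fin n) K)) :
    [Sec f G, Sparse f G, NotPos f G].TFAE := by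
  have h12 : Sec f G → Sparse f G := by
    intro hS F _ _ _ Γ hΓ hr
    have hfF : (ext F f).Monic := hf.map _
    obtain ⟨C, hC0, hC⟩ := spars h1 h2 h3 hn (ext F f) hfF _ (sec_ext f G hS F) Γ hΓ hr
    refine ⟨(ext F f).natDegree * C, fun y hy T hT => ?_⟩
    obtain ⟨e1, e2⟩ := hC y hy T hT
    obtain ⟨e3, e4⟩ := PP_le (ext F f) hfF (fun j => ext F (G j)) Γ y T e1
    refine ⟨e3, ?_⟩
    have e5 : ((PP (ext F f) (fun j => ext F (G j)) Γ y T).ncard : ℝ) ≤
        (ext F f).natDegree * ((XP (ext F f) (fun j => ext F (G j)) Γ y T).ncard : ℝ) := by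
      exact_mod_cast e4
    rw [mul_assoc]
    exact e5.trans (mul_le_mul_of_nonneg_left e2 (Nat.cast_nonneg _))
  have h23 : Sparse f G → NotPos f G := by
    intro hS F _ _ _ Γ hΓ hr c hc T0
    obtain ⟨C, hC⟩ := hS F Γ hΓ hr
    have ht : Filter.Tendsto (fun T : ℝ => C * T ^ (-(1 / 29 : ℝ))) Filter.atTop (nhds 0) := by
      have := (tendsto_rpow_neg_atTop (by norm_num : (0 : ℝ) < 1 / 29)).const_mul C
      rwa [mul_zero] at this
    obtain ⟨T, hT1, hT2⟩ := ((ht.eventually_lt_const hc).and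
      (Filter.eventually_ge_atTop (max T0 1))).exists
    have hT3 : 1 ≤ T := le_trans (le_max_right _ _) hT2
    obtain ⟨e1, e2⟩ := hC 1 (fun i => Γ.one_mem) T hT3
    refine ⟨T, le_trans (le_max_left _ _) hT2, e1, lt_of_le_of_lt e2 ?_⟩
    have hTp : 0 < T := by linarith
    rw [sub_eq_add_neg, Real.rpow_add hTp, mul_comm (T ^ _) (T ^ _), ← mul_assoc]
    exact mul_lt_mul_of_pos_right hT1 (Real.rpow_pos_of_pos hTp _)
  have h31 : NotPos f G → Sec f G := by
    intro hS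
    apply h4 K n s f G hn
    intro F _ _ _ Γ hΓ hr c hc T0
    obtain ⟨T, hT, e1, e2⟩ := hS F Γ hΓ hr c hc T0
    refine ⟨T, hT, ?_, ?_⟩
    · rw [← fst_PP]
      exact e1.image _
    · refine lt_of_le_of_lt ?_ e2
      rw [← fst_PP]
      exact_mod_cast Set.ncard_image_le e1
  tfae_have 1 → 2 := h12
  tfae_have 2 → 3 := h23
  tfae_have 3 → 1 := h31
  tfae_finish

end Fin4_

end Pool.Agent.N120.TH
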