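import Pool.Agent.N120.TH.Stm2

/-!
# Project TH, third part: algebraic points of bounded degree
-/

set_option autoImplicit false

namespace Pool.Agent.N120.TH

open Finset Polynomial NumberField

/-- no `f(x_1 ^ m, …, x_n ^ m, y)`, `m ≥ 1`, has a monic factor of degree `j` in `k[x_1..x_n][y]` -/
def NoFac {k : Type} [Field k] {n : ℕ} (f : (Pn k n)[X]) (j : ℕ) : Prop :=
  ∀ m : ℕ, 1 ≤ m → ∀ g h : (Pn k n)[X], g.Monic →
    f.map (MvPolynomial.expand m : Pn k n →ₐ[k] Pn k n).toRingHom = g * h → g.natDegree ≠ j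

/-- **HITJ**. -/
def S_HITJ : Prop := ∀ (K : Type) [Field K] [CharZero K] (n : ℕ)
  (f : Polynomial (MvPolynomial (Fin n) K)), f.Monic → ∀ j : ℕ, 1 ≤ j → NoFac (bar f) j →
  ∃ F : Polynomial (MvPolynomial (Fin n) K), F.Monic ∧ NoSec (bar F) ∧
    ∀ x : Fin n → K, (∃ g h : K[X], g.Monic ∧ g.natDegree = j ∧
      f.map (MvPolynomial.eval x) = g * h) → ∃ y : K, (F.map (MvPolynomial.eval x)).eval y = 0

/-- the points of `Γ ^ n` of height at most `T` (seen from `y`) above which `V` has a point of degree at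
most `e` over `K` -/
def XD {K : Type} [Field K] [NumberField K] {n : ℕ} (f : Polynomial (MvPolynomial (Fin n) K))
    (e : ℕ) (Γ : Subgroup Kˣ) (y : Fin n → Kˣ) (T : ℝ) : Set (Fin n → Kˣ) :=
  {x | (∀ i, x i ∈ Γ ∧ Height.logHeight₁ ((x i / y i : Kˣ) : K) ≤ T) ∧
    ∃ g : K[X], g.Monic ∧ 1 ≤ g.natDegree ∧ g.natDegree ≤ e ∧
      g ∣ f.map (MvPolynomial.eval (fun i => ((x i : Kˣ) : K)))}

/-- **CONVJ**. -/
def S_CONVJ : Prop := ∀ (K : Type) [Field K] [NumberField K] (n e : ℕ)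
  (f : Polynomial (MvPolynomial (Fin n) K)), 1 ≤ n → f.Monic →
  (∀ (F : Type) [Field F] [NumberField F] [Algebra K F] (Γ : Subgroup Fˣ), Γ.FG →
    2 ≤ Module.finrank ℤ (Additive Γ) → ∀ (c : ℝ), 0 < c → ∀ T0 : ℝ, ∃ T : ℝ, T0 ≤ T ∧
    (XD (ext F f) e Γ 1 T).Finite ∧
    ((XD (ext F f) e Γ 1 T).ncard : ℝ) < c * T ^ ((n : ℝ) * Module.finrank ℤ (Additive Γ))) →
  ∀ j : ℕ, 1 ≤ j → j ≤ e → NoFac (bar f) j

end Pool.Agent.N120.TH
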