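import Pool.Agent.N120.TH.Fin4
import Pool.Agent.N120.TH.Stm3

/-! # Project TH: algebraic points of bounded degree -/

set_option autoImplicit false

namespace Pool.Agent.N120.TH

open Finset Polynomial NumberField

namespace Fin5_

theorem nofac_ext {K : Type} [Field K] [NumberField K] {n j : ℕ}
    (f : Polynomial (MvPolynomial (Fin n) K)) (hS : NoFac (bar f) j)
    (F : Type) [Field F] [NumberField F] [Algebra K F] : NoFac (bar (ext F f)) j := by
  haveI : FiniteDimensional K F := Module.Finite.of_restrictScalars_finite ℚ K F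
  haveI : Algebra.IsAlgebraic K F := inferInstance
  haveI : Algebra.IsAlgebraic K (AlgebraicClosure F) := Algebra.IsAlgebraic.trans K F _
  let τ : AlgebraicClosure F →ₐ[K] AlgebraicClosure K := IsAlgClosed.lift
  have h4 : (bar (ext F f)).map (MvPolynomial.map (σ := Fin n)
        (τ : AlgebraicClosure F →+* AlgebraicClosure K)) = bar f := by
    unfold bar ext
    rw [Polynomial.map_map, Polynomial.map_map]
    congr 1
    apply MvPolynomial.ringHom_ext
    · intro a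
      simp only [RingHom.comp_apply, MvPolynomial.map_C]
      rw [← IsScalarTower.algebraMap_apply K F (AlgebraicClosure F)]
      congr 1
      exact τ.commutes a
    · intro j
      simp
  intro m hm g h hg hgh hdeg
  refine hS m hm (g.map (MvPolynomial.map (τ : AlgebraicClosure F →+* AlgebraicClosure K)))
    (h.map (MvPolynomial.map (τ : AlgebraicClosure F →+* AlgebraicClosure K))) (hg.map _) ?_ ?_
  · rw [← Polynomial.map_mul, ← hgh, ← h4, Polynomial.map_map, Polynomial.map_map,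
      Fin3_.expand_map]
  · rw [hg.natDegree_map]
    exact hdeg

theorem sec_one {K : Type} [Field K] {n : ℕ} (f : Polynomial (MvPolynomial (Fin n) K))
    (h : NoSec (bar f)) : Sec f (fun _ : Fin 1 => 1) := by
  intro m hm g hg
  exact absurd hg (h m hm g)

theorem sparsJ (h1 : S_ONE) (h2 : S_ALG) (h3 : S_FCT) (h5 : S_HITJ) {K : Type} [Field K]
    [NumberField K] {n : ℕ} (hn : 1 ≤ n) (e : ℕ) (f : Polynomial (MvPolynomial (Fin n) K))
    (hf : f.Monic) (hS : ∀ j, 1 ≤ j → j ≤ e → NoFac (bar f) j) (Γ : Subgroup Kˣ) (hΓ : Γ.FG)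
    (hr : 2 ≤ Module.finrank ℤ (Additive Γ)) :
    ∃ C : ℝ, 0 ≤ C ∧ ∀ y : Fin n → Kˣ, (∀ i, y i ∈ Γ) → ∀ T : ℝ, 1 ≤ T →
      (XD f e Γ y T).Finite ∧ ((XD f e Γ y T).ncard : ℝ) ≤
        C * T ^ ((n : ℝ) * Module.finrank ℤ (Additive Γ) - 1 / 29) := by
  have key : ∀ i : Fin e, ∃ F : Polynomial (MvPolynomial (Fin n) K), F.Monic ∧ NoSec (bar F) ∧
    ∀ x : Fin n → K, (∃ g h : K[X], g.Monic ∧ g.natDegree = (i : ℕ) + 1 ∧
      f.map (MvPolynomial.eval x) = g * h) → ∃ y : K, (F.map (MvPolynomial.eval x)).eval y = 0 :=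
    fun i => h5 K n f hf (i + 1) (by omega) (hS (i + 1) (by omega) (by have := i.2; omega))
  choose F hFm hFs hF using key
  have key2 := fun i => Fin4_.spars h1 h2 h3 hn (F i) (hFm i) (fun _ : Fin 1 => 1)
    (sec_one (F i) (hFs i)) Γ hΓ hr
  choose C hC0 hC using key2
  refine ⟨∑ i, C i, sum_nonneg fun i _ => hC0 i, fun y hy T hT => ?_⟩
  have hsub : XD f e Γ y T ⊆ ⋃ i : Fin e, XP (F i) (fun _ : Fin 1 => 1) Γ y T := by
    rintro x ⟨hx, g, hg, hg1, hge, h, hh⟩
    obtain ⟨i, hi⟩ : ∃ i : Fin e, (i : ℕ) + 1 = g.natDegree :=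
      ⟨⟨g.natDegree - 1, by omega⟩, by simp only; omega⟩
    rw [Set.mem_iUnion]
    refine ⟨i, hx, ?_⟩
    obtain ⟨w, hw⟩ := hF i (fun i => ((x i : Kˣ) : K)) ⟨g, h, hg, hi.symm, hh⟩
    refine ⟨w, hw, 0, ?_⟩
    rw [Polynomial.map_one, Polynomial.eval_one]
    exact one_ne_zero
  have hfin : (⋃ i : Fin e, XP (F i) (fun _ : Fin 1 => 1) Γ y T).Finite :=
    Set.finite_iUnion fun i => (hC i y hy T hT).1
  refine ⟨hfin.subset hsub, ?_⟩
  have h4 : (XD f e Γ y T).ncard ≤ ∑ i : Fin e, (XP (F i) (fun _ : Fin 1 => 1) Γ y T).ncard := by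
    refine (Set.ncard_le_ncard hsub hfin).trans ?_
    classical
    have h6 : (⋃ i : Fin e, XP (F i) (fun _ : Fin 1 => 1) Γ y T) =
        (((univ : Finset (Fin e)).biUnion fun i => (hC i y hy T hT).1.toFinset :
          Finset (Fin n → Kˣ)) : Set (Fin n → Kˣ)) := by
      ext x
      simp
    rw [h6, Set.ncard_coe_finset]
    refine card_biUnion_le.trans (sum_le_sum fun i _ => ?_)
    exact (Set.ncard_eq_toFinset_card _ (hC i y hy T hT).1).ge
  have h5 : ((XD f e Γ y T).ncard : ℝ) ≤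
      ∑ i : Fin e, ((XP (F i) (fun _ : Fin 1 => 1) Γ y T).ncard : ℝ) := by exact_mod_cast h4
  refine h5.trans ((sum_le_sum fun i _ => (hC i y hy T hT).2).trans ?_)
  rw [sum_mul]

/-- the algebraic points of degree at most `e` -/
def PD {K : Type} [Field K] [NumberField K] {n : ℕ} (f : Polynomial (MvPolynomial (Fin n) K))
    (e : ℕ) (Γ : Subgroup Kˣ) (y : Fin n → Kˣ) (T : ℝ) :
    Set ((Fin n → Kˣ) × AlgebraicClosure K) :=
  {z | (∀ i, z.1 i ∈ Γ ∧ Height.logHeight₁ ((z.1 i / y i : Kˣ) : K) ≤ T) ∧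
    Polynomial.aeval z.2 (f.map (MvPolynomial.eval (fun i => ((z.1 i : Kˣ) : K)))) = 0 ∧
    (minpoly K z.2).natDegree ≤ e}

lemma fst_PD {K : Type} [Field K] [NumberField K] {n : ℕ} (f : Polynomial (MvPolynomial (Fin n) K))
    (e : ℕ) (Γ : Subgroup Kˣ) (y : Fin n → Kˣ) (T : ℝ) :
    Prod.fst '' (PD f e Γ y T) = XD f e Γ y T := by
  ext x
  constructor
  · rintro ⟨⟨x', w⟩, ⟨h1, h2, h3⟩, rfl⟩
    have hw : IsIntegral K w := Algebra.IsIntegral.isIntegral w
    exact ⟨h1, minpoly K w, minpoly.monic hw, minpoly.natDegree_pos hw, h3, minpoly.dvd K w h2⟩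
  · rintro ⟨h1, g, hg, hg1, hge, hdvd⟩
    obtain ⟨w, hw⟩ := IsAlgClosed.exists_aeval_eq_zero (AlgebraicClosure K) g (by
      rw [Polynomial.degree_eq_natDegree hg.ne_zero]
      intro h0
      have : g.natDegree = 0 := by exact_mod_cast h0
      omega)
    refine ⟨(x, w), ⟨h1, ?_, ?_⟩, rfl⟩
    · obtain ⟨q, hq⟩ := hdvd
      show Polynomial.aeval w (f.map (MvPolynomial.eval (fun i => ((x i : Kˣ) : K)))) = 0
      rw [hq, map_mul, hw, zero_mul]
    · exact (natDegree_le_of_dvd (minpoly.dvd K w hw) hg.ne_zero).trans hge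

open Classical in
lemma PD_le {K : Type} [Field K] [NumberField K] {n : ℕ} (f : Polynomial (MvPolynomial (Fin n) K))
    (hf : f.Monic) (e : ℕ) (Γ : Subgroup Kˣ)
    (y : Fin n → Kˣ) (T : ℝ) (hfin : (XD f e Γ y T).Finite) :
    (PD f e Γ y T).Finite ∧ (PD f e Γ y T).ncard ≤ f.natDegree * (XD f e Γ y T).ncard := by
  obtain ⟨S, hS⟩ : ∃ S : Finset ((Fin n → Kˣ) × AlgebraicClosure K), S = hfin.toFinset.biUnion (fun x =>
      (((f.map (MvPolynomial.eval (fun i => ((x i : Kˣ) : K)))).map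
        (algebraMap K (AlgebraicClosure K))).roots.toFinset).image
        (fun w => (x, w))) := ⟨_, rfl⟩
  have hsub : PD f e Γ y T ⊆ (S : Set ((Fin n → Kˣ) × AlgebraicClosure K)) := by
    rintro ⟨x, w⟩ hz
    have hx : x ∈ XD f e Γ y T := by
      rw [← fst_PD]
      exact ⟨(x, w), hz, rfl⟩
    obtain ⟨h1, h2, h3⟩ := hz
    rw [hS, mem_coe, mem_biUnion]
    refine ⟨x, ?_, ?_⟩
    · rw [Set.Finite.mem_toFinset]
      exact hx
    · rw [mem_image]
      refine ⟨w, ?_, rfl⟩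
      rw [Multiset.mem_toFinset, Polynomial.mem_roots ((hf.map _).map _).ne_zero,
        Polynomial.IsRoot.def, Polynomial.eval_map_algebraMap]
      exact h2
  have hcard : S.card ≤ f.natDegree * (XD f e Γ y T).ncard := by
    rw [hS, Set.ncard_eq_toFinset_card _ hfin, mul_comm]
    refine card_biUnion_le.trans ?_
    refine (sum_le_card_nsmul _ _ f.natDegree fun x _ => ?_).trans (le_of_eq (smul_eq_mul _ _))
    refine card_image_le.trans ((Multiset.toFinset_card_le _).trans ?_)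
    exact (Polynomial.card_roots' _).trans
      ((Polynomial.natDegree_map_le).trans (Polynomial.natDegree_map_le))
  refine ⟨(finite_toSet _).subset hsub, ?_⟩
  refine le_trans ?_ hcard
  rw [← Set.ncard_coe_finset]
  exact Set.ncard_le_ncard hsub (finite_toSet _)

def SparseD {K : Type} [Field K] [NumberField K] {n : ℕ} (f : Polynomial (MvPolynomial (Fin n) K))
    (e : ℕ) : Prop :=
  ∀ (F : Type) [Field F] [NumberField F] [Algebra K F] (Γ : Subgroup Fˣ), Γ.FG →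
    2 ≤ Module.finrank ℤ (Additive Γ) → ∃ C : ℝ, ∀ y : Fin n → Fˣ, (∀ i, y i ∈ Γ) →
      ∀ T : ℝ, 1 ≤ T → (PD (ext F f) e Γ y T).Finite ∧
        ((PD (ext F f) e Γ y T).ncard : ℝ) ≤
          C * T ^ ((n : ℝ) * Module.finrank ℤ (Additive Γ) - 1 / 29)

def NotPosD {K : Type} [Field K] [NumberField K] {n : ℕ} (f : Polynomial (MvPolynomial (Fin n) K))
    (e : ℕ) : Prop :=
  ∀ (F : Type) [Field F] [NumberField F] [Algebra K F] (Γ : Subgroup Fˣ), Γ.FG →
    2 ≤ Module.finrank ℤ (Additive Γ) → ∀ c : ℝ, 0 < c → ∀ T0 : ℝ, ∃ T : ℝ, T0 ≤ T ∧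
      (PD (ext F f) e Γ 1 T).Finite ∧
        ((PD (ext F f) e Γ 1 T).ncard : ℝ) < c * T ^ ((n : ℝ) * Module.finrank ℤ (Additive Γ))

theorem tfaeD (h1 : S_ONE) (h2 : S_ALG) (h3 : S_FCT) (h5 : S_HITJ) (h4 : S_CONVJ) {K : Type}
    [Field K] [NumberField K] {n : ℕ} (hn : 1 ≤ n) (e : ℕ)
    (f : Polynomial (MvPolynomial (Fin n) K)) (hf : f.Monic) :
    [∀ j, 1 ≤ j → j ≤ e → NoFac (bar f) j, SparseD f e, NotPosD f e].TFAE := by
  have h12 : (∀ j, 1 ≤ j → j ≤ e → NoFac (bar f) j) → SparseD f e := by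
    intro hS F _ _ _ Γ hΓ hr
    have hfF : (ext F f).Monic := hf.map _
    obtain ⟨C, hC0, hC⟩ := sparsJ h1 h2 h3 h5 hn e (ext F f) hfF
      (fun j hj1 hj2 => nofac_ext f (hS j hj1 hj2) F) Γ hΓ hr
    refine ⟨(ext F f).natDegree * C, fun y hy T hT => ?_⟩
    obtain ⟨e1, e2⟩ := hC y hy T hT
    obtain ⟨e3, e4⟩ := PD_le (ext F f) hfF e Γ y T e1
    refine ⟨e3, ?_⟩
    have e5 : ((PD (ext F f) e Γ y T).ncard : ℝ) ≤
        (ext F f).natDegree * ((XD (ext F f) e Γ y T).ncard : ℝ) := by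
      exact_mod_cast e4
    rw [mul_assoc]
    exact e5.trans (mul_le_mul_of_nonneg_left e2 (Nat.cast_nonneg _))
  have h23 : SparseD f e → NotPosD f e := by
    intro hS F _ _ _ Γ hΓ hr c hc T0
    obtain ⟨C, hC⟩ := hS F Γ hΓ hr
    have ht : Filter.Tendsto (fun T : ℝ => C * T ^ (-(1 / 29 : ℝ))) Filter.atTop (nhds 0) := by
      have := (tendsto_rpow_neg_atTop (by norm_num : (0 : ℝ) < 1 / 29)).const_mul C
      rwa [mul_zero] at this
    obtain ⟨T, hT1, hT2⟩ := ((ht.eventually_lt_const hc).and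
      (Filter.eventually_ge_atTop (max T0 1))).exists
    have hT3 : 1 ≤ T := le_trans (le_max_right _ _) hT2
    obtain ⟨e1, e2⟩ := hC 1 (fun i => Γ.one_mem) T hT3
    refine ⟨T, le_trans (le_max_left _ _) hT2, e1, lt_of_le_of_lt e2 ?_⟩
    have hTp : 0 < T := by linarith
    rw [sub_eq_add_neg, Real.rpow_add hTp, mul_comm (T ^ _) (T ^ _), ← mul_assoc]
    exact mul_lt_mul_of_pos_right hT1 (Real.rpow_pos_of_pos hTp _)
  have h31 : NotPosD f e → ∀ j, 1 ≤ j → j ≤ e → NoFac (bar f) j := by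
    intro hS
    apply h4 K n e f hn hf
    intro F _ _ _ Γ hΓ hr c hc T0
    obtain ⟨T, hT, e1, e2⟩ := hS F Γ hΓ hr c hc T0
    refine ⟨T, hT, ?_, ?_⟩
    · rw [← fst_PD]
      exact e1.image _
    · refine lt_of_le_of_lt ?_ e2
      rw [← fst_PD]
      exact_mod_cast Set.ncard_image_le e1
  tfae_have 1 → 2 := h12
  tfae_have 2 → 3 := h23
  tfae_have 3 → 1 := h31
  tfae_finish

end Fin5_

end Pool.Agent.N120.TH
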