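import Mathlib

/-!
# Project TH, fifth part: points over the maximal extension unramified outside a finite set
-/

set_option autoImplicit false

namespace Pool.Agent.N120.TH

open Polynomial

/-- `w` lies in the maximal algebraic extension of `ℚ` which is unramified outside the finite set `S` of
prime numbers (and infinity) -/
def Unr {A : Type} [Field A] (S : Finset ℕ) (w : A) : Prop :=
  ∃ (E : Type) (_ : Field E) (_ : NumberField E) (ι : E →+* A), IsGalois ℚ E ∧
    (∀ p : ℕ, p.Prime → (p : ℤ) ∣ NumberField.discr E → p ∈ S) ∧ w ∈ ι.range

/-- **HMS** (Hermite and Minkowski): the elements of bounded degree of the maximal extension unramified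
outside `S` lie in one finite extension. -/
def S_HMS : Prop := ∀ (F : Type) [Field F] [NumberField F] (S : Finset ℕ) (d : ℕ),
  ∃ L : IntermediateField F (AlgebraicClosure F), FiniteDimensional F L ∧
    ∀ w : AlgebraicClosure F, (minpoly F w).natDegree ≤ d → Unr S w → w ∈ L

/-- **UNRF**: a number field is contained in the maximal extension unramified outside some finite set. -/
def S_UNRF : Prop := ∀ (F : Type) [Field F] [NumberField F],
  ∃ S : Finset ℕ, ∀ x : F, Unr S (algebraMap F (AlgebraicClosure F) x)

end Pool.Agent.N120.TH
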