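import Pool.Agent.N120.TH.Fin4R
import Pool.Agent.N120.TH.Stm5

/-! # Project TH: points over the maximal extension unramified outside a finite set -/

set_option autoImplicit false

namespace Pool.Agent.N120.TH

open Finset Polynomial NumberField

namespace Fin6_

/-- the points of `V(L)` above `x` outside `V'` exist -/
def QL {K : Type} [Field K] (L : Type) [Field L] [Algebra K L] {n s : ℕ}
    (f : Polynomial (MvPolynomial (Fin n) K))
    (G : Fin s → Polynomial (MvPolynomial (Fin n) K)) (x : Fin n → Kˣ) : Prop :=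
  ∃ w : L, Polynomial.aeval w (f.map (MvPolynomial.eval (fun i => ((x i : Kˣ) : K)))) = 0 ∧
    ∃ j, Polynomial.aeval w ((G j).map (MvPolynomial.eval (fun i => ((x i : Kˣ) : K)))) ≠ 0

lemma ext_eval {K L : Type} [Field K] [Field L] [Algebra K L] {n : ℕ}
    (f : Polynomial (MvPolynomial (Fin n) K)) (x : Fin n → K) (x' : Fin n → L)
    (hx : ∀ i, x' i = algebraMap K L (x i)) (w : L) :
    ((ext L f).map (MvPolynomial.eval x')).eval w = Polynomial.aeval w (f.map (MvPolynomial.eval x)) := by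
  have h1 : (ext L f).map (MvPolynomial.eval x') = (f.map (MvPolynomial.eval x)).map (algebraMap K L) := by
    unfold ext
    rw [Polynomial.map_map, Polynomial.map_map]
    congr 1
    apply MvPolynomial.ringHom_ext
    · intro a
      simp
    · intro j
      simp [hx]
  rw [h1, Polynomial.eval_map_algebraMap]

open Classical in
theorem sparsL (h1 : S_ONER) (h2 : S_ALG) (h3 : S_FCT) {K : Type} [Field K] [NumberField K]
    (L : Type) [Field L] [NumberField L] [Algebra K L]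
    {n s : ℕ} (hn : 1 ≤ n) (f : Polynomial (MvPolynomial (Fin n) K)) (hf : f.Monic)
    (G : Fin s → Polynomial (MvPolynomial (Fin n) K)) (hS : Sec f G) (Γ : Subgroup Kˣ) (hΓ : Γ.FG)
    (hr : 2 ≤ Module.finrank ℤ (Additive Γ)) {θ : ℝ} (hθ : 0 < θ)
    (hθ1 : θ < ((Module.finrank ℤ (Additive Γ) : ℝ) - 1) / (5 * Module.finrank ℤ (Additive Γ) + 3)) :
    ∃ C : ℝ, 0 ≤ C ∧ ∀ y : Fin n → Kˣ, (∀ i, y i ∈ Γ) → ∀ T : ℝ, 1 ≤ T →
      {x : Fin n → Kˣ | (∀ i, x i ∈ Γ ∧ Height.logHeight₁ ((x i / y i : Kˣ) : K) ≤ T) ∧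
        QL L f G x}.Finite ∧
      (({x : Fin n → Kˣ | (∀ i, x i ∈ Γ ∧ Height.logHeight₁ ((x i / y i : Kˣ) : K) ≤ T) ∧
        QL L f G x}).ncard : ℝ) ≤
        C * T ^ ((n : ℝ) * Module.finrank ℤ (Additive Γ) - θ) := by
  obtain ⟨γ, R, hγΓ, hRΓ, hrep, hind⟩ := TC.exists_basis Γ hΓ
  refine Fin2_.heights_gen Γ n _ _ ?_ γ R hrep hind (QL L f G) ?_
  · have a1 : (1 : ℝ) ≤ n := by exact_mod_cast hn
    have a2 : (2 : ℝ) ≤ Module.finrank ℤ (Additive Γ) := by exact_mod_cast hr
    have a3 := Fin4R_.theta_lt hθ1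
    nlinarith
  · intro ω
    let φ : Kˣ →* Lˣ := Units.map (algebraMap K L : K →* L)
    have hφi : Function.Injective φ :=
      Units.map_injective (algebraMap K L).injective
    obtain ⟨C, hC0, hC⟩ := Fin3R_.comp h1 h2 h3 hn hr hθ hθ1 (ext L f) (hf.map _)
      (fun j => ext L (G j)) (Fin4_.sec_ext f G hS L) (fun j => φ (γ j)) (fun v hv => by
        apply hind v
        apply hφi
        rw [map_prod, map_one, ← hv]
        exact Finset.prod_congr rfl fun j _ => map_zpow φ _ _) (fun i => φ (ω i))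
    refine ⟨C, hC0, fun u N hN => ?_⟩
    refine le_trans ?_ (hC u N hN)
    have hpt : ∀ (e : Fin n → Fin (Module.finrank ℤ (Additive Γ)) → ℤ) (i : Fin n),
        (((φ (ω i) * pt (fun j => φ (γ j)) e i : Lˣ) : Lˣ) : L) =
          algebraMap K L ((ω i * pt γ e i : Kˣ) : K) := by
      intro e i
      have e1 : φ (ω i * pt γ e i) = φ (ω i) * pt (fun j => φ (γ j)) e i := by
        rw [map_mul]
        congr 1
        unfold pt
        rw [map_prod]
        exact Finset.prod_congr rfl fun j _ => map_zpow φ _ _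
      rw [← e1]
      rfl
    have hsub : (Box u N).filter (fun e => QL L f G (fun i => ω i * pt γ e i)) ⊆
        (Box u N).filter (fun e => ∃ y : L,
        ((ext L f).map (MvPolynomial.eval (fun i =>
          ((φ (ω i) * pt (fun j => φ (γ j)) e i : Lˣ) : L)))).eval y = 0 ∧
        ∃ j, ((ext L (G j)).map (MvPolynomial.eval (fun i =>
          ((φ (ω i) * pt (fun j => φ (γ j)) e i : Lˣ) : L)))).eval y ≠ 0) := by
      intro e he
      rw [Finset.mem_filter] at he ⊢
      refine ⟨he.1, ?_⟩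
      obtain ⟨w, hw1, j, hw2⟩ := he.2
      refine ⟨w, ?_, j, ?_⟩
      · rw [ext_eval f (fun i => ((ω i * pt γ e i : Kˣ) : K)) _ (hpt e) w]
        exact hw1
      · rw [ext_eval (G j) (fun i => ((ω i * pt γ e i : Kˣ) : K)) _ (hpt e) w]
        exact hw2
    exact_mod_cast Finset.card_le_card hsub

/-- the points `(x, w)` of `V` outside `V'`, `w` in the maximal extension unramified outside `S` -/
def PU {K : Type} [Field K] [NumberField K] {n s : ℕ} (f : Polynomial (MvPolynomial (Fin n) K))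
    (G : Fin s → Polynomial (MvPolynomial (Fin n) K)) (S : Finset ℕ) (Γ : Subgroup Kˣ)
    (y : Fin n → Kˣ) (T : ℝ) : Set ((Fin n → Kˣ) × AlgebraicClosure K) :=
  {z | (∀ i, z.1 i ∈ Γ ∧ Height.logHeight₁ ((z.1 i / y i : Kˣ) : K) ≤ T) ∧
    Polynomial.aeval z.2 (f.map (MvPolynomial.eval (fun i => ((z.1 i : Kˣ) : K)))) = 0 ∧
    (∃ j, Polynomial.aeval z.2 ((G j).map (MvPolynomial.eval (fun i => ((z.1 i : Kˣ) : K)))) ≠ 0) ∧
    Unr S z.2}

open Classical in
lemma PU_le {K : Type} [Field K] [NumberField K] {n s : ℕ} (f : Polynomial (MvPolynomial (Fin n) K))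
    (hf : f.Monic) (G : Fin s → Polynomial (MvPolynomial (Fin n) K)) (S : Finset ℕ)
    (Γ : Subgroup Kˣ) (y : Fin n → Kˣ) (T : ℝ) (X : Set (Fin n → Kˣ)) (hX : X.Finite)
    (hsubX : ∀ z ∈ PU f G S Γ y T, z.1 ∈ X) :
    (PU f G S Γ y T).Finite ∧ (PU f G S Γ y T).ncard ≤ f.natDegree * X.ncard := by
  obtain ⟨Z, hZ⟩ : ∃ Z : Finset ((Fin n → Kˣ) × AlgebraicClosure K), Z = hX.toFinset.biUnion (fun x =>
      (((f.map (MvPolynomial.eval (fun i => ((x i : Kˣ) : K)))).map
        (algebraMap K (AlgebraicClosure K))).roots.toFinset).image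
        (fun w => (x, w))) := ⟨_, rfl⟩
  have hsub : PU f G S Γ y T ⊆ (Z : Set ((Fin n → Kˣ) × AlgebraicClosure K)) := by
    rintro ⟨x, w⟩ hz
    have hx : x ∈ X := hsubX _ hz
    obtain ⟨h1, h2, h3⟩ := hz
    rw [hZ, mem_coe, mem_biUnion]
    refine ⟨x, ?_, ?_⟩
    · rw [Set.Finite.mem_toFinset]
      exact hx
    · rw [mem_image]
      refine ⟨w, ?_, rfl⟩
      rw [Multiset.mem_toFinset, Polynomial.mem_roots ((hf.map _).map _).ne_zero,
        Polynomial.IsRoot.def, Polynomial.eval_map_algebraMap]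
      exact h2
  have hcard : Z.card ≤ f.natDegree * X.ncard := by
    rw [hZ, Set.ncard_eq_toFinset_card _ hX, mul_comm]
    refine card_biUnion_le.trans ?_
    refine (sum_le_card_nsmul _ _ f.natDegree fun x _ => ?_).trans (le_of_eq (smul_eq_mul _ _))
    refine card_image_le.trans ((Multiset.toFinset_card_le _).trans ?_)
    exact (Polynomial.card_roots' _).trans
      ((Polynomial.natDegree_map_le).trans (Polynomial.natDegree_map_le))
  refine ⟨(finite_toSet _).subset hsub, ?_⟩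
  refine le_trans ?_ hcard
  rw [← Set.ncard_coe_finset]
  exact Set.ncard_le_ncard hsub (finite_toSet _)

def SparseU {K : Type} [Field K] [NumberField K] {n s : ℕ} (f : Polynomial (MvPolynomial (Fin n) K))
    (G : Fin s → Polynomial (MvPolynomial (Fin n) K)) : Prop :=
  ∀ (F : Type) [Field F] [NumberField F] [Algebra K F] (S : Finset ℕ) (Γ : Subgroup Fˣ), Γ.FG →
    2 ≤ Module.finrank ℤ (Additive Γ) → ∀ θ : ℝ, 0 < θ →
    θ < ((Module.finrank ℤ (Additive Γ) : ℝ) - 1) / (5 * Module.finrank ℤ (Additive Γ) + 3) →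
    ∃ C : ℝ, ∀ y : Fin n → Fˣ, (∀ i, y i ∈ Γ) →
      ∀ T : ℝ, 1 ≤ T → (PU (ext F f) (fun j => ext F (G j)) S Γ y T).Finite ∧
        ((PU (ext F f) (fun j => ext F (G j)) S Γ y T).ncard : ℝ) ≤
          C * T ^ ((n : ℝ) * Module.finrank ℤ (Additive Γ) - θ)

def NotPosU {K : Type} [Field K] [NumberField K] {n s : ℕ} (f : Polynomial (MvPolynomial (Fin n) K))
    (G : Fin s → Polynomial (MvPolynomial (Fin n) K)) : Prop :=
  ∀ (F : Type) [Field F] [NumberField F] [Algebra K F] (S : Finset ℕ) (Γ : Subgroup Fˣ), Γ.FG →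
    2 ≤ Module.finrank ℤ (Additive Γ) → ∀ c : ℝ, 0 < c → ∀ T0 : ℝ, ∃ T : ℝ, T0 ≤ T ∧
      (PU (ext F f) (fun j => ext F (G j)) S Γ 1 T).Finite ∧
        ((PU (ext F f) (fun j => ext F (G j)) S Γ 1 T).ncard : ℝ) <
          c * T ^ ((n : ℝ) * Module.finrank ℤ (Additive Γ))

theorem tfaeU (h1 : S_ONER) (h2 : S_ALG) (h3 : S_FCT) (h4 : S_CONV) (h5 : S_HMS) (h6 : S_UNRF)
    {K : Type} [Field K]
    [NumberField K] {n s : ℕ} (hn : 1 ≤ n) (f : Polynomial (MvPolynomial (Fin n) K)) (hf : f.Monic)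
    (G : Fin s → Polynomial (MvPolynomial (Fin n) K)) :
    [Sec f G, SparseU f G, NotPosU f G].TFAE := by
  have h12 : Sec f G → SparseU f G := by
    intro hS F _ _ _ S Γ hΓ hr θ hθ hθ1
    have hfF : (ext F f).Monic := hf.map _
    obtain ⟨L, hL, hLw⟩ := h5 F S (ext F f).natDegree
    haveI : FiniteDimensional F L := hL
    haveI : FiniteDimensional ℚ L := Module.Finite.trans F L
    haveI : CharZero L := charZero_of_injective_algebraMap (algebraMap F L).injective
    haveI : NumberField L := ⟨⟩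
    obtain ⟨C, hC0, hC⟩ := sparsL h1 h2 h3 L hn (ext F f) hfF _ (Fin4_.sec_ext f G hS F) Γ hΓ hr
      hθ hθ1
    refine ⟨(ext F f).natDegree * C, fun y hy T hT => ?_⟩
    obtain ⟨e1, e2⟩ := hC y hy T hT
    obtain ⟨e3, e4⟩ := PU_le (ext F f) hfF (fun j => ext F (G j)) S Γ y T _ e1 (by
      rintro ⟨x, w⟩ ⟨a1, a2, ⟨j, a3⟩, a4⟩
      refine ⟨a1, ?_⟩
      have hm : ((ext F f).map (MvPolynomial.eval (fun i => ((x i : Fˣ) : F)))).Monic := hfF.map _
      have hd : (minpoly F w).natDegree ≤ (ext F f).natDegree := by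
        refine (natDegree_le_of_dvd (minpoly.dvd F w a2) hm.ne_zero).trans ?_
        exact Polynomial.natDegree_map_le
      have hwL := hLw w hd a4
      have key : ∀ g : F[X], ((Polynomial.aeval (⟨w, hwL⟩ : L) g : L) : AlgebraicClosure F) =
          Polynomial.aeval w g := by
        intro g
        have := Polynomial.aeval_algebraMap_apply (AlgebraicClosure F) (⟨w, hwL⟩ : L) g
        exact this.symm
      refine ⟨⟨w, hwL⟩, ?_, j, ?_⟩
      · apply Subtype.ext
        rw [key]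
        exact a2
      · intro h0
        apply a3
        have h7 := congrArg (Subtype.val : L → AlgebraicClosure F) h0
        rw [key] at h7
        exact h7)
    refine ⟨e3, ?_⟩
    have e5 : ((PU (ext F f) (fun j => ext F (G j)) S Γ y T).ncard : ℝ) ≤
        (ext F f).natDegree * ((({x : Fin n → Fˣ |
          (∀ i, x i ∈ Γ ∧ Height.logHeight₁ ((x i / y i : Fˣ) : F) ≤ T) ∧
          QL L (ext F f) (fun j => ext F (G j)) x}).ncard : ℕ) : ℝ) := by
      exact_mod_cast e4
    rw [mul_assoc]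
    exact e5.trans (mul_le_mul_of_nonneg_left e2 (Nat.cast_nonneg _))
  have h23 : SparseU f G → NotPosU f G := by
    intro hS F _ _ _ S Γ hΓ hr c hc T0
    obtain ⟨θ, hθ, hθ1⟩ := Fin4R_.ex_theta hr
    obtain ⟨C, hC⟩ := hS F S Γ hΓ hr θ hθ hθ1
    have ht : Filter.Tendsto (fun T : ℝ => C * T ^ (-θ)) Filter.atTop (nhds 0) := by
      have := (tendsto_rpow_neg_atTop hθ).const_mul C
      rwa [mul_zero] at this
    obtain ⟨T, hT1, hT2⟩ := ((ht.eventually_lt_const hc).and
      (Filter.eventually_ge_atTop (max T0 1))).exists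
    have hT3 : 1 ≤ T := le_trans (le_max_right _ _) hT2
    obtain ⟨e1, e2⟩ := hC 1 (fun i => Γ.one_mem) T hT3
    refine ⟨T, le_trans (le_max_left _ _) hT2, e1, lt_of_le_of_lt e2 ?_⟩
    have hTp : 0 < T := by linarith
    rw [sub_eq_add_neg, Real.rpow_add hTp, mul_comm (T ^ _) (T ^ _), ← mul_assoc]
    exact mul_lt_mul_of_pos_right hT1 (Real.rpow_pos_of_pos hTp _)
  have h31 : NotPosU f G → Sec f G := by
    intro hS
    apply h4 K n s f G hn
    intro F _ _ _ Γ hΓ hr c hc T0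
    obtain ⟨S, hSF⟩ := h6 F
    obtain ⟨T, hT, e1, e2⟩ := hS F S Γ hΓ hr c hc T0
    have hsub : XP (ext F f) (fun j => ext F (G j)) Γ 1 T ⊆
        Prod.fst '' (PU (ext F f) (fun j => ext F (G j)) S Γ 1 T) := by
      rintro x ⟨a1, w, a2, j, a3⟩
      refine ⟨(x, algebraMap F (AlgebraicClosure F) w), ⟨a1, ?_, ⟨j, ?_⟩, hSF w⟩, rfl⟩
      · show Polynomial.aeval (algebraMap F (AlgebraicClosure F) w) _ = 0
        rw [Polynomial.aeval_algebraMap_apply, Polynomial.coe_aeval_eq_eval, a2, map_zero]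
      · show Polynomial.aeval (algebraMap F (AlgebraicClosure F) w) _ ≠ 0
        rw [Polynomial.aeval_algebraMap_apply, Polynomial.coe_aeval_eq_eval]
        intro h0
        exact a3 ((map_eq_zero _).1 h0)
    refine ⟨T, hT, (e1.image _).subset hsub, ?_⟩
    refine lt_of_le_of_lt ?_ e2
    exact_mod_cast (Set.ncard_le_ncard hsub (e1.image _)).trans (Set.ncard_image_le e1)
  tfae_have 1 → 2 := h12
  tfae_have 2 → 3 := h23
  tfae_have 3 → 1 := h31
  tfae_finish

end Fin6_

end Pool.Agent.N120.TH
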