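import Pool.Agent.N120.TH.Stm3
import Pool.Agent.N120.TH.HIT

/-!
# TH/HITJ: resolvents for factors of degree `j` (helper650, after HIT by helper704)
-/

set_option autoImplicit false

namespace Pool.Agent.N120.TH

open Finset Polynomial

namespace HITJ_

open HIT_

variable {k : Type} [Field k] {n : ℕ}

/-- for some `lam` the resolvent has no section -/
theorem exists_lam [CharZero k] (f : (Pn k n)[X]) (hf : f.Monic) (j : ℕ) (hno : NoFac f j) :
    ∃ lam : ℕ, NoSec (RR f.natDegree lam j f) := by
  classical
  by_contra hcon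
  push Not at hcon
  have hcon' : ∀ lam : ℕ, ∃ m : ℕ, 1 ≤ m ∧ ∃ h : Pn k n,
      ((RR f.natDegree lam j f).map (ex k n m)).eval h = 0 := by
    intro lam
    have h := hcon lam
    unfold NoSec at h
    push Not at h
    obtain ⟨m, hm, h, hh⟩ := h
    exact ⟨m, hm, h, hh⟩
  choose mm hmm hh hroot using hcon'
  set D := f.natDegree with hD
  set Λ := range (D.choose j * j + 1) with hΛ
  set m := ∏ l ∈ Λ, mm l with hm
  have hm1 : 1 ≤ m := Nat.pos_of_ne_zero (Finset.prod_ne_zero_iff.2 (fun l _ => by have := hmm l; omega))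
  have hroot' : ∀ l ∈ Λ, ∃ H : Pn k n, (RR D l j (f.map (ex k n m))).eval H = 0 := by
    intro l hl
    obtain ⟨c, hc⟩ := Finset.dvd_prod_of_mem mm hl
    refine ⟨ex k n c (hh l), ?_⟩
    rw [hm, hc, mul_comm, ex_mul, ← Polynomial.map_map, ← RR_map, eval_map_apply', ← RR_map,
      hroot l, map_zero]
  -- the roots in an algebraic closure
  set φ : Pn k n →+* Om k n := (algebraMap (En k n) (Om k n)).comp (algebraMap (Pn k n) (En k n))
    with hφ
  set fm := f.map (ex k n m) with hfm
  have hfmm : fm.Monic := hf.map _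
  have hfmD : fm.natDegree = D := hf.natDegree_map _
  have hspl := IsAlgClosed.splits (fm.map φ)
  set S := (fm.map φ).roots with hS
  have heS : fm.map φ = (S.map (fun t => X - C t)).prod :=
    hspl.eq_prod_roots_of_monic (hfmm.map φ)
  have hcS : Multiset.card S = D := by
    rw [hS, ← hspl.natDegree_eq_card_roots, hfmm.natDegree_map, hfmD]
  have key : ∀ l : ℕ, ∃ T : Multiset (Om k n), l ∈ Λ → T ∈ S.powersetCard j ∧
      ∃ e : En k n, algebraMap (En k n) (Om k n) e = (T.map (fun t => (l : Om k n) - t)).prod := by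
    intro l
    by_cases hl : l ∈ Λ
    · obtain ⟨H, hH⟩ := hroot' l hl
      have h1 : (UU l j S).eval (φ H) = 0 := by
        rw [← RR_prod l j hcS, ← heS, ← RR_map, eval_map_apply', hH, map_zero]
      obtain ⟨T, hT, hT2⟩ := UU_eq_zero h1
      exact ⟨T, fun _ => ⟨hT, algebraMap (Pn k n) (En k n) H, hT2⟩⟩
    · exact ⟨0, fun h => absurd h hl⟩
  choose TT hTT using key
  have hpig : ∃ T ∈ (S.powersetCard j).toFinset, j < (Λ.filter (fun l => TT l = T)).card := by
    apply exists_lt_card_fiber_of_mul_lt_card_of_maps_to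
    · intro l hl
      rw [Multiset.mem_toFinset]
      exact (hTT l hl).1
    · calc (S.powersetCard j).toFinset.card * j ≤ (Multiset.card (S.powersetCard j)) * j :=
            Nat.mul_le_mul_right _ (Multiset.toFinset_card_le _)
        _ = D.choose j * j := by rw [Multiset.card_powersetCard, hcS]
        _ < Λ.card := by rw [hΛ, card_range]; exact Nat.lt_succ_self _
  obtain ⟨T, hT, hcard⟩ := hpig
  rw [Multiset.mem_toFinset, Multiset.mem_powersetCard] at hT
  obtain ⟨hTS, hTj⟩ := hT
  set G : (Om k n)[X] := (T.map (fun t => X - C t)).prod with hG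
  have hGm : G.Monic := monic_multiset_prod_of_monic _ _ (fun T _ => monic_X_sub_C _)
  have hGd : G.natDegree = j := by
    rw [hG, natDegree_multiset_prod_X_sub_C_eq_card, hTj]
  haveI : CharZero (En k n) := by
    haveI : CharZero (Pn k n) := inferInstance
    exact charZero_of_injective_algebraMap (IsFractionRing.injective (Pn k n) (En k n))
  obtain ⟨H, hH⟩ := descend (algebraMap (En k n) (Om k n)) G j hGd.le
    (Λ.filter (fun l => TT l = T)) hcard (by
      intro l hl
      rw [Finset.mem_filter] at hl
      obtain ⟨-, e, he⟩ := hTT l hl.1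
      refine ⟨e, ?_⟩
      rw [he, hl.2, hG, eval_multiset_prod, Multiset.map_map]
      congr 1
      apply Multiset.map_congr rfl
      intro t _
      simp)
  have hHd : H.natDegree = j := by
    rw [← hGd, ← hH, natDegree_map]
  have hdvd : H ∣ fm.map (algebraMap (Pn k n) (En k n)) := by
    rw [← Polynomial.map_dvd_map' (algebraMap (En k n) (Om k n)), hH, Polynomial.map_map]
    have h1 : fm.map ((algebraMap (En k n) (Om k n)).comp (algebraMap (Pn k n) (En k n))) =
        (S.map (fun t => X - C t)).prod := heS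
    rw [h1, hG]
    exact Multiset.prod_dvd_prod_of_le (Multiset.map_le_map hTS)
  have hHm : H.Monic := by
    apply monic_of_injective (algebraMap (En k n) (Om k n)).injective
    rw [hH]
    exact hGm
  obtain ⟨g, hg⟩ := IsIntegrallyClosed.eq_map_mul_C_of_dvd (En k n) hfmm hdvd
  rw [hHm.leadingCoeff, C_1, mul_one] at hg
  have hinj : Function.Injective (algebraMap (Pn k n) (En k n)) :=
    IsFractionRing.injective (Pn k n) (En k n)
  have hgm : g.Monic := by
    apply monic_of_injective hinj
    rw [hg]
    exact hHm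
  have hgj : g.natDegree = j := by
    rw [← hHd, ← hg, hgm.natDegree_map]
  have hgd : g ∣ fm := by
    rw [← Polynomial.map_dvd_map (algebraMap (Pn k n) (En k n)) hinj hgm, hg]
    exact hdvd
  obtain ⟨h, hh'⟩ := hgd
  exact hno m hm1 g h hgm hh' hgj

end HITJ_

open HIT_ HITJ_ in
theorem t_HITJ : S_HITJ := by
  intro K _ _ n f hf j hj1 hno
  classical
  set D := f.natDegree with hD
  have hbarD : (bar f).natDegree = D := hf.natDegree_map _
  have hbar : (bar f).Monic := hf.map _
  haveI : CharZero (AlgebraicClosure K) :=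
    charZero_of_injective_algebraMap (algebraMap K (AlgebraicClosure K)).injective
  have hdec : ∀ (x : Fin n → K) (g h : K[X]), g.Monic → f.map (MvPolynomial.eval x) = g * h →
      h.Monic ∧ g.natDegree + h.natDegree = D := by
    intro x g h hg hgh
    have hfx : (f.map (MvPolynomial.eval x)).Monic := hf.map _
    have hfxD : (f.map (MvPolynomial.eval x)).natDegree = D := hf.natDegree_map _
    have hh : h.Monic := by
      rw [hgh] at hfx
      exact hg.of_mul_monic_left hfx
    refine ⟨hh, ?_⟩
    rw [← hg.natDegree_mul hh, ← hgh, hfxD]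
  rcases lt_trichotomy j D with hlt | heq | hgt
  · obtain ⟨lam, hl⟩ := exists_lam (bar f) hbar j hno
    rw [hbarD] at hl
    refine ⟨RR D lam j f, RR_monic _ _ _ _, ?_, ?_⟩
    · have h1 : bar (RR D lam j f) = RR D lam j (bar f) := RR_map _ _ _ _ _
      rw [h1]
      exact hl
    · rintro x ⟨g, h, hg, hgj, hgh⟩
      obtain ⟨hh, hsum⟩ := hdec x g h hg hgh
      refine ⟨g.eval ((lam : ℕ) : K), ?_⟩
      rw [RR_map, hgh, ← hgj]
      exact root_of_factor _ hg hh (by rw [hg.natDegree_mul hh, hsum])
  · exfalso
    refine hno 1 le_rfl _ 1 (hbar.map _) (mul_one _).symm ?_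
    rw [hbar.natDegree_map, hbarD, heq]
  · refine ⟨1, monic_one, ?_, ?_⟩
    · intro m _ h
      have h1 : bar (1 : Polynomial (MvPolynomial (Fin n) K)) = 1 := Polynomial.map_one _
      rw [h1, Polynomial.map_one, eval_one]
      exact one_ne_zero
    · rintro x ⟨g, h, hg, hgj, hgh⟩
      obtain ⟨hh, hsum⟩ := hdec x g h hg hgh
      omega

end Pool.Agent.N120.TH
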