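import Pool.Agent.N120.TH.Stm5
import Pool.Agent.N890.US.DISC

/-!
# Project TH (helper120): Hermite and Minkowski for the maximal extension unramified outside `S`
(leaf HMS, by helper505)
-/

set_option autoImplicit false
set_option linter.style.haveILetI false

namespace Pool.Agent.N120.TH.HMS

open NumberField Polynomial

theorem prim {k A : Type} [Field k] [Field A] [Algebra k A] (K : IntermediateField k A)
    [FiniteDimensional k K] [Algebra.IsSeparable k K] :
    ∃ θ : A, K = IntermediateField.adjoin k {θ} := by
  obtain ⟨α, hα⟩ := Field.exists_primitive_element k K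
  refine ⟨(α : A), ?_⟩
  rw [← IntermediateField.lift_adjoin_simple, hα, IntermediateField.lift_top]

theorem finrank_adjoin_le {E : Type} [Field E] [CharZero E] (D : ℕ) (T : Finset E)
    (hint : ∀ x ∈ T, IsIntegral ℚ x) (h : ∀ x ∈ T, (minpoly ℚ x).natDegree ≤ D) :
    Module.finrank ℚ (IntermediateField.adjoin ℚ (T : Set E)) ≤ D ^ T.card := by
  classical
  induction T using Finset.induction_on with
  | empty =>
    rw [Finset.coe_empty, IntermediateField.adjoin_empty, IntermediateField.finrank_bot]
    simp
  | insert a T ha ih =>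
    rw [Finset.coe_insert, Set.insert_eq, IntermediateField.adjoin_union,
      Finset.card_insert_of_notMem ha, pow_succ']
    refine (IntermediateField.finrank_sup_le _ _).trans (Nat.mul_le_mul ?_ ?_)
    · rw [IntermediateField.adjoin.finrank (hint a (Finset.mem_insert_self a T))]
      exact h a (Finset.mem_insert_self a T)
    · exact ih (fun x hx => hint x (Finset.mem_insert_of_mem hx))
        (fun x hx => h x (Finset.mem_insert_of_mem hx))

theorem core (A : Type) [Field A] [CharZero A] (S : Finset ℕ) (D : ℕ) :
    ∃ T : Set A, T.Finite ∧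
      ∀ w : A, (minpoly ℚ w).natDegree ≤ D → Unr S w → w ∈ IntermediateField.adjoin ℚ T := by
  classical
  have hprim : ∀ K : {F : IntermediateField ℚ A // FiniteDimensional ℚ F},
      ∃ θ : A, K.1 = IntermediateField.adjoin ℚ {θ} := by
    intro K
    haveI := K.2
    exact prim K.1
  choose θ hθ using hprim
  obtain ⟨D1, hD1⟩ : ∃ D1, D1 = (D + 1) ^ D := ⟨_, rfl⟩
  have hD1pos : 1 ≤ D1 := by rw [hD1]; exact Nat.one_le_pow _ _ (by omega)
  obtain ⟨S', hS'⟩ : ∃ S' : Finset ℕ, S' = S.filter Nat.Prime := ⟨_, rfl⟩
  obtain ⟨B, hB⟩ : ∃ B : ℕ, B = ∏ q ∈ S', (q * D1) ^ D1 := ⟨_, rfl⟩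
  have hfin := NumberField.finite_of_discr_bdd A B
  refine ⟨θ '' _, hfin.image θ, ?_⟩
  rintro w hw ⟨E, _, _, ι, hgal, hdisc, e, he⟩
  let f : E →ₐ[ℚ] A := ι.toRatAlgHom
  have hf : ∀ x, f x = ι x := fun x => rfl
  have hint : IsIntegral ℚ e := Algebra.IsIntegral.isIntegral e
  have hmin : minpoly ℚ w = minpoly ℚ e := by
    rw [← he, ← hf]
    exact minpoly.algHom_eq f f.injective e
  rw [hmin] at hw
  have hsplit : ((minpoly ℚ e).map (algebraMap ℚ E)).Splits := hgal.to_normal.splits e
  obtain ⟨N', hN'⟩ : ∃ N' : IntermediateField ℚ E,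
    N' = IntermediateField.adjoin ℚ ((minpoly ℚ e).rootSet E) := ⟨_, rfl⟩
  haveI hsf : (minpoly ℚ e).IsSplittingField ℚ N' := by
    rw [hN']; exact IntermediateField.adjoin_rootSet_isSplittingField hsplit
  haveI hgal' : IsGalois ℚ N' :=
    IsGalois.of_separable_splitting_field (minpoly.irreducible hint).separable
  haveI hfd : FiniteDimensional ℚ N' := inferInstance
  haveI hnf : NumberField N' := @NumberField.mk _ _ inferInstance hfd
  have hdvd : NumberField.discr N' ∣ NumberField.discr E := NumberField.discr_dvd_discr N' E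
  have heN : e ∈ N' := by
    rw [hN']
    refine IntermediateField.subset_adjoin _ _ ?_
    rw [Polynomial.mem_rootSet]
    exact ⟨minpoly.ne_zero hint, minpoly.aeval ℚ e⟩
  have hdeg : Module.finrank ℚ N' ≤ D1 := by
    have h1 : ((minpoly ℚ e).rootSet E) = (((minpoly ℚ e).aroots E).toFinset : Set E) :=
      Polynomial.rootSet_def _ _
    rw [hN', h1]
    have hroot : ∀ x ∈ ((minpoly ℚ e).aroots E).toFinset,
        (minpoly ℚ x).natDegree ≤ D := by
      intro x hx
      have hx1 : Polynomial.aeval x (minpoly ℚ e) = 0 := by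
        rw [Multiset.mem_toFinset, Polynomial.mem_aroots] at hx
        exact hx.2
      exact (Polynomial.natDegree_le_of_dvd (minpoly.dvd ℚ x hx1)
        (minpoly.ne_zero hint)).trans hw
    refine (finrank_adjoin_le D _ (fun x _ => Algebra.IsIntegral.isIntegral x) hroot).trans ?_
    have hcard : ((minpoly ℚ e).aroots E).toFinset.card ≤ D := by
      refine (Multiset.toFinset_card_le _).trans ?_
      refine (Polynomial.card_roots' _).trans ?_
      rw [Polynomial.natDegree_map]
      exact hw
    rw [hD1]
    exact (Nat.pow_le_pow_left (Nat.le_succ D) _).trans (Nat.pow_le_pow_right (Nat.succ_pos D) hcard)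
  have hN'B : (NumberField.discr N').natAbs ≤ B := by
    have h1 := Pool.Agent.N890.US.DISC.t_DISC N' S' (fun q hq => by rw [hS'] at hq; exact (Finset.mem_filter.1 hq).2)
      (fun q hq hqS hqd => by
        apply hqS
        rw [hS', Finset.mem_filter]
        exact ⟨hdisc q hq (hqd.trans hdvd), hq⟩)
    refine h1.trans ?_
    rw [hB]
    refine Finset.prod_le_prod' fun q hq => ?_
    have hqp : q.Prime := by rw [hS'] at hq; exact (Finset.mem_filter.1 hq).2
    have h2 : q * Module.finrank ℚ N' ≤ q * D1 := Nat.mul_le_mul_left q hdeg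
    exact (Nat.pow_le_pow_left h2 _).trans (Nat.pow_le_pow_right
      (Nat.mul_pos hqp.pos hD1pos) hdeg)
  let N : IntermediateField ℚ A := N'.map f
  let eq : N' ≃ₐ[ℚ] N := IntermediateField.equivMap N' f
  haveI hfdN : FiniteDimensional ℚ N := LinearEquiv.finiteDimensional eq.toLinearEquiv
  haveI hnfN : NumberField N := @NumberField.mk _ _ inferInstance hfdN
  have hNd : NumberField.discr N = NumberField.discr N' :=
    (NumberField.discr_eq_discr_of_ringEquiv N' eq.toRingEquiv).symm
  have hmem : (⟨N, hfdN⟩ : {F : IntermediateField ℚ A // FiniteDimensional ℚ F}) ∈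
      {K : {F : IntermediateField ℚ A // FiniteDimensional ℚ F} |
        haveI : NumberField K := @NumberField.mk _ _ inferInstance K.prop
        |NumberField.discr K| ≤ B} := by
    show |NumberField.discr N| ≤ B
    rw [hNd, Int.abs_eq_natAbs]
    exact_mod_cast hN'B
  have hwN : w ∈ N := by
    rw [← he]
    exact ⟨e, heN, rfl⟩
  have h1 := hθ ⟨N, hfdN⟩
  have h2 : w ∈ IntermediateField.adjoin ℚ {θ ⟨N, hfdN⟩} := by
    rw [← h1]; exact hwN
  refine IntermediateField.adjoin.mono ℚ _ _ ?_ h2
  rw [Set.singleton_subset_iff]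
  exact ⟨_, hmem, rfl⟩

theorem t_HMS' : S_HMS := by
  intro F _ _ S d
  obtain ⟨T, hT, h⟩ := core (AlgebraicClosure F) S (d * Module.finrank ℚ F)
  haveI : Finite T := hT
  refine ⟨IntermediateField.adjoin F T, ?_, ?_⟩
  · exact IntermediateField.finiteDimensional_adjoin fun x _ => Algebra.IsIntegral.isIntegral x
  · intro w hw hU
    have hdeg : (minpoly ℚ w).natDegree ≤ d * Module.finrank ℚ F := by
      have hint : IsIntegral F w := Algebra.IsIntegral.isIntegral w
      haveI : FiniteDimensional F (IntermediateField.adjoin F {w}) :=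
        IntermediateField.adjoin.finiteDimensional hint
      haveI : CharZero (IntermediateField.adjoin F {w}) := inferInstance
      letI : Algebra ℚ (IntermediateField.adjoin F {w}) := DivisionRing.toRatAlgebra
      haveI : IsScalarTower ℚ F (IntermediateField.adjoin F {w}) :=
        IsScalarTower.of_algebraMap_eq' (RingHom.ext_rat _ _)
      haveI : FiniteDimensional ℚ (IntermediateField.adjoin F {w}) :=
        FiniteDimensional.trans ℚ F _
      have h1 := Module.finrank_mul_finrank ℚ F (IntermediateField.adjoin F {w})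
      rw [IntermediateField.adjoin.finrank hint] at h1
      let w' : IntermediateField.adjoin F {w} := IntermediateField.AdjoinSimple.gen F w
      let g : IntermediateField.adjoin F {w} →ₐ[ℚ] AlgebraicClosure F :=
        (algebraMap (IntermediateField.adjoin F {w}) (AlgebraicClosure F)).toRatAlgHom
      have h2 : minpoly ℚ w = minpoly ℚ w' := minpoly.algHom_eq g g.injective w'
      rw [h2]
      refine (minpoly.natDegree_le w').trans ?_
      rw [← h1, mul_comm]
      exact Nat.mul_le_mul_right _ hw
    have h1 := h w hdeg hU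
    let LQ : IntermediateField ℚ (AlgebraicClosure F) :=
      (IntermediateField.adjoin F T).toSubfield.toIntermediateField fun x => by
        rw [eq_ratCast]; exact SubfieldClass.ratCast_mem _ x
    have h2 : IntermediateField.adjoin ℚ T ≤ LQ := by
      rw [IntermediateField.adjoin_le_iff]
      intro x hx
      exact IntermediateField.subset_adjoin F T hx
    exact h2 h1

end Pool.Agent.N120.TH.HMS

namespace Pool.Agent.N120.TH

theorem t_HMS : S_HMS := HMS.t_HMS'

end Pool.Agent.N120.TH

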