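import Pool.Agent.N120.TH.Stm

/-! # Project TH: the sieve bound for one cover (`S_ONE`) -/

set_option autoImplicit false

namespace Pool.Agent.N120.TH

open Finset Polynomial NumberField

namespace One_

lemma eval_lift {n : ℕ} {L k : Type} [Field L] [CommRing k] (O : Subring L) (ψ : O →+* k)
    (φO : Polynomial (MvPolynomial (Fin n) O)) (w : Fin n → O) (y : O) :
    (φO.map (MvPolynomial.eval₂Hom ψ (fun i => ψ (w i)))).eval (ψ y) =
      ψ ((φO.map (MvPolynomial.eval w)).eval y) := by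
  have h1 : MvPolynomial.eval₂Hom ψ (fun i => ψ (w i)) = ψ.comp (MvPolynomial.eval w) := by
    apply MvPolynomial.ringHom_ext
    · intro a; simp
    · intro i; simp
  rw [h1, ← Polynomial.map_map, Polynomial.eval_map_apply]

lemma map_lift {n : ℕ} {L : Type} [Field L] (O : Subring L)
    (φO : Polynomial (MvPolynomial (Fin n) O)) (w : Fin n → O) :
    (φO.map (MvPolynomial.map O.subtype)).map (MvPolynomial.eval (fun i => ((w i : O) : L))) =
      (φO.map (MvPolynomial.eval w)).map O.subtype := by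
  rw [Polynomial.map_map, Polynomial.map_map]
  congr 1
  apply MvPolynomial.ringHom_ext
  · intro a; simp
  · intro i; simp

lemma pt_map {n r : ℕ} {H H' : Type} [CommGroup H] [CommGroup H'] (f : H →* H') (g : Fin r → H)
    (e : Fin n → Fin r → ℤ) (i : Fin n) : f (pt g e i) = pt (fun j => f (g j)) e i := by
  unfold pt
  rw [map_prod]
  exact Finset.prod_congr rfl (fun j _ => map_zpow _ _ _)

/-- the data at one prime -/
theorem at_prime (L : Type) [Field L] (n r : ℕ)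
    (φ Φ : Polynomial (MvPolynomial (Fin n) L)) (hφ : φ.Monic) (hφ1 : 1 ≤ φ.natDegree)
    (hΦ1 : 1 ≤ Φ.natDegree) (g : Fin r → Lˣ) (O : Subring L)
    (hint : ∀ x : L, IsIntegral O x → x ∈ O)
    (hgO : ∀ i, ((g i : Lˣ) : L) ∈ O ∧ (((g i)⁻¹ : Lˣ) : L) ∈ O)
    (φO ΦO : Polynomial (MvPolynomial (Fin n) O)) (hφO : φO.Monic)
    (hφm : φO.map (MvPolynomial.map O.subtype) = φ)
    (C1 C2 : ℝ) (hC1 : 0 ≤ C1) (hC2 : 0 ≤ C2) (p : ℕ) [Fact p.Prime] (ψ : O →+* ZMod p)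
    (h1 : ∀ M : ℕ, M ∣ p - 1 → ∀ c : Fin n → (ZMod p)ˣ,
      |(∑ u : Fin n → (ZMod p)ˣ,
          (nrt ψ φO (fun i => ((c i * u i ^ M : (ZMod p)ˣ) : ZMod p)) : ℝ)) - ((p : ℝ) - 1) ^ n| *
        Real.sqrt p ≤ C1 * M * ((p : ℝ) - 1) ^ n)
    (h2 : ∀ M : ℕ, M ∣ p - 1 → ∀ c : Fin n → (ZMod p)ˣ,
      |(∑ u : Fin n → (ZMod p)ˣ,
          (nrt ψ ΦO (fun i => ((c i * u i ^ M : (ZMod p)ˣ) : ZMod p)) : ℝ)) - ((p : ℝ) - 1) ^ n| *
        Real.sqrt p ≤ C2 * M * ((p : ℝ) - 1) ^ n)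
    (b : MvPolynomial (Fin n) (ZMod p))
    (hb : ∀ x : Fin n → ZMod p,
          nrt ψ φO x ≤ φ.natDegree ∧ nrt ψ ΦO x ≤ Φ.natDegree ∧
          (1 ≤ nrt ψ φO x → MvPolynomial.eval x b ≠ 0 →
            1 + (nrt ψ ΦO x : ℝ) / Φ.natDegree ≤ nrt ψ φO x))
    (h : Fin r → (ZMod p)ˣ) (hh : ∀ i (z : O), (z : L) = g i → ψ z = h i) :
    ∃ W : (Fin n → ZMod p) → ℝ, (∀ x, |W x| ≤ (φ.natDegree + Φ.natDegree + 1 : ℕ)) ∧
      (∀ (M : ℕ), M ∣ p - 1 → ∀ z : Fin n → (ZMod p)ˣ,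
      |∑ s : Fin n → (ZMod p)ˣ, W (fun i => ((z i * s i ^ M : (ZMod p)ˣ) : ZMod p))| *
        Real.sqrt p ≤ (C1 + C2) * M * ((p : ℝ) - 1) ^ n) ∧
      ∀ e : Fin n → Fin r → ℤ, (∃ y : L,
        (φ.map (MvPolynomial.eval (fun i => ((pt g e i : Lˣ) : L)))).eval y = 0) →
        MvPolynomial.eval (fun i => ((pt h e i : (ZMod p)ˣ) : ZMod p)) b ≠ 0 →
        1 / ((φ.natDegree + Φ.natDegree + 1 : ℕ) : ℝ) ≤
          W (fun i => ((pt h e i : (ZMod p)ˣ) : ZMod p)) := by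
  classical
  have hp : p.Prime := Fact.out
  have hD : (0 : ℝ) < Φ.natDegree := by exact_mod_cast hΦ1
  refine ⟨fun x => (nrt ψ φO x : ℝ) - 1 - ((nrt ψ ΦO x : ℝ) - 1) / Φ.natDegree, ?_, ?_, ?_⟩
  · intro x
    obtain ⟨ha, hb', -⟩ := hb x
    have ha' : (nrt ψ φO x : ℝ) ≤ φ.natDegree := by exact_mod_cast ha
    have hb'' : (nrt ψ ΦO x : ℝ) ≤ Φ.natDegree := by exact_mod_cast hb'
    have h0 : (0 : ℝ) ≤ nrt ψ φO x := Nat.cast_nonneg _
    have h0' : (0 : ℝ) ≤ nrt ψ ΦO x := Nat.cast_nonneg _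
    have h3 : ((nrt ψ ΦO x : ℝ) - 1) / Φ.natDegree ≤ 1 := by
      rw [div_le_one hD]; linarith
    have h4 : -1 ≤ ((nrt ψ ΦO x : ℝ) - 1) / Φ.natDegree := by
      rw [le_div_iff₀ hD]
      have : (1 : ℝ) ≤ Φ.natDegree := by exact_mod_cast hΦ1
      linarith
    have h5 : (1 : ℝ) ≤ φ.natDegree := by exact_mod_cast hφ1
    have h6 : (1 : ℝ) ≤ Φ.natDegree := by exact_mod_cast hΦ1
    push_cast
    rw [abs_le]
    constructor <;> linarith
  · intro M hM z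
    have e1 := h1 M hM z
    have e2 := h2 M hM z
    have hcard : ((Fintype.card (Fin n → (ZMod p)ˣ) : ℕ) : ℝ) = ((p : ℝ) - 1) ^ n := by
      rw [Fintype.card_fun, ZMod.card_units p, Fintype.card_fin, Nat.cast_pow,
        Nat.cast_sub hp.one_lt.le, Nat.cast_one]
    set S1 := ∑ u : Fin n → (ZMod p)ˣ,
          (nrt ψ φO (fun i => ((z i * u i ^ M : (ZMod p)ˣ) : ZMod p)) : ℝ) with hS1
    set S2 := ∑ u : Fin n → (ZMod p)ˣ,
          (nrt ψ ΦO (fun i => ((z i * u i ^ M : (ZMod p)ˣ) : ZMod p)) : ℝ) with hS2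
    have e3 : (∑ s : Fin n → (ZMod p)ˣ,
        ((nrt ψ φO (fun i => ((z i * s i ^ M : (ZMod p)ˣ) : ZMod p)) : ℝ) - 1 -
        ((nrt ψ ΦO (fun i => ((z i * s i ^ M : (ZMod p)ˣ) : ZMod p)) : ℝ) - 1) / Φ.natDegree)) =
        (S1 - ((p : ℝ) - 1) ^ n) - (S2 - ((p : ℝ) - 1) ^ n) / Φ.natDegree := by
      rw [Finset.sum_sub_distrib, Finset.sum_sub_distrib, ← Finset.sum_div,
        Finset.sum_sub_distrib, Finset.sum_const, Finset.card_univ, nsmul_eq_mul, mul_one, hcard]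
    show |∑ s : Fin n → (ZMod p)ˣ,
        ((nrt ψ φO (fun i => ((z i * s i ^ M : (ZMod p)ˣ) : ZMod p)) : ℝ) - 1 -
        ((nrt ψ ΦO (fun i => ((z i * s i ^ M : (ZMod p)ˣ) : ZMod p)) : ℝ) - 1) / Φ.natDegree)| *
        Real.sqrt p ≤ _
    rw [e3]
    have hs : 0 ≤ Real.sqrt p := Real.sqrt_nonneg _
    have e4 : |(S1 - ((p : ℝ) - 1) ^ n) - (S2 - ((p : ℝ) - 1) ^ n) / Φ.natDegree| ≤
        |S1 - ((p : ℝ) - 1) ^ n| + |S2 - ((p : ℝ) - 1) ^ n| := by
      refine (abs_sub _ _).trans ?_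
      rw [abs_div, abs_of_pos hD]
      have h6 : (1 : ℝ) ≤ Φ.natDegree := by exact_mod_cast hΦ1
      have := div_le_self (abs_nonneg (S2 - ((p : ℝ) - 1) ^ n)) h6
      linarith
    calc |(S1 - ((p : ℝ) - 1) ^ n) - (S2 - ((p : ℝ) - 1) ^ n) / Φ.natDegree| * Real.sqrt p ≤
        (|S1 - ((p : ℝ) - 1) ^ n| + |S2 - ((p : ℝ) - 1) ^ n|) * Real.sqrt p :=
          mul_le_mul_of_nonneg_right e4 hs
      _ ≤ _ := by rw [add_mul, add_mul, add_mul]; linarith
  · rintro e ⟨y, hy⟩ hbe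
    -- units of `O`
    let uO : Fin r → Oˣ := fun j => ⟨⟨_, (hgO j).1⟩, ⟨_, (hgO j).2⟩,
      Subtype.ext (by simp), Subtype.ext (by simp)⟩
    have hu1 : ∀ i, ((pt g e i : Lˣ) : L) = ((pt uO e i : Oˣ) : O) := by
      intro i
      have := pt_map (Units.map (O.subtype : O →* L)) uO e i
      have h3 : (fun j => Units.map (O.subtype : O →* L) (uO j)) = g := by
        funext j
        exact Units.ext rfl
      rw [h3] at this
      rw [← this]
      rfl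
    have hu2 : ∀ i, ((pt h e i : (ZMod p)ˣ) : ZMod p) = ψ ((pt uO e i : Oˣ) : O) := by
      intro i
      have := pt_map (Units.map (ψ : O →* ZMod p)) uO e i
      have h3 : (fun j => Units.map (ψ : O →* ZMod p) (uO j)) = h := by
        funext j
        exact Units.ext (hh j _ rfl)
      rw [h3] at this
      rw [← this]
      rfl
    have hu1' : (fun i => ((pt g e i : Lˣ) : L)) = fun i => (((pt uO e i : Oˣ) : O) : L) :=
      funext hu1
    have hu2' : (fun i => ((pt h e i : (ZMod p)ˣ) : ZMod p)) =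
        fun i => ψ ((pt uO e i : Oˣ) : O) := funext hu2
    rw [hu1', ← hφm, map_lift] at hy
    have hyO : y ∈ O := by
      apply hint
      refine ⟨φO.map (MvPolynomial.eval (fun i => ((pt uO e i : Oˣ) : O))), hφO.map _, ?_⟩
      rw [Polynomial.eval_map] at hy
      exact hy
    have hy' : (φO.map (MvPolynomial.eval (fun i => ((pt uO e i : Oˣ) : O)))).eval
        (⟨y, hyO⟩ : O) = 0 := by
      apply Subtype.ext
      have : O.subtype ((φO.map (MvPolynomial.eval (fun i => ((pt uO e i : Oˣ) : O)))).eval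
        (⟨y, hyO⟩ : O)) = 0 := by
        rw [← Polynomial.eval_map_apply]
        exact hy
      exact this
    have hroot : 1 ≤ nrt ψ φO (fun i => ψ ((pt uO e i : Oˣ) : O)) := by
      unfold nrt
      rw [Nat.one_le_iff_ne_zero, ← Nat.pos_iff_ne_zero, Finset.card_pos]
      refine ⟨ψ ⟨y, hyO⟩, ?_⟩
      rw [Finset.mem_filter]
      refine ⟨Finset.mem_univ _, ?_⟩
      rw [eval_lift, hy', map_zero]
    rw [hu2'] at hbe ⊢
    obtain ⟨-, -, h3⟩ := hb (fun i => ψ ((pt uO e i : Oˣ) : O))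
    have h4 := h3 hroot hbe
    show _ ≤ (nrt ψ φO (fun i => ψ ((pt uO e i : Oˣ) : O)) : ℝ) - 1 -
      ((nrt ψ ΦO (fun i => ψ ((pt uO e i : Oˣ) : O)) : ℝ) - 1) / Φ.natDegree
    have h5 : 1 / ((φ.natDegree + Φ.natDegree + 1 : ℕ) : ℝ) ≤ 1 / Φ.natDegree := by
      apply one_div_le_one_div_of_le hD
      push_cast
      have : (0 : ℝ) ≤ φ.natDegree := Nat.cast_nonneg _
      linarith
    have h6 : ((nrt ψ ΦO (fun i => ψ ((pt uO e i : Oˣ) : O)) : ℝ) - 1) / Φ.natDegree =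
        (nrt ψ ΦO (fun i => ψ ((pt uO e i : Oˣ) : O)) : ℝ) / Φ.natDegree - 1 / Φ.natDegree := by
      rw [sub_div]
    rw [h6]
    linarith

lemma card_Box {n r : ℕ} (u : Fin n → Fin r → ℤ) (N : ℕ) : (Box u N).card = N ^ (n * r) := by
  unfold Box
  rw [Fintype.card_piFinset]
  simp only [Fintype.card_piFinset, Int.card_Ico, add_sub_cancel_left, Int.toNat_natCast,
    Finset.prod_const, Finset.card_univ, Fintype.card_fin]
  rw [← pow_mul, mul_comm]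

end One_

open One_ in
open Classical in
theorem t_ONE (hN : S_NUM) (hL : S_LOC) (hC : S_CNT) (hR : S_RING) (hP : S_PRM) : S_ONE := by
  intro L _ _ n r φ Φ E hn hr Gφ GΦ hE hT g hg
  obtain ⟨sL, δ, hLoc⟩ := hL n L φ Φ E Gφ.1 GΦ.1 GΦ.2.1 hE hT
  obtain ⟨C1, s1, hC1, hc1⟩ := hC n L φ Gφ
  obtain ⟨C2, s2, hC2, hc2⟩ := hC n L Φ GΦ
  obtain ⟨hR1, hR2, hR3, hR4⟩ := hR L
  obtain ⟨N0, hN0, hs⟩ := hR1 (sL ∪ (s1 ∪ (s2 ∪ ((univ : Finset (Fin r)).image (fun i => ((g i : Lˣ) : L)) ∪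
    (univ : Finset (Fin r)).image (fun i => (((g i)⁻¹ : Lˣ) : L))))))
  have hsL : ∀ z ∈ sL, z ∈ ON L N0 := fun z hz => hs z (mem_union_left _ hz)
  have hs1 : ∀ z ∈ s1, z ∈ ON L N0 := fun z hz => hs z (mem_union_right _ (mem_union_left _ hz))
  have hs2 : ∀ z ∈ s2, z ∈ ON L N0 := fun z hz =>
    hs z (mem_union_right _ (mem_union_right _ (mem_union_left _ hz)))
  have hgO : ∀ i, ((g i : Lˣ) : L) ∈ ON L N0 ∧ (((g i)⁻¹ : Lˣ) : L) ∈ ON L N0 := fun i =>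
    ⟨hs _ (mem_union_right _ (mem_union_right _ (mem_union_right _ (mem_union_left _
      (mem_image_of_mem _ (mem_univ i)))))),
     hs _ (mem_union_right _ (mem_union_right _ (mem_union_right _ (mem_union_right _
      (mem_image_of_mem _ (mem_univ i))))))⟩
  obtain ⟨φO, ΦO, hφO, hφm, hΦm, hloc⟩ := hLoc (ON L N0) hsL
  have hind : ∀ a b : ℤ, g ⟨0, by omega⟩ ^ a * g ⟨1, by omega⟩ ^ b = 1 → a = 0 ∧ b = 0 := by
    intro a b hab
    have hv := hg (fun j => if j = ⟨0, by omega⟩ then a else if j = ⟨1, by omega⟩ then b else 0) (by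
      rw [← Finset.mul_prod_erase univ _ (mem_univ (⟨0, by omega⟩ : Fin r)), if_pos rfl,
        ← Finset.mul_prod_erase _ _ (mem_erase.2 ⟨(by
          intro h; exact absurd (Fin.mk.inj_iff.1 h) (by omega) : (⟨1, by omega⟩ : Fin r) ≠ ⟨0, by omega⟩),
          mem_univ (⟨1, by omega⟩ : Fin r)⟩)]
      rw [if_neg (by intro h; exact absurd (Fin.mk.inj_iff.1 h) (by omega)), if_pos rfl]
      rw [Finset.prod_eq_one (s := (univ.erase (⟨0, by omega⟩ : Fin r)).erase ⟨1, by omega⟩), mul_one]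
      · exact hab
      · intro j hj
        rw [mem_erase, mem_erase] at hj
        rw [if_neg hj.2.1, if_neg hj.1, zpow_zero])
    constructor
    · have := congrFun hv ⟨0, by omega⟩
      simpa using this
    · have := congrFun hv ⟨1, by omega⟩
      rw [if_neg (by intro h; exact absurd (Fin.mk.inj_iff.1 h) (by omega)), if_pos rfl] at this
      exact this
  obtain ⟨c, Q0, hc, hPRM⟩ := hP L r N0 g ⟨0, by omega⟩ ⟨1, by omega⟩ hN0 hind hgO
  obtain ⟨C', N1, hNUM⟩ := hN n r (φ.natDegree + Φ.natDegree + 1) δ (C1 + C2) c hn (by omega)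
    (by omega) (by linarith) hc
  have htend : Filter.Tendsto (fun N : ℕ => ⌊(N : ℝ) ^ (40 / 83 : ℝ)⌋₊) Filter.atTop
      Filter.atTop :=
    tendsto_nat_floor_atTop.comp
      ((tendsto_rpow_atTop (by norm_num)).comp tendsto_natCast_atTop_atTop)
  obtain ⟨N2, hN2⟩ := Filter.eventually_atTop.1 (htend.eventually_ge_atTop Q0)
  refine ⟨max C' (N1 + N2 + 1 : ℕ), ?_⟩
  intro u N hN1
  have hNpos : (0 : ℝ) < N := by exact_mod_cast hN1
  have hNge : (1 : ℝ) ≤ N := by exact_mod_cast hN1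
  by_cases hbig : N1 + N2 ≤ N
  · -- large `N`
    set Q := ⌊(N : ℝ) ^ (40 / 83 : ℝ)⌋₊ with hQ
    obtain ⟨P, hPc, hPP⟩ := hPRM Q (hN2 N (by omega))
    have key : ∀ p : ℕ, ∃ (h : Fin r → (ZMod p)ˣ) (W : (Fin n → ZMod p) → ℝ)
        (b : MvPolynomial (Fin n) (ZMod p)), p ∈ P →
        (p.Prime ∧ p ≤ Q ∧ (Q : ℝ) ^ (99 / 100 : ℝ) ≤ p ∧
        (Q : ℝ) ^ (2 / 3 - 1 / 200 : ℝ) ≤ (Nat.card (Subgroup.closure (Set.range h)) : ℝ) ∧
        b ≠ 0 ∧ b.totalDegree ≤ δ ∧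
          (∀ x, |W x| ≤ (φ.natDegree + Φ.natDegree + 1 : ℕ)) ∧
        ∀ [Fact p.Prime] (M : ℕ), M ∣ p - 1 → ∀ z : Fin n → (ZMod p)ˣ,
          |∑ s : Fin n → (ZMod p)ˣ, W (fun i => ((z i * s i ^ M : (ZMod p)ˣ) : ZMod p))| *
            Real.sqrt p ≤ (C1 + C2) * M * ((p : ℝ) - 1) ^ n) ∧
        ∀ e : Fin n → Fin r → ℤ, (∃ y : L,
          (φ.map (MvPolynomial.eval (fun i => ((pt g e i : Lˣ) : L)))).eval y = 0) →
          MvPolynomial.eval (fun i => ((pt h e i : (ZMod p)ˣ) : ZMod p)) b ≠ 0 →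
          1 / ((φ.natDegree + Φ.natDegree + 1 : ℕ) : ℝ) ≤
            W (fun i => ((pt h e i : (ZMod p)ˣ) : ZMod p)) := by
      intro p
      by_cases hpP : p ∈ P
      · obtain ⟨hp, hpQ, hpQ', ψ, h, hh, hcl⟩ := hPP p hpP
        haveI : Fact p.Prime := ⟨hp⟩
        obtain ⟨b, hb0, hbδ, hb⟩ := hloc p ψ
        obtain ⟨W, hW1, hW2, hW3⟩ := at_prime L n r φ Φ Gφ.1 Gφ.2.1 GΦ.2.1 g (ON L N0)
          (hR2 N0 hN0) hgO φO ΦO hφO hφm C1 C2 hC1 hC2 p ψ
          (fun M hM c => hc1 (ON L N0) hs1 φO hφm p ψ M hM c)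
          (fun M hM c => hc2 (ON L N0) hs2 ΦO hΦm p ψ M hM c) b hb h hh
        exact ⟨h, W, b, fun _ => ⟨⟨hp, hpQ, hpQ', hcl, hb0, hbδ, hW1,
          fun M hM z => hW2 M hM z⟩, hW3⟩⟩
      · exact ⟨1, 0, 0, fun h => absurd h hpP⟩
    choose h W b hk using key
    have hmain := hNUM N Q (by omega) hQ P hPc h W b (fun p hp => (hk p hp).1) u
    have hsub : ((Box u N).filter (fun e => ∃ y : L,
        (φ.map (MvPolynomial.eval (fun i => ((pt g e i : Lˣ) : L)))).eval y = 0)) ⊆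
        ((Box u N).filter (fun e => ∀ p ∈ P,
          MvPolynomial.eval (fun i => ((pt (h p) e i : (ZMod p)ˣ) : ZMod p)) (b p) ≠ 0 →
          1 / ((φ.natDegree + Φ.natDegree + 1 : ℕ) : ℝ) ≤
            W p (fun i => ((pt (h p) e i : (ZMod p)ˣ) : ZMod p)))) := by
      intro e he
      rw [mem_filter] at he ⊢
      exact ⟨he.1, fun p hp => (hk p hp).2 e he.2⟩
    have h1 : (((Box u N).filter (fun e => ∃ y : L,
        (φ.map (MvPolynomial.eval (fun i => ((pt g e i : Lˣ) : L)))).eval y = 0)).card : ℝ) ≤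
        C' * (N : ℝ) ^ ((n * r : ℝ) - 1 / 29) := le_trans (by exact_mod_cast card_le_card hsub) hmain
    refine h1.trans (mul_le_mul_of_nonneg_right (le_max_left _ _) (Real.rpow_nonneg hNpos.le _))
  · -- small `N`
    have h1 : (((Box u N).filter (fun e => ∃ y : L,
        (φ.map (MvPolynomial.eval (fun i => ((pt g e i : Lˣ) : L)))).eval y = 0)).card : ℝ) ≤
        (N : ℝ) ^ (n * r) := by
      have := card_filter_le (Box u N) (fun e => ∃ y : L,
        (φ.map (MvPolynomial.eval (fun i => ((pt g e i : Lˣ) : L)))).eval y = 0)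
      rw [card_Box] at this
      exact_mod_cast this
    have h2 : (N : ℝ) ^ (n * r) = (N : ℝ) ^ ((n * r : ℝ) - 1 / 29) * (N : ℝ) ^ (1 / 29 : ℝ) := by
      rw [← Real.rpow_add hNpos, ← Real.rpow_natCast]
      congr 1
      push_cast
      ring
    have h3 : (N : ℝ) ^ (1 / 29 : ℝ) ≤ max C' (N1 + N2 + 1 : ℕ) := by
      refine le_trans ?_ (le_max_right _ _)
      calc (N : ℝ) ^ (1 / 29 : ℝ) ≤ (N : ℝ) ^ (1 : ℝ) :=
            Real.rpow_le_rpow_of_exponent_le hNge (by norm_num)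
        _ = N := Real.rpow_one _
        _ ≤ _ := by exact_mod_cast (by omega : N ≤ N1 + N2 + 1)
    rw [h2] at h1
    refine h1.trans ?_
    rw [mul_comm]
    exact mul_le_mul_of_nonneg_right h3 (Real.rpow_nonneg hNpos.le _)

end Pool.Agent.N120.TH
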