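import Pool.Agent.N120.TH.One
import Pool.Agent.N120.TH.Stm4

/-! # Project TH: the sieve bound for one cover with the better exponent (`S_ONER`) -/

set_option autoImplicit false

namespace Pool.Agent.N120.TH

open Finset Polynomial NumberField

open One_ in
open Classical in
theorem t_ONER (hN : S_NUMR) (hL : S_LOC) (hC : S_CNT) (hR : S_RING) (hP : S_PRMR) : S_ONER := by
  intro L _ _ n r φ Φ E θ hn hr hθ hθ1 Gφ GΦ hE hT g hg
  obtain ⟨ε, κ, hε, hκ, hN⟩ := hN r θ hr hθ hθ1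
  obtain ⟨sL, δ, hLoc⟩ := hL n L φ Φ E Gφ.1 GΦ.1 GΦ.2.1 hE hT
  obtain ⟨C1, s1, hC1, hc1⟩ := hC n L φ Gφ
  obtain ⟨C2, s2, hC2, hc2⟩ := hC n L Φ GΦ
  obtain ⟨hR1, hR2, hR3, hR4⟩ := hR L
  obtain ⟨N0, hN0, hs⟩ := hR1 (sL ∪ (s1 ∪ (s2 ∪ ((univ : Finset (Fin r)).image (fun i => ((g i : Lˣ) : L)) ∪
    (univ : Finset (Fin r)).image (fun i => (((g i)⁻¹ : Lˣ) : L))))))
  have hsL : ∀ z ∈ sL, z ∈ ON L N0 := fun z hz => hs z (mem_union_left _ hz)
  have hs1 : ∀ z ∈ s1, z ∈ ON L N0 := fun z hz => hs z (mem_union_right _ (mem_union_left _ hz))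
  have hs2 : ∀ z ∈ s2, z ∈ ON L N0 := fun z hz =>
    hs z (mem_union_right _ (mem_union_right _ (mem_union_left _ hz)))
  have hgO : ∀ i, ((g i : Lˣ) : L) ∈ ON L N0 ∧ (((g i)⁻¹ : Lˣ) : L) ∈ ON L N0 := fun i =>
    ⟨hs _ (mem_union_right _ (mem_union_right _ (mem_union_right _ (mem_union_left _
      (mem_image_of_mem _ (mem_univ i)))))),
     hs _ (mem_union_right _ (mem_union_right _ (mem_union_right _ (mem_union_right _
      (mem_image_of_mem _ (mem_univ i))))))⟩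
  obtain ⟨φO, ΦO, hφO, hφm, hΦm, hloc⟩ := hLoc (ON L N0) hsL
  obtain ⟨c, Q0, hc, hPRM⟩ := hP L r N0 g ε hε (by omega) hN0 hg hgO
  obtain ⟨C', N1, hNUM⟩ := hN n (φ.natDegree + Φ.natDegree + 1) δ (C1 + C2) c hn
    (by omega) (by linarith) hc
  have htend : Filter.Tendsto (fun N : ℕ => ⌊(N : ℝ) ^ κ⌋₊) Filter.atTop
      Filter.atTop :=
    tendsto_nat_floor_atTop.comp
      ((tendsto_rpow_atTop hκ).comp tendsto_natCast_atTop_atTop)
  obtain ⟨N2, hN2⟩ := Filter.eventually_atTop.1 (htend.eventually_ge_atTop Q0)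
  refine ⟨max C' (N1 + N2 + 1 : ℕ), ?_⟩
  intro u N hN1
  have hNpos : (0 : ℝ) < N := by exact_mod_cast hN1
  have hθ2 : θ ≤ 1 := by
    have h1 : ((r : ℝ) - 1) / (5 * r + 3) ≤ 1 := by
      rw [div_le_one (by positivity)]
      have : (0 : ℝ) ≤ r := Nat.cast_nonneg _
      linarith
    linarith
  have hNge : (1 : ℝ) ≤ N := by exact_mod_cast hN1
  by_cases hbig : N1 + N2 ≤ N
  · -- large `N`
    set Q := ⌊(N : ℝ) ^ κ⌋₊ with hQ
    obtain ⟨P, hPc, hPP⟩ := hPRM Q (hN2 N (by omega))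
    have key : ∀ p : ℕ, ∃ (h : Fin r → (ZMod p)ˣ) (W : (Fin n → ZMod p) → ℝ)
        (b : MvPolynomial (Fin n) (ZMod p)), p ∈ P →
        (p.Prime ∧ p ≤ Q ∧ (Q : ℝ) ^ (1 - ε) ≤ p ∧
        (Q : ℝ) ^ ((r : ℝ) / (r + 1) - ε) ≤ (Nat.card (Subgroup.closure (Set.range h)) : ℝ) ∧
        b ≠ 0 ∧ b.totalDegree ≤ δ ∧
          (∀ x, |W x| ≤ (φ.natDegree + Φ.natDegree + 1 : ℕ)) ∧
        ∀ [Fact p.Prime] (M : ℕ), M ∣ p - 1 → ∀ z : Fin n → (ZMod p)ˣ,
          |∑ s : Fin n → (ZMod p)ˣ, W (fun i => ((z i * s i ^ M : (ZMod p)ˣ) : ZMod p))| *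
            Real.sqrt p ≤ (C1 + C2) * M * ((p : ℝ) - 1) ^ n) ∧
        ∀ e : Fin n → Fin r → ℤ, (∃ y : L,
          (φ.map (MvPolynomial.eval (fun i => ((pt g e i : Lˣ) : L)))).eval y = 0) →
          MvPolynomial.eval (fun i => ((pt h e i : (ZMod p)ˣ) : ZMod p)) b ≠ 0 →
          1 / ((φ.natDegree + Φ.natDegree + 1 : ℕ) : ℝ) ≤
            W (fun i => ((pt h e i : (ZMod p)ˣ) : ZMod p)) := by
      intro p
      by_cases hpP : p ∈ P
      · obtain ⟨hp, hpQ, hpQ', ψ, h, hh, hcl⟩ := hPP p hpP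
        haveI : Fact p.Prime := ⟨hp⟩
        obtain ⟨b, hb0, hbδ, hb⟩ := hloc p ψ
        obtain ⟨W, hW1, hW2, hW3⟩ := at_prime L n r φ Φ Gφ.1 Gφ.2.1 GΦ.2.1 g (ON L N0)
          (hR2 N0 hN0) hgO φO ΦO hφO hφm C1 C2 hC1 hC2 p ψ
          (fun M hM c => hc1 (ON L N0) hs1 φO hφm p ψ M hM c)
          (fun M hM c => hc2 (ON L N0) hs2 ΦO hΦm p ψ M hM c) b hb h hh
        exact ⟨h, W, b, fun _ => ⟨⟨hp, hpQ, hpQ', hcl, hb0, hbδ, hW1,
          fun M hM z => hW2 M hM z⟩, hW3⟩⟩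
      · exact ⟨1, 0, 0, fun h => absurd h hpP⟩
    choose h W b hk using key
    have hmain := hNUM N Q (by omega) hQ P hPc h W b (fun p hp => (hk p hp).1) u
    have hsub : ((Box u N).filter (fun e => ∃ y : L,
        (φ.map (MvPolynomial.eval (fun i => ((pt g e i : Lˣ) : L)))).eval y = 0)) ⊆
        ((Box u N).filter (fun e => ∀ p ∈ P,
          MvPolynomial.eval (fun i => ((pt (h p) e i : (ZMod p)ˣ) : ZMod p)) (b p) ≠ 0 →
          1 / ((φ.natDegree + Φ.natDegree + 1 : ℕ) : ℝ) ≤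
            W p (fun i => ((pt (h p) e i : (ZMod p)ˣ) : ZMod p)))) := by
      intro e he
      rw [mem_filter] at he ⊢
      exact ⟨he.1, fun p hp => (hk p hp).2 e he.2⟩
    have h1 : (((Box u N).filter (fun e => ∃ y : L,
        (φ.map (MvPolynomial.eval (fun i => ((pt g e i : Lˣ) : L)))).eval y = 0)).card : ℝ) ≤
        C' * (N : ℝ) ^ ((n * r : ℝ) - θ) := le_trans (by exact_mod_cast card_le_card hsub) hmain
    refine h1.trans (mul_le_mul_of_nonneg_right (le_max_left _ _) (Real.rpow_nonneg hNpos.le _))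
  · -- small `N`
    have h1 : (((Box u N).filter (fun e => ∃ y : L,
        (φ.map (MvPolynomial.eval (fun i => ((pt g e i : Lˣ) : L)))).eval y = 0)).card : ℝ) ≤
        (N : ℝ) ^ (n * r) := by
      have := card_filter_le (Box u N) (fun e => ∃ y : L,
        (φ.map (MvPolynomial.eval (fun i => ((pt g e i : Lˣ) : L)))).eval y = 0)
      rw [card_Box] at this
      exact_mod_cast this
    have h2 : (N : ℝ) ^ (n * r) = (N : ℝ) ^ ((n * r : ℝ) - θ) * (N : ℝ) ^ θ := by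
      rw [← Real.rpow_add hNpos, ← Real.rpow_natCast]
      congr 1
      push_cast
      ring
    have h3 : (N : ℝ) ^ θ ≤ max C' (N1 + N2 + 1 : ℕ) := by
      refine le_trans ?_ (le_max_right _ _)
      calc (N : ℝ) ^ θ ≤ (N : ℝ) ^ (1 : ℝ) :=
            Real.rpow_le_rpow_of_exponent_le hNge hθ2
        _ = N := Real.rpow_one _
        _ ≤ _ := by exact_mod_cast (by omega : N ≤ N1 + N2 + 1)
    rw [h2] at h1
    refine h1.trans ?_
    rw [mul_comm]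
    exact mul_le_mul_of_nonneg_right h3 (Real.rpow_nonneg hNpos.le _)

end Pool.Agent.N120.TH
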