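import Pool.Agent.N120.TH.Stm

/-!
# Project TH (helper120), PAIR

By helper814. Joint equidistribution modulo two primes of the points with exponents in a box.
-/

set_option autoImplicit false

namespace Pool.Agent.N120.TH

namespace PAIR_

open Finset

theorem mem_Box {n r : ℕ} {u e : Fin n → Fin r → ℤ} {N : ℕ} :
    e ∈ Box u N ↔ ∀ i j, u i j ≤ e i j ∧ e i j < u i j + N := by
  simp [Box, Fintype.mem_piFinset, mem_Ico]

theorem card_Box {n r : ℕ} (u : Fin n → Fin r → ℤ) (N : ℕ) : (Box u N).card = N ^ (n * r) := by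
  unfold Box
  rw [Fintype.card_piFinset]
  simp [Fintype.card_piFinset, Int.card_Ico, ← pow_mul, mul_comm]

/-- translation invariance of the sum of a periodic function over a box -/
theorem sum_translate {n r : ℕ} {N1 : ℕ} (hN : 1 ≤ N1) (u b : Fin n → Fin r → ℤ)
    (f : (Fin n → Fin r → ℤ) → ℝ)
    (hf : ∀ e e' : Fin n → Fin r → ℤ, (∀ i j, e i j ≡ e' i j [ZMOD N1]) → f e = f e') :
    ∑ e ∈ Box u N1, f (fun i j => e i j + b i j) = ∑ e ∈ Box u N1, f e := by
  have h0 : (N1 : ℤ) ≠ 0 := by omega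
  have h0' : (0 : ℤ) < N1 := by omega
  refine Finset.sum_nbij' (fun e i j => u i j + (e i j + b i j - u i j) % (N1 : ℤ))
    (fun e i j => u i j + (e i j - b i j - u i j) % (N1 : ℤ)) ?_ ?_ ?_ ?_ ?_
  · intro e he
    rw [mem_Box]
    intro i j
    have h1 := Int.emod_nonneg (e i j + b i j - u i j) h0
    have h2 := Int.emod_lt_of_pos (e i j + b i j - u i j) h0'
    constructor <;> linarith
  · intro e he
    rw [mem_Box]
    intro i j
    have h1 := Int.emod_nonneg (e i j - b i j - u i j) h0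
    have h2 := Int.emod_lt_of_pos (e i j - b i j - u i j) h0'
    constructor <;> linarith
  · intro e he
    funext i j
    have h := mem_Box.1 he i j
    show u i j + (u i j + (e i j + b i j - u i j) % (N1 : ℤ) - b i j - u i j) % (N1 : ℤ) = e i j
    have h3 : (e i j + b i j - u i j) % (N1 : ℤ) ≡ e i j + b i j - u i j [ZMOD N1] :=
      Int.mod_modEq _ _
    have h4 := ((h3.add_left (u i j)).sub_right (b i j)).sub_right (u i j)
    rw [show u i j + (e i j + b i j - u i j) - b i j - u i j = e i j - u i j by ring] at h4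
    rw [h4.eq, Int.emod_eq_of_lt (by linarith [h.1]) (by linarith [h.2])]
    ring
  · intro e he
    funext i j
    have h := mem_Box.1 he i j
    show u i j + (u i j + (e i j - b i j - u i j) % (N1 : ℤ) + b i j - u i j) % (N1 : ℤ) = e i j
    have h3 : (e i j - b i j - u i j) % (N1 : ℤ) ≡ e i j - b i j - u i j [ZMOD N1] :=
      Int.mod_modEq _ _
    have h4 := ((h3.add_left (u i j)).add_right (b i j)).sub_right (u i j)
    rw [show u i j + (e i j - b i j - u i j) + b i j - u i j = e i j - u i j by ring] at h4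
    rw [h4.eq, Int.emod_eq_of_lt (by linarith [h.1]) (by linarith [h.2])]
    ring
  · intro e he
    refine hf _ _ fun i j => ?_
    have h3 := (Int.mod_modEq (e i j + b i j - u i j) (N1 : ℤ)).add_left (u i j)
    rw [show u i j + (e i j + b i j - u i j) = e i j + b i j by ring] at h3
    exact h3.symm

theorem pt_add {n r : ℕ} {H : Type} [CommGroup H] (g : Fin r → H) (e b : Fin n → Fin r → ℤ)
    (i : Fin n) : pt g (fun i j => e i j + b i j) i = pt g e i * pt g b i := by
  unfold pt
  rw [← Finset.prod_mul_distrib]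
  exact prod_congr rfl fun j _ => zpow_add _ _ _

theorem pt_congr {n r : ℕ} {H : Type} [CommGroup H] [Fintype H] (g : Fin r → H) {N1 : ℕ}
    (h : Fintype.card H ∣ N1) {e e' : Fin n → Fin r → ℤ}
    (he : ∀ i j, e i j ≡ e' i j [ZMOD N1]) : pt g e = pt g e' := by
  funext i
  unfold pt
  refine prod_congr rfl fun j _ => ?_
  rw [zpow_eq_zpow_iff_modEq]
  exact (he i j).of_dvd (by exact_mod_cast (orderOf_dvd_card).trans h)

theorem exists_exp {G : Type} [CommGroup G] {r : ℕ} (g : Fin r → G) {z : G}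
    (hz : z ∈ Subgroup.closure (Set.range g)) : ∃ v : Fin r → ℤ, ∏ j, g j ^ (v j) = z := by
  induction hz using Subgroup.closure_induction with
  | mem x hx =>
    obtain ⟨j, rfl⟩ := hx
    refine ⟨Pi.single j 1, ?_⟩
    rw [Fintype.prod_eq_single j, Pi.single_eq_same, zpow_one]
    intro k hk
    rw [Pi.single_eq_of_ne hk, zpow_zero]
  | one => exact ⟨0, by simp⟩
  | mul x y _ _ hx hy =>
    obtain ⟨v, rfl⟩ := hx
    obtain ⟨w, rfl⟩ := hy
    exact ⟨v + w, by simp [zpow_add, prod_mul_distrib]⟩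
  | inv x _ hx =>
    obtain ⟨v, rfl⟩ := hx
    exact ⟨-v, by simp [zpow_neg, Finset.prod_inv_distrib]⟩

/-- the sum over a box whose side is a common period -/
theorem main_box {n r : ℕ} {H H' : Type} [CommGroup H] [Fintype H] [CommGroup H'] [Fintype H']
    (g : Fin r → H) (g' : Fin r → H') (ν : (Fin n → H) → ℝ) (ν' : (Fin n → H') → ℝ) (D' β : ℝ)
    (hD' : ∀ x, |ν' x| ≤ D') (M : ℕ)
    (hM : ∀ s : H, (s ^ M, (1 : H')) ∈ Subgroup.closure (Set.range fun j => (g j, g' j)))
    (hν : ∀ c : Fin n → H,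
      |∑ s : Fin n → H, ν (fun i => c i * s i ^ M)| ≤ β * M * (Fintype.card H : ℝ) ^ n)
    {N1 : ℕ} (hN1 : 1 ≤ N1) (h1 : Fintype.card H ∣ N1) (h2 : Fintype.card H' ∣ N1)
    (u : Fin n → Fin r → ℤ) :
    |∑ e ∈ Box u N1, ν (pt g e) * ν' (pt g' e)| ≤ (N1 : ℝ) ^ (n * r) * (D' * (β * M)) := by
  classical
  have hb : ∀ s : Fin n → H, ∃ b : Fin n → Fin r → ℤ,
      (∀ i, pt g b i = s i ^ M) ∧ ∀ i, pt g' b i = 1 := by
    intro s
    choose b hb using fun i => exists_exp (fun j => (g j, g' j)) (hM (s i))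
    refine ⟨b, fun i => ?_, fun i => ?_⟩
    · have := congrArg Prod.fst (hb i)
      rw [Prod.fst_prod] at this
      exact this
    · have := congrArg Prod.snd (hb i)
      rw [Prod.snd_prod] at this
      exact this
  choose b hb1 hb2 using hb
  have hc : (0 : ℝ) < Fintype.card H := by exact_mod_cast Fintype.card_pos
  have hH : 0 < (Fintype.card H : ℝ) ^ n := by positivity
  have key : (Fintype.card H : ℝ) ^ n * ∑ e ∈ Box u N1, ν (pt g e) * ν' (pt g' e) =
      ∑ e ∈ Box u N1, ν' (pt g' e) * ∑ s : Fin n → H, ν (fun i => pt g e i * s i ^ M) := by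
    calc (Fintype.card H : ℝ) ^ n * ∑ e ∈ Box u N1, ν (pt g e) * ν' (pt g' e)
        = ∑ s : Fin n → H, ∑ e ∈ Box u N1, ν (pt g e) * ν' (pt g' e) := by
            rw [sum_const, card_univ, Fintype.card_fun, Fintype.card_fin, nsmul_eq_mul]
            push_cast
            rfl
      _ = ∑ s : Fin n → H, ∑ e ∈ Box u N1, ν (fun i => pt g e i * s i ^ M) * ν' (pt g' e) := by
            refine sum_congr rfl fun s _ => ?_
            rw [← sum_translate hN1 u (b s) (fun e => ν (pt g e) * ν' (pt g' e)) ?_]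
            · refine sum_congr rfl fun e _ => ?_
              have h3 : pt g (fun i j => e i j + b s i j) = fun i => pt g e i * s i ^ M :=
                funext fun i => by rw [pt_add, hb1]
              have h4 : pt g' (fun i j => e i j + b s i j) = pt g' e :=
                funext fun i => by rw [pt_add, hb2, mul_one]
              simp only [h3, h4]
            · intro e e' he
              simp only [pt_congr g h1 he, pt_congr g' h2 he]
      _ = _ := by
            rw [sum_comm]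
            refine sum_congr rfl fun e _ => ?_
            rw [mul_sum]
            exact sum_congr rfl fun s _ => mul_comm _ _
  have h5 : (Fintype.card H : ℝ) ^ n * |∑ e ∈ Box u N1, ν (pt g e) * ν' (pt g' e)| ≤
      (N1 : ℝ) ^ (n * r) * (D' * (β * M * (Fintype.card H : ℝ) ^ n)) := by
    have h6 : (Fintype.card H : ℝ) ^ n * |∑ e ∈ Box u N1, ν (pt g e) * ν' (pt g' e)| =
        |(Fintype.card H : ℝ) ^ n * ∑ e ∈ Box u N1, ν (pt g e) * ν' (pt g' e)| := by
      rw [abs_mul, abs_of_pos hH]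
    rw [h6, key]
    refine (abs_sum_le_sum_abs _ _).trans ?_
    have h7 : ∀ e ∈ Box u N1, |ν' (pt g' e) * ∑ s : Fin n → H, ν (fun i => pt g e i * s i ^ M)| ≤
        D' * (β * M * (Fintype.card H : ℝ) ^ n) := by
      intro e _
      rw [abs_mul]
      exact mul_le_mul (hD' _) (hν _) (abs_nonneg _) ((abs_nonneg _).trans (hD' (pt g' e)))
    refine (sum_le_card_nsmul _ _ _ h7).trans (le_of_eq ?_)
    rw [card_Box, nsmul_eq_mul]
    push_cast
    rfl
  have h8 : (N1 : ℝ) ^ (n * r) * (D' * (β * M * (Fintype.card H : ℝ) ^ n)) =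
      (Fintype.card H : ℝ) ^ n * ((N1 : ℝ) ^ (n * r) * (D' * (β * M))) := by ring
  rw [h8] at h5
  exact le_of_mul_le_mul_left h5 hH

theorem pow_sub_le {a b : ℝ} (hb : 0 ≤ b) (hab : b ≤ a) (k : ℕ) :
    a ^ k - b ^ k ≤ k * (a - b) * a ^ (k - 1) := by
  induction k with
  | zero => simp
  | succ k ih =>
    have ha : 0 ≤ a := hb.trans hab
    have h1 : b ^ k ≤ a ^ k := pow_le_pow_left₀ hb hab k
    have h2 : a * (k * (a - b) * a ^ (k - 1)) = k * (a - b) * a ^ k := by
      rcases k with _ | k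
      · simp
      · rw [Nat.add_sub_cancel, pow_succ]
        ring
    have h3 : a ^ (k + 1) - b ^ (k + 1) = a * (a ^ k - b ^ k) + (a - b) * b ^ k := by ring
    have h4 : a * (a ^ k - b ^ k) ≤ k * (a - b) * a ^ k :=
      (mul_le_mul_of_nonneg_left ih ha).trans (le_of_eq h2)
    have h5 : (a - b) * b ^ k ≤ (a - b) * a ^ k :=
      mul_le_mul_of_nonneg_left h1 (by linarith)
    rw [h3, Nat.add_sub_cancel]
    push_cast
    linarith

theorem index_bound {H H' : Type} [CommGroup H] [Fintype H] [CommGroup H'] [Fintype H'] {r : ℕ}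
    (g : Fin r → H) (g' : Fin r → H') :
    ((Subgroup.closure (Set.range fun j => (g j, g' j))).comap (MonoidHom.inl H H')).index ≤
      (Subgroup.closure (Set.range g)).index * Nat.gcd (Fintype.card H) (Fintype.card H') := by
  obtain ⟨G, hG⟩ : ∃ G, G = Subgroup.closure (Set.range fun j => (g j, g' j)) := ⟨_, rfl⟩
  rw [← hG]
  have hfst : G.map (MonoidHom.fst H H') = Subgroup.closure (Set.range g) := by
    rw [hG, MonoidHom.map_closure, ← Set.range_comp]
    rfl
  have hle : G.comap (MonoidHom.inl H H') ≤ Subgroup.closure (Set.range g) := by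
    rw [← hfst]
    intro x hx
    exact ⟨(x, 1), hx, rfl⟩
  rw [← Subgroup.relIndex_mul_index hle, mul_comm]
  refine Nat.mul_le_mul_left _ (Nat.le_of_dvd (Nat.gcd_pos_of_pos_left _ Fintype.card_pos)
    (Nat.dvd_gcd ?_ ?_))
  · refine (Subgroup.relIndex_dvd_card _ _).trans ?_
    rw [← Nat.card_eq_fintype_card]
    exact Subgroup.card_subgroup_dvd_card _
  · have h1 : G.comap (MonoidHom.inl H H') =
        (G ⊓ (MonoidHom.snd H H').ker).map (MonoidHom.fst H H') := by
      ext x
      constructor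
      · intro hx
        exact ⟨(x, 1), ⟨hx, rfl⟩, rfl⟩
      · rintro ⟨⟨a, b⟩, ⟨h, hk⟩, rfl⟩
        have hb : b = 1 := hk
        subst hb
        exact h
    obtain ⟨T, hT⟩ : ∃ T, T = G ⊓ (MonoidHom.snd H H').ker := ⟨_, rfl⟩
    rw [h1, ← hfst, ← hT, Subgroup.relIndex_map_map]
    have h2 : G ⊔ (MonoidHom.fst H H').ker = G ⊔ (T ⊔ (MonoidHom.fst H H').ker) := by
      rw [← sup_assoc, sup_eq_left.2 (show T ≤ G by rw [hT]; exact inf_le_left)]
    rw [h2, Subgroup.relIndex_sup_right]
    refine (Subgroup.relIndex_dvd_of_le_left (H := T) _ le_sup_left).trans ?_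
    rw [hT, Subgroup.inf_relIndex_left, Subgroup.relIndex_ker, ← Nat.card_eq_fintype_card]
    exact Subgroup.card_subgroup_dvd_card _

theorem Box_mono {n r : ℕ} (u : Fin n → Fin r → ℤ) {N1 N : ℕ} (h : N1 ≤ N) :
    Box u N1 ⊆ Box u N := by
  intro e he
  rw [mem_Box] at he ⊢
  intro i j
  have h1 := he i j
  have h2 : (N1 : ℤ) ≤ N := by exact_mod_cast h
  exact ⟨h1.1, h1.2.trans_le (by linarith)⟩

end PAIR_

open PAIR_ Finset in
/-- **PAIR**. -/
theorem t_PAIR : S_PAIR := by
  intro n r H H' _ _ _ _ _ g g' ν ν' D D' β hβ hD hD' hν N u hN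
  classical
  have hD0 : 0 ≤ D := (abs_nonneg _).trans (hD 1)
  have hD0' : 0 ≤ D' := (abs_nonneg _).trans (hD' 1)
  obtain ⟨G, hG⟩ : ∃ G, G = Subgroup.closure (Set.range fun j => (g j, g' j)) := ⟨_, rfl⟩
  obtain ⟨M, hM⟩ : ∃ M, M = (G.comap (MonoidHom.inl H H')).index := ⟨_, rfl⟩
  have hMle : M ≤ (Subgroup.closure (Set.range g)).index *
      Nat.gcd (Fintype.card H) (Fintype.card H') := by
    rw [hM, hG]
    exact index_bound g g'
  have hMd : M ∣ Fintype.card H := by
    rw [hM, ← Nat.card_eq_fintype_card]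
    exact Subgroup.index_dvd_card _
  have hMs : ∀ s : H, (s ^ M, (1 : H')) ∈ Subgroup.closure (Set.range fun j => (g j, g' j)) := by
    intro s
    rw [← hG]
    have h1 : s ^ M ∈ G.comap (MonoidHom.inl H H') := by
      rw [hM]
      exact Subgroup.pow_index_mem _ s
    exact h1
  have hc : 0 < Fintype.card H := Fintype.card_pos
  have hc' : 0 < Fintype.card H' := Fintype.card_pos
  obtain ⟨m, hm⟩ : ∃ m, m = Fintype.card H * Fintype.card H' := ⟨_, rfl⟩
  have hm0 : 0 < m := by rw [hm]; exact Nat.mul_pos hc hc'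
  have hmain : ∀ N1 : ℕ, 1 ≤ N1 → m ∣ N1 →
      |∑ e ∈ Box u N1, ν (pt g e) * ν' (pt g' e)| ≤ (N1 : ℝ) ^ (n * r) * (D' * (β * M)) :=
    fun N1 h1 h2 => main_box g g' ν ν' D' β hD' M hMs (hν M hMd) h1
      ((Dvd.intro _ hm.symm).trans h2) ((Dvd.intro_left _ hm.symm).trans h2) u
  have hMr : D' * (β * M) ≤ D' * β * ((Subgroup.closure (Set.range g)).index *
      Nat.gcd (Fintype.card H) (Fintype.card H')) := by
    rw [mul_assoc]
    refine mul_le_mul_of_nonneg_left (mul_le_mul_of_nonneg_left ?_ hβ) hD0'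
    exact_mod_cast hMle
  have hmr : (Fintype.card H * Fintype.card H' : ℝ) = m := by rw [hm]; push_cast; rfl
  have hN0 : (0 : ℝ) ≤ N := Nat.cast_nonneg N
  rw [hmr]
  have hbnd : ∀ e, |ν (pt g e) * ν' (pt g' e)| ≤ D * D' := by
    intro e
    rw [abs_mul]
    exact mul_le_mul (hD _) (hD' _) (abs_nonneg _) hD0
  rcases Nat.eq_zero_or_pos (n * r) with h0 | h0
  · -- no exponents
    have hbox : Box u N = Box u m := by
      ext e
      rw [mem_Box, mem_Box]
      constructor
      · intro _ i j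
        exact absurd h0 (Nat.mul_pos (Fin.pos i) (Fin.pos j)).ne'
      · intro _ i j
        exact absurd h0 (Nat.mul_pos (Fin.pos i) (Fin.pos j)).ne'
    have h1 := hmain m hm0 dvd_rfl
    rw [hbox]
    rw [h0, pow_zero, one_mul] at h1 ⊢
    refine (h1.trans hMr).trans ?_
    have h2 : 0 ≤ D * D' * (n * r) * m := by positivity
    linarith
  · obtain ⟨N1, hN1, hN1N, hN1m⟩ : ∃ N1 : ℕ, m ∣ N1 ∧ N1 ≤ N ∧ N < N1 + m := by
      refine ⟨m * (N / m), Dvd.intro _ rfl, Nat.mul_div_le N m, ?_⟩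
      have := Nat.lt_mul_div_succ N hm0
      rw [Nat.mul_add, Nat.mul_one] at this
      exact this
    have h1 : |∑ e ∈ Box u N1, ν (pt g e) * ν' (pt g' e)| ≤
        (N1 : ℝ) ^ (n * r) * (D' * (β * M)) := by
      rcases Nat.eq_zero_or_pos N1 with h | h
      · have he : Box u N1 = ∅ := by
          rw [← card_eq_zero, card_Box, h, zero_pow h0.ne']
        rw [he, sum_empty, abs_zero]
        positivity
      · exact hmain N1 h hN1
    have h2 : (N1 : ℝ) ^ (n * r) ≤ (N : ℝ) ^ (n * r) :=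
      pow_le_pow_left₀ (Nat.cast_nonneg _) (by exact_mod_cast hN1N) _
    have h3 : 0 ≤ D' * (β * M) := by positivity
    have h4 : (N1 : ℝ) ^ (n * r) * (D' * (β * M)) ≤ (N : ℝ) ^ (n * r) *
        (D' * β * ((Subgroup.closure (Set.range g)).index *
          Nat.gcd (Fintype.card H) (Fintype.card H'))) :=
      mul_le_mul h2 hMr h3 (by positivity)
    have h5 : |∑ e ∈ Box u N \ Box u N1, ν (pt g e) * ν' (pt g' e)| ≤
        D * D' * (n * r) * m * (N : ℝ) ^ (n * r - 1) := by
      refine (abs_sum_le_sum_abs _ _).trans ((sum_le_card_nsmul _ _ _ fun e _ => hbnd e).trans ?_)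
      rw [nsmul_eq_mul, card_sdiff_of_subset (Box_mono u hN1N), card_Box, card_Box,
        Nat.cast_sub (Nat.pow_le_pow_left hN1N _)]
      push_cast
      have h6 := pow_sub_le (a := (N : ℝ)) (b := N1) (Nat.cast_nonneg _) (by exact_mod_cast hN1N)
        (n * r)
      have h7 : (N : ℝ) - N1 ≤ m := by
        have : (N : ℝ) < N1 + m := by exact_mod_cast hN1m
        linarith
      have h8 : ((n * r : ℕ) : ℝ) * ((N : ℝ) - N1) * (N : ℝ) ^ (n * r - 1) ≤
          ((n * r : ℕ) : ℝ) * m * (N : ℝ) ^ (n * r - 1) :=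
        mul_le_mul_of_nonneg_right (mul_le_mul_of_nonneg_left h7 (Nat.cast_nonneg _)) (by positivity)
      have h9 := h6.trans h8
      have h10 : 0 ≤ D * D' := mul_nonneg hD0 hD0'
      calc ((N : ℝ) ^ (n * r) - (N1 : ℝ) ^ (n * r)) * (D * D')
          ≤ (((n * r : ℕ) : ℝ) * m * (N : ℝ) ^ (n * r - 1)) * (D * D') :=
            mul_le_mul_of_nonneg_right h9 h10
        _ = D * D' * (n * r) * m * (N : ℝ) ^ (n * r - 1) := by
            push_cast
            ring
    rw [← sum_sdiff (Box_mono u hN1N), add_comm]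
    exact (abs_add_le _ _).trans (add_le_add (h1.trans h4) h5)

end Pool.Agent.N120.TH
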