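import Pool.Agent.N120.TH.Stm5

/-!
# Project TH, part UNRF (helper34): a number field is unramified outside a finite set
-/

set_option autoImplicit false

namespace Pool.Agent.N120.TH

theorem t_UNRF : S_UNRF := by
  intro F _ _
  have hA : IsAlgClosure ℚ (AlgebraicClosure F) := by
    have : Algebra.IsAlgebraic ℚ F := Algebra.IsAlgebraic.of_finite ℚ F
    exact ⟨inferInstance, Algebra.IsAlgebraic.trans ℚ F (AlgebraicClosure F)⟩
  have hN : Normal ℚ (AlgebraicClosure F) := IsAlgClosure.normal ℚ (AlgebraicClosure F)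
  let E := IntermediateField.normalClosure ℚ F (AlgebraicClosure F)
  have h1 : FiniteDimensional ℚ E := normalClosure.is_finiteDimensional ℚ F _
  have h2 : Normal ℚ E := normalClosure.normal ℚ F _
  have h3 : NumberField E := { to_charZero := inferInstance, to_finiteDimensional := h1 }
  have h4 : IsGalois ℚ E := { to_isSeparable := inferInstance, to_normal := h2 }
  refine ⟨(NumberField.discr E).natAbs.primeFactors, fun x =>
    ⟨E, inferInstance, h3, (algebraMap E (AlgebraicClosure F)), ?_, ?_, ?_⟩⟩
  · convert h4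
  · intro p hp hd
    rw [Nat.mem_primeFactors]
    refine ⟨hp, Int.natCast_dvd.1 hd, ?_⟩
    rw [Int.natAbs_ne_zero]
    exact NumberField.discr_ne_zero E
  · let f : F →ₐ[ℚ] AlgebraicClosure F := (algebraMap F (AlgebraicClosure F)).toRatAlgHom
    have hx : f x ∈ E := AlgHom.fieldRange_le_normalClosure f ⟨x, rfl⟩
    exact ⟨⟨f x, hx⟩, rfl⟩

end Pool.Agent.N120.TH

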